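import Mathlib
import Pool.Agent.P.MP_d36d9e_co.Shearer

/-!
Asymptotic list colouring of claw-free graphs: definitions and basic lemmas.
-/

namespace Pool.Agent.P.MP_fb43a4_co.Asy

open Finset Pool.Agent.P.MP_d36d9e_co

set_option linter.unusedSectionVars false

section basic
variable {V : Type} [Fintype V] [DecidableEq V]

/-- claw-free -/
def CF (G : SimpleGraph V) : Prop :=
  ∀ v a b c : V, G.Adj v a → G.Adj v b → G.Adj v c → a ≠ b → a ≠ c → b ≠ c →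
    G.Adj a b ∨ G.Adj a c ∨ G.Adj b c

open Classical in
/-- the subset of vertices with a property -/
noncomputable def sel (P : V → Prop) : Finset V := univ.filter P

@[simp] theorem mem_sel {P : V → Prop} {v : V} : v ∈ sel P ↔ P v := by simp [sel]

/-- neighbours -/
noncomputable def nb (G : SimpleGraph V) (v : V) : Finset V := sel (G.Adj v)

@[simp] theorem mem_nb {G : SimpleGraph V} {v u : V} : u ∈ nb G v ↔ G.Adj v u := by simp [nb]

/-- joined by a walk with at most `n` edges -/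
def Near (G : SimpleGraph V) (n : ℕ) (u v : V) : Prop := ∃ p : G.Walk u v, p.length ≤ n

theorem Near.refl (G : SimpleGraph V) (n : ℕ) (u : V) : Near G n u u :=
  ⟨SimpleGraph.Walk.nil, Nat.zero_le _⟩

theorem Near.symm {G : SimpleGraph V} {n : ℕ} {u v : V} (h : Near G n u v) : Near G n v u := by
  obtain ⟨p, hp⟩ := h
  exact ⟨p.reverse, by simpa using hp⟩

theorem Near.trans {G : SimpleGraph V} {n m : ℕ} {u v w : V} (h : Near G n u v)
    (h' : Near G m v w) : Near G (n + m) u w := by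
  obtain ⟨p, hp⟩ := h
  obtain ⟨q, hq⟩ := h'
  exact ⟨p.append q, by rw [SimpleGraph.Walk.length_append]; omega⟩

theorem Near.mono {G : SimpleGraph V} {n m : ℕ} {u v : V} (h : Near G n u v) (hnm : n ≤ m) :
    Near G m u v := by
  obtain ⟨p, hp⟩ := h
  exact ⟨p, hp.trans hnm⟩

theorem Near.of_adj {G : SimpleGraph V} {u v : V} (h : G.Adj u v) : Near G 1 u v :=
  ⟨h.toWalk, by simp⟩

/-- independent finite set -/
def Ind (G : SimpleGraph V) (I : Finset V) : Prop := ∀ a ∈ I, ∀ b ∈ I, ¬ G.Adj a b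

/-- Kempe property: at most two essential neighbours -/
def E2 (X : SimpleGraph V) : Prop :=
  ∀ M M' : Finset V, Ind X M → Ind X M' → ∀ o ∈ M,
    (sel fun o' => o' ∈ M' ∧ X.Adj o o' ∧ ∃ o'' ∈ M, o'' ≠ o ∧ X.Adj o' o'').card ≤ 2

/-- marginal of a weight function on finite sets -/
noncomputable def marg (μ : Finset V → ℝ) (o : V) : ℝ := ∑ I : Finset V, if o ∈ I then μ I else 0

/-- a probability law on independent subsets of `A` -/
def IsLaw (X : SimpleGraph V) (A : Finset V) (μ : Finset V → ℝ) : Prop :=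
  (∀ I, 0 ≤ μ I) ∧ ∑ I, μ I = 1 ∧ ∀ I, μ I ≠ 0 → I ⊆ A ∧ Ind X I

/-- there is a law on independent subsets of `A` with marginals at least `y` -/
def Law (X : SimpleGraph V) (A : Finset V) (y : V → ℝ) : Prop :=
  ∃ μ, IsLaw X A μ ∧ ∀ o ∈ A, y o ≤ marg μ o

/-- number of members of a list of sets containing a point -/
noncomputable def wt (F : List (Finset V)) (o : V) : ℝ :=
  (F.map fun I => if o ∈ I then (1 : ℝ) else 0).sum

/-- dominated by a point of the Shearer region -/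
def Safe (adj : V → V → Prop) (y : V → ℝ) : Prop :=
  ∃ x : V → ℝ, (∀ a, 0 ≤ x a) ∧ Good adj x univ ∧ ∀ a, y a ≤ x a

theorem Safe.mono {adj : V → V → Prop} {y z : V → ℝ} (h : Safe adj y) (hz : ∀ a, z a ≤ y a) :
    Safe adj z := by
  obtain ⟨x, h0, hg, hy⟩ := h
  exact ⟨x, h0, hg, fun a => (hz a).trans (hy a)⟩

theorem Safe.lt_one {adj : V → V → Prop} (hs : ∀ a b, adj a b → adj b a) {y : V → ℝ}
    (h : Safe adj y) (a : V) : y a < 1 := by
  obtain ⟨x, _, hg, hy⟩ := h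
  exact (hy a).trans_lt (hg.lt_one hs (mem_univ a))

theorem Safe.init {adj : V → V → Prop} (hs : ∀ a b, adj a b → adj b a) (Δ : ℝ) (hΔ : 1 ≤ Δ)
    (hdeg : ∀ a, ((sel (adj a)).card : ℝ) ≤ Δ) {y : V → ℝ} (hy : ∀ a, y a ≤ 1 / (4 * Δ)) :
    Safe adj y :=
  ⟨fun _ => 1 / (4 * Δ), fun _ => by positivity, good_const hs univ Δ hΔ fun a _ => hdeg a, hy⟩

/-- one random step with finitely many outcomes that only changes a clique -/
theorem Safe.step {adj : V → V → Prop} (hs : ∀ a b, adj a b → adj b a) {y : V → ℝ}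
    (h : Safe adj y) (C : Finset V) (hC : ∀ a ∈ C, ∀ b ∈ C, a ≠ b → adj a b)
    {κ : Type} (K : Finset κ) (t : κ → ℝ) (z : κ → V → ℝ) (t0 : ∀ i ∈ K, 0 ≤ t i)
    (t1 : ∑ i ∈ K, t i = 1) (z0 : ∀ i ∈ K, ∀ a ∈ C, 0 ≤ z i a)
    (hout : ∀ i ∈ K, ∀ a, a ∉ C → z i a ≤ y a) (hin : ∀ a ∈ C, ∑ i ∈ K, t i * z i a ≤ y a) :
    ∃ i ∈ K, 0 < t i ∧ Safe adj (z i) := by
  obtain ⟨x, hx0, hg, hyx⟩ := h
  obtain ⟨β, hβ, hlt, hnew⟩ := clique_halfspace hs hx0 hg (Finset.subset_univ C) hC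
  have hsum : ∑ i ∈ K, t i * ∑ a ∈ C, z i a * β a < 1 := by
    refine lt_of_le_of_lt ?_ hlt
    simp_rw [Finset.mul_sum]
    rw [Finset.sum_comm]
    refine Finset.sum_le_sum fun a ha => ?_
    have := mul_le_mul_of_nonneg_right ((hin a ha).trans (hyx a)) (hβ a)
    rw [Finset.sum_mul] at this
    simpa [mul_assoc] using this
  have hex : ∃ i ∈ K, 0 < t i ∧ ∑ a ∈ C, z i a * β a < 1 := by
    by_contra hcon
    push Not at hcon
    have : ∑ i ∈ K, t i ≤ ∑ i ∈ K, t i * ∑ a ∈ C, z i a * β a := by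
      refine Finset.sum_le_sum fun i hi => ?_
      rcases (t0 i hi).lt_or_eq with h | h
      · have := hcon i hi h
        nlinarith
      · rw [← h]; simp
    linarith
  obtain ⟨i, hi, hti, hlt'⟩ := hex
  refine ⟨i, hi, hti, fun a => if a ∈ C then z i a else x a, fun a => ?_,
    hnew _ (fun a => ?_) (fun a ha => if_neg ha) ?_, fun a => ?_⟩
  · dsimp only; split_ifs with ha; exacts [z0 i hi a ha, hx0 a]
  · split_ifs with ha; exacts [z0 i hi a ha, hx0 a]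
  · rwa [Finset.sum_congr rfl fun a ha => by rw [if_pos ha]]
  · dsimp only; split_ifs with ha
    · exact le_rfl
    · exact (hout i hi a ha).trans (hyx a)

/-- conflict graph of a family of vertex sets -/
def conf (G : SimpleGraph V) (A : Finset (Finset V)) : SimpleGraph (Finset V) where
  Adj S T := S ≠ T ∧ S ∈ A ∧ T ∈ A ∧ ∃ u ∈ S, ∃ v ∈ T, G.Adj u v
  symm := ⟨fun _ _ ⟨h1, h2, h3, u, hu, v, hv, h⟩ => ⟨h1.symm, h3, h2, v, hv, u, hu, h.symm⟩⟩
  loopless := ⟨fun _ h => h.1 rfl⟩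

/-- a non-adjacent pair inside a cocktail party graph with four pairs -/
def Pair (G : SimpleGraph V) (S : Finset V) : Prop :=
  ∃ x : Fin 4 → Bool → V, (∀ i j s t, G.Adj (x i s) (x j t) ↔ i ≠ j) ∧
    (∀ i, x i false ≠ x i true) ∧ ∃ i, S = {x i false, x i true}

/-- an independent set dominating its component, in which no vertex is simplicial -/
def Big (G : SimpleGraph V) (S : Finset V) : Prop :=
  S.Nonempty ∧ Ind G S ∧ (∀ x ∈ S, ∀ y ∈ S, G.Reachable x y) ∧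
    ∀ x ∈ S, ∀ z, G.Reachable x z → (z ∈ S ∨ ∃ s ∈ S, G.Adj z s) ∧
      ∃ y y', G.Adj z y ∧ G.Adj z y' ∧ y ≠ y' ∧ ¬ G.Adj y y'

/-- admissible object -/
def Adm (G : SimpleGraph V) (S : Finset V) : Prop := (∃ v, S = {v}) ∨ Pair G S ∨ Big G S

/-- a family of pairwise disjoint admissible objects -/
def Fam (G : SimpleGraph V) (A : Finset (Finset V)) : Prop :=
  (∀ S ∈ A, Adm G S) ∧ ∀ S ∈ A, ∀ T ∈ A, S ≠ T → Disjoint S T

/-- sum of squared excesses of the cell loads -/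
noncomputable def Psi (U : Finset V) (γ : V → ℕ) (b : ℝ) (g : V → ℝ) : ℝ :=
  ∑ t ∈ U.image γ, (max ((∑ u ∈ U.filter fun u => γ u = t, g u) - b) 0) ^ 2

/-- cells have at most `w` points -/
def Fib (U : Finset V) (γ : V → ℕ) (w : ℕ) : Prop :=
  ∀ t, (U.filter fun u => γ u = t).card ≤ w

/-- ambient graph: claw-free, pendant simplicial vertices `Hub`, proper colouring off `Hub` -/
structure Amb (G : SimpleGraph V) (Hub : Finset V) (k : ℕ) (φ : V → ℕ) : Prop where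
  cf : CF G
  ind : Ind G Hub
  cl : ∀ σ ∈ Hub, ∀ x y, G.Adj σ x → G.Adj σ y → x ≠ y → G.Adj x y
  lt : ∀ v, v ∉ Hub → φ v < k
  prop : ∀ u v, u ∉ Hub → v ∉ Hub → G.Adj u v → φ u ≠ φ v

/-- common neighbour in `Hub` -/
def Share (G : SimpleGraph V) (Hub : Finset V) (u v : V) : Prop :=
  ∃ σ ∈ Hub, G.Adj σ u ∧ G.Adj σ v

/-- vertices with large codegree -/
noncomputable def Ubig (G : SimpleGraph V) (x : ℝ) (v : V) : Finset V :=
  sel fun y => x ≤ ((nb G y ∩ nb G v).card : ℝ)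

/-- trace on the samples -/
noncomputable def key (G : SimpleGraph V) (S : Finset V) (v : V) : Finset V := nb G v ∩ S

/-- vertices with the same trace -/
noncomputable def cell (G : SimpleGraph V) (S : Finset V) (v : V) : Finset V :=
  sel fun u => u ∉ S ∧ key G S u = key G S v

/-- guarded vertex in a cell with at least `x` points -/
def Heavy (G : SimpleGraph V) (S : Finset V) (x : ℝ) (v : V) : Prop :=
  v ∉ S ∧ (∃ g ∈ key G S v, ∃ g' ∈ key G S v, g ≠ g' ∧ ¬ G.Adj g g') ∧ x ≤ ((cell G S v).card : ℝ)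

/-- neither a sample nor heavy -/
def Light (G : SimpleGraph V) (S : Finset V) (x : ℝ) (v : V) : Prop := v ∉ S ∧ ¬ Heavy G S x v

/-- result of sections 1 and 2; `x = kappa k`, `D = delta k` -/
structure Model (G : SimpleGraph V) (Hub S : Finset V) (k : ℕ) (φ : V → ℕ) (x D : ℝ) (m : ℕ) :
    Prop where
  amb : Amb G Hub k φ
  sub : Hub ⊆ S
  keyb : ∀ v, v ∉ Hub → (key G S v).card ≤ m
  few : ∀ h, h ∉ Hub →
    ((sel fun w => Light G S x w ∧ G.Adj h w ∧ ¬ Share G Hub h w).card : ℝ) ≤ D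

/-- two heavy vertices whose cells are equal or joined by an edge -/
def cg (G : SimpleGraph V) (S : Finset V) (x : ℝ) : SimpleGraph V where
  Adj u v := u ≠ v ∧ Heavy G S x u ∧ Heavy G S x v ∧
    (key G S u = key G S v ∨ ∃ u' ∈ cell G S u, ∃ v' ∈ cell G S v, G.Adj u' v')
  symm := ⟨fun _ _ ⟨h1, h2, h3, h4⟩ => ⟨h1.symm, h3, h2,
    h4.elim (fun h => Or.inl h.symm) fun ⟨a, ha, b, hb, h⟩ => Or.inr ⟨b, hb, a, ha, h.symm⟩⟩⟩
  loopless := ⟨fun _ h => h.1 rfl⟩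

/-- pieces: `H` = heavy vertices that are not cut, `pc v` = piece of `v` -/
structure Pieces (G : SimpleGraph V) (Hub S : Finset V) (φ : V → ℕ) (x D : ℝ) (s : ℕ)
    (H : Finset V) (pc : V → Finset V) : Prop where
  heavy : ∀ v ∈ H, Heavy G S x v
  mem : ∀ v ∈ H, v ∈ pc v
  sub : ∀ v ∈ H, pc v ⊆ H
  eq : ∀ v ∈ H, ∀ u ∈ pc v, pc u = pc v
  card : ∀ v ∈ H, (pc v).card ≤ s
  cls : ∀ v ∈ H, ∀ u ∈ pc v, φ u = φ v
  near : ∀ v ∈ H, ∀ u ∈ pc v, Near (cg G S x) s v u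
  sep : ∀ u ∈ H, ∀ v ∈ H, φ u = φ v → (cg G S x).Adj u v → u ∈ pc v
  sparse : ∀ v, v ∉ Hub → ((sel fun u => G.Adj v u ∧ Heavy G S x u ∧ u ∉ H).card : ℝ) ≤ D

end basic

/-- batches: `W` rows, columns inside `Fin s` -/
structure Bat (V : Type) (W s : ℕ) where
  B : Type
  [fin : Fintype B]
  [dec : DecidableEq B]
  cols : B → Finset (Fin s)
  x : B → Fin W → Fin s → V
  rho : B → Fin s → Fin s → Prop
  bin : B → V
  cls : B → Fin W → ℕ

attribute [instance] Bat.fin Bat.dec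

section bat
variable {V : Type} [Fintype V] [DecidableEq V] {W s : ℕ}

/-- vertices of the batches of the bin with name `v` -/
noncomputable def Bat.reg (b : Bat V W s) (v : V) : Finset V :=
  sel fun u => ∃ B i, ∃ a ∈ b.cols B, b.bin B = v ∧ b.x B i a = u

/-- all vertices of batches -/
noncomputable def Bat.kept (b : Bat V W s) : Finset V :=
  sel fun u => ∃ B i, ∃ a ∈ b.cols B, b.x B i a = u

/-- number of rows in the bin with name `v` -/
noncomputable def Bat.num (b : Bat V W s) (v : V) : ℕ := W * (sel fun B => b.bin B = v).card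

/-- the shift relation on the columns -/
def Bat.sig (b : Bat V W s) (B : b.B) (a a' : Fin s) : Prop :=
  a ∈ b.cols B ∧ a' ∈ b.cols B ∧ a ≠ a' ∧ b.rho B a a'

/-- strong component of a column -/
noncomputable def Bat.scc (b : Bat V W s) (B : b.B) (a : Fin s) : Finset (Fin s) :=
  sel fun a' => Relation.ReflTransGen (b.sig B) a a' ∧ Relation.ReflTransGen (b.sig B) a' a

/-- cluster of a batch vertex -/
noncomputable def Bat.clus (b : Bat V W s) (B : b.B) (i : Fin W) (a : Fin s) : Finset V :=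
  (b.scc B a).image (b.x B i)

/-- properties of the batches inside the graph; `y = kappa' k` -/
structure Bat.Ok (b : Bat V W s) (G : SimpleGraph V) (k R : ℕ) (y : ℝ) : Prop where
  inj : ∀ B i, ∀ a ∈ b.cols B, ∀ B' i', ∀ a' ∈ b.cols B', b.x B i a = b.x B' i' a' →
    B = B' ∧ i = i' ∧ a = a'
  row : ∀ B i, ∀ a ∈ b.cols B, ∀ a' ∈ b.cols B, ¬ G.Adj (b.x B i a) (b.x B i a')
  pat : ∀ B i j, i < j → ∀ a ∈ b.cols B, ∀ a' ∈ b.cols B,
    (G.Adj (b.x B i a) (b.x B j a') ↔ b.rho B a a')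
  diag : ∀ B, ∀ a ∈ b.cols B, b.rho B a a
  lt : ∀ B i, b.cls B i < k
  sep : ∀ B i B' i', (B, i) ≠ (B', i') → b.cls B i = b.cls B' i' → b.bin B ≠ b.bin B' ∧
    ∀ u ∈ b.reg (b.bin B), ∀ v ∈ b.reg (b.bin B'), ¬ G.Adj u v
  ind : ∀ v I, Ind G I → (I ∩ b.reg v).card ≤ 2 * s
  near : ∀ v, ∀ u ∈ b.reg v, Near G R v u
  big : ∀ B, y ≤ (b.num (b.bin B) : ℝ)

/-- active families for the colour whose vertices are `In` -/
def Compat (T : Finset V) (cl : V → Finset V) (In : Finset V) (A : Finset (Finset V)) : Prop :=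
  (∀ o ∈ A, ∃ v ∈ T, (o = cl v ∧ cl v ⊆ In) ∨ (o = {v} ∧ v ∈ In ∧ ¬ cl v ⊆ In)) ∧
    ∀ o ∈ A, ∀ o' ∈ A, o ≠ o' → Disjoint o o'

/-- the system of clusters and tests handed to the colouring process -/
structure Sys (V : Type) where
  T : Finset V
  cl : V → Finset V
  U : V → Fin 5 → Finset V
  n : V → Fin 5 → ℝ
  γ : V → Fin 5 → Finset V → V → ℕ

/-- `a` = slack, `C` = bound for loads, `D = delta k`, `y = kappa' k`, `l0 = (1+eps) k` -/
structure Sys.Ok (S : Sys V) (G : SimpleGraph V) (Hub : Finset V) (s R w : ℕ)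
    (a C β D y l0 : ℝ) : Prop where
  hub : ∀ v ∈ S.T, v ∉ Hub
  mem : ∀ v ∈ S.T, v ∈ S.cl v
  sub : ∀ v ∈ S.T, S.cl v ⊆ S.T
  eq : ∀ v ∈ S.T, ∀ u ∈ S.cl v, S.cl u = S.cl v
  card : ∀ v ∈ S.T, (S.cl v).card ≤ s
  adm : ∀ v ∈ S.T, Adm G (S.cl v)
  diam : ∀ v ∈ S.T, ∀ u ∈ S.cl v, Near G R v u
  sparse : ∀ v, v ∉ Hub → (((nb G v \ S.T) \ Hub).card : ℝ) ≤ D
  usub : ∀ v j, S.U v j ⊆ S.T
  unear : ∀ v j, ∀ u ∈ S.U v j, Near G R v u
  ucard : ∀ v j, ((S.U v j).card : ℝ) ≤ s * S.n v j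
  nbig : ∀ v j, y ≤ S.n v j
  uind : ∀ v j I, Ind G I → (I ∩ S.U v j).card ≤ 2 * s
  fib : ∀ v j In, Fib (S.U v j) (S.γ v j In) w
  feas : ∀ (In : Finset V) (A : Finset (Finset V)) (x : Finset V → ℝ) (g : V → ℝ) (l : ℝ),
    l0 ≤ l → Compat S.T S.cl In A → (∀ o ∈ A, 0 ≤ x o ∧ x o ≤ C) → (∀ u, 0 ≤ g u) →
    (∀ o ∈ A, ∀ u ∈ o, x o ≤ g u) →
    (∀ v j, Psi (S.U v j) (S.γ v j In) (w / (1 - a)) g ≤ β ^ 2 * w * S.n v j) →
    Law (conf G A) A fun o => x o / (l * (1 - a) ^ 2)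

end bat

/-- the two one-step inequalities for the exponential estimator -/
structure EstOk (C : ℝ) (q w : ℕ) (lam kap : ℝ) : Prop where
  col : ∀ (V : Type) [Fintype V] [DecidableEq V] (U : Finset V) (γ : V → ℕ) (b : ℝ)
    (g p : V → ℝ) (Act : Finset V), Fib U γ w → 0 ≤ b → Act ⊆ U →
    (∀ u ∈ U, 0 ≤ g u ∧ g u ≤ C) →
    (∀ u ∈ Act, 0 ≤ p u ∧ p u ≤ 1 / 2 ∧ g u / (1 - p u) ≤ C) →
    ∃ c : V → ℝ, (∀ u, 0 ≤ c u ∧ c u ≤ 1 / q) ∧ (∀ u, u ∉ Act → c u = 0) ∧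
      (∀ J ⊆ Act, J.card ≤ q →
        Real.exp (lam * Psi U γ b fun u =>
            if u ∈ J then 0 else if u ∈ Act then g u / (1 - p u) else g u) ≤
          Real.exp (lam * Psi U γ b fun u => if u ∈ Act then g u / (1 - p u) else g u) *
            (1 - ∑ u ∈ J, c u)) ∧
      Real.exp (lam * Psi U γ b fun u => if u ∈ Act then g u / (1 - p u) else g u) *
          (1 - ∑ u ∈ Act, p u * c u) ≤
        Real.exp (lam * Psi U γ b g + kap * ∑ u ∈ Act, p u)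
  coin : ∀ (V : Type) [Fintype V] [DecidableEq V] (U : Finset V) (γ : V → ℕ) (b t : ℝ)
    (g g1 g2 : V → ℝ) (S : Finset V), Fib U γ w → 0 ≤ b → S ⊆ U → S.card ≤ q → 0 ≤ t → t ≤ 1 →
    (∀ u ∈ U, (0 ≤ g u ∧ g u ≤ C) ∧ (0 ≤ g1 u ∧ g1 u ≤ C) ∧ 0 ≤ g2 u ∧ g2 u ≤ C) →
    (∀ u ∈ U, u ∉ S → g1 u = g u ∧ g2 u = g u) → (∀ u ∈ S, t * g1 u + (1 - t) * g2 u ≤ g u) →
    t * Real.exp (lam * Psi U γ b g1) + (1 - t) * Real.exp (lam * Psi U γ b g2) ≤
      Real.exp (lam * Psi U γ b g + kap * S.card)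

end Pool.Agent.P.MP_fb43a4_co.Asy
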