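import Mathlib
import Pool.Agent.P.MP_fb43a4_co.Asy.Defs

/-!
Asymptotic list colouring of claw-free graphs: the process and the statements of the parts.
-/

namespace Pool.Agent.P.MP_fb43a4_co.Asy

open Finset

set_option linter.unusedSectionVars false

/-- data of the colouring process -/
structure Ctx (V : Type) where
  G : SimpleGraph V
  Hub : Finset V
  φ : V → ℕ
  S : Sys V
  L : V → Finset ℕ
  γ0 : V → V → ℕ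
  k : ℕ
  l : ℕ
  s : ℕ
  R : ℕ
  w : ℕ
  a : ℝ
  β : ℝ
  lam : ℝ
  kap : ℝ
  κ' : ℝ

/-- state: decided vertices, merged vertices, processed colours, partial colouring -/
structure St (V : Type) where
  dec : Finset V
  mg : Finset V
  P : Finset ℕ
  col : V → Option ℕ

namespace Ctx
variable {V : Type} [Fintype V] [DecidableEq V] (X : Ctx V)

/-- stopping fraction -/
noncomputable def de : ℝ := X.a ^ 2 / 64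

/-- bound for the loads -/
noncomputable def C : ℝ := 64 / X.a ^ 3

/-- colours common to the cluster -/
def cap (v : V) : Finset ℕ := (X.L v).filter fun c => ∀ u ∈ X.S.cl v, c ∈ X.L u

/-- list of the object of `v` -/
def lst (s : St V) (v : V) : Finset ℕ := if v ∈ s.mg then X.cap v else X.L v \ X.cap v

/-- object of `v` -/
def obj (s : St V) (v : V) : Finset V := if v ∈ s.mg then X.S.cl v else {v}

/-- stopping size -/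
noncomputable def rho (s : St V) (v : V) : ℕ := ⌈X.de * (X.lst s v).card⌉₊

/-- inverse weight -/
noncomputable def rr (s : St V) (v : V) : ℕ := max (X.lst s v \ s.P).card (X.rho s v)

/-- numerator of the load; `none` is the leftover test -/
def al (s : St V) (o : Option ℕ) (v : V) : ℕ :=
  match o with
  | some c => if c ∈ X.lst s v then X.l else 0
  | none => (X.lst s v).card

/-- load before the coin -/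
noncomputable def pre (o : Option ℕ) (v : V) : ℝ :=
  match o with
  | some c => if c ∈ X.L v then 1 / (1 - X.a) else 0
  | none => 1 / (1 - X.a)

/-- load of a vertex -/
noncomputable def load (s : St V) (o : Option ℕ) (v : V) : ℝ :=
  if v ∈ s.dec then (if s.col v = none then (X.al s o v : ℝ) / X.rr s v else 0) else X.pre o v

/-- remaining budget of a vertex -/
noncomputable def bud (s : St V) (v : V) : ℝ :=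
  (if v ∈ s.dec then 0 else 1) + X.C * (X.L v \ s.P).card / X.l

/-- estimator of one test -/
noncomputable def phi (s : St V) (U : Finset V) (γ : V → ℕ) (n : ℝ) (o : Option ℕ) : ℝ :=
  Real.exp (X.lam * Psi U γ (X.w / (1 - X.a)) (X.load s o) + X.kap * ∑ u ∈ U, X.bud s u -
    X.lam * (X.β ^ 2 * X.w * n))

/-- local palette -/
noncomputable def pal (v : V) : Finset ℕ := (sel (Near X.G X.R v)).biUnion X.L

/-- vertices having a colour -/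
noncomputable def inn (c : ℕ) : Finset V := sel fun u => c ∈ X.L u

/-- processed colours of `v` unused on its neighbours -/
noncomputable def free (s : St V) (v : V) : Finset ℕ :=
  (X.L v ∩ s.P).filter fun c => ∀ u ∈ nb X.G v, s.col u ≠ some c

/-- estimator for the number of free colours -/
noncomputable def fr (s : St V) (v : V) : ℝ :=
  Real.exp (X.a ^ 2 * X.l / 4 - (X.free s v).card) *
    (1 - (1 - Real.exp (-1)) * X.a ^ 2) ^ (X.L v \ s.P).card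

/-- sum of the estimators located at `v` -/
noncomputable def Y (s : St V) (v : V) : ℝ :=
  (∑ j, ∑ c ∈ X.pal v, X.phi s (X.S.U v j) (X.S.γ v j (X.inn c)) (X.S.n v j) (some c)) +
    X.phi s (nb X.G v ∩ X.S.T) (X.γ0 v) X.k none + X.fr s v

/-- dependency relation -/
def adj (d : ℕ) (v v' : V) : Prop := Near X.G ((3 * d ^ 2 + 5) * (X.R + 1)) v v'

/-- hypotheses on the data -/
structure Ok : Prop where
  a0 : 0 < X.a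
  a1 : X.a ≤ 1 / 20
  amb : Amb X.G X.Hub X.k X.φ
  sys : X.S.Ok X.G X.Hub X.s X.R X.w X.a X.C X.β (X.a ^ 2 / 16 * X.k) (X.κ' * X.k) X.l
  est : EstOk X.C (2 * X.s) X.w X.lam X.kap
  card : ∀ v, (X.L v).card = X.l
  kl : X.k ≤ X.l
  lk : X.l ≤ 2 * X.k
  s2 : 2 ≤ X.s
  w1 : 1 ≤ X.w
  wk : 2 * X.w ≤ X.k
  big : X.C ≤ X.k
  b0 : 0 < X.β
  b1 : X.β ≤ 1 / 4
  lam0 : 0 < X.lam
  kap0 : 0 ≤ X.kap
  kapb : X.kap * (2 * X.s * (1 + X.C)) ≤ X.lam * X.β ^ 2 * X.w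
  k0 : 0 < X.κ'
  k1 : X.κ' ≤ 1
  fib0 : ∀ v, Fib (nb X.G v ∩ X.S.T) (X.γ0 v) X.w
  img0 : ∀ v, (((nb X.G v ∩ X.S.T).image (X.γ0 v)).card : ℝ) ≤ 2 * X.k / X.w + 1

/-- invariant after the coin phase -/
structure Inv (s : St V) : Prop where
  dec : s.dec = X.S.T
  mg : ∀ v ∈ X.S.T, ∀ u ∈ X.S.cl v, (u ∈ s.mg ↔ v ∈ s.mg)
  size : ∀ v ∈ X.S.T, X.a * X.l ≤ (X.lst s v).card
  col : ∀ v c, s.col v = some c → v ∈ X.S.T ∧ c ∈ X.lst s v ∧ c ∈ s.P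
  same : ∀ v ∈ X.S.T, ∀ u ∈ X.obj s v, s.col u = s.col v
  prop : ∀ u v c, X.G.Adj u v → s.col u = some c → s.col v ≠ some c

end Ctx

/-- locality of estimators -/
def Loc {O ι : Type} (X : SimpleGraph O) (adj : ι → ι → Prop) (near : ι → O → Prop) (n : ℕ) :
    Prop :=
  ∀ a a' o o', near a o → near a' o' → Near X n o o' → a ≠ a' → adj a a'

/-- embedding onto the non-hub vertices -/
structure Emb {V V' : Type} (G : SimpleGraph V) (G' : SimpleGraph V') (Hub : Finset V')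
    (e : V → V') : Prop where
  inj : Function.Injective e
  nm : ∀ v, e v ∉ Hub
  sur : ∀ x, x ∉ Hub → ∃ v, e v = x
  adj : ∀ u v, G'.Adj (e u) (e v) ↔ G.Adj u v

/-- proper colouring with `k` colours -/
def Prop' {V : Type} (G : SimpleGraph V) (k : ℕ) (φ : V → ℕ) : Prop :=
  (∀ v, φ v < k) ∧ ∀ u v, G.Adj u v → φ u ≠ φ v

def S_Ball : Prop := ∀ (V : Type) [Fintype V] [DecidableEq V] (G : SimpleGraph V) (Δ n : ℕ)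
  (u : V), (∀ v, (nb G v).card ≤ Δ) → (sel (Near G n u)).card ≤ (Δ + 1) ^ n

def S_Cut : Prop := ∀ (V : Type) [Fintype V] [DecidableEq V] (G : SimpleGraph V),
  (∀ v, (nb G v).card ≤ 2) → ∀ L : ℕ, 1 ≤ L → ∃ Wn : Finset (Finset V),
    (∀ X ∈ Wn, ∀ Y ∈ Wn, X ≠ Y → Disjoint X Y) ∧
    (∀ X ∈ Wn, X.card = L ∧ ∀ x ∈ X, ∀ y ∈ X, Near G L x y) ∧
    ∀ D : Finset V, (∀ X ∈ Wn, ∃ x ∈ X, x ∈ D) → ∀ u v (p : G.Walk u v),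
      (∀ x ∈ p.support, x ∉ D) → ∃ q : G.Walk u v, q.length ≤ 3 * L ∧ ∀ x ∈ q.support, x ∉ D

def S_Ends : Prop := ∀ (V : Type) [Fintype V] [DecidableEq V] (H : SimpleGraph V) (r : V),
  (∀ o, (sel fun o' => H.Adj o o' ∧ 2 ≤ (nb H o').card).card ≤ 2) →
  (sel fun o => H.Reachable r o ∧ 2 ≤ (nb H o).card ∧
    (sel fun o' => H.Adj o o' ∧ 2 ≤ (nb H o').card).card ≤ 1).card ≤ 2

def S_Deg : Prop := ∀ (V : Type) [Fintype V] [DecidableEq V] (G : SimpleGraph V) (Hub : Finset V)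
  (k : ℕ) (φ : V → ℕ), Amb G Hub k φ → (∀ v, (nb G v).card ≤ 2 * k) ∧
    (∀ v I, Ind G I → (nb G v ∩ I).card ≤ 2) ∧
    ∀ K : Finset V, (∀ x ∈ K, x ∉ Hub) → (∀ x ∈ K, ∀ y ∈ K, x ≠ y → G.Adj x y) → K.card ≤ k

def S_GrW : Prop := ∀ (V : Type) [Fintype V] [DecidableEq V] (G : SimpleGraph V) (A : Finset V)
  (Δ : ℝ) (ω : V → ℝ), 0 ≤ Δ → (∀ v, 0 ≤ ω v) → (∀ v ∈ A, ((nb G v ∩ A).card : ℝ) ≤ Δ) →
    ∃ I ⊆ A, Ind G I ∧ ∑ v ∈ A, ω v ≤ (Δ + 1) * ∑ v ∈ I, ω v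

def S_GrL : Prop := ∀ (V : Type) [Fintype V] [DecidableEq V] (G : SimpleGraph V) (U : Finset V)
  (L : V → Finset ℕ), (∀ v ∈ U, (nb G v ∩ U).card < (L v).card) →
    ∃ col : V → ℕ, (∀ v ∈ U, col v ∈ L v) ∧ ∀ u ∈ U, ∀ v ∈ U, G.Adj u v → col u ≠ col v

def S_Chunk : Prop := ∀ (V : Type) [Fintype V] [DecidableEq V] (U : Finset V) (w : ℕ), 1 ≤ w →
  ∃ γ : V → ℕ, Fib U γ w ∧ ((U.image γ).card : ℝ) ≤ U.card / w + 1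

def S_Load : Prop := ∀ (V : Type) [Fintype V] [DecidableEq V] (U : Finset V) (γ : V → ℕ)
  (b t : ℝ) (g : V → ℝ), 0 < t →
    (∑ c ∈ U.image γ, max ((∑ u ∈ U.filter fun u => γ u = c, g u) - b) 0 ≤
      (U.image γ).card * t + Psi U γ b g / t) ∧
    ∑ u ∈ U, g u ≤ (U.image γ).card * (b + t) + Psi U γ b g / t

def S_Ram : Prop := ∀ (χ : Type) [Fintype χ] (W : ℕ), ∃ R : ℕ, ∀ (α : Type) (S : Finset α)
  (col : α → α → χ), R ≤ S.card → ∃ f : Fin W → α, Function.Injective f ∧ (∀ i, f i ∈ S) ∧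
    ∀ i j i' j', i < j → i' < j' → col (f i) (f j) = col (f i') (f j')

def S_E2 : Prop := ∀ (V : Type) [Fintype V] [DecidableEq V] (G : SimpleGraph V)
  (A : Finset (Finset V)), CF G → Fam G A → E2 (conf G A)

def S_Merge : Prop := ∀ (O ι : Type) [Fintype O] [DecidableEq O] [Fintype ι] [DecidableEq ι]
  (X : SimpleGraph O) (adj : ι → ι → Prop) (near : ι → O → Prop) (L : ℕ) (b : ι → ℝ)
  (c : ι → O → ℝ) (M M' : Finset O), 1 ≤ L → E2 X → (∀ a a', adj a a' → adj a' a) →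
  Loc X adj near (3 * L + 2) → (∀ a o, 0 ≤ c a o) → (∀ a o, c a o ≠ 0 → near a o) →
  Ind X M → Ind X M' → (∀ I ⊆ M ∪ M', Ind X I → ∀ a, ∑ o ∈ I, c a o ≤ b a) →
  Safe adj (fun a => b a - (1 - 1 / (L : ℝ)) / 2 * (∑ o ∈ M, c a o + ∑ o ∈ M', c a o)) →
    ∃ I ⊆ M ∪ M', Ind X I ∧ Safe adj fun a => b a - ∑ o ∈ I, c a o

def S_Comp : Prop := ∃ d1 : ℕ, ∀ d ≥ d1, ∀ k : ℕ, 1 ≤ k → k ^ 2 ≤ 2 ^ d →
  ∀ (O : Type) [Fintype O] [DecidableEq O] (X : SimpleGraph O) (A : Finset O) (y : O → ℝ),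
  E2 X → (∀ o, (nb X o).card + 1 ≤ 2 ^ d) → (∀ o ∈ A, 1 / (2 * (k : ℝ)) ≤ y o) → Law X A y →
    ∃ F : List (Finset O), F.length = 2 ^ d ∧ (∀ I ∈ F, I ⊆ A ∧ Ind X I) ∧
      ∀ o ∈ A, 2 ^ d * (1 - 3 / (d : ℝ)) * y o ≤ wt F o

def S_Fin : Prop := ∀ (O ι : Type) [Fintype O] [DecidableEq O] [Fintype ι] [DecidableEq ι]
  (X : SimpleGraph O) (adj : ι → ι → Prop) (near : ι → O → Prop) (d : ℕ) (b : ι → ℝ)
  (c : ι → O → ℝ) (A : Finset O) (F : List (Finset O)), 1 ≤ d → E2 X →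
  (∀ a a', adj a a' → adj a' a) → Loc X adj near (3 * d ^ 2 + 2) → (∀ a o, 0 ≤ c a o) →
  (∀ a o, c a o ≠ 0 → near a o) → (∀ I ⊆ A, Ind X I → ∀ a, ∑ o ∈ I, c a o ≤ b a) →
  F.length = 2 ^ d → (∀ I ∈ F, I ⊆ A ∧ Ind X I) →
  Safe adj (fun a => b a - (1 - 1 / (d : ℝ)) / 2 ^ d * ∑ o ∈ A, c a o * wt F o) →
    ∃ I ⊆ A, Ind X I ∧ Safe adj fun a => b a - ∑ o ∈ I, c a o

def S_Thin : Prop := ∀ (O ι : Type) [Fintype O] [DecidableEq O] [Fintype ι] [DecidableEq ι]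
  (adj : ι → ι → Prop) (near : ι → O → Prop) (η ξ : ℝ) (b Fr : ι → ℝ) (c : ι → O → ℝ)
  (Av : ι → Finset O) (I : Finset O), (∀ a a', adj a a' → adj a' a) →
  (∀ a a' o, near a o → near a' o → a ≠ a' → adj a a') → 0 ≤ η → η ≤ 1 → 0 ≤ ξ → ξ ≤ 1 →
  (∀ a o, 0 ≤ c a o) → (∀ a o, c a o ≠ 0 → near a o) → (∀ a, 0 ≤ Fr a) →
  (∀ a, ∀ o ∈ Av a, near a o) → (∀ a, (I ∩ Av a).card ≤ 2) → (∀ a, ∑ o ∈ I, c a o ≤ b a) →
  Safe adj (fun a => b a - (1 - η) * ∑ o ∈ I, c a o + Fr a * (1 - ξ * η ^ 2)) →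
    ∃ J ⊆ I, Safe adj fun a =>
      b a - ∑ o ∈ J, c a o + Fr a * if J ∩ Av a = ∅ then 1 - ξ else 1

def S_Step : Prop := ∀ η : ℝ, 0 < η → η < 1 → ∃ d1 : ℕ, ∀ d ≥ d1, ∀ k : ℕ, 1 ≤ k →
  k ^ 2 ≤ 2 ^ d → ∀ (O ι : Type) [Fintype O] [DecidableEq O] [Fintype ι] [DecidableEq ι]
  (X : SimpleGraph O) (adj : ι → ι → Prop) (near : ι → O → Prop) (ξ : ℝ) (b Fr : ι → ℝ)
  (c : ι → O → ℝ) (Av : ι → Finset O) (A : Finset O) (p : O → ℝ), E2 X →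
  (∀ o, (nb X o).card + 1 ≤ 2 ^ d) → (∀ a a', adj a a' → adj a' a) →
  Loc X adj near (3 * d ^ 2 + 2) → 0 ≤ ξ → ξ ≤ 1 → (∀ a o, 0 ≤ c a o) →
  (∀ a o, c a o ≠ 0 → near a o) → (∀ a, 0 ≤ Fr a) → (∀ a, ∀ o ∈ Av a, near a o) →
  (∀ I ⊆ A, Ind X I → ∀ a, ∑ o ∈ I, c a o ≤ b a ∧ (I ∩ Av a).card ≤ 2) →
  (∀ o ∈ A, 1 / (2 * (k : ℝ)) ≤ p o) → Law X A (fun o => p o / (1 - η) ^ 2) →
  Safe adj (fun a => b a - ∑ o ∈ A, c a o * p o + Fr a * (1 - ξ * η ^ 2)) →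
    ∃ J ⊆ A, Ind X J ∧ Safe adj fun a =>
      b a - ∑ o ∈ J, c a o + Fr a * if J ∩ Av a = ∅ then 1 - ξ else 1

def S_Est : Prop := ∀ (C β M : ℝ) (q : ℕ), 1 ≤ C → 0 < β → 0 < M → 1 ≤ q →
  ∃ (w : ℕ) (lam kap : ℝ), 1 ≤ w ∧ 0 < lam ∧ 0 ≤ kap ∧ kap * M ≤ lam * β ^ 2 * w ∧
    EstOk C q w lam kap

def S_Hub : Prop := ∀ (V : Type) [Fintype V] [DecidableEq V] (G : SimpleGraph V) (k : ℕ)
  (φ : V → ℕ) (a1 a2 M d : ℝ), CF G → Prop' G k φ → 0 < a1 → 0 < a2 → 0 ≤ M →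
  2 * k * a2 ≤ a1 * M → 2 * a2 + 2 * M + 2 < d →
  ∃ (V' : Type) (_ : Fintype V') (_ : DecidableEq V') (G' : SimpleGraph V') (Hub : Finset V')
    (φ' : V' → ℕ) (e : V → V'), Amb G' Hub k φ' ∧ Emb G G' Hub e ∧
    (∀ σ ∈ Hub, d ≤ (nb G' σ).card) ∧
    ∀ v, v ∉ Hub → ((sel fun w => w ∉ Hub ∧ G'.Adj v w ∧ ¬ Share G' Hub v w ∧
      a1 + 2 ≤ ((nb G' w \ Ubig G' a2 v).card : ℝ)).card : ℝ) ≤ 2 * M + 2 * d

def S_Smp : Prop := ∀ ε θ θ' δ' δ1 b : ℝ, 0 < ε → ε ≤ 1 → 0 < θ → 0 < θ' → 0 < b → θ ≤ ε / 8 →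
  θ ≤ δ' / 4 → δ1 ≤ ε / 8 → ∃ (κ : ℝ) (m k0 : ℕ), 0 < κ ∧ κ ≤ b ∧ ∀ k ≥ k0,
  ∀ (V : Type) [Fintype V] [DecidableEq V] (G : SimpleGraph V) (Hub : Finset V) (φ : V → ℕ),
  Amb G Hub k φ → (∀ v, v ∉ Hub → (1 + ε) * k ≤ ((nb G v \ Hub).card : ℝ)) →
  (∀ σ ∈ Hub, δ' * k ≤ ((nb G σ).card : ℝ)) →
  (∀ v, v ∉ Hub → ((sel fun w => w ∉ Hub ∧ G.Adj v w ∧ ¬ Share G Hub v w ∧
      θ * k ≤ ((nb G w \ Ubig G (θ' * k) v).card : ℝ)).card : ℝ) ≤ δ1 * k) →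
    ∃ S, Model G Hub S k φ (κ * k) ((δ1 + 2 * b) * k) m

def S_Model : Prop := ∀ ε δ : ℝ, 0 < ε → ε ≤ 1 → 0 < δ → ∃ (κ : ℝ) (m k0 : ℕ), 0 < κ ∧ κ ≤ δ ∧
  ∀ k ≥ k0, ∀ (V : Type) [Fintype V] [DecidableEq V] (G : SimpleGraph V) (φ : V → ℕ), CF G →
  Prop' G k φ → (∀ v, (1 + ε) * k ≤ ((nb G v).card : ℝ)) →
  ∃ (V' : Type) (_ : Fintype V') (_ : DecidableEq V') (G' : SimpleGraph V') (Hub S : Finset V')
    (φ' : V' → ℕ) (e : V → V'), Emb G G' Hub e ∧ Model G' Hub S k φ' (κ * k) (δ * k) m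

def S_Link : Prop := ∀ (δ κ : ℝ) (m : ℕ), 0 < δ → 0 < κ → ∃ s k0 : ℕ, 2 ≤ s ∧ ∀ k ≥ k0,
  ∀ (V : Type) [Fintype V] [DecidableEq V] (G : SimpleGraph V) (Hub S : Finset V) (φ : V → ℕ)
  (D : ℝ), Model G Hub S k φ (κ * k) D m → ∃ H pc, Pieces G Hub S φ (κ * k) (δ * k) s H pc

def S_Bin : Prop := ∀ (δ κ : ℝ) (m s W : ℕ), 0 < δ → 0 < κ → 3 ≤ W → ∃ (κ' : ℝ) (k0 : ℕ),
  0 < κ' ∧ κ' ≤ 1 ∧ ∀ k ≥ k0, ∀ (V : Type) [Fintype V] [DecidableEq V] (G : SimpleGraph V)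
  (Hub S : Finset V) (φ : V → ℕ) (D D' : ℝ) (H : Finset V) (pc : V → Finset V),
  Model G Hub S k φ (κ * k) D m → Pieces G Hub S φ (κ * k) D' s H pc →
    ∃ b : Bat V W s, b.Ok G k (5 * s + 2) (κ' * k) ∧ (∀ u ∈ b.kept, Heavy G S (κ * k) u) ∧
      ∀ v, v ∉ Hub →
        ((sel fun u => G.Adj v u ∧ Heavy G S (κ * k) u ∧ u ∉ b.kept).card : ℝ) ≤ D' + δ * k

def S_Adm : Prop := ∀ (V : Type) [Fintype V] [DecidableEq V] (G : SimpleGraph V) (W s k R : ℕ)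
  (y : ℝ) (b : Bat V W s), CF G → b.Ok G k R y → 4 ≤ W →
    ∀ B i, ∀ a ∈ b.cols B, Adm G (b.clus B i a)

def S_Heavy : Prop := ∀ (V : Type) [Fintype V] [DecidableEq V] (G : SimpleGraph V)
  (W s k R w : ℕ) (y a β : ℝ) (b : Bat V W s), CF G → b.Ok G k R y → 0 < a → a ≤ 1 / 2 →
  1 ≤ s → 1 ≤ w → 0 < β → 6 * s * β ≤ a → 4 * (w * 2 ^ s * (s + 1) : ℝ) ≤ a * W →
  ∃ γ : Finset V → V → ℕ, (∀ In v, Fib (b.reg v) (γ In) w) ∧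
    ∀ (In : Finset V) (A : Finset (Finset V)) (x ω : Finset V → ℝ) (g : V → ℝ) (Ω : ℝ),
    (∀ o ∈ A, ∃ B i, ∃ c ∈ b.cols B, (o = b.clus B i c ∧ o ⊆ In) ∨
      (o = {b.x B i c} ∧ b.x B i c ∈ In ∧ ¬ b.clus B i c ⊆ In)) →
    (∀ o ∈ A, ∀ o' ∈ A, o ≠ o' → Disjoint o o') → (∀ o ∈ A, 0 ≤ x o) → (∀ u, 0 ≤ g u) →
    (∀ o ∈ A, ∀ u ∈ o, x o ≤ g u) → (∀ o, 0 ≤ ω o) →
    (∀ I ⊆ A, Ind (conf G A) I → ∑ o ∈ I, ω o ≤ Ω) →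
    (∀ v, Psi (b.reg v) (γ In) (w / (1 - a)) g ≤ β ^ 2 * w * b.num v) →
      ∑ o ∈ A, ω o * x o ≤ (1 + a) / (1 - a) * k * Ω

def S_Dual : Prop := ∀ (O : Type) [Fintype O] [DecidableEq O] (X : SimpleGraph O) (A : Finset O)
  (y : O → ℝ), (∀ o ∈ A, 0 ≤ y o) → Law X A y ∨ ∃ (ω : O → ℝ) (μ : Finset O → ℝ) (Ω : ℝ),
    (∀ o, 0 ≤ ω o) ∧ IsLaw X A μ ∧ (∀ I ⊆ A, Ind X I → ∑ o ∈ I, ω o ≤ Ω) ∧
    Ω < ∑ o ∈ A, ω o * y o ∧ (∀ I, μ I ≠ 0 → ∑ o ∈ I, ω o = Ω ∧ ∀ o ∈ I, 0 < ω o) ∧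
    ∀ o ∈ A, marg μ o ≤ y o

def S_Light : Prop := ∀ (V : Type) [Fintype V] [DecidableEq V] (G : SimpleGraph V)
  (Hub : Finset V) (k : ℕ) (φ : V → ℕ) (A : Finset (Finset V)) (ω : Finset V → ℝ)
  (μ : Finset (Finset V) → ℝ) (Ω D e : ℝ) (u : V) (Lu : Finset V), Amb G Hub k φ → Fam G A →
  (∀ o ∈ A, ∀ v ∈ o, v ∉ Hub) → IsLaw (conf G A) A μ →
  (∀ I ⊆ A, Ind (conf G A) I → ∑ o ∈ I, ω o ≤ Ω) → (∀ I, μ I ≠ 0 → ∑ o ∈ I, ω o = Ω) →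
  u ∈ Hub → (∀ w ∈ Lu, G.Adj u w ∧ {w} ∈ A ∧ 0 < ω {w}) → 0 < e → 0 ≤ D →
  (∀ h, h ∉ Hub → ¬ G.Adj u h → ((nb G h ∩ Lu).card : ℝ) ≤ D) →
  ∑ o ∈ sel (fun o => o ∈ A ∧ ∃ v ∈ o, G.Adj u v), marg μ o ≤ 1 - e →
  (∀ w ∈ Lu, ∑ o ∈ sel (fun o => o ∈ A ∧ ∃ v ∈ o, v = w ∨ (G.Adj w v ∧ ¬ G.Adj u v)),
    marg μ o ≤ 1 - e) →
    Lu.card * e ≤ 152 * D

def S_Sys : Prop := ∀ ε C δ : ℝ, 0 < ε → ε ≤ 1 → 1 ≤ C → 0 < δ → ∃ (s R : ℕ) (β : ℝ), 2 ≤ s ∧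
  0 < β ∧ β ≤ 1 / 4 ∧ ∀ w : ℕ, 1 ≤ w → ∃ (κ' : ℝ) (k0 : ℕ), 0 < κ' ∧ κ' ≤ 1 ∧ ∀ k ≥ k0,
  ∀ (V : Type) [Fintype V] [DecidableEq V] (G : SimpleGraph V) (φ : V → ℕ), CF G →
  Prop' G k φ → (∀ v, (1 + ε) * k ≤ ((nb G v).card : ℝ)) →
  ∃ (V' : Type) (_ : Fintype V') (_ : DecidableEq V') (G' : SimpleGraph V') (Hub : Finset V')
    (φ' : V' → ℕ) (e : V → V') (S : Sys V'), Emb G G' Hub e ∧ Amb G' Hub k φ' ∧
    S.Ok G' Hub s R w (ε / 20) C β (δ * k) (κ' * k) ((1 + ε) * k)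

def S_Init : Prop := ∀ (a β lam κ' : ℝ) (R : ℕ), 0 < a → 0 < β → 0 < lam → 0 < κ' →
  ∃ k0 : ℕ, ∀ (V : Type) [Fintype V] [DecidableEq V] (X : Ctx V) (d : ℕ), X.Ok → X.a = a →
  X.β = β → X.lam = lam → X.κ' = κ' → X.R = R → k0 ≤ X.k → 2 ^ d ≤ 2 * X.k ^ 3 →
    Safe (X.adj d) (X.Y ⟨∅, ∅, ∅, fun _ => none⟩)

def S_Coin : Prop := ∀ (V : Type) [Fintype V] [DecidableEq V] (X : Ctx V) (d : ℕ), X.Ok →
  Safe (X.adj d) (X.Y ⟨∅, ∅, ∅, fun _ => none⟩) →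
    ∃ mg, X.Inv ⟨X.S.T, mg, ∅, fun _ => none⟩ ∧
      Safe (X.adj d) (X.Y ⟨X.S.T, mg, ∅, fun _ => none⟩)

def S_Col : Prop := ∀ a : ℝ, 0 < a → a < 1 → ∃ d1 : ℕ, ∀ d ≥ d1,
  ∀ (V : Type) [Fintype V] [DecidableEq V] (X : Ctx V) (s : St V) (c : ℕ), X.Ok → X.a = a →
  X.k ^ 2 ≤ 2 ^ d → X.s * (2 * X.k) + 1 ≤ 2 ^ d → X.Inv s → c ∉ s.P → Safe (X.adj d) (X.Y s) →
    ∃ col, X.Inv ⟨s.dec, s.mg, insert c s.P, col⟩ ∧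
      Safe (X.adj d) (X.Y ⟨s.dec, s.mg, insert c s.P, col⟩)

def S_End : Prop := ∀ (V : Type) [Fintype V] [DecidableEq V] (X : Ctx V) (s : St V), X.Ok →
  X.Inv s → (∀ v, X.L v ⊆ s.P) → (∀ v, X.Y s v < 1) →
    ∃ col : V → ℕ, (∀ v, v ∉ X.Hub → col v ∈ X.L v) ∧
      ∀ u v, u ∉ X.Hub → v ∉ X.Hub → X.G.Adj u v → col u ≠ col v

/-- the theorem for graphs of large minimum degree and lists of the exact size -/
def S_Core : Prop := ∀ ε : ℝ, 0 < ε → ε ≤ 1 → ∃ k0 : ℕ, ∀ k ≥ k0,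
  ∀ (V : Type) [Fintype V] [DecidableEq V] (G : SimpleGraph V) (φ : V → ℕ), CF G →
  Prop' G k φ → (∀ v, (1 + ε) * k ≤ ((nb G v).card : ℝ)) → ∀ L : V → Finset ℕ,
  (∀ v, (L v).card = ⌈(1 + ε) * k⌉₊) →
    ∃ col : V → ℕ, (∀ v, col v ∈ L v) ∧ ∀ u v, G.Adj u v → col u ≠ col v

/-- the theorem -/
def S_Main : Prop := ∀ ε : ℝ, 0 < ε → ∃ k0 : ℕ, ∀ (V : Type) [Fintype V] (G : SimpleGraph V),
  CF G → ∀ k ≥ k0, G.Colorable k → ∀ L : V → Finset ℕ, (∀ v, (1 + ε) * k ≤ ((L v).card : ℝ)) →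
    ∃ col : V → ℕ, (∀ v, col v ∈ L v) ∧ ∀ u v, G.Adj u v → col u ≠ col v

end Pool.Agent.P.MP_fb43a4_co.Asy
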