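import Mathlib
import Pool.Agent.P.MP_fb43a4_co.Asy.St

/-! Clusters are admissible objects. -/

namespace Pool.Agent.P.MP_fb43a4_co.Asy

open Finset

namespace AdmP

/-- rows times a cycle of length at least three -/
structure Cyc {V κ : Type} {W : ℕ} (G : SimpleGraph V) (O : κ → Prop) (x : Fin W → κ → V)
    (σ : κ → κ → Prop) : Prop where
  inj : ∀ i j a c, O a → O c → x i a = x j c → i = j ∧ a = c
  row : ∀ i a c, O a → O c → ¬ G.Adj (x i a) (x i c)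
  pat : ∀ i j a c, i < j → O a → O c → (G.Adj (x i a) (x j c) ↔ a = c ∨ σ a c)
  irr : ∀ a c, σ a c → a ≠ c
  fn : ∀ a c c', σ a c → σ a c' → c = c'
  ij : ∀ a a' c, σ a c → σ a' c → a = a'
  succ : ∀ a, O a → ∃ c, O c ∧ σ a c
  pred : ∀ a, O a → ∃ c, O c ∧ σ c a
  no2 : ∀ a c, O a → σ a c → ¬ σ c a

section cyc
variable {V κ : Type} {W : ℕ} {G : SimpleGraph V} {O : κ → Prop} {x : Fin W → κ → V}
  {σ : κ → κ → Prop}

theorem Cyc.col (h : Cyc G O x σ) {i j : Fin W} (hij : i ≠ j) {a : κ} (ha : O a) :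
    G.Adj (x i a) (x j a) := by
  rcases lt_or_gt_of_ne hij with l | l
  · exact (h.pat i j a a l ha ha).2 (Or.inl rfl)
  · exact ((h.pat j i a a l ha ha).2 (Or.inl rfl)).symm

theorem Cyc.two (h : Cyc G O x σ) {i j : Fin W} (hij : i ≠ j) {a : κ} (ha : O a) :
    ∃ c, O c ∧ a ≠ c ∧ G.Adj (x i a) (x j c) := by
  rcases lt_or_gt_of_ne hij with l | l
  · obtain ⟨c, hc, s⟩ := h.succ a ha
    exact ⟨c, hc, h.irr _ _ s, (h.pat i j a c l ha hc).2 (Or.inr s)⟩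
  · obtain ⟨c, hc, s⟩ := h.pred a ha
    exact ⟨c, hc, (h.irr _ _ s).symm, ((h.pat j i c a l hc ha).2 (Or.inr s)).symm⟩

theorem Cyc.f1 (h : Cyc G O x σ) (hG : CF G) {y : V} (hy : ∀ i a, O a → y ≠ x i a) {i : Fin W}
    {a : κ} (ha : O a) (hya : G.Adj y (x i a)) (j : Fin W) : ∃ c, O c ∧ G.Adj y (x j c) := by
  by_cases hij : i = j
  · exact ⟨a, ha, hij ▸ hya⟩
  obtain ⟨c, hc, ne, ad⟩ := h.two hij ha
  rcases hG _ _ _ _ hya.symm (h.col hij ha) ad (hy _ _ ha) (hy _ _ hc)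
    (fun e => ne (h.inj _ _ _ _ ha hc e).2) with t | t | t
  · exact ⟨a, ha, t⟩
  · exact ⟨c, hc, t⟩
  · exact (h.row _ _ _ ha hc t).elim

theorem Cyc.f2 (h : Cyc G O x σ) (hG : CF G) (hW : 3 ≤ W) {y : V} (hy : ∀ i a, O a → y ≠ x i a)
    {i : Fin W} {a0 : κ} (ha0 : O a0) (hya : G.Adj y (x i a0)) :
    ∃ j a j' a', O a ∧ O a' ∧ G.Adj y (x j a) ∧ G.Adj y (x j' a') ∧ x j a ≠ x j' a' ∧
      ¬ G.Adj (x j a) (x j' a') := by
  by_contra hcon
  have cl : ∀ j a j' a', O a → O a' → G.Adj y (x j a) → G.Adj y (x j' a') → x j a ≠ x j' a' →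
      G.Adj (x j a) (x j' a') := by
    intro j a j' a' h1 h2 h3 h4 h5
    by_contra h6
    exact hcon ⟨j, a, j', a', h1, h2, h3, h4, h5, h6⟩
  have one : ∀ j a a', O a → O a' → G.Adj y (x j a) → G.Adj y (x j a') → a = a' := by
    intro j a a' h1 h2 h3 h4
    by_contra ne
    exact h.row _ _ _ h1 h2 (cl _ _ _ _ h1 h2 h3 h4 fun e => ne (h.inj _ _ _ _ h1 h2 e).2)
  obtain ⟨r0, r1, r2, l01, l12⟩ : ∃ r0 r1 r2 : Fin W, r0 < r1 ∧ r1 < r2 :=
    ⟨⟨0, by omega⟩, ⟨1, by omega⟩, ⟨2, by omega⟩, by simp [Fin.lt_def], by simp [Fin.lt_def]⟩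
  have l02 := l01.trans l12
  have dif : ∀ {j j' : Fin W} {a a' : κ}, j < j' → O a → O a' → x j a ≠ x j' a' :=
    fun l h1 h2 e => l.ne (h.inj _ _ _ _ h1 h2 e).1
  have rel : ∀ {j j' : Fin W} {a a' : κ}, j < j' → O a → O a' → G.Adj y (x j a) →
      G.Adj y (x j' a') → a = a' ∨ σ a a' :=
    fun l h1 h2 h3 h4 => (h.pat _ _ _ _ l h1 h2).1 (cl _ _ _ _ h1 h2 h3 h4 (dif l h1 h2))
  obtain ⟨a, ha, y1⟩ := h.f1 hG hy ha0 hya r1
  obtain ⟨p, hp, sp⟩ := h.succ a ha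
  obtain ⟨m, hm, sm⟩ := h.pred a ha
  have ap := h.irr _ _ sp
  have ma := h.irr _ _ sm
  have mp : m ≠ p := fun e => h.no2 a p ha sp (e ▸ sm)
  rcases hG _ _ _ _ y1.symm ((h.pat r0 r1 m a l01 hm ha).2 (Or.inr sm)).symm
    ((h.pat r1 r2 a p l12 ha hp).2 (Or.inr sp)) (hy _ _ hm) (hy _ _ hp) (dif l02 hm hp)
    with t | t | t
  · obtain ⟨c, hc, y2⟩ := h.f1 hG hy ha0 hya r2
    have e : c = a := by
      rcases rel l12 ha hc y1 y2 with e | e
      · exact e.symm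
      · rcases rel l02 hm hc t y2 with e' | e'
        · exact (mp (e'.trans (h.fn _ _ _ e sp))).elim
        · exact h.fn _ _ _ e' sm
    subst e
    rcases hG _ _ _ _ y2.symm (h.col l02.ne' hc)
      ((h.pat r1 r2 m c l12 hm hc).2 (Or.inr sm)).symm (hy _ _ hc) (hy _ _ hm) (dif l01 hc hm)
      with u | u | u
    · exact ma (one _ _ _ hm hc t u)
    · exact ma (one _ _ _ hm hc u y1)
    · rcases (h.pat _ _ _ _ l01 hc hm).1 u with e | e
      · exact ma e.symm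
      · exact h.no2 _ _ hc e sm
  · obtain ⟨c, hc, y0⟩ := h.f1 hG hy ha0 hya r0
    have e : c = a := by
      rcases rel l01 hc ha y0 y1 with e | e
      · exact e
      · rcases rel l02 hc hp y0 t with e' | e'
        · exact (mp ((h.ij _ _ _ sm e).trans e')).elim
        · exact h.ij _ _ _ e' sp
    subst e
    rcases hG _ _ _ _ y0.symm ((h.pat r0 r1 c p l01 hc hp).2 (Or.inr sp)) (h.col l02.ne hc)
      (hy _ _ hp) (hy _ _ hc) (dif l12 hp hc) with u | u | u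
    · exact ap (one _ _ _ hc hp y1 u)
    · exact ap (one _ _ _ hc hp u t)
    · rcases (h.pat _ _ _ _ l12 hp hc).1 u with e | e
      · exact ap e.symm
      · exact h.no2 _ _ hc sp e
  · rcases (h.pat _ _ _ _ l02 hm hp).1 t with e | e
    · exact mp e
    · exact ap (h.fn _ _ _ sm e)

theorem other (hW : 3 ≤ W) (i : Fin W) : ∃ j, i ≠ j := by
  have : Nontrivial (Fin W) := Fin.nontrivial_iff_two_le.2 (by omega)
  obtain ⟨j, hj⟩ := exists_ne i
  exact ⟨j, hj.symm⟩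

theorem Cyc.closed (h : Cyc G O x σ) (hG : CF G) (hW : 3 ≤ W) {y z : V} (p : G.Walk y z)
    (hy : ∃ i a, O a ∧ (y = x i a ∨ G.Adj y (x i a))) :
    ∃ i a, O a ∧ (z = x i a ∨ G.Adj z (x i a)) := by
  induction p with
  | nil => exact hy
  | @cons u v w huv p ih =>
    apply ih
    by_cases hu : ∃ i a, O a ∧ u = x i a
    · obtain ⟨i, a, ha, rfl⟩ := hu
      exact ⟨i, a, ha, Or.inr huv.symm⟩
    have hu' : ∀ i a, O a → u ≠ x i a := fun i a ha e => hu ⟨i, a, ha, e⟩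
    obtain ⟨i, a, ha, e | e⟩ := hy
    · exact (hu' i a ha e).elim
    obtain ⟨j, c, j', c', h1, h2, h3, h4, h5, h6⟩ := h.f2 hG hW hu' ha e
    by_cases e1 : v = x j c
    · exact ⟨j, c, h1, Or.inl e1⟩
    by_cases e2 : v = x j' c'
    · exact ⟨j', c', h2, Or.inl e2⟩
    rcases hG _ _ _ _ huv h3 h4 e1 e2 h5 with t | t | t
    · exact ⟨j, c, h1, Or.inr t⟩
    · exact ⟨j', c', h2, Or.inr t⟩
    · exact (h6 t).elim

theorem Cyc.dom (h : Cyc G O x σ) (hG : CF G) (hW : 3 ≤ W) (i : Fin W) {a : κ} (ha : O a) {z : V}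
    (hz : G.Reachable (x i a) z) :
    ((∃ c, O c ∧ x i c = z) ∨ ∃ c, O c ∧ G.Adj z (x i c)) ∧
      ∃ y y', G.Adj z y ∧ G.Adj z y' ∧ y ≠ y' ∧ ¬ G.Adj y y' := by
  obtain ⟨p⟩ := hz
  obtain ⟨j, c, hc, e⟩ := h.closed hG hW p ⟨i, a, ha, Or.inl rfl⟩
  by_cases hu : ∃ i a, O a ∧ z = x i a
  · obtain ⟨j, c, hc, rfl⟩ := hu
    constructor
    · by_cases hij : j = i
      · exact Or.inl ⟨c, hc, by rw [hij]⟩
      · exact Or.inr ⟨c, hc, h.col hij hc⟩
    · obtain ⟨j', hj'⟩ := other hW j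
      obtain ⟨c', hc', ne, ad⟩ := h.two hj' hc
      exact ⟨_, _, h.col hj' hc, ad, fun e => ne (h.inj _ _ _ _ hc hc' e).2, h.row _ _ _ hc hc'⟩
  have hu' : ∀ i a, O a → z ≠ x i a := fun i a ha e => hu ⟨i, a, ha, e⟩
  rcases e with e | e
  · exact (hu' j c hc e).elim
  obtain ⟨j1, c1, j2, c2, -, -, h3, h4, h5, h6⟩ := h.f2 hG hW hu' hc e
  exact ⟨Or.inr (h.f1 hG hu' hc e i), _, _, h3, h4, h5, h6⟩

theorem Cyc.step (h : Cyc G O x σ) (hW : 3 ≤ W) (i : Fin W) {a c : κ} (ha : O a) (hc : O c)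
    (s : σ a c) : G.Reachable (x i a) (x i c) := by
  obtain ⟨j, hj⟩ := other hW i
  rcases lt_or_gt_of_ne hj with l | l
  · exact ((h.pat i j a c l ha hc).2 (Or.inr s)).reachable.trans (h.col hj.symm hc).reachable
  · exact (h.col hj ha).reachable.trans ((h.pat j i a c l ha hc).2 (Or.inr s)).reachable

end cyc

variable {V : Type} [Fintype V] [DecidableEq V] {G : SimpleGraph V} {W s k R : ℕ} {y : ℝ}
  {b : Bat V W s}

theorem rows (hW : 4 ≤ W) : ∃ r0 r1 : Fin W, r0 < r1 :=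
  ⟨⟨0, by omega⟩, ⟨1, by omega⟩, by simp [Fin.lt_def]⟩

theorem sig_fn (hG : CF G) (hb : b.Ok G k R y) (hW : 4 ≤ W) (B : b.B) (a c c' : Fin s)
    (h : b.sig B a c) (h' : b.sig B a c') : c = c' := by
  by_contra ne
  obtain ⟨r0, r1, l⟩ := rows hW
  obtain ⟨ha, hc, n1, p1⟩ := h
  obtain ⟨-, hc', n2, p2⟩ := h'
  rcases hG _ _ _ _ ((hb.pat B r0 r1 l a ha a ha).2 (hb.diag B a ha))
    ((hb.pat B r0 r1 l a ha c hc).2 p1) ((hb.pat B r0 r1 l a ha c' hc').2 p2)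
    (fun e => n1 (hb.inj _ _ _ ha _ _ _ hc e).2.2) (fun e => n2 (hb.inj _ _ _ ha _ _ _ hc' e).2.2)
    (fun e => ne (hb.inj _ _ _ hc _ _ _ hc' e).2.2) with t | t | t
  · exact hb.row _ _ _ ha _ hc t
  · exact hb.row _ _ _ ha _ hc' t
  · exact hb.row _ _ _ hc _ hc' t

theorem sig_ij (hG : CF G) (hb : b.Ok G k R y) (hW : 4 ≤ W) (B : b.B) (c c' a : Fin s)
    (h : b.sig B c a) (h' : b.sig B c' a) : c = c' := by
  by_contra ne
  obtain ⟨r0, r1, l⟩ := rows hW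
  obtain ⟨hc, ha, n1, p1⟩ := h
  obtain ⟨hc', -, n2, p2⟩ := h'
  rcases hG _ _ _ _ ((hb.pat B r0 r1 l a ha a ha).2 (hb.diag B a ha)).symm
    ((hb.pat B r0 r1 l c hc a ha).2 p1).symm ((hb.pat B r0 r1 l c' hc' a ha).2 p2).symm
    (fun e => n1 (hb.inj _ _ _ ha _ _ _ hc e).2.2.symm)
    (fun e => n2 (hb.inj _ _ _ ha _ _ _ hc' e).2.2.symm)
    (fun e => ne (hb.inj _ _ _ hc _ _ _ hc' e).2.2) with t | t | t
  · exact hb.row _ _ _ ha _ hc t
  · exact hb.row _ _ _ ha _ hc' t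
  · exact hb.row _ _ _ hc _ hc' t

theorem two_cycle {κ : Type} {σ : κ → κ → Prop} (fn : ∀ a c c', σ a c → σ a c' → c = c')
    {a c d : κ} (h1 : σ a c) (h2 : σ c a) (h : Relation.ReflTransGen σ a d) : d = a ∨ d = c := by
  induction h with
  | refl => exact Or.inl rfl
  | tail _ s ih =>
    rcases ih with rfl | rfl
    · exact Or.inr (fn _ _ _ s h1)
    · exact Or.inl (fn _ _ _ s h2)

end AdmP

open AdmP Relation

theorem p_Adm : S_Adm := by
  intro V _ _ G W s k R y b hG hb hW B i a ha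
  have fn := sig_fn hG hb hW B
  have ij := sig_ij hG hb hW B
  have mem : ∀ c, c ∈ b.scc B a ↔ ReflTransGen (b.sig B) a c ∧ ReflTransGen (b.sig B) c a :=
    fun c => mem_sel
  have col : ∀ c, ReflTransGen (b.sig B) a c → c ∈ b.cols B := by
    intro c hc
    rcases hc.cases_tail with e | ⟨d, -, e⟩
    · rw [e]; exact ha
    · exact e.2.1
  by_cases h1 : ∀ c ∈ b.scc B a, c = a
  · refine Or.inl ⟨b.x B i a, ?_⟩
    have : b.scc B a = {a} :=
      eq_singleton_iff_unique_mem.2 ⟨(mem a).2 ⟨.refl, .refl⟩, h1⟩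
    rw [Bat.clus, this, image_singleton]
  by_cases h2 : ∃ c, b.sig B a c ∧ b.sig B c a
  · obtain ⟨c, s1, s2⟩ := h2
    have e : b.scc B a = {a, c} := by
      ext d
      rw [mem, mem_insert, mem_singleton]
      refine ⟨fun h => two_cycle fn s1 s2 h.1, ?_⟩
      rintro (rfl | rfl)
      · exact ⟨.refl, .refl⟩
      · exact ⟨.single s1, .single s2⟩
    have hc := s1.2.1
    obtain ⟨r, rinj, r0⟩ : ∃ r : Fin 4 → Fin W, Function.Injective r ∧ r 0 = i :=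
      ⟨fun j => Equiv.swap (Fin.castLE hW 0) i (Fin.castLE hW j),
        (Equiv.injective _).comp (Fin.castLE_injective hW), Equiv.swap_apply_left _ _⟩
    have hcol : ∀ t : Bool, (if t then c else a) ∈ b.cols B := fun t => by
      cases t
      · exact ha
      · exact hc
    have hrho : ∀ t t' : Bool, b.rho B (if t then c else a) (if t' then c else a) := by
      intro t t'
      cases t <;> cases t'
      · exact hb.diag B a ha
      · exact s1.2.2.2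
      · exact s2.2.2.2
      · exact hb.diag B c hc
    refine Or.inr (Or.inl ⟨fun j t => b.x B (r j) (if t then c else a), ?_, ?_, 0, ?_⟩)
    · intro j j' t t'
      constructor
      · rintro h rfl
        exact hb.row _ _ _ (hcol t) _ (hcol t') h
      · intro ne
        rcases lt_or_gt_of_ne (rinj.ne ne) with l | l
        · exact (hb.pat B _ _ l _ (hcol t) _ (hcol t')).2 (hrho t t')
        · exact ((hb.pat B _ _ l _ (hcol t') _ (hcol t)).2 (hrho t' t)).symm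
    · intro j e'
      exact s1.2.2.1 (hb.inj _ _ _ (hcol false) _ _ _ (hcol true) e').2.2
    · rw [Bat.clus, e, image_insert, image_singleton]
      simp [r0]
  push Not at h1
  obtain ⟨a', ha', ne⟩ := h1
  have oth : ∀ c ∈ b.scc B a, ∃ d ∈ b.scc B a, c ≠ d := by
    intro c _
    by_cases e : c = a
    · exact ⟨a', ha', e ▸ ne.symm⟩
    · exact ⟨a, (mem a).2 ⟨.refl, .refl⟩, e⟩
  have cy : Cyc G (fun c => c ∈ b.scc B a) (b.x B) (b.sig B) := by
    refine ⟨fun i j c d hc hd e => ?_, fun i c d hc hd => ?_, fun i j c d l hc hd => ?_,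
      fun c d h => h.2.2.1, fn, ij, fun c hc => ?_, fun c hc => ?_, fun c d hc s1 s2 => ?_⟩
    · exact (hb.inj _ _ _ (col c ((mem c).1 hc).1) _ _ _ (col d ((mem d).1 hd).1) e).2
    · exact hb.row _ _ _ (col c ((mem c).1 hc).1) _ (col d ((mem d).1 hd).1)
    · have c1 := col c ((mem c).1 hc).1
      have d1 := col d ((mem d).1 hd).1
      rw [hb.pat B i j l c c1 d d1]
      constructor
      · intro h
        by_cases e : c = d
        · exact Or.inl e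
        · exact Or.inr ⟨c1, d1, e, h⟩
      · rintro (rfl | h)
        · exact hb.diag B c c1
        · exact h.2.2.2
    · obtain ⟨d, hd, n⟩ := oth c hc
      rw [mem] at hc hd
      rcases (hc.2.trans hd.1).cases_head with e | ⟨e, s1, s2⟩
      · exact (n e).elim
      · exact ⟨e, (mem e).2 ⟨hc.1.tail s1, s2.trans hd.2⟩, s1⟩
    · obtain ⟨d, hd, n⟩ := oth c hc
      rw [mem] at hc hd
      rcases (hd.2.trans hc.1).cases_tail with e | ⟨e, s1, s2⟩
      · exact (n e).elim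
      · exact ⟨e, (mem e).2 ⟨hd.1.trans s1, .head s2 hc.2⟩, s2⟩
    · rcases two_cycle fn s1 s2 ((mem c).1 hc).2 with e | e
      · exact h2 ⟨d, e ▸ s1, e ▸ s2⟩
      · exact h2 ⟨c, e ▸ s2, e ▸ s1⟩
  have W3 : 3 ≤ W := by omega
  have reach : ∀ c ∈ b.scc B a, G.Reachable (b.x B i a) (b.x B i c) := by
    intro c hc
    obtain ⟨p, q⟩ := (mem c).1 hc
    clear hc
    induction p with
    | refl => rfl
    | @tail d e p s1 ih =>
      have q' := ReflTransGen.head s1 q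
      exact (ih q').trans (cy.step W3 i ((mem d).2 ⟨p, q'⟩) ((mem e).2 ⟨p.tail s1, q⟩) s1)
  refine Or.inr (Or.inr ⟨⟨_, mem_image_of_mem _ ha'⟩, ?_, ?_, ?_⟩)
  · intro u hu v hv
    obtain ⟨c, hc, rfl⟩ := mem_image.1 hu
    obtain ⟨d, hd, rfl⟩ := mem_image.1 hv
    exact cy.row i c d hc hd
  · intro u hu v hv
    obtain ⟨c, hc, rfl⟩ := mem_image.1 hu
    obtain ⟨d, hd, rfl⟩ := mem_image.1 hv
    exact (reach c hc).symm.trans (reach d hd)
  · intro u hu z hz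
    obtain ⟨c, hc, rfl⟩ := mem_image.1 hu
    obtain ⟨t, t'⟩ := cy.dom hG W3 i hc hz
    refine ⟨?_, t'⟩
    rcases t with ⟨d, hd, e⟩ | ⟨d, hd, e⟩
    · exact Or.inl (mem_image.2 ⟨d, hd, e⟩)
    · exact Or.inr ⟨_, mem_image_of_mem _ hd, e⟩

end Pool.Agent.P.MP_fb43a4_co.Asy
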