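import Mathlib
import Pool.Agent.P.MP_fb43a4_co.Asy.St

/-! Small facts: balls, degrees, chunks, loads and Ramsey's theorem. -/

namespace Pool.Agent.P.MP_fb43a4_co.Asy

open Finset

theorem p_Ball : S_Ball := by
  intro V _ _ G Δ n u hΔ
  induction n with
  | zero =>
    rw [pow_zero]
    refine Finset.card_le_one.mpr fun a ha b hb => ?_
    obtain ⟨p, hp⟩ := mem_sel.mp ha
    obtain ⟨q, hq⟩ := mem_sel.mp hb
    rw [← p.eq_of_length_eq_zero (by omega), ← q.eq_of_length_eq_zero (by omega)]
  | succ n ih =>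
    have hs : sel (Near G (n + 1) u) ⊆ (sel (Near G n u)).biUnion fun v => insert v (nb G v) := by
      intro x hx
      obtain ⟨p, hp⟩ := (mem_sel.mp hx).symm
      cases p with
      | nil => exact mem_biUnion.mpr ⟨_, mem_sel.mpr (Near.refl _ _ _), mem_insert_self _ _⟩
      | cons h q =>
        rw [SimpleGraph.Walk.length_cons] at hp
        exact mem_biUnion.mpr ⟨_, mem_sel.mpr (Near.symm ⟨q, by omega⟩),
          mem_insert_of_mem (mem_nb.mpr h.symm)⟩
    refine (card_le_card hs).trans ((card_biUnion_le_card_mul _ _ (Δ + 1) fun v _ => ?_).trans ?_)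
    · exact (card_insert_le _ _).trans (Nat.succ_le_succ (hΔ v))
    · rw [pow_succ]
      exact Nat.mul_le_mul_right _ ih

namespace Aux1

variable {V : Type} [Fintype V] [DecidableEq V]

theorem ind_two {G : SimpleGraph V} (h : CF G) (v : V) (I : Finset V) (hI : Ind G I) :
    (nb G v ∩ I).card ≤ 2 := by
  by_contra hc
  obtain ⟨a, ha, b, hb, c, hc', hab, hac, hbc⟩ := Finset.two_lt_card.mp (not_le.mp hc)
  rw [mem_inter, mem_nb] at ha hb hc'
  rcases h v a b c ha.1 hb.1 hc'.1 hab hac hbc with h1 | h1 | h1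
  · exact hI a ha.2 b hb.2 h1
  · exact hI a ha.2 c hc'.2 h1
  · exact hI b hb.2 c hc'.2 h1

theorem clique_le {G : SimpleGraph V} {Hub : Finset V} {k : ℕ} {φ : V → ℕ} (h : Amb G Hub k φ)
    (K : Finset V) (h1 : ∀ x ∈ K, x ∉ Hub) (h2 : ∀ x ∈ K, ∀ y ∈ K, x ≠ y → G.Adj x y) :
    K.card ≤ k := by
  have := Finset.card_le_card_of_injOn (s := K) (t := range k) φ
    (fun x hx => mem_coe.mpr (mem_range.mpr (h.lt x (h1 x hx)))) (fun x hx y hy e => by
      by_contra hne
      exact h.prop x y (h1 x hx) (h1 y hy) (h2 x hx y hy hne) e)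
  simpa using this

theorem pre (χ : Type) [Fintype χ] (m : ℕ) : ∃ R : ℕ, ∀ (α : Type) (S : Finset α)
    (col : α → α → χ), R ≤ S.card → ∃ (f : Fin m → α) (c : Fin m → χ), Function.Injective f ∧
      (∀ i, f i ∈ S) ∧ ∀ i j, i < j → col (f i) (f j) = c i := by
  classical
  induction m with
  | zero =>
    exact ⟨0, fun α S col _ => ⟨Fin.elim0, Fin.elim0, fun i => i.elim0, fun i => i.elim0,
      fun i => i.elim0⟩⟩
  | succ m ih =>
    obtain ⟨R, hR⟩ := ih
    refine ⟨Fintype.card χ * R + 1, fun α S col hS => ?_⟩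
    obtain ⟨x, hx⟩ := Finset.card_pos.mp (show 0 < S.card by omega)
    obtain ⟨c0, -, hc0⟩ := Finset.exists_le_card_fiber_of_mul_le_card_of_maps_to
      (s := S.erase x) (t := (univ : Finset χ)) (f := col x) (n := R) (fun _ _ => mem_univ _)
      ⟨col x x, mem_univ _⟩ (by rw [card_univ, card_erase_of_mem hx]; omega)
    obtain ⟨f, c, hf, hfS, hfc⟩ := hR α _ col hc0
    have hm : ∀ i, f i ≠ x ∧ f i ∈ S ∧ col x (f i) = c0 := fun i => by
      have := hfS i
      rw [mem_filter, mem_erase] at this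
      exact ⟨this.1.1, this.1.2, this.2⟩
    refine ⟨Fin.cons x f, Fin.cons c0 c, ?_, ?_, ?_⟩
    · refine Fin.cons_injective_iff.mpr ⟨?_, hf⟩
      rintro ⟨i, hi⟩
      exact (hm i).1 hi
    · intro i
      refine Fin.cases ?_ (fun i => ?_) i
      · simpa using hx
      · simpa using (hm i).2.1
    · intro i j
      refine Fin.cases ?_ (fun j => ?_) j
      · intro h
        exact absurd h (Fin.not_lt_zero _)
      · refine Fin.cases ?_ (fun i => ?_) i
        · intro _
          simpa using (hm j).2.2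
        · intro h
          simpa using hfc i j (Fin.succ_lt_succ_iff.mp h)

end Aux1

open Aux1

theorem p_Deg : S_Deg := by
  intro V _ _ G Hub k φ h
  refine ⟨fun v => ?_, fun v I hI => ind_two h.cf v I hI, clique_le h⟩
  by_cases hv : v ∈ Hub
  · have := clique_le h (nb G v) (fun x hx hx' => h.ind v hv x hx' (mem_nb.mp hx))
      fun x hx y hy hne => h.cl v hv x y (mem_nb.mp hx) (mem_nb.mp hy) hne
    omega
  · have h1 := ind_two h.cf v Hub h.ind
    have hk := h.lt v hv
    have h2 : (nb G v \ Hub).card ≤ 2 * ((range k).erase (φ v)).card := by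
      refine Finset.card_le_mul_card_image_of_maps_to (f := φ) (fun x hx => ?_) 2 fun c _ => ?_
      · rw [mem_sdiff, mem_nb] at hx
        exact mem_erase.mpr ⟨(h.prop v x hv hx.2 hx.1).symm, mem_range.mpr (h.lt x hx.2)⟩
      · refine le_trans (card_le_card fun x hx => ?_)
          (ind_two h.cf v ((nb G v \ Hub).filter fun x => φ x = c) fun a ha b hb hab => ?_)
        · exact mem_inter.mpr ⟨(mem_sdiff.mp (mem_filter.mp hx).1).1, hx⟩
        · rw [mem_filter, mem_sdiff] at ha hb
          exact h.prop a b ha.1.2 hb.1.2 hab (ha.2.trans hb.2.symm)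
    rw [card_erase_of_mem (mem_range.mpr hk), card_range] at h2
    have h3 := Finset.card_sdiff_add_card_inter (nb G v) Hub
    omega

theorem p_Chunk : S_Chunk := by
  intro V _ _ U w hw
  let r : V → ℕ := fun v => if h : v ∈ U then (U.equivFin ⟨v, h⟩).1 else 0
  have r1 : ∀ v ∈ U, r v < U.card := fun v h => by
    simp only [r, dif_pos h]
    exact (U.equivFin ⟨v, h⟩).2
  have r2 : ∀ v ∈ U, ∀ v' ∈ U, r v = r v' → v = v' := fun v h v' h' e => by
    simp only [r, dif_pos h, dif_pos h'] at e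
    exact congrArg Subtype.val (U.equivFin.injective (Fin.ext e))
  refine ⟨fun v => r v / w, fun t => ?_, ?_⟩
  · have := Finset.card_le_card_of_injOn (s := U.filter fun u => r u / w = t) (t := range w)
      (fun u => r u % w) (fun x _ => mem_coe.mpr (mem_range.mpr (Nat.mod_lt _ hw)))
      (fun x hx y hy e => by
        have hx' := mem_filter.mp (mem_coe.mp hx)
        have hy' := mem_filter.mp (mem_coe.mp hy)
        refine r2 x hx'.1 y hy'.1 ?_
        have e' : r x % w = r y % w := e
        rw [← Nat.div_add_mod (r x) w, ← Nat.div_add_mod (r y) w, hx'.2, hy'.2, e'])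
    simpa using this
  · have h1 : U.image (fun v => r v / w) ⊆ range (U.card / w + 1) := by
      intro t ht
      obtain ⟨v, hv, rfl⟩ := mem_image.mp ht
      exact mem_range.mpr (Nat.lt_succ_of_le (Nat.div_le_div_right (r1 v hv).le))
    have h2 := card_le_card h1
    rw [card_range] at h2
    have h3 : ((U.image fun v => r v / w).card : ℝ) ≤ ((U.card / w : ℕ) : ℝ) + 1 := by
      exact_mod_cast h2
    have h4 : ((U.card / w : ℕ) : ℝ) ≤ U.card / w := Nat.cast_div_le
    linarith

theorem p_Load : S_Load := by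
  intro V _ _ U γ b t g ht
  have h1 : ∑ c ∈ U.image γ, max ((∑ u ∈ U.filter fun u => γ u = c, g u) - b) 0 ≤
      (U.image γ).card * t + Psi U γ b g / t := by
    unfold Psi
    rw [Finset.sum_div, ← nsmul_eq_mul, ← Finset.sum_const, ← Finset.sum_add_distrib]
    refine Finset.sum_le_sum fun c _ => ?_
    generalize max ((∑ u ∈ U.filter fun u => γ u = c, g u) - b) 0 = m
    have : m * t ≤ t * t + m ^ 2 := by nlinarith [sq_nonneg (m - t), sq_nonneg m, sq_nonneg t]
    have e : t + m ^ 2 / t = (t * t + m ^ 2) / t := by field_simp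
    rw [e, le_div_iff₀ ht]
    exact this
  refine ⟨h1, ?_⟩
  have h2 : ∑ u ∈ U, g u = ∑ c ∈ U.image γ, ∑ u ∈ U.filter fun u => γ u = c, g u :=
    (Finset.sum_fiberwise_of_maps_to (fun u hu => mem_image_of_mem γ hu) g).symm
  have h3 : ∑ c ∈ U.image γ, ∑ u ∈ U.filter fun u => γ u = c, g u ≤
      ∑ c ∈ U.image γ, (b + max ((∑ u ∈ U.filter fun u => γ u = c, g u) - b) 0) :=
    Finset.sum_le_sum fun c _ => by
      linarith [le_max_left ((∑ u ∈ U.filter fun u => γ u = c, g u) - b) 0]
  rw [Finset.sum_add_distrib, Finset.sum_const, nsmul_eq_mul] at h3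
  linarith

theorem p_Ram : S_Ram := by
  intro χ _ W
  classical
  obtain ⟨R, hR⟩ := pre χ (Fintype.card χ * W)
  refine ⟨R + 1, fun α S col hS => ?_⟩
  obtain ⟨x, -⟩ := Finset.card_pos.mp (show 0 < S.card by omega)
  obtain ⟨f, c, hf, hfS, hfc⟩ := hR α S col (by omega)
  obtain ⟨c0, -, hc0⟩ := Finset.exists_le_card_fiber_of_mul_le_card_of_maps_to
    (s := (univ : Finset (Fin (Fintype.card χ * W)))) (t := (univ : Finset χ)) (f := c) (n := W)
    (fun _ _ => mem_univ _) ⟨col x x, mem_univ _⟩ (by simp)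
  let e := Finset.orderEmbOfCardLe _ hc0
  have he : ∀ i, c (e i) = c0 := fun i =>
    (mem_filter.mp (Finset.orderEmbOfCardLe_mem _ hc0 i)).2
  refine ⟨fun i => f (e i), hf.comp e.injective, fun i => hfS _, fun i j i' j' h h' => ?_⟩
  rw [hfc _ _ (e.strictMono h), hfc _ _ (e.strictMono h'), he, he]

end Pool.Agent.P.MP_fb43a4_co.Asy
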