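import Mathlib
import Pool.Agent.P.MP_fb43a4_co.Asy.St

/-! Ends of a graph with a thin spine; two greedy lemmas. -/

namespace Pool.Agent.P.MP_fb43a4_co.Asy

open Finset

namespace Aux2

variable {V : Type} [Fintype V] [DecidableEq V]

lemma big_of_path {H : SimpleGraph V} {u v : V} (p : H.Walk u v) (hp : p.IsPath)
    (hv : 2 ≤ (nb H v).card) : ∀ x ∈ p.support, x ≠ u → 2 ≤ (nb H x).card := by
  induction p with
  | nil => intro x hx hxu; exact absurd (by simpa using hx) hxu
  | @cons u w v h q ih =>
    intro x hx hxu
    rw [SimpleGraph.Walk.cons_isPath_iff] at hp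
    rw [SimpleGraph.Walk.support_cons, List.mem_cons] at hx
    have hx' := hx.resolve_left hxu
    by_cases hxw : x = w
    · subst hxw
      cases q with
      | nil => exact hv
      | @cons _ z _ h' q' =>
        have hz : u ≠ z := by
          rintro rfl
          exact hp.2 (by simp)
        rw [← card_pair hz]
        refine card_le_card fun y hy => ?_
        rcases mem_insert.mp hy with rfl | hy
        · exact mem_nb.mpr h.symm
        · rw [mem_singleton.mp hy]
          exact mem_nb.mpr h'
    · exact ih hp.1 hv x hx' hxw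

/-- a connected graph with degrees at most two has at most two vertices of degree at most one -/
lemma ends {W : Type} [Fintype W] [DecidableEq W] (K : SimpleGraph W) (hK : K.Connected)
    (h : ∀ w, (nb K w).card ≤ 2) : (sel fun w => (nb K w).card ≤ 1).card ≤ 2 := by
  classical
  have h1 := hK.card_vert_le_card_edgeSet_add_one
  rw [Nat.card_eq_fintype_card, Nat.card_eq_fintype_card, ← SimpleGraph.edgeFinset_card] at h1
  have h2 := K.sum_degrees_eq_twice_card_edges
  have h3 : ∀ w, K.degree w = (nb K w).card := fun w => by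
    rw [← SimpleGraph.card_neighborFinset_eq_degree]
    congr 1
    ext x
    simp
  have h4 : ∑ w, ((nb K w).card + if w ∈ sel fun w => (nb K w).card ≤ 1 then 1 else 0) ≤
      ∑ _w : W, 2 := by
    refine sum_le_sum fun w _ => ?_
    split_ifs with hw
    · have := mem_sel.mp hw
      omega
    · exact h w
  rw [sum_add_distrib, sum_ite_mem, univ_inter, sum_const, sum_const, card_univ, smul_eq_mul,
    smul_eq_mul, ← sum_congr rfl fun w _ => h3 w, h2] at h4
  omega

end Aux2

open Aux2 in
theorem p_Ends : S_Ends := by
  intro V _ _ H r h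
  classical
  set B : Set V := {o | H.Reachable r o ∧ 2 ≤ (nb H o).card} with hB
  rcases B.eq_empty_or_nonempty with h0 | h0
  · rw [card_eq_zero.mpr]
    · omega
    · refine eq_empty_of_forall_notMem fun o ho => ?_
      have := mem_sel.mp ho
      have h1 : o ∈ B := ⟨this.1, this.2.1⟩
      rw [h0] at h1
      exact h1
  have := h0.to_subtype
  have hc : (H.induce B).Connected := by
    refine ⟨fun u v => ?_⟩
    obtain ⟨p⟩ := u.2.1.symm.trans v.2.1
    refine ⟨p.bypass.induce B fun x hx => ⟨?_, ?_⟩⟩
    · exact u.2.1.trans ⟨p.bypass.takeUntil x hx⟩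
    · by_cases hxu : x = u
      · rw [hxu]
        exact u.2.2
      · exact big_of_path _ p.bypass_isPath v.2.2 x hx hxu
  have hd : ∀ w : B, (nb (H.induce B) w).card =
      (sel fun o' => H.Adj w o' ∧ 2 ≤ (nb H o').card).card := by
    intro w
    refine card_bij (fun x _ => x.1) (fun x hx => ?_) (fun x _ y _ hxy => Subtype.ext hxy)
      fun y hy => ?_
    · have h1 : (H.induce B).Adj w x := mem_nb.mp hx
      exact mem_sel.mpr ⟨h1, x.2.2⟩
    · have := mem_sel.mp hy
      exact ⟨⟨y, w.2.1.trans this.1.reachable, this.2⟩, mem_nb.mpr this.1, rfl⟩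
  refine le_trans (le_of_eq ?_) (ends _ hc fun w => (hd w).trans_le (h w))
  symm
  refine card_bij (fun x _ => x.1) (fun x hx => ?_) (fun x _ y _ hxy => Subtype.ext hxy)
    fun y hy => ?_
  · rw [mem_sel] at hx
    exact mem_sel.mpr ⟨x.2.1, x.2.2, (hd x).symm.trans_le hx⟩
  · have := mem_sel.mp hy
    exact ⟨⟨y, this.1, this.2.1⟩, mem_sel.mpr ((hd _).trans_le this.2.2), rfl⟩

theorem p_GrW : S_GrW := by
  intro V _ _ G A Δ ω hΔ hω
  induction A using Finset.strongInduction with
  | H A ih =>
    intro hA
    rcases A.eq_empty_or_nonempty with rfl | hne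
    · exact ⟨∅, subset_rfl, fun a ha => absurd ha (notMem_empty a), by simp⟩
    obtain ⟨v, hv, hmax⟩ := exists_max_image A ω hne
    have hsub : insert v (nb G v ∩ A) ⊆ A := insert_subset hv inter_subset_right
    obtain ⟨I, hI, hind, hs⟩ := ih (A \ insert v (nb G v ∩ A))
      (sdiff_ssubset hsub (insert_nonempty _ _)) fun u hu => by
        refine le_trans ?_ (hA u (mem_sdiff.mp hu).1)
        exact_mod_cast card_le_card (inter_subset_inter_left sdiff_subset)
    have hvI : v ∉ I := fun h => (mem_sdiff.mp (hI h)).2 (mem_insert_self _ _)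
    have hnI : ∀ u ∈ I, ¬ G.Adj v u := fun u hu h =>
      (mem_sdiff.mp (hI hu)).2
        (mem_insert_of_mem (mem_inter.mpr ⟨mem_nb.mpr h, (mem_sdiff.mp (hI hu)).1⟩))
    refine ⟨insert v I, insert_subset hv (hI.trans sdiff_subset), fun a ha b hb => ?_, ?_⟩
    · rcases mem_insert.mp ha with ha' | ha' <;> rcases mem_insert.mp hb with hb' | hb'
      · rw [ha', hb']
        exact G.irrefl
      · rw [ha']
        exact hnI b hb'
      · rw [hb']
        exact fun h => hnI a ha' h.symm
      · exact hind a ha' b hb'
    · have h1 := sum_le_card_nsmul (insert v (nb G v ∩ A)) ω (ω v) fun u hu => hmax u (hsub hu)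
      have h2 : ((insert v (nb G v ∩ A)).card : ℝ) ≤ Δ + 1 := by
        have h3 : ((insert v (nb G v ∩ A)).card : ℝ) ≤ (nb G v ∩ A).card + 1 := by
          exact_mod_cast card_insert_le _ _
        linarith [hA v hv]
      rw [nsmul_eq_mul] at h1
      rw [← sum_sdiff hsub, sum_insert hvI, mul_add]
      nlinarith [hω v]

theorem p_GrL : S_GrL := by
  intro V _ _ G U L
  induction U using Finset.induction_on with
  | empty => exact fun _ => ⟨fun _ => 0, by simp, by simp⟩
  | insert v U hv ih =>
    intro h
    obtain ⟨col, h1, h2⟩ := ih fun u hu =>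
      (card_le_card (inter_subset_inter_left (subset_insert _ _))).trans_lt
        (h u (mem_insert_of_mem hu))
    obtain ⟨c, hc, hc'⟩ := exists_mem_notMem_of_card_lt_card
      ((card_image_le (f := col)).trans_lt (h v (mem_insert_self _ _)))
    have hn : ∀ u ∈ U, G.Adj v u → c ≠ col u := fun u hu huv hcu =>
      hc' (mem_image.mpr ⟨u, mem_inter.mpr ⟨mem_nb.mpr huv, mem_insert_of_mem hu⟩, hcu.symm⟩)
    have e : ∀ u ∈ U, Function.update col v c u = col u := fun u hu =>
      Function.update_of_ne (ne_of_mem_of_not_mem hu hv) _ _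
    refine ⟨Function.update col v c, fun u hu => ?_, fun a ha b hb hab => ?_⟩
    · rcases mem_insert.mp hu with rfl | hu
      · rwa [Function.update_self]
      · rw [e u hu]
        exact h1 u hu
    · rcases mem_insert.mp ha with ha' | ha' <;> rcases mem_insert.mp hb with hb' | hb'
      · rw [ha', hb'] at hab
        exact absurd hab G.irrefl
      · rw [ha'] at hab ⊢
        rw [Function.update_self, e b hb']
        exact hn b hb' hab
      · rw [hb'] at hab ⊢
        rw [Function.update_self, e a ha']
        exact (hn a ha' hab.symm).symm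
      · rw [e a ha', e b hb']
        exact h2 a ha' b hb' hab

end Pool.Agent.P.MP_fb43a4_co.Asy
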