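import Mathlib
import Pool.Agent.P.MP_fb43a4_co.Asy.St

/-!
Bins and batches, part 1: cells near a vertex, and disjoint homogeneous tuples.
-/

namespace Pool.Agent.P.MP_fb43a4_co.Asy
namespace Bin

open Finset

set_option linter.unusedSectionVars false

section geo
variable {V : Type} [Fintype V] [DecidableEq V] {G : SimpleGraph V} {S : Finset V} {x : ℝ}

theorem mem_key {v g : V} : g ∈ key G S v ↔ G.Adj v g ∧ g ∈ S := by simp [key]

theorem mem_cell {v u : V} : u ∈ cell G S v ↔ u ∉ S ∧ key G S u = key G S v := by simp [cell]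

theorem near_key {u v : V} (hu : Heavy G S x u) (h : key G S v = key G S u) : Near G 2 u v := by
  obtain ⟨_, ⟨g, hg, _⟩, _⟩ := hu
  have hg' : g ∈ key G S v := by rw [h]; exact hg
  exact (Near.of_adj (mem_key.1 hg).1).trans (Near.of_adj (mem_key.1 hg').1.symm)

theorem near_cg {u v : V} (h : (cg G S x).Adj u v) : Near G 5 u v := by
  obtain ⟨_, hu, hv, h | ⟨u', hu', v', hv', h⟩⟩ := h
  · exact (near_key hu h.symm).mono (by norm_num)
  · exact ((near_key hu (mem_cell.1 hu').2).trans (Near.of_adj h)).trans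
      (near_key hv (mem_cell.1 hv').2).symm

theorem near_map {W : Type} [Fintype W] [DecidableEq W] {X : SimpleGraph V} {Y : SimpleGraph W}
    (f : V → W) (c : ℕ) (h : ∀ u v, X.Adj u v → Near Y c (f u) (f v)) {n : ℕ} {u v : V}
    (hn : Near X n u v) : Near Y (c * n) (f u) (f v) := by
  obtain ⟨p, hp⟩ := hn
  have key : ∀ {a b : V} (q : X.Walk a b), Near Y (c * q.length) (f a) (f b) := by
    intro a b q
    induction q with
    | nil => exact Near.refl _ _ _
    | cons hab q ih =>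
      refine ((h _ _ hab).trans ih).mono ?_
      rw [SimpleGraph.Walk.length_cons, mul_add, mul_one, add_comm]
  exact (key p).mono (Nat.mul_le_mul_left c hp)

theorem guard (hcf : CF G) {u v g g' : V} (hg : g ∈ key G S u) (hg' : g' ∈ key G S u)
    (hne : g ≠ g') (hna : ¬ G.Adj g g') (huv : G.Adj u v) (hv : v ∉ S) :
    g ∈ key G S v ∨ g' ∈ key G S v := by
  obtain ⟨h1, h2⟩ := mem_key.1 hg
  obtain ⟨h3, h4⟩ := mem_key.1 hg'
  have n1 : g ≠ v := fun e => hv (e ▸ h2)
  have n2 : g' ≠ v := fun e => hv (e ▸ h4)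
  rcases hcf u g g' v h1 h3 huv hne n1 n2 with h | h | h
  · exact absurd h hna
  · exact Or.inl (mem_key.2 ⟨h.symm, h2⟩)
  · exact Or.inr (mem_key.2 ⟨h.symm, h4⟩)

/-- traces of heavy vertices containing a given vertex -/
noncomputable def KK (G : SimpleGraph V) (S : Finset V) (x : ℝ) (g : V) : Finset (Finset V) :=
  (sel fun u => Heavy G S x u ∧ g ∈ key G S u).image (key G S)

theorem mem_KK {g u : V} (hu : Heavy G S x u) (hg : g ∈ key G S u) : key G S u ∈ KK G S x g :=
  mem_image_of_mem _ (mem_sel.2 ⟨hu, hg⟩)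

theorem card_KK (g : V) : ((KK G S x g).card : ℝ) * x ≤ (nb G g).card := by
  have h1 : ∑ K ∈ KK G S x g, ((nb G g).filter fun i => key G S i = K).card ≤ (nb G g).card := by
    rw [Finset.sum_card_fiberwise_eq_card_filter]
    exact card_filter_le _ _
  have h2 : ∀ K ∈ KK G S x g, x ≤ (((nb G g).filter fun i => key G S i = K).card : ℝ) := by
    intro K hK
    obtain ⟨u, hu, rfl⟩ := mem_image.1 hK
    obtain ⟨hh, hg⟩ := mem_sel.1 hu
    refine hh.2.2.trans (Nat.cast_le.2 (card_le_card fun w hw => ?_))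
    have hk := (mem_cell.1 hw).2
    have hg' : g ∈ key G S w := by rw [hk]; exact hg
    exact mem_filter.2 ⟨mem_nb.2 (mem_key.1 hg').1.symm, hk⟩
  calc ((KK G S x g).card : ℝ) * x = ∑ _K ∈ KK G S x g, x := by simp
    _ ≤ ∑ K ∈ KK G S x g, (((nb G g).filter fun i => key G S i = K).card : ℝ) :=
        sum_le_sum h2
    _ ≤ _ := by exact_mod_cast h1

/-- graph on the traces -/
def KG (G : SimpleGraph V) (S : Finset V) (x : ℝ) : SimpleGraph (Finset V) where
  Adj K K' := K ≠ K' ∧ ∃ u v, (cg G S x).Adj u v ∧ key G S u = K ∧ key G S v = K'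
  symm := ⟨fun _ _ ⟨h1, u, v, h, h2, h3⟩ => ⟨h1.symm, v, u, h.symm, h3, h2⟩⟩
  loopless := ⟨fun _ h => h.1 rfl⟩

theorem deg_KG (hcf : CF G) {M : ℕ} (hM : ∀ g, (KK G S x g).card ≤ M) (K : Finset V) :
    (nb (KG G S x) K).card ≤ 2 * M := by
  rcases (nb (KG G S x) K).eq_empty_or_nonempty with h | ⟨K0, hK0⟩
  · simp [h]
  obtain ⟨_, u0, v0, h0, rfl, _⟩ := mem_nb.1 hK0
  obtain ⟨_, ⟨g, hg, g', hg', hne, hna⟩, _⟩ := h0.2.1
  have hsub : nb (KG G S x) (key G S u0) ⊆ KK G S x g ∪ KK G S x g' := by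
    intro K' hK'
    obtain ⟨hKK, u, v, ⟨_, _, hv, h | ⟨u', hu', v', hv', h⟩⟩, h2, rfl⟩ := mem_nb.1 hK'
    · exact absurd (h2.symm.trans h) hKK
    · have e1 : key G S u' = key G S u0 := (mem_cell.1 hu').2.trans h2
      have e2 : key G S v' = key G S v := (mem_cell.1 hv').2
      rcases guard hcf (u := u') (by rw [e1]; exact hg) (by rw [e1]; exact hg') hne hna h
        (mem_cell.1 hv').1 with h' | h'
      · exact mem_union_left _ (mem_KK hv (e2 ▸ h'))
      · exact mem_union_right _ (mem_KK hv (e2 ▸ h'))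
  have := (card_le_card hsub).trans (card_union_le _ _)
  have h1 := hM g
  have h2 := hM g'
  omega

theorem near_KG {n : ℕ} {u v : V} (h : Near (cg G S x) n u v) :
    Near (KG G S x) n (key G S u) (key G S v) := by
  have := near_map (Y := KG G S x) (key G S) 1 (fun a b hab => ?_) h
  · simpa using this
  · by_cases e : key G S a = key G S b
    · rw [e]; exact Near.refl _ _ _
    · exact Near.of_adj ⟨e, a, b, hab, rfl, rfl⟩

theorem key_nb (hcf : CF G) {u v : V} (hu : Heavy G S x u) (h : G.Adj v u) :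
    key G S u ∈ (insert v (key G S v)).biUnion (KK G S x) := by
  by_cases hv : v ∈ S
  · exact mem_biUnion.2 ⟨v, mem_insert_self _ _, mem_KK hu (mem_key.2 ⟨h.symm, hv⟩)⟩
  · obtain ⟨_, ⟨g, hg, g', hg', hne, hna⟩, _⟩ := id hu
    rcases guard hcf hg hg' hne hna h.symm hv with h' | h'
    · exact mem_biUnion.2 ⟨g, mem_insert_of_mem h', mem_KK hu hg⟩
    · exact mem_biUnion.2 ⟨g', mem_insert_of_mem h', mem_KK hu hg'⟩

/-- names of bins whose traces are close to a trace of a heavy neighbour of `v` -/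
noncomputable def binsAt (G : SimpleGraph V) (S : Finset V) (x : ℝ) (s : ℕ) (v : V) :
    Finset (Finset (Fin s) × (Fin s → Finset V)) :=
  univ ×ˢ ((insert v (key G S v)).biUnion (KK G S x)).biUnion fun K =>
    Fintype.piFinset fun _ : Fin s => sel (Near (KG G S x) s K)

theorem card_binsAt (hBall : S_Ball) (hcf : CF G) {M m s : ℕ} (hM : ∀ g, (KK G S x g).card ≤ M)
    {v : V} (hm : (key G S v).card ≤ m) :
    (binsAt G S x s v).card ≤ 2 ^ s * (((m + 1) * M) * ((2 * M + 1) ^ s) ^ s) := by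
  unfold binsAt
  rw [card_product, card_univ, Fintype.card_finset, Fintype.card_fin]
  refine Nat.mul_le_mul_left _ ?_
  refine (card_biUnion_le_card_mul _ _ (((2 * M + 1) ^ s) ^ s) fun K _ => ?_).trans
    (Nat.mul_le_mul_right _ ?_)
  · rw [Fintype.card_piFinset, prod_const, card_univ, Fintype.card_fin]
    exact Nat.pow_le_pow_left (hBall _ (KG G S x) (2 * M) s K (deg_KG hcf hM)) s
  · refine (card_biUnion_le_card_mul _ _ M fun g _ => hM g).trans (Nat.mul_le_mul_right _ ?_)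
    exact (card_insert_le _ _).trans (by omega)

theorem enum {s : ℕ} (p : Finset V) (hne : p.Nonempty) (hs : p.card ≤ s) :
    ∃ (c : Finset (Fin s)) (e : Fin s → V), (∀ a, e a ∈ p) ∧
      (∀ a ∈ c, ∀ a' ∈ c, e a = e a' → a = a') ∧ ∀ v ∈ p, ∃ a ∈ c, e a = v := by
  obtain ⟨j⟩ : Nonempty (p ↪ Fin s) := Function.Embedding.nonempty_of_card_le (by simpa using hs)
  have : Nonempty p := hne.to_subtype
  have hj : ∀ t, Function.invFun j (j t) = t := Function.leftInverse_invFun j.injective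
  refine ⟨univ.image j, fun a => (Function.invFun j a).1, fun a => (Function.invFun j a).2,
    fun a ha a' ha' h => ?_, fun v hv => ⟨j ⟨v, hv⟩, mem_image_of_mem _ (mem_univ _), ?_⟩⟩
  · obtain ⟨t, _, rfl⟩ := mem_image.1 ha
    obtain ⟨t', _, rfl⟩ := mem_image.1 ha'
    simp only [hj] at h
    rw [Subtype.ext h]
  · simp only [hj]

end geo

section batch
variable {α χ : Type} [DecidableEq α] {W R : ℕ}

/-- homogeneous tuple -/
def Hom (col : α → α → χ) (f : Fin W → α) : Prop :=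
  ∀ i j i' j', i < j → i' < j' → col (f i) (f j) = col (f i') (f j')

theorem batch (hW : 0 < W) (col : α → α → χ)
    (hR : ∀ S : Finset α, R ≤ S.card → ∃ f : Fin W → α, Function.Injective f ∧ (∀ i, f i ∈ S) ∧
      Hom col f) (S : Finset α) :
    ∃ (F : Finset (Fin W → α)) (Dr : Finset α), Dr.card ≤ R ∧
      (∀ p ∈ S, p ∈ Dr ∨ ∃ f ∈ F, ∃ i, f i = p) ∧
      (∀ f ∈ F, Function.Injective f ∧ (∀ i, f i ∈ S) ∧ Hom col f) ∧
      ∀ f ∈ F, ∀ g ∈ F, ∀ i j, f i = g j → f = g := by
  induction S using Finset.strongInduction with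
  | H S ih =>
    by_cases hS : R ≤ S.card
    · obtain ⟨f, hf1, hf2, hf3⟩ := hR S hS
      have hlt : S \ univ.image f ⊂ S := by
        refine ⟨sdiff_subset, fun h => ?_⟩
        have := h (hf2 ⟨0, hW⟩)
        simp at this
      obtain ⟨F, Dr, h1, h2, h3, h4⟩ := ih _ hlt
      have hno : ∀ g ∈ F, ∀ i j, f i ≠ g j := by
        intro g hg i j e
        have := (h3 g hg).2.1 j
        rw [← e] at this
        simp at this
      refine ⟨insert f F, Dr, h1, fun p hp => ?_, fun g hg => ?_, fun g hg g' hg' i j e => ?_⟩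
      · by_cases hpf : p ∈ univ.image f
        · obtain ⟨i, _, hi⟩ := mem_image.1 hpf
          exact Or.inr ⟨f, mem_insert_self _ _, i, hi⟩
        · rcases h2 p (mem_sdiff.2 ⟨hp, hpf⟩) with h | ⟨g, hg, i, hi⟩
          · exact Or.inl h
          · exact Or.inr ⟨g, mem_insert_of_mem hg, i, hi⟩
      · rcases mem_insert.1 hg with rfl | hg
        · exact ⟨hf1, hf2, hf3⟩
        · exact ⟨(h3 g hg).1, fun i => (mem_sdiff.1 ((h3 g hg).2.1 i)).1, (h3 g hg).2.2⟩
      · rcases mem_insert.1 hg with e1 | hg1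
        · rcases mem_insert.1 hg' with e2 | hg2
          · rw [e1, e2]
          · exact absurd (e1 ▸ e) (hno g' hg2 i j)
        · rcases mem_insert.1 hg' with e2 | hg2
          · exact absurd (e2 ▸ e.symm) (hno g hg1 j i)
          · exact h4 g hg1 g' hg2 i j e
    · exact ⟨∅, S, by omega, fun p hp => Or.inl hp, by simp, by simp⟩

theorem batches [Fintype α] {K : Type} [DecidableEq K] (hW : 0 < W) (col : α → α → χ)
    (hR : ∀ S : Finset α, R ≤ S.card → ∃ f : Fin W → α, Function.Injective f ∧ (∀ i, f i ∈ S) ∧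
      Hom col f) (bk : α → K) (T : ℝ) (hT : (R : ℝ) ≤ T) :
    ∃ F : Finset (Fin W → α),
      (∀ f ∈ F, Function.Injective f ∧ (∀ i j, bk (f i) = bk (f j)) ∧ Hom col f) ∧
      (∀ f ∈ F, ∀ g ∈ F, ∀ i j, f i = g j → f = g) ∧
      (∀ f ∈ F, ∀ i, T ≤ ((W * (F.filter fun g => bk (g i) = bk (f i)).card : ℕ) : ℝ)) ∧
      ∀ β, ((sel fun p => bk p = β ∧ ∀ f ∈ F, ∀ i, f i ≠ p).card : ℝ) ≤ 2 * T := by
  classical
  choose F0 Dr h1 h2 h3 h4 using fun β : K => batch hW col hR (univ.filter fun p => bk p = β)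
  have hb : ∀ β, ∀ f ∈ F0 β, ∀ i, bk (f i) = β := fun β f hf i =>
    (mem_filter.1 ((h3 β f hf).2.1 i)).2
  have hR0 : (0 : ℝ) ≤ R := Nat.cast_nonneg _
  refine ⟨sel fun f => ∃ β, 2 * T ≤ ((univ.filter fun p => bk p = β).card : ℝ) ∧ f ∈ F0 β,
    fun f hf => ?_, fun f hf g hg i j e => ?_, fun f hf i => ?_, fun β => ?_⟩
  · obtain ⟨β, _, hf⟩ := mem_sel.1 hf
    exact ⟨(h3 β f hf).1, fun i j => (hb β f hf i).trans (hb β f hf j).symm, (h3 β f hf).2.2⟩
  · obtain ⟨β, _, hf⟩ := mem_sel.1 hf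
    obtain ⟨β', _, hg⟩ := mem_sel.1 hg
    have : β = β' := by rw [← hb β f hf i, ← hb β' g hg j, e]
    subst this
    exact h4 β f hf g hg i j e
  · obtain ⟨β, hβ, hf⟩ := mem_sel.1 hf
    have hsub : (univ.filter fun p => bk p = β) ⊆ Dr β ∪ (F0 β).biUnion fun g => univ.image g := by
      intro p hp
      rcases h2 β p hp with h | ⟨g, hg, j, hj⟩
      · exact mem_union_left _ h
      · exact mem_union_right _ (mem_biUnion.2 ⟨g, hg, mem_image.2 ⟨j, mem_univ _, hj⟩⟩)
    have c1 := (card_le_card hsub).trans (card_union_le _ _)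
    have c2 : ((F0 β).biUnion fun g => univ.image g).card ≤ (F0 β).card * W :=
      card_biUnion_le_card_mul _ _ W fun g _ => card_image_le.trans (by simp)
    have c3 : (F0 β).card ≤ ((sel fun f => ∃ β, 2 * T ≤
        ((univ.filter fun p => bk p = β).card : ℝ) ∧ f ∈ F0 β).filter
          fun g => bk (g i) = bk (f i)).card := by
      refine card_le_card fun g hg => mem_filter.2 ⟨mem_sel.2 ⟨β, hβ, hg⟩, ?_⟩
      rw [hb β g hg, hb β f hf]
    have c4 := h1 β
    have c5 := Nat.mul_le_mul_left W c3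
    have c6 : (univ.filter fun p => bk p = β).card ≤ R + W * (F0 β).card := by
      rw [mul_comm W]; omega
    have c7 : ((univ.filter fun p => bk p = β).card : ℝ) ≤ R + ((W * (F0 β).card : ℕ) : ℝ) := by
      exact_mod_cast c6
    have c8 := (Nat.cast_le (α := ℝ)).2 c5
    linarith
  · by_cases hβ : 2 * T ≤ ((univ.filter fun p => bk p = β).card : ℝ)
    · have hsub : (sel fun p => bk p = β ∧ ∀ f ∈ (sel fun f : Fin W → α => ∃ β, 2 * T ≤
          ((univ.filter fun p => bk p = β).card : ℝ) ∧ f ∈ F0 β), ∀ i, f i ≠ p) ⊆ Dr β := by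
        intro p hp
        obtain ⟨e, hp⟩ := mem_sel.1 hp
        rcases h2 β p (mem_filter.2 ⟨mem_univ _, e⟩) with h | ⟨g, hg, j, hj⟩
        · exact h
        · exact absurd hj (hp g (mem_sel.2 ⟨β, hβ, hg⟩) j)
      have c1 := (Nat.cast_le (α := ℝ)).2 ((card_le_card hsub).trans (h1 β))
      linarith
    · refine le_trans (Nat.cast_le.2 (card_le_card fun p hp => ?_)) (not_le.1 hβ).le
      exact mem_filter.2 ⟨mem_univ _, (mem_sel.1 hp).1⟩

theorem rep {α K : Type} (bk : α → K) :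
    ∃ r : α → α, (∀ p, bk (r p) = bk p) ∧ ∀ p q, bk p = bk q → r p = r q := by
  by_cases h : Nonempty α
  · exact ⟨fun p => Function.invFun bk (bk p), fun p => Function.invFun_eq ⟨p, rfl⟩,
      fun p q e => by simp only [e]⟩
  · exact ⟨id, fun p => rfl, fun p => absurd ⟨p⟩ h⟩

end batch

end Bin
end Pool.Agent.P.MP_fb43a4_co.Asy
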