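import Mathlib
import Pool.Agent.P.MP_fb43a4_co.Asy.Bin1

/-!
Bins and batches, part 2: construction of the batches and the count of dropped vertices.
-/

namespace Pool.Agent.P.MP_fb43a4_co.Asy
namespace Bin

open Finset

set_option linter.unusedSectionVars false

variable {V : Type} [Fintype V] [DecidableEq V] {G : SimpleGraph V} {S : Finset V} {x : ℝ}

/-- enumerated pieces -/
structure En (G : SimpleGraph V) (S : Finset V) (x : ℝ) (φ : V → ℕ) {s : ℕ} {α : Type}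
    (c : α → Finset (Fin s)) (e : α → Fin s → V) : Prop where
  hv : ∀ p a, Heavy G S x (e p a)
  dis : ∀ p q a a', e p a = e q a' → p = q
  inj : ∀ p, ∀ a ∈ c p, ∀ a' ∈ c p, e p a = e p a' → a = a'
  cls : ∀ p a a', φ (e p a) = φ (e p a')
  near : ∀ p a a', Near (cg G S x) s (e p a) (e p a')
  sep : ∀ p q a a', φ (e p a) = φ (e q a') → (cg G S x).Adj (e p a) (e q a') → p = q

/-- name of the bin of a piece -/
noncomputable def bk (G : SimpleGraph V) (S : Finset V) {s : ℕ} {α : Type}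
    (c : α → Finset (Fin s)) (e : α → Fin s → V) (p : α) :
    Finset (Fin s) × (Fin s → Finset V) := (c p, fun a => key G S (e p a))

theorem bk_key {s : ℕ} {α : Type} {c : α → Finset (Fin s)} {e : α → Fin s → V} {p q : α}
    (h : bk G S c e p = bk G S c e q) (a : Fin s) : key G S (e p a) = key G S (e q a) :=
  congrFun (congrArg Prod.snd h) a

theorem bk_col {s : ℕ} {α : Type} {c : α → Finset (Fin s)} {e : α → Fin s → V} {p q : α}
    (h : bk G S c e p = bk G S c e q) : c p = c q := congrArg Prod.fst h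

theorem build {Hub : Finset V} {k s W : ℕ} {φ : V → ℕ} {α : Type} [Fintype α] [DecidableEq α]
    (hA : Amb G Hub k φ) (hS : Hub ⊆ S) (hI : ∀ v I, Ind G I → (nb G v ∩ I).card ≤ 2)
    (hW : 3 ≤ W) {c : α → Finset (Fin s)} {e : α → Fin s → V} (hE : En G S x φ c e)
    (a0 : α → Fin s) (T : ℝ) (F : Finset (Fin W → α))
    (h1 : ∀ f ∈ F, Function.Injective f ∧ (∀ i j, bk G S c e (f i) = bk G S c e (f j)) ∧
      Hom (fun p q a a' => G.Adj (e p a) (e q a')) f)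
    (h2 : ∀ f ∈ F, ∀ g ∈ F, ∀ i j, f i = g j → f = g)
    (h3 : ∀ f ∈ F, ∀ i, T ≤
      ((W * (F.filter fun g => bk G S c e (g i) = bk G S c e (f i)).card : ℕ) : ℝ)) :
    ∃ b : Bat V W s, b.Ok G k (5 * s + 2) T ∧
      ∀ u, u ∈ b.kept ↔ ∃ f ∈ F, ∃ i, ∃ a ∈ c (f i), e (f i) a = u := by
  obtain ⟨r, hr1, hr2⟩ := rep (bk G S c e)
  let i0 : Fin W := ⟨0, by omega⟩
  let i1 : Fin W := ⟨1, by omega⟩
  let i2 : Fin W := ⟨2, by omega⟩
  have l01 : i0 < i1 := by simp [i0, i1, Fin.lt_def]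
  have l02 : i0 < i2 := by simp [i0, i2, Fin.lt_def]
  have l12 : i1 < i2 := by simp [i1, i2, Fin.lt_def]
  let b : Bat V W s :=
    { B := {f // f ∈ F}
      cols := fun f => c (f.1 i0)
      x := fun f i a => e (f.1 i) a
      rho := fun f a a' => G.Adj (e (f.1 i0) a) (e (f.1 i1) a')
      bin := fun f => e (r (f.1 i0)) (a0 (r (f.1 i0)))
      cls := fun f i => φ (e (f.1 i) (a0 (f.1 i))) }
  have hnh : ∀ p a, e p a ∉ Hub := fun p a h => (hE.hv p a).1 (hS h)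
  have hbin : ∀ f g : b.B, b.bin f = b.bin g ↔ bk G S c e (f.1 i0) = bk G S c e (g.1 i0) := by
    intro f g
    constructor
    · intro h
      have := hE.dis _ _ _ _ h
      rw [← hr1 (f.1 i0), this, hr1]
    · intro h
      show e (r (f.1 i0)) (a0 (r (f.1 i0))) = e (r (g.1 i0)) (a0 (r (g.1 i0)))
      rw [hr2 _ _ h]
  have hreg : ∀ (f : b.B) (i : Fin W), ∀ u ∈ b.reg (b.bin f),
      ∃ a, u ∉ S ∧ key G S u = key G S (e (f.1 i) a) := by
    intro f i u hu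
    obtain ⟨g, j, a, _, hg, rfl⟩ := mem_sel.1 hu
    refine ⟨a, (hE.hv _ _).1, bk_key (c := c) ?_ a⟩
    exact ((h1 g.1 g.2).2.1 j i0).trans (((hbin g f).1 hg).trans ((h1 f.1 f.2).2.1 i0 i))
  have hpat : ∀ (f : b.B) (i j : Fin W), i < j → ∀ a a',
      (G.Adj (e (f.1 i) a) (e (f.1 j) a') ↔ b.rho f a a') := by
    intro f i j hij a a'
    have := congrFun (congrFun ((h1 f.1 f.2).2.2 i j i0 i1 hij l01) a) a'
    exact Iff.of_eq this
  have hpair : ∀ (f g : b.B) (i j : Fin W), f.1 i = g.1 j → f = g ∧ i = j := by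
    intro f g i j h
    have h' : f = g := Subtype.ext (h2 f.1 f.2 g.1 g.2 i j h)
    subst h'
    exact ⟨rfl, (h1 f.1 f.2).1 h⟩
  refine ⟨b, ⟨?_, ?_, ?_, ?_, ?_, ?_, ?_, ?_, ?_⟩, ?_⟩
  · intro f i a ha g j a' ha' h
    obtain ⟨rfl, rfl⟩ := hpair f g i j (hE.dis _ _ _ _ h)
    have hc : c (f.1 i0) = c (f.1 i) := bk_col ((h1 f.1 f.2).2.1 i0 i)
    exact ⟨rfl, rfl, hE.inj (f.1 i) a (hc ▸ ha) a' (hc ▸ ha') h⟩
  · intro f i a _ a' _ h
    exact hA.prop _ _ (hnh _ _) (hnh _ _) h (hE.cls _ _ _)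
  · intro f i j hij a _ a' _
    exact hpat f i j hij a a'
  · intro f a _
    obtain ⟨_, ⟨g, hg, _⟩, _⟩ := hE.hv (f.1 i0) a
    have hadj : ∀ i, G.Adj g (e (f.1 i) a) := fun i => by
      have : g ∈ key G S (e (f.1 i) a) := by
        rw [bk_key ((h1 f.1 f.2).2.1 i i0) a]; exact hg
      exact (mem_key.1 this).1.symm
    have hne : ∀ i j, i < j → e (f.1 i) a ≠ e (f.1 j) a := fun i j hij h =>
      hij.ne ((h1 f.1 f.2).1 (hE.dis _ _ _ _ h))
    rcases hA.cf g _ _ _ (hadj i0) (hadj i1) (hadj i2) (hne _ _ l01) (hne _ _ l02)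
      (hne _ _ l12) with h | h | h
    · exact (hpat f _ _ l01 a a).1 h
    · exact (hpat f _ _ l02 a a).1 h
    · exact (hpat f _ _ l12 a a).1 h
  · intro f i
    exact hA.lt _ (hnh _ _)
  · intro f i g j hne hcls
    have hpq : f.1 i ≠ g.1 j := fun h => by
      obtain ⟨rfl, rfl⟩ := hpair f g i j h
      exact hne rfl
    have hno : ∀ a a', ¬ (cg G S x).Adj (e (f.1 i) a) (e (g.1 j) a') := fun a a' h =>
      hpq (hE.sep _ _ _ _ (((hE.cls _ _ _).trans hcls).trans (hE.cls _ _ _)) h)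
    have hdi : ∀ a a', e (f.1 i) a ≠ e (g.1 j) a' := fun a a' h => hpq (hE.dis _ _ _ _ h)
    refine ⟨fun h => ?_, fun u hu v hv huv => ?_⟩
    · have hb : bk G S c e (f.1 i) = bk G S c e (g.1 j) :=
        ((h1 f.1 f.2).2.1 i i0).trans (((hbin f g).1 h).trans ((h1 g.1 g.2).2.1 i0 j))
      exact hno (a0 (f.1 i)) (a0 (f.1 i))
        ⟨hdi _ _, hE.hv _ _, hE.hv _ _, Or.inl (bk_key hb _)⟩
    · obtain ⟨a, hu1, hu2⟩ := hreg f i u hu
      obtain ⟨a', hv1, hv2⟩ := hreg g j v hv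
      exact hno a a' ⟨hdi _ _, hE.hv _ _, hE.hv _ _,
        Or.inr ⟨u, mem_cell.2 ⟨hu1, hu2⟩, v, mem_cell.2 ⟨hv1, hv2⟩, huv⟩⟩
  · intro v I hind
    rcases (b.reg v).eq_empty_or_nonempty with h | ⟨u0, hu0⟩
    · simp [h]
    obtain ⟨f, _, _, _, rfl, _⟩ := mem_sel.1 hu0
    have hg : ∀ a, ∃ g, g ∈ key G S (e (f.1 i0) a) := fun a => by
      obtain ⟨_, ⟨g, hg, _⟩, _⟩ := hE.hv (f.1 i0) a
      exact ⟨g, hg⟩
    choose g hg using hg
    have hsub : I ∩ b.reg (b.bin f) ⊆ univ.biUnion fun a => nb G (g a) ∩ I := by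
      intro u hu
      obtain ⟨a, _, hu2⟩ := hreg f i0 u (mem_inter.1 hu).2
      have : g a ∈ key G S u := by rw [hu2]; exact hg a
      exact mem_biUnion.2 ⟨a, mem_univ _,
        mem_inter.2 ⟨mem_nb.2 (mem_key.1 this).1.symm, (mem_inter.1 hu).1⟩⟩
    refine (card_le_card hsub).trans ((card_biUnion_le_card_mul _ _ 2 fun a _ =>
      hI _ I hind).trans ?_)
    simp [mul_comm]
  · intro v u hu
    obtain ⟨f, i, a, _, rfl, rfl⟩ := mem_sel.1 hu
    have n1 : Near G (5 * s) (e (r (f.1 i0)) (a0 (r (f.1 i0)))) (e (r (f.1 i0)) a) :=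
      near_map id 5 (fun _ _ h => near_cg h) (hE.near _ _ _)
    have hb : bk G S c e (f.1 i) = bk G S c e (r (f.1 i0)) :=
      ((h1 f.1 f.2).2.1 i i0).trans (hr1 _).symm
    exact n1.trans (near_key (hE.hv _ _) (bk_key hb a))
  · intro f
    refine (h3 f.1 f.2 i0).trans (Nat.cast_le.2 (Nat.mul_le_mul_left W ?_))
    refine card_le_card_of_surjOn (fun g : b.B => g.1) fun g hg => ?_
    obtain ⟨hg1, hg2⟩ := mem_filter.1 (mem_coe.1 hg)
    exact ⟨⟨g, hg1⟩, mem_coe.2 (mem_sel.2 ((hbin ⟨g, hg1⟩ f).2 hg2)), rfl⟩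
  · intro u
    constructor
    · intro hu
      obtain ⟨f, i, a, ha, rfl⟩ := mem_sel.1 hu
      have hc : c (f.1 i0) = c (f.1 i) := bk_col ((h1 f.1 f.2).2.1 i0 i)
      exact ⟨f.1, f.2, i, a, hc ▸ ha, rfl⟩
    · rintro ⟨f, hf, i, a, ha, rfl⟩
      have hc : c (f i) = c (f i0) := bk_col ((h1 f hf).2.1 i i0)
      have ha' : a ∈ c (f i0) := hc ▸ ha
      exact mem_sel.2 ⟨⟨f, hf⟩, i, a, ha', rfl⟩

theorem pieces {Hub H : Finset V} {s : ℕ} {φ : V → ℕ} {D : ℝ} {pc : V → Finset V}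
    (hP : Pieces G Hub S φ x D s H pc) :
    ∃ (c : {p // p ∈ H.image pc} → Finset (Fin s)) (e : {p // p ∈ H.image pc} → Fin s → V),
      En G S x φ c e ∧ ∀ u ∈ H, ∃ p, ∃ a ∈ c p, e p a = u := by
  have hw : ∀ p : {p // p ∈ H.image pc}, ∃ w ∈ H, pc w = p.1 := fun p => mem_image.1 p.2
  have hen : ∀ p : {p // p ∈ H.image pc}, ∃ (c : Finset (Fin s)) (e : Fin s → V),
      (∀ a, e a ∈ p.1) ∧ (∀ a ∈ c, ∀ a' ∈ c, e a = e a' → a = a') ∧
        ∀ v ∈ p.1, ∃ a ∈ c, e a = v := fun p => by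
    obtain ⟨w, hw, h⟩ := hw p
    rw [← h]
    exact enum _ ⟨w, hP.mem w hw⟩ (hP.card w hw)
  choose c e he1 he2 he3 using hen
  have hH : ∀ p a, e p a ∈ H ∧ pc (e p a) = p.1 := fun p a => by
    obtain ⟨w, hw, h⟩ := hw p
    have hm : e p a ∈ pc w := by rw [h]; exact he1 p a
    exact ⟨hP.sub w hw hm, (hP.eq w hw _ hm).trans h⟩
  have hm : ∀ p a a', e p a' ∈ pc (e p a) := fun p a a' => by rw [(hH p a).2]; exact he1 p a'
  refine ⟨c, e, ⟨fun p a => hP.heavy _ (hH p a).1, fun p q a a' h => ?_, he2,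
    fun p a a' => hP.cls _ (hH p a').1 _ (hm p a' a),
    fun p a a' => hP.near _ (hH p a).1 _ (hm p a a'), fun p q a a' h1 h2 => ?_⟩,
    fun u hu => ⟨⟨pc u, mem_image_of_mem _ hu⟩, he3 _ u (hP.mem u hu)⟩⟩
  · exact Subtype.ext (by rw [← (hH p a).2, ← (hH q a').2, h])
  · have := hP.sep _ (hH p a).1 _ (hH q a').1 h1 h2
    exact Subtype.ext (by rw [← (hH p a).2, ← (hH q a').2, hP.eq _ (hH q a').1 _ this])

end Bin

open Finset Bin in
theorem p_Bin (hRam : S_Ram) (hDeg : S_Deg) (hBall : S_Ball) : S_Bin := by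
  intro δ κ m s W hδ hκ hW
  obtain ⟨R, hR⟩ := hRam (Fin s → Fin s → Prop) W
  obtain ⟨M, hM⟩ := exists_nat_ge (2 / κ)
  obtain ⟨N, hN⟩ : ∃ N : ℕ, N = 2 ^ s * (((m + 1) * M) * ((2 * M + 1) ^ s) ^ s) := ⟨_, rfl⟩
  have hN0 : (0 : ℝ) ≤ 2 * N * s := by positivity
  obtain ⟨κ', hκ'⟩ : ∃ κ' : ℝ, κ' = δ / (2 * N * s + δ) := ⟨_, rfl⟩
  have k0 : 0 < κ' := by rw [hκ']; positivity
  have k1 : κ' * (2 * N * s + δ) = δ := by rw [hκ']; field_simp
  obtain ⟨K0, hK0⟩ := exists_nat_ge (R / κ')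
  refine ⟨κ', K0 + 1, k0, by rw [hκ', div_le_one (by positivity)]; linarith, ?_⟩
  intro k hk V _ _ G Hub S φ D D' H pc hMo hP
  have hk1 : (K0 : ℝ) + 1 ≤ k := by exact_mod_cast hk
  have hkpos : (0 : ℝ) < k := by have : (0 : ℝ) ≤ K0 := Nat.cast_nonneg _; linarith
  have hRT : (R : ℝ) ≤ κ' * k := by
    rw [div_le_iff₀ k0] at hK0
    nlinarith
  obtain ⟨hd1, hd2, -⟩ := hDeg V G Hub k φ hMo.amb
  have hKK : ∀ g, (KK G S (κ * k) g).card ≤ M := fun g => by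
    have h1 := card_KK (G := G) (S := S) (x := κ * k) g
    have h2 : ((nb G g).card : ℝ) ≤ 2 * k := by exact_mod_cast hd1 g
    have h3 : ((KK G S (κ * k) g).card : ℝ) * κ ≤ 2 := by
      refine le_of_mul_le_mul_right ?_ hkpos
      rw [mul_assoc]; linarith
    have h4 : ((KK G S (κ * k) g).card : ℝ) ≤ M := ((le_div_iff₀ hκ).2 h3).trans hM
    exact_mod_cast h4
  obtain ⟨c, e, hE, hsur⟩ := pieces hP
  have ha0 : ∀ p : {p // p ∈ H.image pc}, Nonempty (Fin s) := fun p => by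
    obtain ⟨w, hw, _⟩ := mem_image.1 p.2
    obtain ⟨_, a, _⟩ := hsur w hw
    exact ⟨a⟩
  obtain ⟨F, h1, h2, h3, h4⟩ := batches (W := W) (by omega)
    (fun p q a a' => G.Adj (e p a) (e q a'))
    (fun T hT => hR _ T (fun p q a a' => G.Adj (e p a) (e q a')) hT) (bk G S c e) (κ' * k) hRT
  obtain ⟨b, hb, hkept⟩ := build hMo.amb hMo.sub hd2 hW hE (fun p => (ha0 p).some) (κ' * k) F
    h1 h2 h3
  refine ⟨b, hb, fun u hu => ?_, fun v hv => ?_⟩
  · obtain ⟨f, _, i, a, _, rfl⟩ := (hkept u).1 hu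
    exact hE.hv _ _
  · have hsub : (sel fun u => G.Adj v u ∧ Heavy G S (κ * k) u ∧ u ∉ b.kept) ⊆
        (sel fun u => G.Adj v u ∧ Heavy G S (κ * k) u ∧ u ∉ H) ∪
          (binsAt G S (κ * k) s v).biUnion fun β =>
            (sel fun p => bk G S c e p = β ∧ ∀ f ∈ F, ∀ i, f i ≠ p).biUnion fun p =>
              univ.image (e p) := by
      intro u hu
      obtain ⟨hu1, hu2, hu3⟩ := mem_sel.1 hu
      by_cases huH : u ∈ H
      · obtain ⟨p, a, ha, rfl⟩ := hsur u huH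
        refine mem_union_right _ (mem_biUnion.2 ⟨bk G S c e p, ?_, mem_biUnion.2
          ⟨p, mem_sel.2 ⟨rfl, fun f hf i h => hu3 ?_⟩, mem_image_of_mem _ (mem_univ _)⟩⟩)
        · refine mem_product.2 ⟨mem_univ _, mem_biUnion.2
            ⟨key G S (e p a), key_nb hMo.amb.cf hu2 hu1, Fintype.mem_piFinset.2 fun a' => ?_⟩⟩
          exact mem_sel.2 (near_KG (hE.near p a a'))
        · subst h
          exact (hkept _).2 ⟨f, hf, i, a, ha, rfl⟩
      · exact mem_union_left _ (mem_sel.2 ⟨hu1, hu2, huH⟩)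
    have c1 := (Nat.cast_le (α := ℝ)).2 ((card_le_card hsub).trans (card_union_le _ _))
    have c2 := hP.sparse v hv
    have c3 : ∀ β, (((sel fun p => bk G S c e p = β ∧ ∀ f ∈ F, ∀ i, f i ≠ p).biUnion fun p =>
        univ.image (e p)).card : ℝ) ≤ 2 * (κ' * k) * s := fun β => by
      have d1 := (Nat.cast_le (α := ℝ)).2 (card_biUnion_le_card_mul
        (sel fun p => bk G S c e p = β ∧ ∀ f ∈ F, ∀ i, f i ≠ p) (fun p => univ.image (e p)) s
        fun p _ => card_image_le.trans (by simp))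
      rw [Nat.cast_mul] at d1
      exact d1.trans (mul_le_mul_of_nonneg_right (h4 β) (Nat.cast_nonneg _))
    have c4 := (Nat.cast_le (α := ℝ)).2 (card_biUnion_le (s := binsAt G S (κ * k) s v)
      (t := fun β => (sel fun p => bk G S c e p = β ∧ ∀ f ∈ F, ∀ i, f i ≠ p).biUnion fun p =>
        univ.image (e p)))
    rw [Nat.cast_sum] at c4
    have c5 := c4.trans (sum_le_card_nsmul _ _ _ fun β _ => c3 β)
    have c6 : ((binsAt G S (κ * k) s v).card : ℝ) ≤ N := by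
      rw [hN]; exact_mod_cast card_binsAt hBall hMo.amb.cf hKK (hMo.keyb v hv)
    rw [nsmul_eq_mul] at c5
    have c7 : ((binsAt G S (κ * k) s v).card : ℝ) * (2 * (κ' * k) * s) ≤ N * (2 * (κ' * k) * s) :=
      mul_le_mul_of_nonneg_right c6 (by positivity)
    have c8 : (N : ℝ) * (2 * (κ' * k) * s) ≤ δ * k := by
      have : (N : ℝ) * (2 * (κ' * k) * s) = (κ' * (2 * N * s)) * k := by ring
      rw [this]
      refine mul_le_mul_of_nonneg_right ?_ hkpos.le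
      have : 0 ≤ κ' * δ := by positivity
      linarith
    rw [Nat.cast_add] at c1
    linarith

end Pool.Agent.P.MP_fb43a4_co.Asy
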