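import Mathlib
import Pool.Agent.P.MP_fb43a4_co.Asy.St

/-!
Phase 0 of the colouring process: one coin per cluster.
-/

namespace Pool.Agent.P.MP_fb43a4_co.Asy

open Finset

set_option linter.unusedSectionVars false

namespace Coin

variable {V : Type} [Fintype V] [DecidableEq V] {X : Ctx V}

/-- a state of the coin phase -/
abbrev st (D mg : Finset V) : St V := ⟨D, mg, ∅, fun _ => none⟩

lemma l_pos (h : X.Ok) : (0 : ℝ) < X.l := by
  have h1 := h.w1
  have h2 := h.wk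
  have h3 := h.kl
  exact_mod_cast (by omega : 0 < X.l)

lemma a_lt (h : X.Ok) : 0 < 1 - X.a := by linarith [h.a1]

lemma inv_a_le (h : X.Ok) : 1 / X.a ≤ X.C := by
  have h0 := h.a0
  have h1 := h.a1
  unfold Ctx.C
  rw [div_le_div_iff₀ h0 (by positivity)]
  have : X.a ^ 2 ≤ 1 := by nlinarith
  nlinarith

lemma one_le_g0 (h : X.Ok) : 1 ≤ 1 / (1 - X.a) := by
  rw [le_div_iff₀ (a_lt h)]
  linarith [h.a0]

lemma g0_le (h : X.Ok) : 1 / (1 - X.a) ≤ X.C :=
  (one_div_le_one_div_of_le h.a0 (by linarith [h.a1])).trans (inv_a_le h)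

lemma rr_eq (h : X.Ok) (D mg : Finset V) (u : V) :
    X.rr (st D mg) u = (X.lst (st D mg) u).card := by
  unfold Ctx.rr Ctx.rho
  simp only [sdiff_empty]
  refine max_eq_left (Nat.ceil_le.mpr ?_)
  have h0 := h.a0
  have h1 := h.a1
  have : X.de ≤ 1 := by
    unfold Ctx.de
    nlinarith
  exact mul_le_of_le_one_left (Nat.cast_nonneg _) this

lemma load_dec (h : X.Ok) {D mg : Finset V} {u : V} (hu : u ∈ D) (o : Option ℕ) :
    X.load (st D mg) o u = (X.al (st D mg) o u : ℝ) / (X.lst (st D mg) u).card := by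
  unfold Ctx.load
  simp only [hu, if_true, rr_eq h]

lemma load_und {D mg : Finset V} {u : V} (hu : u ∉ D) (o : Option ℕ) :
    X.load (st D mg) o u = X.pre o u := by
  unfold Ctx.load
  simp only [hu, if_false]

lemma load_bd (h : X.Ok) {D mg : Finset V}
    (hs : ∀ u ∈ D, X.a * X.l ≤ (X.lst (st D mg) u).card) (o : Option ℕ) (u : V) :
    0 ≤ X.load (st D mg) o u ∧ X.load (st D mg) o u ≤ X.C := by
  have hl := l_pos h
  have ha := h.a0
  by_cases hu : u ∈ D
  · rw [load_dec h hu]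
    refine ⟨by positivity, ?_⟩
    have hpos : (0 : ℝ) < (X.lst (st D mg) u).card := lt_of_lt_of_le (by positivity) (hs u hu)
    cases o with
    | none =>
      simp only [Ctx.al]
      rw [div_self hpos.ne']
      exact (one_le_g0 h).trans (g0_le h)
    | some c =>
      refine le_trans ?_ (inv_a_le h)
      rw [div_le_div_iff₀ hpos ha]
      have : (X.al (st D mg) (some c) u : ℝ) ≤ X.l := by
        simp only [Ctx.al]
        split_ifs <;> simp
      nlinarith [hs u hu]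
  · rw [load_und hu]
    have := one_le_g0 h
    have := g0_le h
    cases o with
    | none => simp only [Ctx.pre]; constructor <;> linarith
    | some c =>
      simp only [Ctx.pre]
      split_ifs <;> constructor <;> linarith

lemma load_out {D mg mg' S : Finset V} {u : V} (hu : u ∉ S) (hm : u ∈ mg' ↔ u ∈ mg)
    (o : Option ℕ) : X.load (st (D ∪ S) mg') o u = X.load (st D mg) o u := by
  have hl : X.lst (st (D ∪ S) mg') u = X.lst (st D mg) u := by
    simp only [Ctx.lst, hm]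
  have hr : X.rr (st (D ∪ S) mg') u = X.rr (st D mg) u := by
    simp only [Ctx.rr, Ctx.rho, hl]
  have ha : X.al (st (D ∪ S) mg') o u = X.al (st D mg) o u := by
    cases o <;> simp only [Ctx.al, hl]
  unfold Ctx.load
  simp only [mem_union, hu, or_false, hr, ha]

lemma bud_sum {D mg mg' S : Finset V} (hSD : Disjoint S D) (U : Finset V) :
    ∑ u ∈ U, X.bud (st (D ∪ S) mg') u = ∑ u ∈ U, X.bud (st D mg) u - (S ∩ U).card := by
  have : ((S ∩ U).card : ℝ) = ∑ u ∈ U, if u ∈ S then (1 : ℝ) else 0 := by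
    rw [sum_ite_mem, inter_comm]; simp
  rw [this, ← sum_sub_distrib]
  refine sum_congr rfl fun u _ => ?_
  unfold Ctx.bud
  by_cases hS : u ∈ S
  · have hD : u ∉ D := disjoint_left.mp hSD hS
    simp [hS, hD]
  · simp [hS]

lemma phi_step (h : X.Ok) {D mg m1 m2 S : Finset V} {t : ℝ} (t0 : 0 ≤ t) (t1 : t ≤ 1)
    (hSD : Disjoint S D) (hS : S.card ≤ X.s)
    (hs : ∀ u ∈ D, X.a * X.l ≤ (X.lst (st D mg) u).card)
    (hs1 : ∀ u ∈ D ∪ S, X.a * X.l ≤ (X.lst (st (D ∪ S) m1) u).card)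
    (hs2 : ∀ u ∈ D ∪ S, X.a * X.l ≤ (X.lst (st (D ∪ S) m2) u).card)
    (h1 : ∀ u, u ∉ S → (u ∈ m1 ↔ u ∈ mg)) (h2 : ∀ u, u ∉ S → (u ∈ m2 ↔ u ∈ mg))
    (U : Finset V) (γ : V → ℕ) (n : ℝ) (o : Option ℕ) (hf : Fib U γ X.w)
    (he : ∀ u ∈ S ∩ U, t * X.load (st (D ∪ S) m1) o u + (1 - t) * X.load (st (D ∪ S) m2) o u ≤
      X.pre o u) :
    t * X.phi (st (D ∪ S) m1) U γ n o + (1 - t) * X.phi (st (D ∪ S) m2) U γ n o ≤
      X.phi (st D mg) U γ n o := by
  have key := h.est.coin V U γ (X.w / (1 - X.a)) t (X.load (st D mg) o)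
    (X.load (st (D ∪ S) m1) o) (X.load (st (D ∪ S) m2) o) (S ∩ U) hf
    (div_nonneg (Nat.cast_nonneg _) (a_lt h).le) inter_subset_right
    ((card_le_card inter_subset_left).trans (by omega)) t0 t1
    (fun u _ => ⟨load_bd h hs o u, load_bd h hs1 o u, load_bd h hs2 o u⟩)
    (fun u hu hu' => by
      have : u ∉ S := fun hh => hu' (mem_inter.mpr ⟨hh, hu⟩)
      exact ⟨load_out this (h1 u this) o, load_out this (h2 u this) o⟩)
    (fun u hu => by
      rw [load_und (disjoint_left.mp hSD (mem_inter.mp hu).1)]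
      exact he u hu)
  unfold Ctx.phi
  rw [bud_sum (mg := mg) hSD, bud_sum (mg := mg) hSD]
  set B := ∑ u ∈ U, X.bud (st D mg) u
  set E := Real.exp (X.kap * (B - (S ∩ U).card) - X.lam * (X.β ^ 2 * X.w * n)) with hE
  have e1 : ∀ x : ℝ, Real.exp (x + X.kap * (B - (S ∩ U).card) - X.lam * (X.β ^ 2 * X.w * n)) =
      Real.exp x * E := fun x => by rw [hE, ← Real.exp_add]; congr 1; ring
  have e2 : ∀ x : ℝ, Real.exp (x + X.kap * B - X.lam * (X.β ^ 2 * X.w * n)) =
      Real.exp (x + X.kap * (S ∩ U).card) * E := fun x => by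
    rw [hE, ← Real.exp_add]; congr 1; ring
  rw [e1, e1, e2]
  have := mul_le_mul_of_nonneg_right key (Real.exp_pos _ : 0 < E).le
  linarith

lemma Y_step (h : X.Ok) {D mg m1 m2 S : Finset V} {t : ℝ} (t0 : 0 ≤ t) (t1 : t ≤ 1)
    (hSD : Disjoint S D) (hS : S.card ≤ X.s)
    (hs : ∀ u ∈ D, X.a * X.l ≤ (X.lst (st D mg) u).card)
    (hs1 : ∀ u ∈ D ∪ S, X.a * X.l ≤ (X.lst (st (D ∪ S) m1) u).card)
    (hs2 : ∀ u ∈ D ∪ S, X.a * X.l ≤ (X.lst (st (D ∪ S) m2) u).card)
    (h1 : ∀ u, u ∉ S → (u ∈ m1 ↔ u ∈ mg)) (h2 : ∀ u, u ∉ S → (u ∈ m2 ↔ u ∈ mg)) (v : V)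
    (he : ∀ u ∈ S, Near X.G (X.R + 1) v u → ∀ o,
      t * X.load (st (D ∪ S) m1) o u + (1 - t) * X.load (st (D ∪ S) m2) o u ≤ X.pre o u) :
    t * X.Y (st (D ∪ S) m1) v + (1 - t) * X.Y (st (D ∪ S) m2) v ≤ X.Y (st D mg) v := by
  have hA : ∀ j c, _ := fun j c => phi_step h t0 t1 hSD hS hs hs1 hs2 h1 h2 (X.S.U v j)
    (X.S.γ v j (X.inn c)) (X.S.n v j) (some c) (h.sys.fib v j _) fun u hu =>
      he u (mem_inter.mp hu).1 ((h.sys.unear v j u (mem_inter.mp hu).2).mono (by omega)) _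
  have hB := phi_step h t0 t1 hSD hS hs hs1 hs2 h1 h2 (nb X.G v ∩ X.S.T) (X.γ0 v) X.k none
    (h.fib0 v) fun u hu => he u (mem_inter.mp hu).1
      ((Near.of_adj (mem_nb.mp (mem_inter.mp (mem_inter.mp hu).2).1)).mono (by omega)) _
  have hC := sum_le_sum fun j (_ : j ∈ univ) => sum_le_sum fun c (_ : c ∈ X.pal v) => hA j c
  simp only [sum_add_distrib, ← mul_sum] at hC
  have f1 : X.fr (st (D ∪ S) m1) v = X.fr (st D mg) v := rfl
  have f2 : X.fr (st (D ∪ S) m2) v = X.fr (st D mg) v := rfl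
  unfold Ctx.Y
  rw [f1, f2]
  linarith

lemma Y_nonneg (h : X.Ok) (s : St V) (v : V) : 0 ≤ X.Y s v := by
  unfold Ctx.Y Ctx.phi Ctx.fr
  have h0 := h.a0
  have h1 := h.a1
  have h2 : 0 ≤ 1 - (1 - Real.exp (-1)) * X.a ^ 2 := by
    have := Real.exp_pos (-1)
    nlinarith
  positivity

lemma safe_step (h : X.Ok) (d : ℕ) {D mg m1 m2 : Finset V} {v0 : V} (hv0 : v0 ∈ X.S.T) {t : ℝ}
    (t0 : 0 ≤ t) (t1 : t ≤ 1) (hSD : Disjoint (X.S.cl v0) D)
    (hs : ∀ u ∈ D, X.a * X.l ≤ (X.lst (st D mg) u).card)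
    (hs1 : ∀ u ∈ D ∪ X.S.cl v0, X.a * X.l ≤ (X.lst (st (D ∪ X.S.cl v0) m1) u).card)
    (hs2 : ∀ u ∈ D ∪ X.S.cl v0, X.a * X.l ≤ (X.lst (st (D ∪ X.S.cl v0) m2) u).card)
    (h1 : ∀ u, u ∉ X.S.cl v0 → (u ∈ m1 ↔ u ∈ mg)) (h2 : ∀ u, u ∉ X.S.cl v0 → (u ∈ m2 ↔ u ∈ mg))
    (he : ∀ u ∈ X.S.cl v0, ∀ o, t * X.load (st (D ∪ X.S.cl v0) m1) o u +
      (1 - t) * X.load (st (D ∪ X.S.cl v0) m2) o u ≤ X.pre o u)
    (hsafe : Safe (X.adj d) (X.Y (st D mg))) :
    Safe (X.adj d) (X.Y (st (D ∪ X.S.cl v0) m1)) ∨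
      Safe (X.adj d) (X.Y (st (D ∪ X.S.cl v0) m2)) := by
  have hS := h.sys.card v0 hv0
  obtain ⟨i, -, -, hi⟩ := hsafe.step (fun a b hab => Near.symm hab)
    (sel fun v => ∃ u ∈ X.S.cl v0, Near X.G (X.R + 1) v u) (by
      intro a ha b hb _
      obtain ⟨u, hu, hau⟩ := mem_sel.mp ha
      obtain ⟨u', hu', hbu⟩ := mem_sel.mp hb
      refine (((hau.trans (h.sys.diam v0 hv0 u hu).symm).trans
        (h.sys.diam v0 hv0 u' hu')).trans hbu.symm).mono ?_
      nlinarith [Nat.zero_le (d ^ 2 * (X.R + 1))])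
    (univ : Finset Bool) (fun i => if i then t else 1 - t)
    (fun i => X.Y (st (D ∪ X.S.cl v0) (if i then m1 else m2)))
    (by intro i _; cases i <;> simp [t0, t1]) (by simp)
    (fun i _ a _ => Y_nonneg h _ a)
    (by
      intro i _ a ha
      have hn : ∀ u ∈ X.S.cl v0, ¬ Near X.G (X.R + 1) a u := fun u hu hh =>
        ha (mem_sel.mpr ⟨u, hu, hh⟩)
      cases i
      · have := Y_step h zero_le_one le_rfl hSD hS hs hs2 hs2 h2 h2 a
          fun u hu hh => (hn u hu hh).elim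
        simpa using this
      · have := Y_step h zero_le_one le_rfl hSD hS hs hs1 hs1 h1 h1 a
          fun u hu hh => (hn u hu hh).elim
        simpa using this)
    (by
      intro a _
      have := Y_step h t0 t1 hSD hS hs hs1 hs2 h1 h2 a fun u hu _ => he u hu
      simpa using this)
  cases i
  · exact Or.inr hi
  · exact Or.inl hi

lemma cap_eq (h : X.Ok) {v0 u : V} (hv0 : v0 ∈ X.S.T) (hu : u ∈ X.S.cl v0) :
    X.cap u = X.cap v0 := by
  ext c
  simp only [Ctx.cap, mem_filter, h.sys.eq v0 hv0 u hu]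
  exact ⟨fun hh => ⟨hh.2 _ (h.sys.mem v0 hv0), hh.2⟩, fun hh => ⟨hh.2 _ hu, hh.2⟩⟩

lemma cap_sub (u : V) : X.cap u ⊆ X.L u := filter_subset _ _

lemma card_sep (h : X.Ok) (u : V) :
    ((X.L u \ X.cap u).card : ℝ) = X.l - (X.cap u).card := by
  rw [card_sdiff_of_subset (cap_sub u), Nat.cast_sub (card_le_card (cap_sub u)), h.card]

/-- invariant of the coin phase -/
structure Iv (X : Ctx V) (d : ℕ) (D mg : Finset V) : Prop where
  sub : D ⊆ X.S.T
  cl : ∀ v ∈ D, X.S.cl v ⊆ D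
  msub : mg ⊆ D
  mcl : ∀ v ∈ X.S.T, ∀ u ∈ X.S.cl v, (u ∈ mg ↔ v ∈ mg)
  size : ∀ u ∈ D, X.a * X.l ≤ (X.lst (st D mg) u).card
  safe : Safe (X.adj d) (X.Y (st D mg))

lemma iv_step (h : X.Ok) {d : ℕ} {D mg : Finset V} (hI : Iv X d D mg) {v0 : V}
    (hv0 : v0 ∈ X.S.T) (hv : v0 ∉ D) : ∃ mg', Iv X d (D ∪ X.S.cl v0) mg' := by
  set S := X.S.cl v0 with hSdef
  have hl := l_pos h
  have ha := h.a0
  have ha1 := h.a1
  have hg := one_le_g0 h
  have hSD : Disjoint S D := by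
    rw [disjoint_left]
    intro u hu huD
    apply hv
    apply hI.cl u huD
    rw [h.sys.eq v0 hv0 u hu]
    exact h.sys.mem v0 hv0
  have hsub : D ∪ S ⊆ X.S.T := union_subset hI.sub (h.sys.sub v0 hv0)
  have hcl : ∀ v ∈ D ∪ S, X.S.cl v ⊆ D ∪ S := by
    intro v hv'
    rcases mem_union.mp hv' with h1 | h1
    · exact (hI.cl v h1).trans subset_union_left
    · rw [h.sys.eq v0 hv0 v h1]; exact subset_union_right
  have hSmg : ∀ u ∈ S, u ∉ mg := fun u hu hm => disjoint_left.mp hSD hu (hI.msub hm)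
  have hSiff : ∀ v ∈ X.S.T, ∀ u ∈ X.S.cl v, (u ∈ S ↔ v ∈ S) := by
    intro v hv' u hu
    have e := h.sys.eq v hv' u hu
    constructor
    · intro huS
      rw [hSdef, ← h.sys.eq v0 hv0 u huS, e]
      exact h.sys.mem v hv'
    · intro hvS
      rw [hSdef, ← h.sys.eq v0 hv0 v hvS]
      exact hu
  set A : ℝ := ((X.cap v0).card : ℝ) with hA
  have hA0 : 0 ≤ A := Nat.cast_nonneg _
  have lM : ∀ u ∈ S, X.lst (st (D ∪ S) (mg ∪ S)) u = X.cap u := fun u hu => by
    simp [Ctx.lst, hu]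
  have lS : ∀ u ∈ S, X.lst (st (D ∪ S) mg) u = X.L u \ X.cap u := fun u hu => by
    simp [Ctx.lst, hSmg u hu]
  have cM : ∀ u ∈ S, ((X.cap u).card : ℝ) = A := fun u hu => by rw [cap_eq h hv0 hu]
  have cS : ∀ u ∈ S, ((X.L u \ X.cap u).card : ℝ) = X.l - A := fun u hu => by
    rw [card_sep h, cM u hu]
  have oM : ∀ u, u ∉ S → (u ∈ mg ∪ S ↔ u ∈ mg) := fun u hu => by simp [hu]
  have oS : ∀ u, u ∉ S → (u ∈ mg ↔ u ∈ mg) := fun u _ => Iff.rfl
  have sM : X.a * X.l ≤ A →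
      ∀ u ∈ D ∪ S, X.a * X.l ≤ (X.lst (st (D ∪ S) (mg ∪ S)) u).card := by
    intro hh u hu
    by_cases huS : u ∈ S
    · rw [lM u huS, cM u huS]; exact hh
    · have := hI.size u ((mem_union.mp hu).resolve_right huS)
      simpa only [Ctx.lst, oM u huS] using this
  have sS : A ≤ (1 - X.a) * X.l →
      ∀ u ∈ D ∪ S, X.a * X.l ≤ (X.lst (st (D ∪ S) mg) u).card := by
    intro hh u hu
    by_cases huS : u ∈ S
    · rw [lS u huS, cS u huS]; linarith
    · exact hI.size u ((mem_union.mp hu).resolve_right huS)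
  have ivM : X.a * X.l ≤ A → Safe (X.adj d) (X.Y (st (D ∪ S) (mg ∪ S))) →
      Iv X d (D ∪ S) (mg ∪ S) := fun hh hs =>
    ⟨hsub, hcl, union_subset_union_left hI.msub, fun v hv' u hu => by
      rw [mem_union, mem_union, hI.mcl v hv' u hu, hSiff v hv' u hu], sM hh, hs⟩
  have ivS : A ≤ (1 - X.a) * X.l → Safe (X.adj d) (X.Y (st (D ∪ S) mg)) →
      Iv X d (D ∪ S) mg := fun hh hs =>
    ⟨hsub, hcl, hI.msub.trans subset_union_left, hI.mcl, sS hh, hs⟩
  have gM : ∀ u ∈ S, ∀ c, X.load (st (D ∪ S) (mg ∪ S)) (some c) u =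
      if c ∈ X.cap u then X.l / A else 0 := by
    intro u hu c
    rw [load_dec h (mem_union_right _ hu)]
    simp only [Ctx.al, lM u hu, cM u hu]
    split_ifs <;> simp
  have gS : ∀ u ∈ S, ∀ c, X.load (st (D ∪ S) mg) (some c) u =
      if c ∈ X.L u \ X.cap u then X.l / (X.l - A) else 0 := by
    intro u hu c
    rw [load_dec h (mem_union_right _ hu)]
    simp only [Ctx.al, lS u hu, cS u hu]
    split_ifs <;> simp
  have gN : ∀ m, ∀ u ∈ S, X.load (st (D ∪ S) m) none u ≤ 1 := by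
    intro m u hu
    rw [load_dec h (mem_union_right _ hu)]
    exact div_self_le_one _
  have hN : ∀ (t : ℝ) m1 m2, 0 ≤ t → t ≤ 1 → ∀ u ∈ S, t * X.load (st (D ∪ S) m1) none u +
      (1 - t) * X.load (st (D ∪ S) m2) none u ≤ X.pre none u := by
    intro t m1 m2 t0 t1 u hu
    have e1 := mul_le_mul_of_nonneg_left (gN m1 u hu) t0
    have e2 := mul_le_mul_of_nonneg_left (gN m2 u hu) (sub_nonneg.mpr t1)
    simp only [Ctx.pre]
    linarith
  have hal : 0 < X.a * X.l := by positivity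
  by_cases hlow : A < X.a * X.l
  · have hh : A ≤ (1 - X.a) * X.l := by nlinarith
    have := safe_step h d hv0 zero_le_one le_rfl hSD hI.size (sS hh) (sS hh) oS oS (by
      intro u hu o
      cases o with
      | none => exact hN 1 _ _ zero_le_one le_rfl u hu
      | some c =>
        rw [gS u hu, one_mul, sub_self, zero_mul, add_zero]
        simp only [Ctx.pre]
        by_cases hc : c ∈ X.L u \ X.cap u
        · rw [if_pos hc, if_pos (mem_sdiff.mp hc).1,
            div_le_div_iff₀ (by nlinarith) (a_lt h)]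
          nlinarith
        · rw [if_neg hc]
          split_ifs <;> linarith) hI.safe
    exact ⟨mg, ivS hh (this.elim id id)⟩
  by_cases hhigh : (1 - X.a) * X.l < A
  · have hh : X.a * X.l ≤ A := not_lt.mp hlow
    have := safe_step h d hv0 zero_le_one le_rfl hSD hI.size (sM hh) (sM hh) oM oM (by
      intro u hu o
      cases o with
      | none => exact hN 1 _ _ zero_le_one le_rfl u hu
      | some c =>
        rw [gM u hu, one_mul, sub_self, zero_mul, add_zero]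
        simp only [Ctx.pre]
        by_cases hc : c ∈ X.cap u
        · rw [if_pos hc, if_pos (cap_sub u hc), div_le_div_iff₀ (by linarith) (a_lt h)]
          nlinarith
        · rw [if_neg hc]
          split_ifs <;> linarith) hI.safe
    exact ⟨mg ∪ S, ivM hh (this.elim id id)⟩
  have h1 : X.a * X.l ≤ A := not_lt.mp hlow
  have h2 : A ≤ (1 - X.a) * X.l := not_lt.mp hhigh
  have hApos : 0 < A := by linarith
  have hAl : 0 < X.l - A := by nlinarith
  have t0 : 0 ≤ A / X.l := by positivity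
  have t1 : A / X.l ≤ 1 := by rw [div_le_one hl]; linarith
  have := safe_step h d hv0 t0 t1 hSD hI.size (sM h1) (sS h2) oM oS (by
    intro u hu o
    cases o with
    | none => exact hN _ _ _ t0 t1 u hu
    | some c =>
      rw [gM u hu, gS u hu]
      simp only [Ctx.pre]
      by_cases hc : c ∈ X.cap u
      · rw [if_pos hc, if_neg (fun hh => (mem_sdiff.mp hh).2 hc), if_pos (cap_sub u hc)]
        have : A / X.l * (X.l / A) = 1 := by field_simp
        linarith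
      · rw [if_neg hc]
        by_cases hc' : c ∈ X.L u
        · rw [if_pos (mem_sdiff.mpr ⟨hc', hc⟩), if_pos hc']
          have : (1 - A / X.l) * (X.l / (X.l - A)) = 1 := by field_simp
          linarith
        · rw [if_neg (fun hh => hc' (mem_sdiff.mp hh).1), if_neg hc']
          simp) hI.safe
  exact this.elim (fun hs => ⟨_, ivM h1 hs⟩) fun hs => ⟨_, ivS h2 hs⟩

lemma iv_all (h : X.Ok) {d : ℕ} : ∀ (n : ℕ) (D mg : Finset V), (X.S.T \ D).card ≤ n →
    Iv X d D mg → ∃ mg', Iv X d X.S.T mg' := by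
  intro n
  induction n with
  | zero =>
    intro D mg hn hI
    have : D = X.S.T :=
      subset_antisymm hI.sub (sdiff_eq_empty_iff_subset.mp (card_eq_zero.mp (by omega)))
    exact ⟨mg, this ▸ hI⟩
  | succ n ih =>
    intro D mg hn hI
    by_cases he : X.S.T ⊆ D
    · exact ⟨mg, subset_antisymm hI.sub he ▸ hI⟩
    · obtain ⟨v0, hv0, hv⟩ := not_subset.mp he
      obtain ⟨mg', hI'⟩ := iv_step h hI hv0 hv
      refine ih _ mg' ?_ hI'
      have : X.S.T \ (D ∪ X.S.cl v0) ⊂ X.S.T \ D := by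
        refine ⟨sdiff_subset_sdiff subset_rfl subset_union_left, fun hh => ?_⟩
        have := hh (mem_sdiff.mpr ⟨hv0, hv⟩)
        exact (mem_sdiff.mp this).2 (mem_union_right _ (h.sys.mem v0 hv0))
      have := card_lt_card this
      omega

end Coin

theorem p_Coin (_hDeg : S_Deg) : S_Coin := by
  intro V _ _ X d h hs
  obtain ⟨mg, hI⟩ := Coin.iv_all h (d := d) _ ∅ ∅ le_rfl
    ⟨empty_subset _, by simp, subset_rfl, by simp, by simp, hs⟩
  exact ⟨mg, ⟨rfl, hI.mcl, hI.size, by simp, fun _ _ _ _ => rfl, by simp⟩, hI.safe⟩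

end Pool.Agent.P.MP_fb43a4_co.Asy
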