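import Mathlib
import Pool.Agent.P.MP_fb43a4_co.Asy.St

/-! One colour step: the active family. -/

namespace Pool.Agent.P.MP_fb43a4_co.Asy

open Finset

set_option linter.unusedSectionVars false

namespace ColP

variable {V : Type} [Fintype V] [DecidableEq V]

/-- active vertices -/
noncomputable def act (X : Ctx V) (s : St V) (c : ℕ) : Finset V :=
  sel fun v => v ∈ X.S.T ∧ s.col v = none ∧ c ∈ X.lst s v ∧ X.rho s v < (X.lst s v \ s.P).card

/-- active objects -/
noncomputable def fam (X : Ctx V) (s : St V) (c : ℕ) : Finset (Finset V) :=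
  (act X s c).image (X.obj s)

/-- union of a family -/
def un (J : Finset (Finset V)) : Finset V := J.biUnion id

/-- the next state -/
def nx (s : St V) (c : ℕ) (J : Finset (Finset V)) : St V :=
  ⟨s.dec, s.mg, insert c s.P, fun u => if u ∈ un J then some c else s.col u⟩

/-- weight of an object -/
noncomputable def po (X : Ctx V) (s : St V) (o : Finset V) : ℝ := 1 / (o.sup (X.rr s) : ℕ)

theorem mem_un {J : Finset (Finset V)} {u : V} : u ∈ un J ↔ ∃ o ∈ J, u ∈ o := by simp [un]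

theorem adm_ind {G : SimpleGraph V} {S : Finset V} (h : Adm G S) : Ind G S := by
  rcases h with ⟨v, rfl⟩ | ⟨x, h, -, i, rfl⟩ | h
  · intro a ha b hb
    rw [mem_singleton.1 ha, mem_singleton.1 hb]
    exact G.irrefl
  · intro a ha b hb
    simp only [mem_insert, mem_singleton] at ha hb
    rcases ha with rfl | rfl <;> rcases hb with rfl | rfl <;> simp [h]
  · exact h.2.1

theorem un_ind {G : SimpleGraph V} {A I : Finset (Finset V)} (hA : Fam G A) (hI : I ⊆ A)
    (h : Ind (conf G A) I) : Ind G (un I) := by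
  intro a ha b hb hab
  obtain ⟨o, ho, ha⟩ := mem_un.1 ha
  obtain ⟨o', ho', hb⟩ := mem_un.1 hb
  by_cases e : o = o'
  · subst e
    exact adm_ind (hA.1 o (hI ho)) a ha b hb hab
  · exact h o ho o' ho' ⟨e, hI ho, hI ho', a, ha, b, hb, hab⟩

theorem sum_un {G : SimpleGraph V} {A I : Finset (Finset V)} (hA : Fam G A) (hI : I ⊆ A)
    (U : Finset V) (f : V → ℝ) : ∑ u ∈ un I ∩ U, f u = ∑ o ∈ I, ∑ u ∈ o ∩ U, f u := by
  have e : un I ∩ U = I.biUnion fun o => o ∩ U := by
    ext u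
    simp only [mem_inter, mem_un, mem_biUnion]
    constructor
    · rintro ⟨⟨o, a, b⟩, c⟩
      exact ⟨o, a, b, c⟩
    · rintro ⟨o, a, b, c⟩
      exact ⟨⟨o, a, b⟩, c⟩
  rw [e, sum_biUnion]
  intro o ho o' ho' hne
  exact (hA.2 o (hI ho) o' (hI ho') hne).mono inter_subset_left inter_subset_left

theorem psi_congr {U : Finset V} (γ : V → ℕ) (b : ℝ) {g g' : V → ℝ} (h : ∀ u ∈ U, g u = g' u) :
    Psi U γ b g = Psi U γ b g' := by
  unfold Psi
  refine sum_congr rfl fun t _ => ?_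
  rw [sum_congr rfl fun u hu => h u (mem_filter.1 hu).1]

variable {X : Ctx V} {s : St V} {c : ℕ}

theorem lst_sub (X : Ctx V) (s : St V) (v : V) : X.lst s v ⊆ X.L v := by
  unfold Ctx.lst
  split_ifs
  · exact filter_subset _ _
  · exact sdiff_subset

theorem mem_obj (ok : X.Ok) {v : V} (hv : v ∈ X.S.T) : v ∈ X.obj s v := by
  unfold Ctx.obj
  split_ifs
  · exact ok.sys.mem v hv
  · exact mem_singleton_self v

theorem obj_facts (ok : X.Ok) (inv : X.Inv s) {v u : V} (hv : v ∈ X.S.T) (hu : u ∈ X.obj s v) :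
    u ∈ X.S.T ∧ X.obj s u = X.obj s v ∧ X.lst s u = X.lst s v ∧ Near X.G X.R v u := by
  by_cases hm : v ∈ s.mg
  · have hu' : u ∈ X.S.cl v := by simpa [Ctx.obj, hm] using hu
    have hm' : u ∈ s.mg := (inv.mg v hv u hu').2 hm
    have e := ok.sys.eq v hv u hu'
    refine ⟨ok.sys.sub v hv hu', by simp [Ctx.obj, hm, hm', e], ?_, ok.sys.diam v hv u hu'⟩
    simp only [Ctx.lst, hm, hm', if_true, Ctx.cap, e]
    ext x
    simp only [mem_filter]
    exact ⟨fun h => ⟨h.2 v (ok.sys.mem v hv), h.2⟩, fun h => ⟨h.2 u hu', h.2⟩⟩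
  · have : u = v := by simpa [Ctx.obj, hm] using hu
    subst this
    exact ⟨hv, rfl, rfl, Near.refl _ _ _⟩

theorem mem_act {v : V} : v ∈ act X s c ↔ v ∈ X.S.T ∧ s.col v = none ∧ c ∈ X.lst s v ∧
    X.rho s v < (X.lst s v \ s.P).card := mem_sel

theorem fam_mem (ok : X.Ok) (inv : X.Inv s) {o : Finset V} (ho : o ∈ fam X s c) {u : V}
    (hu : u ∈ o) : u ∈ act X s c ∧ X.obj s u = o := by
  obtain ⟨v, hv, rfl⟩ := mem_image.1 ho
  obtain ⟨a1, a2, a3, a4⟩ := mem_act.1 hv
  obtain ⟨b1, b2, b3, -⟩ := obj_facts ok inv a1 hu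
  refine ⟨mem_act.2 ⟨b1, (inv.same v a1 u hu).trans a2, b3 ▸ a3, ?_⟩, b2⟩
  unfold Ctx.rho at a4 ⊢
  rwa [b3]

theorem un_fam (ok : X.Ok) (inv : X.Inv s) : un (fam X s c) = act X s c := by
  ext u
  rw [mem_un]
  exact ⟨fun ⟨o, ho, hu⟩ => (fam_mem ok inv ho hu).1,
    fun h => ⟨_, mem_image_of_mem _ h, mem_obj ok (mem_act.1 h).1⟩⟩

theorem fam_disj (ok : X.Ok) (inv : X.Inv s) :
    ∀ o ∈ fam X s c, ∀ o' ∈ fam X s c, o ≠ o' → Disjoint o o' := fun _ ho _ ho' hne =>
  disjoint_left.2 fun _ h h' => hne ((fam_mem ok inv ho h).2.symm.trans (fam_mem ok inv ho' h').2)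

theorem fam_fam (ok : X.Ok) (inv : X.Inv s) : Fam X.G (fam X s c) := by
  refine ⟨fun o ho => ?_, fam_disj ok inv⟩
  obtain ⟨v, hv, rfl⟩ := mem_image.1 ho
  unfold Ctx.obj
  split_ifs
  · exact ok.sys.adm v (mem_act.1 hv).1
  · exact Or.inl ⟨v, rfl⟩

theorem fam_compat (ok : X.Ok) (inv : X.Inv s) : Compat X.S.T X.S.cl (X.inn c) (fam X s c) := by
  refine ⟨fun o ho => ?_, fam_disj ok inv⟩
  obtain ⟨v, hv, rfl⟩ := mem_image.1 ho
  obtain ⟨a1, -, a3, -⟩ := mem_act.1 hv
  refine ⟨v, a1, ?_⟩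
  by_cases hm : v ∈ s.mg
  · simp only [Ctx.lst, hm, if_true, Ctx.cap, mem_filter] at a3
    exact Or.inl ⟨by simp [Ctx.obj, hm], fun u hu => mem_sel.2 (a3.2 u hu)⟩
  · simp only [Ctx.lst, hm, if_false, Ctx.cap, mem_sdiff, mem_filter] at a3
    exact Or.inr ⟨by simp [Ctx.obj, hm], mem_sel.2 a3.1,
      fun h => a3.2 ⟨a3.1, fun u hu => by simpa [Ctx.inn] using h hu⟩⟩

theorem fam_card (ok : X.Ok) {o : Finset V} (ho : o ∈ fam X s c) : o.card ≤ X.s := by
  obtain ⟨v, hv, rfl⟩ := mem_image.1 ho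
  unfold Ctx.obj
  split_ifs
  · exact ok.sys.card v (mem_act.1 hv).1
  · rw [card_singleton]
    have := ok.s2
    omega

theorem fam_deg (ok : X.Ok) (inv : X.Inv s) (hd : ∀ v, (nb X.G v).card ≤ 2 * X.k)
    (o : Finset V) : (nb (conf X.G (fam X s c)) o).card ≤ X.s * (2 * X.k) := by
  by_cases ho : o ∈ fam X s c
  · have h1 : nb (conf X.G (fam X s c)) o ⊆ (o.biUnion (nb X.G)).image (X.obj s) := by
      intro o' h
      obtain ⟨-, -, h3, u, hu, v, hv, huv⟩ := mem_nb.1 h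
      exact mem_image.2 ⟨v, mem_biUnion.2 ⟨u, hu, mem_nb.2 huv⟩, (fam_mem ok inv h3 hv).2⟩
    refine (card_le_card h1).trans (card_image_le.trans ?_)
    exact (card_biUnion_le_card_mul _ _ _ fun u _ => hd u).trans
      (Nat.mul_le_mul_right _ (fam_card ok ho))
  · have : nb (conf X.G (fam X s c)) o = ∅ :=
      eq_empty_of_forall_notMem fun o' h => ho (mem_nb.1 h).2.1
    simp [this]

theorem fam_near (ok : X.Ok) (inv : X.Inv s) {o o' : Finset V}
    (p : (conf X.G (fam X s c)).Walk o o') (ho' : o' ∈ fam X s c) {u' : V} (hu' : u' ∈ o') :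
    ∀ u ∈ o, Near X.G (p.length * (X.R + 1) + X.R) u u' := by
  have dm : ∀ o ∈ fam X s c, ∀ u ∈ o, ∀ v ∈ o, Near X.G X.R u v := fun o ho u hu v hv => by
    obtain ⟨a, b⟩ := fam_mem ok inv ho hu
    exact (obj_facts ok inv (mem_act.1 a).1 (b ▸ hv)).2.2.2
  induction p with
  | nil => exact fun u hu => (dm _ ho' u hu u' hu').mono (by simp)
  | cons h q ih =>
    intro u hu
    obtain ⟨-, h2, -, x, hx, y, hy, hxy⟩ := h
    refine (((dm _ h2 u hu x hx).trans (Near.of_adj hxy)).trans (ih ho' hu' y hy)).mono ?_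
    rw [SimpleGraph.Walk.length_cons]
    exact le_of_eq (by ring)

theorem fam_loc (ok : X.Ok) (inv : X.Inv s) (d : ℕ) :
    Loc (conf X.G (fam X s c)) (X.adj d)
      (fun v o => o ∈ fam X s c ∧ ∃ u ∈ o, Near X.G (X.R + 1) v u) (3 * d ^ 2 + 2) := by
  rintro v v' o o' ⟨-, u, hu, h1⟩ ⟨ho', u', hu', h2⟩ ⟨p, hp⟩ -
  refine ((h1.trans (fam_near ok inv p ho' hu' u hu)).trans h2.symm).mono ?_
  have := Nat.mul_le_mul_right (X.R + 1) hp
  nlinarith

theorem l_pos (ok : X.Ok) : (0 : ℝ) < X.l ∧ 1 ≤ X.k ∧ 0 < X.C := by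
  have h0 : 0 < X.C := by have := ok.a0; unfold Ctx.C; positivity
  have h1 : (0 : ℝ) < X.k := h0.trans_le ok.big
  have h2 : 0 < X.k := by exact_mod_cast h1
  exact ⟨by exact_mod_cast h2.trans_le ok.kl, h2, h0⟩

theorem rho_big (ok : X.Ok) (inv : X.Inv s) {v : V} (hv : v ∈ X.S.T) :
    (X.l : ℝ) ≤ X.C * X.rho s v ∧ 1 ≤ X.rho s v := by
  have a0 := ok.a0
  obtain ⟨l0, -, c0⟩ := l_pos ok
  have h1 : X.de * (X.lst s v).card ≤ X.rho s v := Nat.le_ceil _
  have h2 := inv.size v hv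
  have h3 : (X.l : ℝ) ≤ X.C * X.rho s v := by
    have e : X.C * (X.de * (X.a * X.l)) = X.l := by
      unfold Ctx.C Ctx.de
      field_simp
    have d0 : 0 ≤ X.de := by unfold Ctx.de; positivity
    rw [← e]
    exact mul_le_mul_of_nonneg_left ((mul_le_mul_of_nonneg_left h2 d0).trans h1) c0.le
  refine ⟨h3, Nat.one_le_iff_ne_zero.2 fun h => ?_⟩
  rw [h, Nat.cast_zero, mul_zero] at h3
  linarith

theorem al_le (ok : X.Ok) (s : St V) (o : Option ℕ) (v : V) : X.al s o v ≤ X.l := by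
  cases o with
  | none => exact (card_le_card (lst_sub X s v)).trans (ok.card v).le
  | some c => simp only [Ctx.al]; split_ifs <;> omega

theorem div_le_C (ok : X.Ok) (inv : X.Inv s) {v : V} (hv : v ∈ X.S.T) {x r : ℝ} (hx : x ≤ X.l)
    (hr : (X.rho s v : ℝ) ≤ r) : x / r ≤ X.C := by
  obtain ⟨h1, h2⟩ := rho_big ok inv hv
  have h3 : (1 : ℝ) ≤ X.rho s v := by exact_mod_cast h2
  rw [div_le_iff₀ (by linarith)]
  exact hx.trans (h1.trans (mul_le_mul_of_nonneg_left hr (l_pos ok).2.2.le))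

theorem load_nonneg (ok : X.Ok) (s : St V) (o : Option ℕ) (v : V) : 0 ≤ X.load s o v := by
  have : 0 < 1 - X.a := by have := ok.a1; linarith
  unfold Ctx.load Ctx.pre
  cases o <;> dsimp only <;> split_ifs <;> positivity

theorem load_le (ok : X.Ok) (inv : X.Inv s) (o : Option ℕ) {v : V} (hv : v ∈ X.S.T) :
    X.load s o v ≤ X.C := by
  unfold Ctx.load
  rw [if_pos (inv.dec ▸ hv)]
  split_ifs
  · exact div_le_C ok inv hv (by exact_mod_cast al_le ok s o v)
      (by exact_mod_cast le_max_right _ _)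
  · exact (l_pos ok).2.2.le

theorem act_rr (ok : X.Ok) (inv : X.Inv s) {v : V} (hv : v ∈ act X s c) :
    X.rr s v = (X.lst s v \ s.P).card ∧ X.rho s v + 1 ≤ X.rr s v ∧ 2 ≤ X.rr s v ∧
      X.rr s v ≤ X.l := by
  obtain ⟨a1, -, -, a4⟩ := mem_act.1 hv
  have e : X.rr s v = (X.lst s v \ s.P).card := max_eq_left a4.le
  have h1 := (rho_big ok inv a1).2
  have h2 : (X.lst s v \ s.P).card ≤ X.l :=
    (card_le_card (sdiff_subset.trans (lst_sub X s v))).trans (ok.card v).le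
  omega

theorem act_load (inv : X.Inv s) {v : V} (hv : v ∈ act X s c) (o : Option ℕ) :
    X.load s o v = X.al s o v / X.rr s v := by
  obtain ⟨a1, a2, -, -⟩ := mem_act.1 hv
  unfold Ctx.load
  rw [if_pos (inv.dec ▸ a1), if_pos a2]

theorem act_div (ok : X.Ok) (inv : X.Inv s) {v : V} (hv : v ∈ act X s c) (o : Option ℕ) :
    X.load s o v / (1 - 1 / (X.rr s v : ℝ)) = X.al s o v / (X.rr s v - 1) := by
  have h : (2 : ℝ) ≤ X.rr s v := by exact_mod_cast (act_rr ok inv hv).2.2.1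
  have h1 : (X.rr s v : ℝ) ≠ 0 := by linarith
  have h2 : (X.rr s v : ℝ) - 1 ≠ 0 := by linarith
  rw [act_load inv hv]
  field_simp

theorem po_eq (ok : X.Ok) (inv : X.Inv s) {o : Finset V} (ho : o ∈ fam X s c) {u : V}
    (hu : u ∈ o) : po X s o = 1 / (X.rr s u : ℝ) := by
  obtain ⟨a, b⟩ := fam_mem ok inv ho hu
  have : o.sup (X.rr s) = X.rr s u := by
    refine le_antisymm (Finset.sup_le fun v hv => le_of_eq ?_) (le_sup hu)
    have e := (obj_facts ok inv (mem_act.1 a).1 (b ▸ hv)).2.2.1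
    unfold Ctx.rr Ctx.rho
    rw [e]
  rw [po, this]

theorem load_nx (ok : X.Ok) (inv : X.Inv s) (hc : c ∉ s.P) (J : Finset (Finset V))
    (o : Option ℕ) {u : V} (hu : u ∈ X.S.T) :
    X.load (nx s c J) o u = if u ∈ un J then 0 else if u ∈ act X s c then
      X.load s o u / (1 - 1 / (X.rr s u : ℝ)) else X.load s o u := by
  have hd : u ∈ s.dec := inv.dec ▸ hu
  have e0 : X.load (nx s c J) o u = if (if u ∈ un J then some c else s.col u) = none then
      (X.al s o u : ℝ) / (max (X.lst s u \ insert c s.P).card (X.rho s u) : ℕ) else 0 :=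
    if_pos hd
  rw [e0]
  by_cases h1 : u ∈ un J
  · simp [h1]
  · simp only [h1, if_false]
    by_cases h2 : u ∈ act X s c
    · obtain ⟨b1, b2, b3, -⟩ := act_rr ok inv h2
      obtain ⟨-, a2, a3, -⟩ := mem_act.1 h2
      have e : (X.lst s u \ insert c s.P).card + 1 = X.rr s u := by
        rw [sdiff_insert, b1, card_erase_add_one (mem_sdiff.2 ⟨a3, hc⟩)]
      rw [if_pos a2, if_pos h2, act_div ok inv h2, max_eq_left (by omega), ← e]
      push_cast
      ring_nf
    · rw [if_neg h2]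
      unfold Ctx.load
      rw [if_pos hd]
      split_ifs with a2
      · congr 2
        unfold Ctx.rr
        by_cases a3 : c ∈ X.lst s u
        · have a4 : (X.lst s u \ s.P).card ≤ X.rho s u :=
            not_lt.1 fun h => h2 (mem_act.2 ⟨hu, a2, a3, h⟩)
          have a5 : (X.lst s u \ insert c s.P).card ≤ (X.lst s u \ s.P).card :=
            card_le_card (sdiff_subset_sdiff Subset.rfl (subset_insert _ _))
          rw [max_eq_right a4, max_eq_right (a5.trans a4)]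
        · rw [sdiff_insert_of_notMem a3]
      · rfl

theorem inv_nx (ok : X.Ok) (inv : X.Inv s) (hc : c ∉ s.P) {J : Finset (Finset V)}
    (hJ : J ⊆ fam X s c) (hI : Ind (conf X.G (fam X s c)) J) : X.Inv (nx s c J) := by
  have old : ∀ v, s.col v ≠ some c := fun v h => hc (inv.col v c h).2.2
  refine ⟨inv.dec, inv.mg, inv.size, fun v c' h => ?_, fun v hv u hu => ?_, fun u v c' huv h h' => ?_⟩
  · change (if v ∈ un J then some c else s.col v) = some c' at h
    split_ifs at h with h1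
    · obtain ⟨o, ho, hv⟩ := mem_un.1 h1
      obtain ⟨a1, -, a3, -⟩ := mem_act.1 (fam_mem ok inv (hJ ho) hv).1
      obtain rfl := Option.some.inj h
      exact ⟨a1, a3, mem_insert_self _ _⟩
    · obtain ⟨a1, a2, a3⟩ := inv.col v c' h
      exact ⟨a1, a2, mem_insert_of_mem a3⟩
  · have hu' : u ∈ X.obj s v := hu
    obtain ⟨b1, b2, -, -⟩ := obj_facts ok inv hv hu'
    have e : u ∈ un J ↔ v ∈ un J := by
      simp only [mem_un]
      constructor
      · rintro ⟨o, ho, h⟩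
        exact ⟨o, ho, (fam_mem ok inv (hJ ho) h).2 ▸ b2 ▸ mem_obj ok hv⟩
      · rintro ⟨o, ho, h⟩
        exact ⟨o, ho, (fam_mem ok inv (hJ ho) h).2 ▸ hu'⟩
    change (if u ∈ un J then some c else s.col u) = if v ∈ un J then some c else s.col v
    simp only [e, inv.same v hv u hu']
  · change (if u ∈ un J then some c else s.col u) = some c' at h
    change (if v ∈ un J then some c else s.col v) = some c' at h'
    split_ifs at h h' with h1 h2 h2
    · exact un_ind (fam_fam ok inv) hJ hI u h1 v h2 huv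
    · exact old v (h ▸ h')
    · exact old u (h' ▸ h)
    · exact inv.prop u v c' huv h h'

end ColP

end Pool.Agent.P.MP_fb43a4_co.Asy
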