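import Mathlib
import Pool.Agent.P.MP_fb43a4_co.Asy.Col1

/-! One colour step: estimators and the step. -/

namespace Pool.Agent.P.MP_fb43a4_co.Asy

open Finset

set_option linter.unusedSectionVars false

namespace ColP

variable {V : Type} [Fintype V] [DecidableEq V] {X : Ctx V} {s : St V} {c : ℕ}

theorem bud_le (ok : X.Ok) (inv : X.Inv s) (hc : c ∉ s.P) (J : Finset (Finset V)) (u : V) :
    (if u ∈ act X s c then 1 / (X.rr s u : ℝ) else 0) + X.bud (nx s c J) u ≤ X.bud s u := by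
  obtain ⟨l0, -, c0⟩ := l_pos ok
  have e : X.bud (nx s c J) u =
      (if u ∈ s.dec then 0 else 1) + X.C * (X.L u \ insert c s.P).card / X.l := rfl
  rw [e]
  unfold Ctx.bud
  by_cases h : u ∈ act X s c
  · rw [if_pos h]
    obtain ⟨a1, -, a3, -⟩ := mem_act.1 h
    have e1 : (X.L u \ insert c s.P).card + 1 = (X.L u \ s.P).card := by
      rw [sdiff_insert, card_erase_add_one (mem_sdiff.2 ⟨lst_sub X s u a3, hc⟩)]
    have h1 : (X.l : ℝ) / X.rr s u ≤ X.C :=
      div_le_C ok inv a1 le_rfl (by exact_mod_cast le_max_right _ _)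
    have h2 : 1 / (X.rr s u : ℝ) ≤ X.C / X.l := by
      rw [le_div_iff₀ l0, one_div, mul_comm, ← div_eq_mul_inv]
      exact h1
    rw [← e1]
    push_cast
    rw [mul_add, add_div, mul_one]
    linarith
  · rw [if_neg h, zero_add]
    have : ((X.L u \ insert c s.P).card : ℝ) ≤ (X.L u \ s.P).card := by
      exact_mod_cast card_le_card (sdiff_subset_sdiff Subset.rfl (subset_insert _ _))
    gcongr

theorem bud_nonneg (ok : X.Ok) (s : St V) (u : V) : 0 ≤ X.bud s u := by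
  have := (l_pos ok).2.2
  unfold Ctx.bud
  split_ifs <;> positivity

/-- linearisation of one test -/
def Lin (X : Ctx V) (s : St V) (c : ℕ) (U : Finset V) (F : St V → ℝ) (E : ℝ)
    (cO : Finset V → ℝ) : Prop :=
  (∀ o, 0 ≤ cO o) ∧ (∀ o, cO o ≠ 0 → o ∈ fam X s c ∧ ∃ u ∈ o, u ∈ U) ∧
    (∀ I ⊆ fam X s c, Ind (conf X.G (fam X s c)) I → ∑ o ∈ I, cO o ≤ E) ∧
    E - ∑ o ∈ fam X s c, cO o * po X s o ≤ F s ∧
    ∀ J ⊆ fam X s c, Ind (conf X.G (fam X s c)) J → F (nx s c J) ≤ E - ∑ o ∈ J, cO o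

theorem test (ok : X.Ok) (inv : X.Inv s) (hc : c ∉ s.P) (U : Finset V) (γ : V → ℕ) (n : ℝ)
    (t : Option ℕ) (hU : U ⊆ X.S.T) (hγ : Fib U γ X.w)
    (hi : ∀ I, Ind X.G I → (I ∩ U).card ≤ 2 * X.s) :
    ∃ E cO, Lin X s c U (fun s => X.phi s U γ n t) E cO := by
  classical
  have a1 : 0 < 1 - X.a := by have := ok.a1; linarith
  have hF := fam_fam (c := c) ok inv
  obtain ⟨ct, c1, -, c3, c4⟩ := ok.est.col V U γ (X.w / (1 - X.a)) (X.load s t)
    (fun u => 1 / (X.rr s u : ℝ)) (act X s c ∩ U) hγ (by positivity) inter_subset_right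
    (fun u hu => ⟨load_nonneg ok s t u, load_le ok inv t (hU hu)⟩)
    (fun u hu => by
      have ha := (mem_inter.1 hu).1
      obtain ⟨-, b2, b3, -⟩ := act_rr ok inv ha
      have b3' : (2 : ℝ) ≤ X.rr s u := by exact_mod_cast b3
      have b2' : (X.rho s u : ℝ) + 1 ≤ X.rr s u := by exact_mod_cast b2
      refine ⟨by positivity, one_div_le_one_div_of_le (by norm_num) b3', ?_⟩
      rw [act_div ok inv ha]
      exact div_le_C ok inv (mem_act.1 ha).1 (by exact_mod_cast al_le ok s t u) (by linarith))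
  set A := Real.exp (X.lam * Psi U γ (X.w / (1 - X.a)) fun u =>
    if u ∈ act X s c ∩ U then X.load s t u / (1 - 1 / (X.rr s u : ℝ)) else X.load s t u) with hA
  set B := Real.exp (X.kap * ∑ u ∈ U, X.bud (nx s c ∅) u - X.lam * (X.β ^ 2 * X.w * n)) with hB
  have A0 : 0 < A := Real.exp_pos _
  have B0 : 0 < B := Real.exp_pos _
  have sI : ∀ I ⊆ fam X s c, ∑ o ∈ I, (if o ∈ fam X s c then A * B * ∑ u ∈ o ∩ U, ct u else 0) =
      A * B * ∑ u ∈ un I ∩ U, ct u := by
    intro I hI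
    rw [sum_un hF hI, mul_sum]
    exact sum_congr rfl fun o ho => if_pos (hI ho)
  refine ⟨A * B, fun o => if o ∈ fam X s c then A * B * ∑ u ∈ o ∩ U, ct u else 0, fun o => ?_,
    fun o h => ?_, fun I hI hI' => ?_, ?_, fun J hJ hJ' => ?_⟩
  · dsimp only
    split_ifs
    · exact mul_nonneg (by positivity) (sum_nonneg fun u _ => (c1 u).1)
    · exact le_rfl
  · dsimp only at h
    split_ifs at h with ho
    · refine ⟨ho, ?_⟩
      obtain ⟨u, hu⟩ := nonempty_of_sum_ne_zero (right_ne_zero_of_mul h)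
      exact ⟨u, (mem_inter.1 hu).1, (mem_inter.1 hu).2⟩
    · exact (h rfl).elim
  · rw [sI I hI]
    refine mul_le_of_le_one_right (by positivity) ?_
    have h1 := sum_le_card_nsmul (un I ∩ U) ct _ fun u _ => (c1 u).2
    have h2 : ((un I ∩ U).card : ℝ) ≤ (2 * X.s : ℕ) := by
      exact_mod_cast hi _ (un_ind hF hI hI')
    have h3 : (0 : ℝ) < (2 * X.s : ℕ) := by have := ok.s2; positivity
    rw [nsmul_eq_mul, mul_one_div] at h1
    exact h1.trans ((div_le_one h3).2 h2)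
  · have e1 : ∑ o ∈ fam X s c,
        (if o ∈ fam X s c then A * B * ∑ u ∈ o ∩ U, ct u else 0) * po X s o =
        A * B * ∑ u ∈ act X s c ∩ U, 1 / (X.rr s u : ℝ) * ct u := by
      rw [← un_fam ok inv, sum_un hF Subset.rfl, mul_sum]
      refine sum_congr rfl fun o ho => ?_
      rw [if_pos ho, mul_assoc, sum_mul]
      congr 1
      exact sum_congr rfl fun u hu => by rw [po_eq ok inv ho (mem_inter.1 hu).1, mul_comm]
    have e2 : ∑ u ∈ act X s c ∩ U, 1 / (X.rr s u : ℝ) + ∑ u ∈ U, X.bud (nx s c ∅) u ≤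
        ∑ u ∈ U, X.bud s u := by
      rw [inter_comm, ← filter_mem_eq_inter, sum_filter, ← sum_add_distrib]
      exact sum_le_sum fun u _ => bud_le ok inv hc ∅ u
    have e3 := mul_le_mul_of_nonneg_left e2 ok.kap0
    rw [e1]
    calc _ = A * (1 - ∑ u ∈ act X s c ∩ U, 1 / (X.rr s u : ℝ) * ct u) * B := by ring
      _ ≤ _ := mul_le_mul_of_nonneg_right c4 B0.le
      _ ≤ _ := by
        rw [hB, ← Real.exp_add]
        exact Real.exp_le_exp.2 (by linarith)
  · have h1 := c3 (un J ∩ U)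
      (inter_subset_inter (un_fam (c := c) ok inv ▸ biUnion_subset_biUnion_of_subset_left _ hJ)
        Subset.rfl) (hi _ (un_ind hF hJ hJ'))
    have e1 : Psi U γ (X.w / (1 - X.a)) (X.load (nx s c J) t) = Psi U γ (X.w / (1 - X.a)) fun u =>
        if u ∈ un J ∩ U then 0 else if u ∈ act X s c ∩ U then
          X.load s t u / (1 - 1 / (X.rr s u : ℝ)) else X.load s t u :=
      psi_congr _ _ fun u hu => by
        rw [load_nx ok inv hc J t (hU hu)]
        simp only [mem_inter, hu, and_true]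
    rw [sI J hJ]
    calc _ = Real.exp (X.lam * Psi U γ (X.w / (1 - X.a)) (X.load (nx s c J) t)) * B := by
          rw [hB, ← Real.exp_add, add_sub_assoc']
          rfl
      _ ≤ A * (1 - ∑ u ∈ un J ∩ U, ct u) * B := by
          rw [e1]
          exact mul_le_mul_of_nonneg_right h1 B0.le
      _ = _ := by ring

/-- objects adjacent to `v` -/
noncomputable def av (X : Ctx V) (s : St V) (c : ℕ) (v : V) : Finset (Finset V) :=
  sel fun o => o ∈ fam X s c ∧ ∃ u ∈ o, X.G.Adj v u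

theorem av_card (ok : X.Ok) (inv : X.Inv s) (hd : ∀ v I, Ind X.G I → (nb X.G v ∩ I).card ≤ 2)
    {I : Finset (Finset V)} (hI : I ⊆ fam X s c) (hI' : Ind (conf X.G (fam X s c)) I) (v : V) :
    (I ∩ av X s c v).card ≤ 2 := by
  have h1 : I ∩ av X s c v ⊆ (nb X.G v ∩ un I).image (X.obj s) := by
    intro o ho
    obtain ⟨a, b⟩ := mem_inter.1 ho
    obtain ⟨b1, u, hu, b2⟩ := mem_sel.1 b
    exact mem_image.2 ⟨u, mem_inter.2 ⟨mem_nb.2 b2, mem_un.2 ⟨o, a, hu⟩⟩,
      (fam_mem ok inv b1 hu).2⟩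
  exact (card_le_card h1).trans
    (card_image_le.trans (hd v _ (un_ind (fam_fam ok inv) hI hI')))

theorem free_sub (hc : c ∉ s.P) (J : Finset (Finset V)) (v : V) :
    X.free s v ⊆ X.free (nx s c J) v := by
  intro x hx
  obtain ⟨a, b⟩ := mem_filter.1 hx
  obtain ⟨a1, a2⟩ := mem_inter.1 a
  refine mem_filter.2 ⟨mem_inter.2 ⟨a1, mem_insert_of_mem a2⟩, fun u hu h => ?_⟩
  change (if u ∈ un J then some c else s.col u) = some x at h
  split_ifs at h
  · exact hc (Option.some.inj h ▸ a2)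
  · exact b u hu h

theorem free_add (inv : X.Inv s) (hc : c ∉ s.P) {J : Finset (Finset V)} (hJ : J ⊆ fam X s c)
    {v : V} (hv : c ∈ X.L v) (h : J ∩ av X s c v = ∅) :
    (X.free s v).card + 1 ≤ (X.free (nx s c J) v).card := by
  refine card_lt_card ⟨free_sub hc J v, fun hh => ?_⟩
  have : c ∈ X.free (nx s c J) v := by
    refine mem_filter.2 ⟨mem_inter.2 ⟨hv, mem_insert_self _ _⟩, fun u hu h' => ?_⟩
    change (if u ∈ un J then some c else s.col u) = some c at h'
    split_ifs at h' with h1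
    · obtain ⟨o, ho, hu'⟩ := mem_un.1 h1
      exact notMem_empty o (h ▸ mem_inter.2 ⟨ho, mem_sel.2 ⟨hJ ho, u, hu', mem_nb.1 hu⟩⟩)
    · exact hc (inv.col u c h').2.2
  exact hc (mem_inter.1 (mem_filter.1 (hh this)).1).2

theorem base_nonneg (ok : X.Ok) : 0 ≤ 1 - (1 - Real.exp (-1)) * X.a ^ 2 := by
  have := ok.a0
  have := ok.a1
  have := Real.exp_pos (-1)
  nlinarith [sq_nonneg X.a]

theorem free_test (ok : X.Ok) (inv : X.Inv s) (hc : c ∉ s.P) (v : V) : ∃ b Fr : ℝ, 0 ≤ b ∧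
    0 ≤ Fr ∧ b + Fr * (1 - (1 - Real.exp (-1)) * X.a ^ 2) ≤ X.fr s v ∧
    ∀ J ⊆ fam X s c, X.fr (nx s c J) v ≤
      b + Fr * if J ∩ av X s c v = ∅ then 1 - (1 - Real.exp (-1)) else 1 := by
  have b0 := base_nonneg ok
  have e : ∀ J, X.fr (nx s c J) v =
      Real.exp (X.a ^ 2 * X.l / 4 - (X.free (nx s c J) v).card) *
        (1 - (1 - Real.exp (-1)) * X.a ^ 2) ^ (X.L v \ insert c s.P).card := fun _ => rfl
  have mono : ∀ J, Real.exp (X.a ^ 2 * X.l / 4 - (X.free (nx s c J) v).card) ≤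
      Real.exp (X.a ^ 2 * X.l / 4 - (X.free s v).card) := fun J => by
    have : ((X.free s v).card : ℝ) ≤ (X.free (nx s c J) v).card := by
      exact_mod_cast card_le_card (free_sub hc J v)
    exact Real.exp_le_exp.2 (by linarith)
  by_cases hv : c ∈ X.L v
  · refine ⟨0, Real.exp (X.a ^ 2 * X.l / 4 - (X.free s v).card) *
      (1 - (1 - Real.exp (-1)) * X.a ^ 2) ^ (X.L v \ insert c s.P).card, le_rfl, by positivity,
      le_of_eq ?_, fun J hJ => ?_⟩
    · unfold Ctx.fr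
      rw [← card_erase_add_one (mem_sdiff.2 ⟨hv, hc⟩), ← sdiff_insert, pow_succ]
      ring
    · rw [e, zero_add]
      split_ifs with h
      · have h1 : ((X.free s v).card : ℝ) + 1 ≤ (X.free (nx s c J) v).card := by
          exact_mod_cast free_add inv hc hJ hv h
        rw [sub_sub_cancel, mul_right_comm, ← Real.exp_add]
        exact mul_le_mul_of_nonneg_right (Real.exp_le_exp.2 (by linarith)) (by positivity)
      · rw [mul_one]
        exact mul_le_mul_of_nonneg_right (mono J) (by positivity)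
  · refine ⟨X.fr s v, 0, by unfold Ctx.fr; positivity, le_rfl, by simp, fun J _ => ?_⟩
    rw [e, zero_mul, add_zero, sdiff_insert_of_notMem hv]
    exact mul_le_mul_of_nonneg_right (mono J) (by positivity)

theorem tests_hold (ok : X.Ok) (inv : X.Inv s) (hY : ∀ v, X.Y s v < 1) (c : ℕ) (v : V) (j : Fin 5) :
    Psi (X.S.U v j) (X.S.γ v j (X.inn c)) (X.w / (1 - X.a)) (X.load s (some c)) ≤
      X.β ^ 2 * X.w * X.S.n v j := by
  have a1 : 0 < 1 - X.a := by have := ok.a1; linarith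
  by_cases hv : c ∈ X.pal v
  · have p0 : ∀ U γ n t, 0 ≤ X.phi s U γ n t := fun _ _ _ _ => (Real.exp_pos _).le
    have h1 : X.phi s (X.S.U v j) (X.S.γ v j (X.inn c)) (X.S.n v j) (some c) ≤ X.Y s v := by
      unfold Ctx.Y
      have f0 : 0 ≤ X.fr s v := by have := base_nonneg ok; unfold Ctx.fr; positivity
      have := (single_le_sum (f := fun c => X.phi s (X.S.U v j) (X.S.γ v j (X.inn c)) (X.S.n v j)
        (some c)) (fun _ _ => p0 _ _ _ _) hv).trans
        (single_le_sum (f := fun j => ∑ c ∈ X.pal v,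
          X.phi s (X.S.U v j) (X.S.γ v j (X.inn c)) (X.S.n v j) (some c))
          (fun _ _ => sum_nonneg fun _ _ => p0 _ _ _ _) (mem_univ j))
      linarith [p0 (nb X.G v ∩ X.S.T) (X.γ0 v) X.k none]
    have h2 := Real.exp_lt_one_iff.1 (h1.trans_lt (hY v))
    have h3 : 0 ≤ X.kap * ∑ u ∈ X.S.U v j, X.bud s u :=
      mul_nonneg ok.kap0 (sum_nonneg fun u _ => bud_nonneg ok s u)
    exact le_of_mul_le_mul_left (by linarith) ok.lam0
  · rw [psi_congr (g' := fun _ => 0)]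
    · have h1 : 0 ≤ X.S.n v j := le_trans (by have := ok.k0; positivity) (ok.sys.nbig v j)
      have h2 : (0 : ℝ) ≤ X.w / (1 - X.a) := by positivity
      unfold Psi
      simp only [sum_const_zero, zero_sub, max_eq_right (neg_nonpos.2 h2)]
      simp only [ne_eq, OfNat.ofNat_ne_zero, not_false_eq_true, zero_pow, sum_const_zero]
      positivity
    · intro u hu
      have h1 : c ∉ X.lst s u := fun h =>
        hv (mem_biUnion.2 ⟨u, mem_sel.2 (ok.sys.unear v j u hu), lst_sub X s u h⟩)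
      unfold Ctx.load
      rw [if_pos (inv.dec ▸ ok.sys.usub v j hu)]
      simp [Ctx.al, h1]

theorem law (ok : X.Ok) (inv : X.Inv s) (hY : ∀ v, X.Y s v < 1) (c : ℕ) :
    Law (conf X.G (fam X s c)) (fam X s c) fun o => po X s o / (1 - X.a) ^ 2 := by
  obtain ⟨l0, -, -⟩ := l_pos ok
  have e : ∀ o ∈ fam X s c, ∀ u ∈ o, X.l * po X s o = X.load s (some c) u := by
    intro o ho u hu
    have ha := (fam_mem ok inv ho hu).1
    rw [po_eq ok inv ho hu, act_load inv ha, mul_one_div]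
    simp [Ctx.al, (mem_act.1 ha).2.2.1]
  have := ok.sys.feas (X.inn c) (fam X s c) (fun o => X.l * po X s o) (X.load s (some c)) X.l
    le_rfl (fam_compat ok inv)
    (fun o ho => by
      obtain ⟨v, hv, rfl⟩ := mem_image.1 ho
      rw [e _ ho v (mem_obj ok (mem_act.1 hv).1)]
      exact ⟨load_nonneg ok s _ v, load_le ok inv _ (mem_act.1 hv).1⟩)
    (load_nonneg ok s _) (fun o ho u hu => (e o ho u hu).le) (tests_hold ok inv hY c)
  simpa only [mul_div_mul_left _ _ l0.ne'] using this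

end ColP

open ColP in
theorem p_Col (hE2 : S_E2) (hStep : S_Step) (hDeg : S_Deg) : S_Col := by
  intro a a0 a1
  obtain ⟨d1, hd1⟩ := hStep a a0 a1
  refine ⟨d1, fun d hd V _ _ X s c ok ha hk hs inv hc hS => ?_⟩
  subst ha
  obtain ⟨g1, g2, -⟩ := hDeg V X.G X.Hub X.k X.φ ok.amb
  have sy : ∀ v v', X.adj d v v' → X.adj d v' v := fun _ _ h => Near.symm h
  choose E1 c1 h1 using fun v j c' => test ok inv hc (X.S.U v j) (X.S.γ v j (X.inn c'))
    (X.S.n v j) (some c') (ok.sys.usub v j) (ok.sys.fib v j _) (ok.sys.uind v j)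
  choose E0 c0 h0 using fun v => test ok inv hc (nb X.G v ∩ X.S.T) (X.γ0 v) X.k none
    inter_subset_right (ok.fib0 v) fun I hI => by
      have h1 : I ∩ (nb X.G v ∩ X.S.T) ⊆ nb X.G v ∩ I := fun u hu =>
        mem_inter.2 ⟨(mem_inter.1 (mem_inter.1 hu).2).1, (mem_inter.1 hu).1⟩
      have := (card_le_card h1).trans (g2 v I hI)
      have := ok.s2
      omega
  choose b Fr b0 f0 f1 f2 using free_test ok inv hc
  have sw : ∀ (v : V) (I : Finset (Finset V)) (f : Finset V → ℝ),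
      ∑ o ∈ I, (∑ j, ∑ c' ∈ X.pal v, c1 v j c' o + c0 v o) * f o =
      ∑ j, ∑ c' ∈ X.pal v, ∑ o ∈ I, c1 v j c' o * f o + ∑ o ∈ I, c0 v o * f o := by
    intro v I f
    simp only [add_mul, sum_add_distrib, sum_mul]
    rw [sum_comm]
    congr 1
    exact sum_congr rfl fun j _ => sum_comm
  have sw1 : ∀ (v : V) (I : Finset (Finset V)),
      ∑ o ∈ I, (∑ j, ∑ c' ∈ X.pal v, c1 v j c' o + c0 v o) =
      ∑ j, ∑ c' ∈ X.pal v, ∑ o ∈ I, c1 v j c' o + ∑ o ∈ I, c0 v o := fun v I => by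
    simpa only [mul_one] using sw v I fun _ => 1
  have ex := Real.exp_pos (-1)
  obtain ⟨J, hJ, hJ', hS'⟩ := hd1 d hd X.k (l_pos ok).2.1 hk (Finset V) V
    (conf X.G (fam X s c)) (X.adj d)
    (fun v o => o ∈ fam X s c ∧ ∃ u ∈ o, Near X.G (X.R + 1) v u) (1 - Real.exp (-1))
    (fun v => ∑ j, ∑ c' ∈ X.pal v, E1 v j c' + E0 v + b v) Fr
    (fun v o => ∑ j, ∑ c' ∈ X.pal v, c1 v j c' o + c0 v o) (av X s c) (fam X s c) (po X s)
    (hE2 V X.G _ ok.amb.cf (fam_fam ok inv))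
    (fun o => (Nat.add_le_add_right (fam_deg ok inv g1 o) 1).trans hs) sy (fam_loc ok inv d)
    (sub_nonneg.2 (Real.exp_le_one_iff.2 (by norm_num))) (by linarith)
    (fun v o => add_nonneg (sum_nonneg fun j _ => sum_nonneg fun c' _ => (h1 v j c').1 o)
      ((h0 v).1 o))
    (fun v o h => by
      by_cases e : c0 v o = 0
      · rw [e, add_zero] at h
        obtain ⟨j, -, h⟩ := exists_ne_zero_of_sum_ne_zero h
        obtain ⟨c', -, h⟩ := exists_ne_zero_of_sum_ne_zero h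
        obtain ⟨ho, u, hu, hu'⟩ := (h1 v j c').2.1 o h
        exact ⟨ho, u, hu, (ok.sys.unear v j u hu').mono (Nat.le_succ _)⟩
      · obtain ⟨ho, u, hu, hu'⟩ := (h0 v).2.1 o e
        exact ⟨ho, u, hu, (Near.of_adj (mem_nb.1 (mem_inter.1 hu').1)).mono (by omega)⟩)
    f0
    (fun v o ho => by
      obtain ⟨ho, u, hu, h⟩ := mem_sel.1 ho
      exact ⟨ho, u, hu, (Near.of_adj h).mono (by omega)⟩)
    (fun I hI hI' v => ⟨by
      rw [sw1]
      have := sum_le_sum fun j (_ : j ∈ (univ : Finset (Fin 5))) =>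
        sum_le_sum fun c' (_ : c' ∈ X.pal v) => (h1 v j c').2.2.1 I hI hI'
      linarith [(h0 v).2.2.1 I hI hI', b0 v], av_card ok inv g2 hI hI' v⟩)
    (fun o ho => by
      obtain ⟨v, hv, rfl⟩ := mem_image.1 ho
      rw [po_eq ok inv ho (mem_obj ok (mem_act.1 hv).1)]
      obtain ⟨-, -, b3, b4⟩ := act_rr ok inv hv
      refine one_div_le_one_div_of_le (by exact_mod_cast (by omega : 0 < X.rr s v)) ?_
      exact_mod_cast b4.trans ok.lk)
    (law ok inv (hS.lt_one sy) c)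
    (hS.mono fun v => by
      rw [sw]
      have := sum_le_sum fun j (_ : j ∈ (univ : Finset (Fin 5))) =>
        sum_le_sum fun c' (_ : c' ∈ X.pal v) => (h1 v j c').2.2.2.1
      simp only [sum_sub_distrib] at this
      unfold Ctx.Y
      linarith [(h0 v).2.2.2.1, f1 v])
  refine ⟨_, inv_nx ok inv hc hJ hJ', hS'.mono fun v => ?_⟩
  rw [sw1]
  have := sum_le_sum fun j (_ : j ∈ (univ : Finset (Fin 5))) =>
    sum_le_sum fun c' (_ : c' ∈ X.pal v) => (h1 v j c').2.2.2.2 J hJ hJ'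
  simp only [sum_sub_distrib] at this
  change X.Y (nx s c J) v ≤ _
  unfold Ctx.Y
  linarith [(h0 v).2.2.2.2 J hJ hJ', f2 v J hJ]

end Pool.Agent.P.MP_fb43a4_co.Asy
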