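import Mathlib
import Pool.Agent.P.MP_fb43a4_co.Asy.St

/-!
Asymptotic list colouring of claw-free graphs: compression of a law to few independent sets.
-/

namespace Pool.Agent.P.MP_fb43a4_co.Asy

open Finset

set_option linter.unusedSectionVars false

namespace PComp

variable {O : Type} [Fintype O] [DecidableEq O]

theorem wt_cons (I : Finset O) (F : List (Finset O)) (o : O) :
    wt (I :: F) o = (if o ∈ I then 1 else 0) + wt F o := by
  simp [wt]

theorem wt_append (F F' : List (Finset O)) (o : O) : wt (F ++ F') o = wt F o + wt F' o := by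
  simp [wt]

theorem wt_replicate (n : ℕ) (I : Finset O) (o : O) :
    wt (List.replicate n I) o = if o ∈ I then (n : ℝ) else 0 := by
  simp [wt]

theorem copies (n : Finset O → ℕ) (S : Finset (Finset O)) :
    ∃ G : List (Finset O), G.length = ∑ I ∈ S, n I ∧ (∀ J ∈ G, n J ≠ 0) ∧
      ∀ o, wt G o = ∑ I ∈ S, if o ∈ I then (n I : ℝ) else 0 := by
  induction S using Finset.induction_on with
  | empty => exact ⟨[], by simp, by simp, by simp [wt]⟩
  | insert I S hI ih =>
    obtain ⟨G, h1, h2, h3⟩ := ih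
    refine ⟨List.replicate (n I) I ++ G, by simp [sum_insert hI, h1], fun J hJ => ?_,
      fun o => by rw [wt_append, wt_replicate, sum_insert hI, h3]⟩
    rcases List.mem_append.1 hJ with h | h
    · obtain ⟨a, rfl⟩ := List.mem_replicate.1 h
      exact a
    · exact h2 J h

/-- rounding of a law -/
theorem round {X : SimpleGraph O} {A : Finset O} {y : O → ℝ} (h : Law X A y) (N : ℕ) :
    ∃ G : List (Finset O), G.length = N ∧ (∀ I ∈ G, I ⊆ A ∧ Ind X I) ∧
      ∀ o ∈ A, N * y o - Fintype.card (Finset O) ≤ wt G o := by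
  obtain ⟨μ, ⟨m0, m1, m2⟩, m3⟩ := h
  obtain ⟨G, h1, h2, h3⟩ := copies (fun I => ⌊N * μ I⌋₊) univ
  have hl : G.length ≤ N := by
    have : (G.length : ℝ) ≤ N := by
      rw [h1, Nat.cast_sum]
      refine (sum_le_sum fun I _ => Nat.floor_le (mul_nonneg N.cast_nonneg (m0 I))).trans ?_
      rw [← mul_sum, m1, mul_one]
    exact_mod_cast this
  refine ⟨G ++ List.replicate (N - G.length) ∅, by simp; omega, fun I hI => ?_, fun o ho => ?_⟩
  · rcases List.mem_append.1 hI with h | h
    · exact m2 I fun h0 => h2 I h (by simp [h0])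
    · rw [(List.mem_replicate.1 h).2]
      exact ⟨empty_subset _, fun a ha => absurd ha (notMem_empty a)⟩
  · rw [wt_append, wt_replicate, if_neg (notMem_empty o), add_zero, h3]
    have e : N * marg μ o - Fintype.card (Finset O) =
        ∑ I : Finset O, (N * (if o ∈ I then μ I else 0) - 1) := by
      rw [sum_sub_distrib, ← mul_sum, marg]; simp
    refine le_trans (sub_le_sub_right
      (mul_le_mul_of_nonneg_left (m3 o ho) N.cast_nonneg) _) (e.trans_le (sum_le_sum fun I _ => ?_))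
    split_ifs
    · exact (Nat.sub_one_lt_floor _).le
    · simp

/-- the pairs are merged one after another -/
theorem seq (hM : S_Merge) {X : SimpleGraph O} (hX : E2 X) {A : Finset O} {L : ℕ} (hL : 1 ≤ L)
    {lam : ℝ} (h0 : 0 ≤ lam) (n : ℕ) : ∀ (G : List (Finset O)) (w : O → ℝ), G.length = 2 * n →
      (∀ I ∈ G, I ⊆ A ∧ Ind X I) → (∀ a, 0 ≤ w a) →
      Safe (Near X (3 * L + 2)) (fun a => w a *
        Real.exp (-((1 - Real.exp (-lam)) * ((1 - 1 / (L : ℝ)) / 2) * wt G a))) →
      ∃ F : List (Finset O), F.length = n ∧ (∀ I ∈ F, I ⊆ A ∧ Ind X I) ∧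
        Safe (Near X (3 * L + 2)) fun a => w a * Real.exp (-(lam * wt F a)) := by
  induction n with
  | zero =>
    intro G w h1 _ _ h4
    obtain rfl := List.length_eq_zero_iff.1 h1
    exact ⟨[], rfl, by simp, by simpa [wt] using h4⟩
  | succ n ih =>
    intro G w h1 h2 h3 h4
    obtain ⟨M, M', G, rfl⟩ : ∃ M M' G', G = M :: M' :: G' := by
      rcases G with _ | ⟨M, _ | ⟨M', G⟩⟩
      · simp at h1
      · simp at h1; omega
      · exact ⟨M, M', G, rfl⟩
    set ξ := 1 - Real.exp (-lam) with hξ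
    set θ := (1 - 1 / (L : ℝ)) / 2 with hθ
    have ξ0 : 0 ≤ ξ := sub_nonneg.2 (Real.exp_le_one_iff.2 (by linarith))
    have ξ1 : ξ ≤ 1 := sub_le_self _ (Real.exp_pos _).le
    set b : O → ℝ := fun a => w a * Real.exp (-(ξ * θ * wt G a)) with hb
    have b0 : ∀ a, 0 ≤ b a := fun a => mul_nonneg (h3 a) (Real.exp_pos _).le
    have hs : ∀ (I : Finset O) a, ∑ o ∈ I, (if a = o then ξ * b a else 0) =
        ξ * b a * if a ∈ I then 1 else 0 := fun I a => by
      rw [sum_ite_eq]; split_ifs <;> simp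
    have a1 := h2 M (by simp)
    have a2 := h2 M' (by simp)
    obtain ⟨I, i1, i2, i3⟩ := hM O O X (Near X (3 * L + 2)) (fun a o => a = o) L b
      (fun a o => if a = o then ξ * b a else 0) M M' hL hX (fun _ _ h => h.symm)
      (fun a a' o o' e e' h _ => by rw [e, e']; exact h)
      (fun a o => by split_ifs; exacts [mul_nonneg ξ0 (b0 a), le_rfl])
      (fun a o h => by_contra fun h' => h (if_neg h')) a1.2 a2.2
      (fun I _ _ a => by
        rw [hs]
        split_ifs
        · rw [mul_one]; exact mul_le_of_le_one_left (b0 a) ξ1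
        · rw [mul_zero]; exact b0 a)
      (h4.mono fun a => by
        rw [hs, hs, wt_cons, wt_cons, ← add_assoc, mul_add (ξ * θ), neg_add, Real.exp_add,
          mul_left_comm (w a), ← hθ]
        have := mul_le_mul_of_nonneg_right (Real.one_sub_le_exp_neg (ξ * θ *
          ((if a ∈ M then 1 else 0) + if a ∈ M' then 1 else 0))) (b0 a)
        refine le_trans (le_of_eq ?_) this
        ring)
    obtain ⟨F, f1, f2, f3⟩ := ih G (fun a => w a * Real.exp (-(lam * if a ∈ I then 1 else 0)))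
      (by simp at h1; omega) (fun J hJ => h2 J (by simp [hJ]))
      (fun a => mul_nonneg (h3 a) (Real.exp_pos _).le) (i3.mono fun a => by
        rw [hs, mul_right_comm]
        refine le_of_eq ?_
        change b a * _ = _
        split_ifs
        · rw [hξ, mul_one, mul_one]; ring
        · simp)
    refine ⟨I :: F, by simp [f1], fun J hJ => ?_, f3.mono fun a => ?_⟩
    · rcases List.mem_cons.1 hJ with rfl | h
      · exact ⟨i1.trans (union_subset a1.1 a2.1), i2⟩
      · exact f2 J h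
    · rw [wt_cons, mul_add, neg_add, Real.exp_add, mul_assoc]

theorem exp_neg_le {x : ℝ} (h : 0 ≤ x) : Real.exp (-x) ≤ 1 - x + x ^ 2 / 2 := by
  have h1 := Real.quadratic_le_exp_of_nonneg h
  have h2 : 0 ≤ 1 - x + x ^ 2 / 2 := by nlinarith [sq_nonneg (x - 1)]
  rw [Real.exp_neg, inv_le_iff_one_le_mul₀ (Real.exp_pos x)]
  nlinarith [mul_le_mul_of_nonneg_left h1 h2, sq_nonneg (x ^ 2)]

/-- one level -/
theorem halve (hB : S_Ball) (hM : S_Merge) {X : SimpleGraph O} (hX : E2 X) {A : Finset O}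
    {L d n : ℕ} (hL : 2 ≤ L) (hd : ∀ o, (nb X o).card + 1 ≤ 2 ^ d) {G : List (Finset O)}
    (h1 : G.length = 2 * n) (h2 : ∀ I ∈ G, I ⊆ A ∧ Ind X I)
    (h3 : ∀ o ∈ A, 8 * (L : ℝ) ^ 2 * (d * (3 * L + 2) + 2 : ℕ) ≤ wt G o) :
    ∃ F : List (Finset O), F.length = n ∧ (∀ I ∈ F, I ⊆ A ∧ Ind X I) ∧
      ∀ o ∈ A, (1 - 1 / (L : ℝ)) ^ 2 / 2 * wt G o ≤ wt F o := by
  have L2 : (2 : ℝ) ≤ L := by exact_mod_cast hL
  have L0 : (0 : ℝ) < L := by linarith
  have l0 : 0 < 1 / (L : ℝ) := by positivity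
  have l1 : 1 / (L : ℝ) ≤ 1 / 2 := one_div_le_one_div_of_le two_pos L2
  obtain ⟨F, f1, f2, f3⟩ := seq hM hX (A := A) (L := L) (by omega) l0.le n G
    (fun a => if a ∈ A then Real.exp (1 / L * ((1 - 1 / (L : ℝ)) ^ 2 / 2 * wt G a)) else 0) h1 h2
    (fun a => by split_ifs; exacts [(Real.exp_pos _).le, le_rfl])
    (Safe.init (fun _ _ h => h.symm) (2 ^ (d * (3 * L + 2))) (one_le_pow₀ one_le_two)
      (fun a => by
        have := hB O X (2 ^ d - 1) (3 * L + 2) a fun v => by have := hd v; omega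
        rw [Nat.sub_add_cancel Nat.one_le_two_pow, ← pow_mul] at this
        exact_mod_cast this)
      fun a => by
        split_ifs with ha
        · have e := h3 a ha
          have w0 : 0 ≤ wt G a := le_trans (by positivity) e
          have e1 := exp_neg_le l0.le
          have e2 : ((d * (3 * L + 2) + 2 : ℕ) : ℝ) ≤ (1 / L) ^ 2 / 8 * wt G a := by
            rw [div_pow, one_pow, div_div, one_div_mul_eq_div, le_div_iff₀ (by positivity)]
            linarith
          have e3 : (2 : ℝ) ^ (d * (3 * L + 2) + 2) ≤ Real.exp (d * (3 * L + 2) + 2 : ℕ) := by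
            rw [← Real.exp_one_pow]
            exact pow_le_pow_left₀ zero_le_two (by linarith [Real.add_one_le_exp (1 : ℝ)]) _
          rw [← Real.exp_add, show (4 : ℝ) * 2 ^ (d * (3 * L + 2)) = 2 ^ (d * (3 * L + 2) + 2) by
            ring]
          refine le_trans (Real.exp_le_exp.2 ?_) (((Real.exp_neg _).trans (one_div _).symm).trans_le
            (one_div_le_one_div_of_le (by positivity) e3))
          generalize 1 / (L : ℝ) = x at l0 l1 e1 e2 ⊢
          have e4 := mul_le_mul_of_nonneg_right e1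
            (mul_nonneg (show 0 ≤ (1 - x) / 2 by linarith) w0)
          have e5 := mul_le_mul_of_nonneg_right l1 (mul_nonneg (sq_nonneg x) w0)
          nlinarith
        · rw [zero_mul]; positivity)
  refine ⟨F, f1, f2, fun o ho => ?_⟩
  have := f3.lt_one (fun _ _ h => h.symm) o
  rw [if_pos ho, ← Real.exp_add, Real.exp_lt_one_iff] at this
  exact le_of_mul_le_mul_left (by linarith) l0

end PComp

open PComp in
theorem p_Comp (hBall : S_Ball) (hMerge : S_Merge) : S_Comp := by
  obtain ⟨d0, hd0⟩ := Filter.eventually_atTop.1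
    ((tendsto_pow_const_div_const_pow_of_one_lt 14 (one_lt_two (α := ℝ))).eventually
      (ge_mem_nhds (show (0 : ℝ) < 1 / 224 ^ 2 by positivity)))
  refine ⟨max d0 6, fun d hd k hk hk2 O _ _ X A y hX hdeg hy hlaw => ?_⟩
  have d6 : 6 ≤ d := (le_max_right _ _).trans hd
  have D6 : (6 : ℝ) ≤ d := by exact_mod_cast d6
  have k0 : (0 : ℝ) < k := by exact_mod_cast hk
  have y0 : ∀ o ∈ A, 0 ≤ y o := fun o ho => le_trans (by positivity) (hy o ho)
  have key : ∀ j : ℕ, ∀ G : List (Finset O), G.length = 2 ^ (d + j) → (∀ I ∈ G, I ⊆ A ∧ Ind X I) →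
      (∀ o ∈ A, 2 ^ (d + j) * (1 - 1 / (d : ℝ) - 2 / (d + j : ℕ)) * y o ≤ wt G o) →
      ∃ F : List (Finset O), F.length = 2 ^ d ∧ (∀ I ∈ F, I ⊆ A ∧ Ind X I) ∧
        ∀ o ∈ A, 2 ^ d * (1 - 3 / (d : ℝ)) * y o ≤ wt F o := by
    intro j
    induction j with
    | zero =>
      intro G h1 h2 h3
      refine ⟨G, h1, h2, fun o ho => le_trans (le_of_eq ?_) (h3 o ho)⟩
      rw [add_zero]; ring
    | succ j ih =>
      intro G h1 h2 h3
      rw [← add_assoc] at h1 h3
      have hE : d ≤ d + j := Nat.le_add_right _ _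
      generalize d + j = e at h1 h3 ih hE
      have E6 : (d : ℝ) ≤ e := by exact_mod_cast hE
      have r1 : 1 / (d : ℝ) ≤ 1 / 6 := one_div_le_one_div_of_le (by norm_num) D6
      have r2 : 2 / ((e + 1 : ℕ) : ℝ) ≤ 2 / 6 :=
        div_le_div_of_nonneg_left zero_le_two (by norm_num) (by push_cast; linarith)
      have r3 : 0 ≤ 1 / (d : ℝ) := by positivity
      have r4 : 0 ≤ 2 / ((e + 1 : ℕ) : ℝ) := by positivity
      have big : 224 * ((e + 1 : ℕ) : ℝ) ^ 7 * k ≤ 2 ^ (e + 1) := by
        have a1 := hd0 (e + 1) (by have := (le_max_left _ _).trans hd; omega)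
        rw [div_le_div_iff₀ (by positivity) (by positivity), one_mul] at a1
        have a2 : (k : ℝ) ^ 2 ≤ 2 ^ (e + 1) := by
          exact_mod_cast hk2.trans (Nat.pow_le_pow_right two_pos (by omega))
        refine (pow_le_pow_iff_left₀ (by positivity) (by positivity) two_ne_zero).1 ?_
        have := mul_le_mul a1 a2 (by positivity) (by positivity)
        linarith
      obtain ⟨F, f1, f2, f3⟩ := halve hBall hMerge hX (L := (e + 1) ^ 2) (n := 2 ^ e)
        (by nlinarith) hdeg (by rw [h1, pow_succ']) h2 fun o ho => by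
          refine le_trans ?_ (h3 o ho)
          have a1 : d * (3 * (e + 1) ^ 2 + 2) + 2 ≤ 7 * (e + 1) ^ 3 := by
            have := Nat.mul_le_mul_right (3 * (e + 1) ^ 2 + 2) hE
            nlinarith [Nat.zero_le (e ^ 3), Nat.zero_le (e ^ 2)]
          have a2 : ((d * (3 * (e + 1) ^ 2 + 2) + 2 : ℕ) : ℝ) ≤ 7 * ((e + 1 : ℕ) : ℝ) ^ 3 := by
            exact_mod_cast a1
          have a3 : 1 ≤ 2 * (k * y o) := by
            have := hy o ho
            rw [div_le_iff₀ (by positivity)] at this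
            linarith
          have a4 := mul_le_mul_of_nonneg_right big (y0 o ho)
          have a5 := mul_le_mul_of_nonneg_left a3
            (show 0 ≤ 112 * ((e + 1 : ℕ) : ℝ) ^ 7 by positivity)
          have a6 := mul_le_mul_of_nonneg_left
            (show 1 / 2 ≤ 1 - 1 / (d : ℝ) - 2 / ((e + 1 : ℕ) : ℝ) by linarith)
            (mul_nonneg (show (0 : ℝ) ≤ 2 ^ (e + 1) by positivity) (y0 o ho))
          have a7 := mul_le_mul_of_nonneg_left a2
            (show 0 ≤ 8 * (((e + 1 : ℕ) : ℝ) ^ 2) ^ 2 by positivity)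
          rw [Nat.cast_pow]
          linarith
      refine ih F f1 f2 fun o ho => le_trans ?_ ((mul_le_mul_of_nonneg_left (h3 o ho)
        (by positivity)).trans (f3 o ho))
      have e0 : (0 : ℝ) < e := by linarith
      have a1 : 2 * (1 / (((e + 1) ^ 2 : ℕ) : ℝ)) ≤ 2 / (e : ℝ) - 2 / ((e + 1 : ℕ) : ℝ) := by
        push_cast
        rw [div_sub_div _ _ e0.ne' (by positivity), mul_one_div,
          div_le_div_iff₀ (by positivity) (by positivity)]
        nlinarith
      have a2 : 0 ≤ 1 / (((e + 1) ^ 2 : ℕ) : ℝ) := by positivity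
      generalize 1 / (((e + 1) ^ 2 : ℕ) : ℝ) = x at a1 a2 ⊢
      have a3 : 1 - 1 / (d : ℝ) - 2 / (e : ℝ) ≤
          (1 - x) ^ 2 * (1 - 1 / (d : ℝ) - 2 / ((e + 1 : ℕ) : ℝ)) := by
        nlinarith [mul_nonneg a2 r3, mul_nonneg a2 r4, mul_nonneg (sq_nonneg x)
          (show 0 ≤ 1 - 1 / (d : ℝ) - 2 / ((e + 1 : ℕ) : ℝ) by linarith)]
      have a4 := mul_le_mul_of_nonneg_left a3
        (mul_nonneg (show (0 : ℝ) ≤ 2 ^ e by positivity) (y0 o ho))
      rw [pow_succ (2 : ℝ) e]
      linarith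
  set K := Fintype.card (Finset O) with hK
  obtain ⟨G, g1, g2, g3⟩ := round hlaw (2 ^ (d + K * (2 * k) * d))
  refine key _ G g1 g2 fun o ho => le_trans ?_ (g3 o ho)
  have a1 : ((K * (2 * k) * d : ℕ) : ℝ) ≤ (2 ^ (d + K * (2 * k) * d) : ℕ) := by
    exact_mod_cast (Nat.le_add_left _ d).trans Nat.lt_two_pow_self.le
  have a2 : 0 ≤ 2 / ((d + K * (2 * k) * d : ℕ) : ℝ) := by positivity
  generalize 2 / ((d + K * (2 * k) * d : ℕ) : ℝ) = z at a2 ⊢
  push_cast at a1 ⊢
  have a0 : (0 : ℝ) ≤ 2 ^ (d + K * (2 * k) * d) := by positivity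
  generalize (2 : ℝ) ^ (d + K * (2 * k) * d) = N at a0 a1 ⊢
  have a3 : 1 ≤ 2 * (k * y o) := by
    have := hy o ho
    rw [div_le_iff₀ (by positivity)] at this
    linarith
  have a4 : K ≤ N * y o * (1 / (d : ℝ)) := by
    rw [mul_one_div, le_div_iff₀ (by linarith)]
    have b1 := mul_le_mul_of_nonneg_right a1 (y0 o ho)
    have b2 := mul_le_mul_of_nonneg_left a3 (show (0 : ℝ) ≤ K * d by positivity)
    linarith
  have a5 := mul_nonneg (mul_nonneg a0 (y0 o ho)) a2
  rw [← hK]
  linarith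

end Pool.Agent.P.MP_fb43a4_co.Asy
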