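import Mathlib
import Pool.Agent.P.MP_fb43a4_co.Asy.St

/-!
Assembly of the colouring process.
-/

namespace Pool.Agent.P.MP_fb43a4_co.Asy

open Finset

set_option linter.unusedSectionVars false

namespace Core

theorem sys_mono {V : Type} [Fintype V] [DecidableEq V] {S : Sys V} {G : SimpleGraph V}
    {Hub : Finset V} {s R w : ℕ} {a C β D y l0 l1 : ℝ} (h : S.Ok G Hub s R w a C β D y l0)
    (hl : l0 ≤ l1) : S.Ok G Hub s R w a C β D y l1 :=
  { h with feas := fun In A x g l hl' => h.feas In A x g l (hl.trans hl') }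

/-- the process, from the start values to a colouring -/
theorem run (hCoin : S_Coin) (hEnd : S_End) {V : Type} [Fintype V] [DecidableEq V] (X : Ctx V)
    (d : ℕ) (hX : X.Ok) (h0 : Safe (X.adj d) (X.Y ⟨∅, ∅, ∅, fun _ => none⟩))
    (hstep : ∀ (s : St V) (c : ℕ), X.Inv s → c ∉ s.P → Safe (X.adj d) (X.Y s) →
      ∃ col, X.Inv ⟨s.dec, s.mg, insert c s.P, col⟩ ∧
        Safe (X.adj d) (X.Y ⟨s.dec, s.mg, insert c s.P, col⟩)) :
    ∃ col : V → ℕ, (∀ v, v ∉ X.Hub → col v ∈ X.L v) ∧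
      ∀ u v, u ∉ X.Hub → v ∉ X.Hub → X.G.Adj u v → col u ≠ col v := by
  obtain ⟨mg, h1, h2⟩ := hCoin V X d hX h0
  have key : ∀ P : Finset ℕ, ∃ col, X.Inv ⟨X.S.T, mg, P, col⟩ ∧
      Safe (X.adj d) (X.Y ⟨X.S.T, mg, P, col⟩) := by
    intro P
    induction P using Finset.induction_on with
    | empty => exact ⟨_, h1, h2⟩
    | insert c P hc ih =>
      obtain ⟨col, h3, h4⟩ := ih
      exact hstep ⟨X.S.T, mg, P, col⟩ c h3 hc h4
  obtain ⟨col, h3, h4⟩ := key (univ.biUnion X.L)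
  refine hEnd V X _ hX h3 (fun v => subset_biUnion_of_mem X.L (mem_univ v)) fun v => ?_
  exact h4.lt_one (fun _ _ h => Near.symm h) v

theorem clog_facts {k s d1 : ℕ} (h1 : 2 * s + 2 ≤ k) (h2 : 2 ^ d1 ≤ k) :
    ∃ d, d1 ≤ d ∧ 2 ^ d ≤ 2 * k ^ 3 ∧ k ^ 2 ≤ 2 ^ d ∧ s * (2 * k) + 1 ≤ 2 ^ d := by
  have hk : 2 ≤ k := by omega
  have h23 : k ^ 2 ≤ k ^ 3 := Nat.pow_le_pow_right (by omega) (by omega)
  have h12 : k ≤ k ^ 2 := by nlinarith
  have hu : k ^ 3 ≤ 2 ^ Nat.clog 2 (k ^ 3) := Nat.le_pow_clog (by omega) _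
  have hl : 2 ^ (Nat.clog 2 (k ^ 3)).pred < k ^ 3 :=
    Nat.pow_pred_clog_lt_self (by omega) (by omega)
  refine ⟨Nat.clog 2 (k ^ 3), ?_, ?_, by omega, ?_⟩
  · exact (Nat.pow_le_pow_iff_right (by omega : 1 < 2)).1 (by omega)
  · generalize Nat.clog 2 (k ^ 3) = d at hl
    rcases d with _ | d
    · omega
    · rw [Nat.pred_succ] at hl
      rw [pow_succ]
      omega
  · have : s * (2 * k) + 1 ≤ k ^ 2 := by nlinarith
    omega

end Core

theorem p_Core (hSys : S_Sys) (hEst : S_Est) (hInit : S_Init) (hCoin : S_Coin) (hCol : S_Col)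
    (hEnd : S_End) (hChunk : S_Chunk) (hDeg : S_Deg) : S_Core := by
  classical
  intro ε hε0 hε1
  have ha0 : 0 < ε / 20 := by positivity
  have ha1 : ε / 20 ≤ 1 / 20 := by linarith
  have hC : 1 ≤ 64 / (ε / 20) ^ 3 := by
    rw [le_div_iff₀ (by positivity)]
    have : (ε / 20) ^ 3 ≤ 1 := pow_le_one₀ ha0.le (by linarith)
    linarith
  obtain ⟨s, R, β, hs, hβ0, hβ1, hS⟩ :=
    hSys ε (64 / (ε / 20) ^ 3) ((ε / 20) ^ 2 / 16) hε0 hε1 hC (by positivity)
  have hs0 : (0 : ℝ) < s := by exact_mod_cast (by omega : 0 < s)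
  obtain ⟨w, lam, kap, hw, hlam, hkap, hkb, hE⟩ :=
    hEst (64 / (ε / 20) ^ 3) β (2 * s * (1 + 64 / (ε / 20) ^ 3)) (2 * s) hC hβ0 (by positivity)
      (by omega)
  obtain ⟨κ', k0, hκ0, hκ1, hS'⟩ := hS w hw
  obtain ⟨k1, hI⟩ := hInit (ε / 20) β lam κ' R ha0 hβ0 hlam hκ0
  obtain ⟨d1, hCo⟩ := hCol (ε / 20) ha0 (by linarith)
  refine ⟨k0 + k1 + 2 * w + ⌈64 / (ε / 20) ^ 3⌉₊ + 2 ^ d1 + (2 * s + 2),
    fun k hk V _ _ G φ hG hφ hdeg L hL => ?_⟩
  have hp : 0 < 2 ^ d1 := Nat.two_pow_pos d1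
  obtain ⟨d, hd1, hd2, hd3, hd4⟩ := Core.clog_facts (k := k) (s := s) (d1 := d1)
    (by omega) (by omega)
  obtain ⟨V', i1, i2, G', Hub, φ', e, S, hemb, hamb, hok⟩ := hS' k (by omega) V G φ hG hφ hdeg
  have hk0 : (0 : ℝ) ≤ k := Nat.cast_nonneg k
  have hw0 : (0 : ℝ) < w := by exact_mod_cast hw
  choose γ0 hγ1 hγ2 using fun v : V' => hChunk V' (nb G' v ∩ S.T) w hw
  let L' : V' → Finset ℕ := fun x =>
    if h : ∃ v, e v = x then L h.choose else range ⌈(1 + ε) * k⌉₊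
  have hL' : ∀ v, L' (e v) = L v := by
    intro v
    have h : ∃ u, e u = e v := ⟨v, rfl⟩
    simp only [L', dif_pos h]
    rw [hemb.inj h.choose_spec]
  let X : Ctx V' := ⟨G', Hub, φ', S, L', γ0, k, ⌈(1 + ε) * k⌉₊, s, R, w, ε / 20, β, lam, kap, κ'⟩
  have hX : X.Ok :=
    { a0 := ha0
      a1 := ha1
      amb := hamb
      sys := Core.sys_mono hok (Nat.le_ceil _)
      est := hE
      card := fun x => by
        show (L' x).card = ⌈(1 + ε) * k⌉₊
        simp only [L']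
        split_ifs with h
        · exact hL _
        · exact card_range _
      kl := by
        show k ≤ ⌈(1 + ε) * k⌉₊
        have h1 : (k : ℝ) ≤ (1 + ε) * k := by nlinarith
        exact_mod_cast h1.trans (Nat.le_ceil _)
      lk := by
        show ⌈(1 + ε) * k⌉₊ ≤ 2 * k
        refine Nat.ceil_le.2 ?_
        push_cast
        nlinarith
      s2 := hs
      w1 := hw
      wk := by show 2 * w ≤ k; omega
      big := by
        show 64 / (ε / 20) ^ 3 ≤ (k : ℝ)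
        refine (Nat.le_ceil _).trans ?_
        exact_mod_cast (by omega : ⌈64 / (ε / 20) ^ 3⌉₊ ≤ k)
      b0 := hβ0
      b1 := hβ1
      lam0 := hlam
      kap0 := hkap
      kapb := hkb
      k0 := hκ0
      k1 := hκ1
      fib0 := hγ1
      img0 := fun v => by
        refine (hγ2 v).trans ?_
        show ((nb G' v ∩ S.T).card : ℝ) / w + 1 ≤ 2 * k / w + 1
        have h1 : (nb G' v ∩ S.T).card ≤ 2 * k :=
          (card_le_card inter_subset_left).trans ((hDeg V' G' Hub k φ' hamb).1 v)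
        have h2 : ((nb G' v ∩ S.T).card : ℝ) ≤ 2 * k := by exact_mod_cast h1
        gcongr }
  obtain ⟨col, hc1, hc2⟩ := Core.run hCoin hEnd X d hX
    (hI V' X d hX rfl rfl rfl rfl rfl (by show k1 ≤ k; omega) hd2)
    fun st c h1 h2 h3 => hCo d hd1 V' X st c hX rfl hd3 hd4 h1 h2 h3
  refine ⟨fun v => col (e v), fun v => ?_, fun u v huv => ?_⟩
  · exact hL' v ▸ hc1 (e v) (hemb.nm v)
  · exact hc2 _ _ (hemb.nm u) (hemb.nm v) ((hemb.adj u v).2 huv)

end Pool.Agent.P.MP_fb43a4_co.Asy
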