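import Mathlib
import Pool.Agent.P.MP_fb43a4_co.Asy.St

/-!
The cut lemma for graphs of maximum degree at most two.
-/

namespace Pool.Agent.P.MP_fb43a4_co.Asy

open Finset

set_option linter.unusedSectionVars false

namespace Cut
variable {V : Type} [Fintype V] [DecidableEq V]

/-- vertex set of a path with `L` vertices -/
def Win (G : SimpleGraph V) (L : ℕ) (X : Finset V) : Prop :=
  ∃ f : ℕ → V, (∀ i < L, ∀ j < L, f i = f j → i = j) ∧
    (∀ i, i + 1 < L → G.Adj (f i) (f (i + 1))) ∧ X = (range L).image f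

theorem Win.card {G : SimpleGraph V} {L : ℕ} {X : Finset V} (h : Win G L X) : X.card = L := by
  obtain ⟨f, hf, -, rfl⟩ := h
  rw [Finset.card_image_of_injOn, card_range]
  intro i hi j hj hij
  exact hf i (by simpa using hi) j (by simpa using hj) hij

theorem near_add {G : SimpleGraph V} {L : ℕ} {f : ℕ → V}
    (hf : ∀ i, i + 1 < L → G.Adj (f i) (f (i + 1))) (i d : ℕ) (h : i + d < L) :
    Near G d (f i) (f (i + d)) := by
  induction d with
  | zero => exact Near.refl G 0 _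
  | succ d ih => exact (ih (by omega)).trans (Near.of_adj (hf (i + d) (by omega)))

theorem Win.near {G : SimpleGraph V} {L : ℕ} {X : Finset V} (h : Win G L X) :
    ∀ x ∈ X, ∀ y ∈ X, Near G L x y := by
  obtain ⟨f, -, hf, rfl⟩ := h
  intro x hx y hy
  obtain ⟨i, hi, rfl⟩ := mem_image.1 hx
  obtain ⟨j, hj, rfl⟩ := mem_image.1 hy
  rw [mem_range] at hi hj
  rcases le_total i j with h | h
  · obtain ⟨d, rfl⟩ := Nat.exists_eq_add_of_le h
    exact (near_add hf i d hj).mono (by omega)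
  · obtain ⟨d, rfl⟩ := Nat.exists_eq_add_of_le h
    exact ((near_add hf j d hi).mono (by omega)).symm

/-- a maximal family of disjoint windows -/
theorem exists_max (G : SimpleGraph V) (L : ℕ) (hL : 1 ≤ L) :
    ∃ Wn : Finset (Finset V), (∀ X ∈ Wn, ∀ Y ∈ Wn, X ≠ Y → Disjoint X Y) ∧
      (∀ X ∈ Wn, Win G L X) ∧ ∀ Y, Win G L Y → ∃ X ∈ Wn, ∃ x ∈ X, x ∈ Y := by
  classical
  let P : Finset (Finset V) → Prop := fun Wn =>
    (∀ X ∈ Wn, ∀ Y ∈ Wn, X ≠ Y → Disjoint X Y) ∧ ∀ X ∈ Wn, Win G L X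
  obtain ⟨Wn, hW, hmax⟩ := Finset.exists_max_image (sel P) Finset.card
    ⟨∅, mem_sel.2 ⟨by simp, by simp⟩⟩
  obtain ⟨h1, h2⟩ := mem_sel.1 hW
  refine ⟨Wn, h1, h2, fun Y hY => ?_⟩
  by_contra hcon
  push Not at hcon
  have hd : ∀ X ∈ Wn, Disjoint X Y := fun X hX => Finset.disjoint_left.2 (hcon X hX)
  have hne : Y ∉ Wn := by
    intro hYW
    have hc := hY.card
    obtain ⟨y, hy⟩ : Y.Nonempty := Finset.card_pos.1 (by omega)
    exact hcon Y hYW y hy hy
  have hP : P (insert Y Wn) := by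
    refine ⟨fun X hX Z hZ hXZ => ?_, fun X hX => ?_⟩
    · rcases mem_insert.1 hX with rfl | hX' <;> rcases mem_insert.1 hZ with rfl | hZ'
      · exact absurd rfl hXZ
      · exact (hd Z hZ').symm
      · exact hd X hX'
      · exact h1 X hX' Z hZ' hXZ
    · rcases mem_insert.1 hX with rfl | hX'
      · exact hY
      · exact h2 X hX'
  have := hmax _ (mem_sel.2 hP)
  rw [card_insert_of_notMem hne] at this
  omega

/-- an interior vertex of a path has no other neighbours -/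
theorem nbr {G : SimpleGraph V} (hG : ∀ v, (nb G v).card ≤ 2) {n : ℕ} {g : ℕ → V}
    (hi : ∀ i ≤ n, ∀ j ≤ n, g i = g j → i = j) (ha : ∀ i < n, G.Adj (g i) (g (i + 1)))
    {j : ℕ} (hj : j + 1 < n) {x : V} (hx : G.Adj (g (j + 1)) x) : x = g j ∨ x = g (j + 2) := by
  by_contra hcon
  push Not at hcon
  have hne : g j ≠ g (j + 2) := fun h => by
    have := hi j (by omega) (j + 2) (by omega) h
    omega
  have hsub : ({x, g j, g (j + 2)} : Finset V) ⊆ nb G (g (j + 1)) := by
    intro y hy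
    simp only [mem_insert, mem_singleton] at hy
    rw [mem_nb]
    rcases hy with rfl | rfl | rfl
    · exact hx
    · exact (ha j (by omega)).symm
    · exact ha (j + 1) hj
  have hc : ({x, g j, g (j + 2)} : Finset V).card = 3 :=
    Finset.card_eq_three.2 ⟨x, g j, g (j + 2), hcon.1, hcon.2, hne, rfl⟩
  have := (card_le_card hsub).trans (hG _)
  omega

/-- a window through the middle of a long path lies on the path -/
theorem inside {G : SimpleGraph V} (hG : ∀ v, (nb G v).card ≤ 2) {n L : ℕ} {g f : ℕ → V}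
    (hi : ∀ i ≤ n, ∀ j ≤ n, g i = g j → i = j) (ha : ∀ i < n, G.Adj (g i) (g (i + 1)))
    (hf : ∀ i, i + 1 < L → G.Adj (f i) (f (i + 1))) {a m : ℕ} (haL : a < L) (hm : L ≤ m)
    (hm' : m + L ≤ n) (h : f a = g m) (d : ℕ) :
    ∀ b < L, (b = a + d ∨ a = b + d) → ∃ j, m ≤ j + d ∧ j ≤ m + d ∧ f b = g j := by
  induction d with
  | zero =>
    intro b _ hb
    have : b = a := by omega
    exact ⟨m, by omega, by omega, this ▸ h⟩
  | succ d ih =>
    intro b hbL hb
    have key : ∀ b' < L, (b' = a + d ∨ a = b' + d) → G.Adj (f b') (f b) →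
        ∃ j, m ≤ j + (d + 1) ∧ j ≤ m + (d + 1) ∧ f b = g j := by
      intro b' hb' hb'' hadj
      obtain ⟨j, h1, h2, h3⟩ := ih b' hb' hb''
      obtain ⟨j, rfl⟩ : ∃ j', j = j' + 1 := ⟨j - 1, by omega⟩
      rw [h3] at hadj
      rcases nbr hG hi ha (by omega) hadj with h4 | h4
      · exact ⟨j, by omega, by omega, h4⟩
      · exact ⟨j + 2, by omega, by omega, h4⟩
    rcases hb with rfl | hb
    · exact key (a + d) (by omega) (Or.inl rfl) (hf (a + d) (by omega))
    · exact key (b + 1) (by omega) (Or.inr (by omega)) (hf b (by omega)).symm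

end Cut

theorem p_Cut : S_Cut := by
  intro V _ _ G hG L hL
  obtain ⟨Wn, h1, h2, h3⟩ := Cut.exists_max G L hL
  refine ⟨Wn, h1, fun X hX => ⟨(h2 X hX).card, (h2 X hX).near⟩, fun D hD u v p hp => ?_⟩
  have hsup : ∀ x ∈ p.bypass.support, x ∉ D := fun x hx => hp x (p.support_bypass_subset_support hx)
  refine ⟨p.bypass, ?_, hsup⟩
  by_contra hlen
  push Not at hlen
  have hi : ∀ i ≤ p.bypass.length, ∀ j ≤ p.bypass.length,
      p.bypass.getVert i = p.bypass.getVert j → i = j := fun i hi j hj h =>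
    p.bypass_isPath.getVert_injOn hi hj h
  have ha : ∀ i < p.bypass.length, G.Adj (p.bypass.getVert i) (p.bypass.getVert (i + 1)) :=
    fun i hi => p.bypass.adj_getVert_succ hi
  have hY : Cut.Win G L ((range L).image fun i => p.bypass.getVert (L + i)) :=
    ⟨_, fun i hi' j hj h => by have := hi _ (by omega) _ (by omega) h; omega,
      fun i hi' => ha (L + i) (by omega), rfl⟩
  obtain ⟨X, hX, x, hx, hxY⟩ := h3 _ hY
  obtain ⟨y, hy, hyD⟩ := hD X hX
  obtain ⟨f, -, hf, rfl⟩ := h2 X hX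
  obtain ⟨a, haL, rfl⟩ := mem_image.1 hx
  obtain ⟨b, hbL, rfl⟩ := mem_image.1 hy
  obtain ⟨i, hiL, hfi⟩ := mem_image.1 hxY
  rw [mem_range] at haL hbL hiL
  obtain ⟨d, hd⟩ : ∃ d, b = a + d ∨ a = b + d := by
    rcases le_total a b with h | h
    · exact ⟨b - a, Or.inl (by omega)⟩
    · exact ⟨a - b, Or.inr (by omega)⟩
  obtain ⟨j, -, -, hj⟩ := Cut.inside hG hi ha hf haL (m := L + i) (by omega) (by omega)
    hfi.symm d b hbL hd
  exact hsup _ (hj ▸ p.bypass.getVert_mem_support j) hyD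

end Pool.Agent.P.MP_fb43a4_co.Asy
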