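import Mathlib
import Pool.Agent.P.MP_fb43a4_co.Asy.St

/-! Duality: a law with large marginals, or a separating weight. -/

namespace Pool.Agent.P.MP_fb43a4_co.Asy

open Finset

namespace DualP

variable {O : Type} [Fintype O] [DecidableEq O]

theorem sq_le (x h : ℝ) : max (x + h) 0 ^ 2 ≤ max x 0 ^ 2 + 2 * max x 0 * h + h ^ 2 := by
  rcases le_total x 0 with h1 | h1 <;> rcases le_total (x + h) 0 with h2 | h2 <;>
    simp only [max_eq_left, max_eq_right, h1, h2] <;> nlinarith [sq_nonneg (x + h)]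

theorem pair (μ : Finset O → ℝ) (ω : O → ℝ) :
    ∑ o, ω o * marg μ o = ∑ I, μ I * ∑ o ∈ I, ω o := by
  simp only [marg, mul_sum]
  rw [sum_comm]
  refine sum_congr rfl fun I _ => ?_
  simp [mul_comm]

theorem exists_min (X : SimpleGraph O) (A : Finset O) (y : O → ℝ) :
    ∃ μ, IsLaw X A μ ∧ ∀ ν, IsLaw X A ν →
      ∑ o ∈ A, max (y o - marg μ o) 0 ^ 2 ≤ ∑ o ∈ A, max (y o - marg ν o) 0 ^ 2 := by
  have hc : IsCompact {μ : Finset O → ℝ | IsLaw X A μ} := by
    refine (isCompact_stdSimplex ℝ (Finset O)).of_isClosed_subset ?_ fun μ h => ⟨h.1, h.2.1⟩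
    have e : {μ : Finset O → ℝ | IsLaw X A μ} = stdSimplex ℝ (Finset O) ∩
        ⋂ I ∈ {I : Finset O | ¬ (I ⊆ A ∧ Ind X I)}, {μ | μ I = 0} := by
      ext μ
      simp only [Set.mem_inter_iff, Set.mem_iInter, Set.mem_ofPred_eq]
      exact ⟨fun h => ⟨⟨h.1, h.2.1⟩, fun I hI => by_contra fun h' => hI (h.2.2 I h')⟩,
        fun h => ⟨h.1.1, h.1.2, fun I hI => by_contra fun h' => hI (h.2 I h')⟩⟩
    rw [e]
    exact (isClosed_stdSimplex _ _).inter (isClosed_biInter fun I _ =>
      isClosed_eq (continuous_apply I) continuous_const)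
  have hm : ∀ o, Continuous fun μ : Finset O → ℝ => marg μ o := fun o =>
    continuous_finsetSum _ fun I _ => by split_ifs <;> fun_prop
  obtain ⟨μ, h1, h2⟩ := hc.exists_isMinOn (f := fun μ => ∑ o ∈ A, max (y o - marg μ o) 0 ^ 2)
    ⟨fun J => if J = ∅ then 1 else 0, fun J => by positivity, by simp, fun J hJ => by
      obtain rfl : J = ∅ := by simpa using hJ
      exact ⟨empty_subset _, fun a ha => absurd ha (notMem_empty a)⟩⟩
    (continuous_finsetSum _ fun o _ =>
      ((continuous_const.sub (hm o)).max continuous_const).pow 2).continuousOn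
  exact ⟨μ, h1, fun ν hν => h2 hν⟩

theorem first {X : SimpleGraph O} {A : Finset O} {y : O → ℝ} {μ : Finset O → ℝ} (h : IsLaw X A μ)
    (hmin : ∀ ν, IsLaw X A ν →
      ∑ o ∈ A, max (y o - marg μ o) 0 ^ 2 ≤ ∑ o ∈ A, max (y o - marg ν o) 0 ^ 2)
    {I : Finset O} (hI : I ⊆ A) (hX : Ind X I) :
    ∑ o ∈ I, max (y o - marg μ o) 0 ≤ ∑ o ∈ A, max (y o - marg μ o) 0 * marg μ o := by
  set B := ∑ o ∈ A, (marg μ o - if o ∈ I then 1 else 0) ^ 2 with hB
  have hB0 : 0 ≤ B := sum_nonneg fun _ _ => sq_nonneg _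
  have key : ∀ t : ℝ, 0 < t → t ≤ 1 → 2 * (∑ o ∈ I, max (y o - marg μ o) 0 -
      ∑ o ∈ A, max (y o - marg μ o) 0 * marg μ o) ≤ t * B := fun t h0 h1 => by
    have hν : IsLaw X A fun J => (1 - t) * μ J + if J = I then t else 0 := by
      refine ⟨fun J => add_nonneg (mul_nonneg (by linarith) (h.1 J)) (by positivity), ?_,
        fun J hJ => ?_⟩
      · rw [sum_add_distrib, ← mul_sum, h.2.1]
        simp
      · by_cases e : J = I
        · exact e ▸ ⟨hI, hX⟩
        · exact h.2.2 J fun h0 => hJ (by simp [e, h0])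
    have hm : ∀ o, y o - marg (fun J => (1 - t) * μ J + if J = I then t else 0) o =
        y o - marg μ o + t * (marg μ o - if o ∈ I then 1 else 0) := fun o => by
      have : marg (fun J => (1 - t) * μ J + if J = I then t else 0) o =
          (1 - t) * marg μ o + ∑ J, if J = I then (if o ∈ J then t else 0) else 0 := by
        simp only [marg, mul_sum, ← sum_add_distrib]
        exact sum_congr rfl fun J _ => by split_ifs <;> simp
      rw [this, sum_ite_eq', if_pos (mem_univ _)]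
      split_ifs <;> ring
    have h2 := (hmin _ hν).trans (sum_le_sum fun o _ => (hm o ▸ sq_le (y o - marg μ o)
      (t * (marg μ o - if o ∈ I then 1 else 0)) :))
    have h3 : ∑ o ∈ A, max (y o - marg μ o) 0 * (if o ∈ I then 1 else 0) =
        ∑ o ∈ I, max (y o - marg μ o) 0 := by
      simp only [mul_ite, mul_one, mul_zero, sum_ite_mem, inter_eq_right.2 hI]
    have h4 : ∑ o ∈ A, (max (y o - marg μ o) 0 ^ 2 + 2 * max (y o - marg μ o) 0 *
        (t * (marg μ o - if o ∈ I then 1 else 0)) + (t * (marg μ o - if o ∈ I then 1 else 0)) ^ 2) =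
        ∑ o ∈ A, max (y o - marg μ o) 0 ^ 2 + t * (t * B - 2 * (∑ o ∈ I, max (y o - marg μ o) 0 -
          ∑ o ∈ A, max (y o - marg μ o) 0 * marg μ o)) := by
      rw [hB, ← h3]
      simp only [mul_sum, mul_sub, ← sum_sub_distrib, ← sum_add_distrib]
      exact sum_congr rfl fun o _ => by ring
    rw [h4, le_add_iff_nonneg_right] at h2
    linarith [(mul_nonneg_iff_of_pos_left h0).1 h2]
  by_contra hc
  set D := ∑ o ∈ I, max (y o - marg μ o) 0 - ∑ o ∈ A, max (y o - marg μ o) 0 * marg μ o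
  have hD : 0 < D := sub_pos.2 (not_le.1 hc)
  have h5 := key (D / (B + D)) (by positivity) ((div_le_one (by positivity)).2 (by linarith))
  rw [div_mul_eq_mul_div, le_div_iff₀ (by positivity)] at h5
  nlinarith [mul_nonneg hD.le hB0, mul_pos hD hD]

end DualP

open DualP in
theorem p_Dual : S_Dual := by
  intro O _ _ X A y hy
  obtain ⟨μ, hμ, hmin⟩ := exists_min X A y
  by_cases hL : ∀ o ∈ A, y o ≤ marg μ o
  · exact Or.inl ⟨μ, hμ, hL⟩
  push Not at hL
  obtain ⟨o0, ho0, hlt⟩ := hL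
  set ω : O → ℝ := fun o => if o ∈ A then max (y o - marg μ o) 0 else 0 with hω
  have hωA : ∀ o ∈ A, ω o = max (y o - marg μ o) 0 := fun o ho => if_pos ho
  have hω0 : ∀ o, 0 ≤ ω o := fun o => by
    simp only [hω]
    split_ifs <;> simp
  set Ω := ∑ o ∈ A, ω o * marg μ o with hΩ
  have hle : ∀ I ⊆ A, Ind X I → ∑ o ∈ I, ω o ≤ Ω := fun I hI hX => by
    calc ∑ o ∈ I, ω o = _ := sum_congr rfl fun o ho => hωA o (hI ho)
      _ ≤ _ := first hμ hmin hI hX
      _ = Ω := sum_congr rfl fun o ho => by rw [hωA o ho]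
  have heq : ∀ I, μ I ≠ 0 → ∑ o ∈ I, ω o = Ω := by
    have h1 : ∑ I, μ I * (Ω - ∑ o ∈ I, ω o) = 0 := by
      simp only [mul_sub, sum_sub_distrib, ← sum_mul, hμ.2.1, ← pair, one_mul]
      rw [sub_eq_zero, hΩ]
      exact sum_subset (subset_univ A) fun o _ ho => by simp [hω, ho]
    intro I hI
    have h2 := (sum_eq_zero_iff_of_nonneg fun J _ => by
      by_cases hJ : μ J = 0
      · simp [hJ]
      · exact mul_nonneg (hμ.1 J) (sub_nonneg.2 (hle J (hμ.2.2 J hJ).1 (hμ.2.2 J hJ).2))).1 h1 I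
        (mem_univ I)
    exact (sub_eq_zero.1 ((mul_eq_zero.1 h2).resolve_left hI)).symm
  set S : Finset O := univ.filter fun o => 0 < ω o with hS
  have hsupp : ∀ J, (∑ I, if I ∩ S = J then μ I else 0) ≠ 0 → ∃ I, μ I ≠ 0 ∧ I ∩ S = J :=
    fun J hJ => by
      obtain ⟨I, -, hI⟩ := exists_ne_zero_of_sum_ne_zero hJ
      exact ⟨I, fun h => hI (by simp [h]), by_contra fun h => hI (if_neg h)⟩
  refine Or.inr ⟨ω, fun J => ∑ I, if I ∩ S = J then μ I else 0, Ω, hω0, ⟨fun J => sum_nonneg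
    fun I _ => by split_ifs <;> simp [hμ.1 I], ?_, fun J hJ => ?_⟩, hle, ?_, fun J hJ => ?_,
    fun o ho => ?_⟩
  · rw [sum_comm]
    simp [hμ.2.1]
  · obtain ⟨I, hI, rfl⟩ := hsupp J hJ
    exact ⟨inter_subset_left.trans (hμ.2.2 I hI).1, fun a ha b hb =>
      (hμ.2.2 I hI).2 a (mem_inter.1 ha).1 b (mem_inter.1 hb).1⟩
  · refine sum_lt_sum (fun o ho => ?_) ⟨o0, ho0, mul_lt_mul_of_pos_left hlt ?_⟩
    · rw [hωA o ho]
      rcases le_total (y o - marg μ o) 0 with h | h
      · simp [h]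
      · exact mul_le_mul_of_nonneg_left (by linarith) (le_max_right _ _)
    · rw [hωA o0 ho0]
      exact lt_max_of_lt_left (sub_pos.2 hlt)
  · obtain ⟨I, hI, rfl⟩ := hsupp J hJ
    refine ⟨?_, fun o ho => (mem_filter.1 (mem_inter.1 ho).2).2⟩
    rw [← heq I hI]
    refine sum_subset inter_subset_left fun o ho hn => (hω0 o).antisymm' (not_lt.1 fun h => hn ?_)
    exact mem_inter.2 ⟨ho, mem_filter.2 ⟨mem_univ _, h⟩⟩
  · have e : marg (fun J => ∑ I, if I ∩ S = J then μ I else 0) o =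
        ∑ I, if o ∈ I ∩ S then μ I else 0 := by
      have e1 : ∀ J : Finset O, (if o ∈ J then ∑ I, if I ∩ S = J then μ I else 0 else 0) =
          ∑ I, if o ∈ J then (if I ∩ S = J then μ I else 0) else 0 := fun J => by
        split_ifs <;> simp
      simp only [marg, e1]
      rw [sum_comm]
      refine sum_congr rfl fun I _ => ?_
      rw [sum_eq_single (I ∩ S) (fun J _ hJ => by simp [hJ.symm]) (by simp)]
      simp
    rw [e]
    by_cases h : o ∈ S
    · have h1 : 0 < max (y o - marg μ o) 0 := hωA o ho ▸ (mem_filter.1 h).2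
      have h2 : 0 < y o - marg μ o := (lt_max_iff.1 h1).resolve_right (lt_irrefl _)
      simp only [mem_inter, h, and_true]
      exact (sub_pos.1 h2).le
    · simpa [h] using hy o ho

end Pool.Agent.P.MP_fb43a4_co.Asy
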