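import Mathlib
import Pool.Agent.P.MP_fb43a4_co.Asy.St

/-!
Asymptotic list colouring of claw-free graphs: the last greedy step.
-/

namespace Pool.Agent.P.MP_fb43a4_co.Asy

open Finset

set_option linter.unusedSectionVars false

namespace End

variable {V : Type} [Fintype V] [DecidableEq V] {X : Ctx V} {s : St V}

theorem lst_sub (X : Ctx V) (s : St V) (v : V) : X.lst s v ⊆ X.L v := by
  unfold Ctx.lst
  split_ifs
  · exact filter_subset _ _
  · exact sdiff_subset

theorem phi_pos (X : Ctx V) (s : St V) (U : Finset V) (γ : V → ℕ) (n : ℝ) (o : Option ℕ) :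
    0 < X.phi s U γ n o := Real.exp_pos _

theorem fr_eq (hP : ∀ v, X.L v ⊆ s.P) (v : V) :
    X.fr s v = Real.exp (X.a ^ 2 * X.l / 4 - (X.free s v).card) := by
  unfold Ctx.fr
  rw [sdiff_eq_empty_iff_subset.mpr (hP v), card_empty, pow_zero, mul_one]

theorem two (hP : ∀ v, X.L v ⊆ s.P) {v : V} (hY : X.Y s v < 1) :
    X.phi s (nb X.G v ∩ X.S.T) (X.γ0 v) X.k none < 1 ∧ X.fr s v < 1 := by
  unfold Ctx.Y at hY
  have h1 : 0 ≤ ∑ j, ∑ c ∈ X.pal v,
      X.phi s (X.S.U v j) (X.S.γ v j (X.inn c)) (X.S.n v j) (some c) :=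
    sum_nonneg fun _ _ => sum_nonneg fun _ _ => (phi_pos _ _ _ _ _ _).le
  have h2 := phi_pos X s (nb X.G v ∩ X.S.T) (X.γ0 v) X.k none
  have h3 : 0 < X.fr s v := by
    rw [fr_eq hP]
    exact Real.exp_pos _
  constructor <;> linarith

theorem free_big (hP : ∀ v, X.L v ⊆ s.P) {v : V} (hY : X.Y s v < 1) :
    X.a ^ 2 * X.l / 4 < (X.free s v).card := by
  have h := (two hP hY).2
  rw [fr_eq hP, Real.exp_lt_one_iff] at h
  linarith

theorem bud_nonneg (hX : X.Ok) (u : V) : 0 ≤ X.bud s u := by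
  have ha := hX.a0
  have hC : 0 ≤ X.C := by
    unfold Ctx.C
    positivity
  unfold Ctx.bud
  split_ifs <;> positivity

theorem psi_le (hX : X.Ok) (hP : ∀ v, X.L v ⊆ s.P) {v : V} (hY : X.Y s v < 1) :
    Psi (nb X.G v ∩ X.S.T) (X.γ0 v) (X.w / (1 - X.a)) (X.load s none) ≤
      X.β ^ 2 * X.w * X.k := by
  have h := (two hP hY).1
  unfold Ctx.phi at h
  rw [Real.exp_lt_one_iff] at h
  have h1 : 0 ≤ X.kap * ∑ u ∈ nb X.G v ∩ X.S.T, X.bud s u :=
    mul_nonneg hX.kap0 (sum_nonneg fun u _ => bud_nonneg hX u)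
  refine le_of_mul_le_mul_left ?_ hX.lam0
  linarith

theorem load_le (hLoad : S_Load) (hX : X.Ok) (hP : ∀ v, X.L v ⊆ s.P) {v : V}
    (hY : X.Y s v < 1) : ∑ u ∈ nb X.G v ∩ X.S.T, X.load s none u ≤ 4 * X.k := by
  have ha0 := hX.a0
  have ha1 := hX.a1
  have hb0 := hX.b0
  have hb1 := hX.b1
  have hw : (1 : ℝ) ≤ X.w := by exact_mod_cast hX.w1
  have hwk : (2 : ℝ) * X.w ≤ X.k := by exact_mod_cast hX.wk
  have hw0 : (0 : ℝ) < X.w := by linarith
  have ht : 0 < X.β * X.w := by positivity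
  have h := (hLoad V (nb X.G v ∩ X.S.T) (X.γ0 v) (X.w / (1 - X.a)) (X.β * X.w)
    (X.load s none) ht).2
  have h1 : Psi (nb X.G v ∩ X.S.T) (X.γ0 v) (X.w / (1 - X.a)) (X.load s none) / (X.β * X.w) ≤
      X.β * X.k := by
    rw [div_le_iff₀ ht]
    have := psi_le hX hP hY
    linarith
  have h2 : (X.w : ℝ) / (1 - X.a) ≤ 20 / 19 * X.w := by
    rw [div_le_iff₀ (by linarith)]
    nlinarith
  have h3 : (X.w : ℝ) / (1 - X.a) + X.β * X.w ≤ 3 / 2 * X.w := by nlinarith
  have h4 : (0 : ℝ) ≤ X.w / (1 - X.a) + X.β * X.w := by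
    have : (0 : ℝ) < 1 - X.a := by linarith
    positivity
  have h5 : (((nb X.G v ∩ X.S.T).image (X.γ0 v)).card : ℝ) * (X.w / (1 - X.a) + X.β * X.w) ≤
      (2 * X.k / X.w + 1) * (3 / 2 * X.w) :=
    mul_le_mul (hX.img0 v) h3 h4 (by positivity)
  have h6 : (2 * X.k / X.w + 1) * (3 / 2 * X.w : ℝ) = 3 * X.k + 3 / 2 * X.w := by
    field_simp
  have h7 : X.β * X.k ≤ 1 / 4 * X.k := mul_le_mul_of_nonneg_right hb1 (by positivity)
  linarith

theorem load_nonneg (hI : X.Inv s) {u : V} (hu : u ∈ X.S.T) : 0 ≤ X.load s none u := by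
  unfold Ctx.load
  rw [if_pos (hI.dec ▸ hu)]
  split_ifs <;> positivity

theorem load_ge (hX : X.Ok) (hI : X.Inv s) (hP : ∀ v, X.L v ⊆ s.P) {u : V} (hu : u ∈ X.S.T)
    (hc : s.col u = none) : 32 / X.a ^ 2 ≤ X.load s none u := by
  have ha0 := hX.a0
  unfold Ctx.load
  rw [if_pos (hI.dec ▸ hu), if_pos hc]
  have h0 : X.rr s u = ⌈X.de * (X.lst s u).card⌉₊ := by
    unfold Ctx.rr Ctx.rho
    rw [sdiff_eq_empty_iff_subset.mpr ((lst_sub X s u).trans (hP u)), card_empty, Nat.zero_max]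
  have hal : X.al s none u = (X.lst s u).card := rfl
  have hsz := hI.size u hu
  have hkl : (X.k : ℝ) ≤ X.l := by exact_mod_cast hX.kl
  have hbig : 64 ≤ X.k * X.a ^ 3 := by
    have h := hX.big
    unfold Ctx.C at h
    rwa [div_le_iff₀ (by positivity)] at h
  have h1 : 1 ≤ X.de * (X.lst s u).card := by
    unfold Ctx.de
    have h2 : X.a ^ 2 * (X.a * X.l) ≤ X.a ^ 2 * (X.lst s u).card :=
      mul_le_mul_of_nonneg_left hsz (by positivity)
    have h3 : X.k * X.a ^ 3 ≤ X.l * X.a ^ 3 := mul_le_mul_of_nonneg_right hkl (by positivity)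
    nlinarith
  have h2 : (⌈X.de * (X.lst s u).card⌉₊ : ℝ) < X.de * (X.lst s u).card + 1 :=
    Nat.ceil_lt_add_one (by linarith)
  have h3 : X.de * (X.lst s u).card ≤ (⌈X.de * (X.lst s u).card⌉₊ : ℝ) := Nat.le_ceil _
  rw [h0, hal, div_le_div_iff₀ (by positivity) (by linarith)]
  have h4 : 64 * (X.de * (X.lst s u).card) = (X.lst s u).card * X.a ^ 2 := by
    unfold Ctx.de
    ring
  linarith

theorem few (hLoad : S_Load) (hX : X.Ok) (hI : X.Inv s) (hP : ∀ v, X.L v ⊆ s.P) {v : V}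
    (hY : X.Y s v < 1) :
    (((nb X.G v ∩ X.S.T).filter fun u => s.col u = none).card : ℝ) ≤ X.a ^ 2 / 8 * X.k := by
  have ha0 := hX.a0
  have h1 := load_le hLoad hX hP hY
  have h2 : ∑ u ∈ (nb X.G v ∩ X.S.T).filter fun u => s.col u = none, X.load s none u ≤
      ∑ u ∈ nb X.G v ∩ X.S.T, X.load s none u :=
    sum_le_sum_of_subset_of_nonneg (filter_subset _ _) fun u hu _ =>
      load_nonneg hI (mem_inter.mp hu).2
  have h3 := card_nsmul_le_sum ((nb X.G v ∩ X.S.T).filter fun u => s.col u = none)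
    (X.load s none) (32 / X.a ^ 2) fun u hu =>
      load_ge hX hI hP (mem_inter.mp (mem_filter.mp hu).1).2 (mem_filter.mp hu).2
  rw [nsmul_eq_mul, ← mul_div_assoc, div_le_iff₀ (by positivity)] at h3
  have h4 := mul_le_mul_of_nonneg_right (h2.trans h1) (sq_nonneg X.a)
  linarith

end End

theorem p_End (hGrL : S_GrL) (hLoad : S_Load) (hDeg : S_Deg) : S_End := by
  intro V _ _ X s hX hI hP hY
  have _ := hDeg
  obtain ⟨col, hc1, hc2⟩ := hGrL V X.G (sel fun v => v ∉ X.Hub ∧ s.col v = none) (X.free s) (by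
    intro v hv
    rw [mem_sel] at hv
    have h1 := End.few hLoad hX hI hP (hY v)
    have h2 := hX.sys.sparse v hv.1
    have h3 := End.free_big hP (hY v)
    have h4 : nb X.G v ∩ sel (fun v => v ∉ X.Hub ∧ s.col v = none) ⊆
        ((nb X.G v ∩ X.S.T).filter fun u => s.col u = none) ∪ ((nb X.G v \ X.S.T) \ X.Hub) := by
      intro u hu
      rw [mem_inter, mem_sel] at hu
      by_cases h : u ∈ X.S.T
      · exact mem_union_left _ (mem_filter.mpr ⟨mem_inter.mpr ⟨hu.1, h⟩, hu.2.2⟩)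
      · exact mem_union_right _ (mem_sdiff.mpr ⟨mem_sdiff.mpr ⟨hu.1, h⟩, hu.2.1⟩)
    have h5 := (card_le_card h4).trans (card_union_le _ _)
    have h6 : ((nb X.G v ∩ sel (fun v => v ∉ X.Hub ∧ s.col v = none)).card : ℝ) ≤
        (((nb X.G v ∩ X.S.T).filter fun u => s.col u = none).card : ℝ) +
          (((nb X.G v \ X.S.T) \ X.Hub).card : ℝ) := by exact_mod_cast h5
    have hkl : (X.k : ℝ) ≤ X.l := by exact_mod_cast hX.kl
    have h7 := mul_le_mul_of_nonneg_left hkl (sq_nonneg X.a)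
    have h8 : 0 ≤ X.a ^ 2 * X.k := by positivity
    have h9 : ((nb X.G v ∩ sel (fun v => v ∉ X.Hub ∧ s.col v = none)).card : ℝ) <
        (X.free s v).card := by linarith
    exact_mod_cast h9)
  have hfree : ∀ v, v ∉ X.Hub → s.col v = none →
      col v ∈ X.L v ∧ ∀ u, X.G.Adj v u → s.col u ≠ some (col v) := by
    intro v h1 h2
    have h := hc1 v (mem_sel.mpr ⟨h1, h2⟩)
    unfold Ctx.free at h
    rw [mem_filter, mem_inter] at h
    exact ⟨h.1.1, fun u hu => h.2 u (mem_nb.mpr hu)⟩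
  refine ⟨fun v => (s.col v).getD (col v), fun v hv => ?_, fun u v hu hv huv => ?_⟩
  · rcases h : s.col v with _ | c
    · simpa [h] using (hfree v hv h).1
    · simpa [h] using End.lst_sub X s v (hI.col v c h).2.1
  · rcases h : s.col u with _ | c <;> rcases h' : s.col v with _ | c'
    · simpa [h, h'] using hc2 u (mem_sel.mpr ⟨hu, h⟩) v (mem_sel.mpr ⟨hv, h'⟩) huv
    · have h1 := (hfree u hu h).2 v huv
      simp only [h, h', Option.getD_none, Option.getD_some]
      intro h2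
      exact h1 (by rw [h', h2])
    · have h1 := (hfree v hv h').2 u huv.symm
      simp only [h, h', Option.getD_none, Option.getD_some]
      intro h2
      exact h1 (by rw [h, h2])
    · have h1 := hI.prop u v c huv h
      simp only [h, h', Option.getD_some]
      intro h2
      exact h1 (by rw [h', h2])

end Pool.Agent.P.MP_fb43a4_co.Asy
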