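import Mathlib
import Pool.Agent.P.MP_fb43a4_co.Asy.St

/-!
The two one-step inequalities for the exponential estimator.
-/

namespace Pool.Agent.P.MP_fb43a4_co.Asy

open Finset

set_option linter.unusedSectionVars false

namespace Est

theorem f_low (x y : ℝ) : (max y 0) ^ 2 ≤ (max x 0) ^ 2 + 2 * max y 0 * (y - x) := by
  rcases le_total x 0 with hx | hx <;> rcases le_total y 0 with hy | hy
  · simp [max_eq_right hx, max_eq_right hy]
  · rw [max_eq_right hx, max_eq_left hy]; nlinarith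
  · rw [max_eq_left hx, max_eq_right hy]; nlinarith
  · rw [max_eq_left hx, max_eq_left hy]; nlinarith [sq_nonneg (x - y)]

theorem f_up (x h : ℝ) : (max (x + h) 0) ^ 2 ≤ (max x 0) ^ 2 + 2 * max x 0 * h + h ^ 2 := by
  rcases le_total x 0 with hx | hx <;> rcases le_total (x + h) 0 with hy | hy
  · rw [max_eq_right hx, max_eq_right hy]; nlinarith [sq_nonneg h]
  · rw [max_eq_right hx, max_eq_left hy]; nlinarith
  · rw [max_eq_left hx, max_eq_right hy]; nlinarith [sq_nonneg (x + h)]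
  · rw [max_eq_left hx, max_eq_left hy]; nlinarith

theorem f_drop (A x K : ℝ) (h0 : 0 ≤ x) (hK : x ≤ K) :
    (max (A - x) 0) ^ 2 ≤ (max A 0) ^ 2 - max (2 * max A 0 - K) 0 * x := by
  rcases le_total (2 * max A 0 - K) 0 with h | h
  · rw [max_eq_right h, zero_mul, sub_zero]
    exact pow_le_pow_left₀ (le_max_right _ _) (max_le_max (by linarith) le_rfl) 2
  · rw [max_eq_left h]
    have := f_up A (-x)
    rw [← sub_eq_add_neg] at this
    nlinarith [mul_le_mul_of_nonneg_left hK h0]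

variable {V : Type} [Fintype V] [DecidableEq V]

/-- positive part of the excess of the cell with name `t` -/
noncomputable def ap (U : Finset V) (γ : V → ℕ) (b : ℝ) (g : V → ℝ) (t : ℕ) : ℝ :=
  max ((∑ u ∈ U.filter fun u => γ u = t, g u) - b) 0

theorem ap_nonneg (U : Finset V) (γ : V → ℕ) (b : ℝ) (g : V → ℝ) (t : ℕ) : 0 ≤ ap U γ b g t :=
  le_max_right _ _

theorem ap_le {U : Finset V} {γ : V → ℕ} {b C : ℝ} {g : V → ℝ} {w : ℕ} (hF : Fib U γ w)
    (hb : 0 ≤ b) (hC : 0 ≤ C) (hg : ∀ u ∈ U, g u ≤ C) (t : ℕ) : ap U γ b g t ≤ w * C := by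
  refine max_le ?_ (by positivity)
  have h1 : (∑ u ∈ U.filter fun u => γ u = t, g u) ≤ (U.filter fun u => γ u = t).card • C :=
    Finset.sum_le_card_nsmul _ _ _ fun u hu => hg u (Finset.mem_filter.1 hu).1
  rw [nsmul_eq_mul] at h1
  have h2 : ((U.filter fun u => γ u = t).card : ℝ) ≤ w := by exact_mod_cast hF t
  nlinarith [mul_le_mul_of_nonneg_right h2 hC]

theorem psi_le (U : Finset V) (γ : V → ℕ) (b : ℝ) (g g' e : V → ℝ)
    (h : ∀ t, ap U γ b g' t ^ 2 ≤ ap U γ b g t ^ 2 + ∑ u ∈ U.filter fun u => γ u = t, e u) :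
    Psi U γ b g' ≤ Psi U γ b g + ∑ u ∈ U, e u := by
  rw [← Finset.sum_fiberwise_of_maps_to (fun x hx => Finset.mem_image_of_mem γ hx) e]
  unfold Psi
  rw [← Finset.sum_add_distrib]
  exact Finset.sum_le_sum fun t _ => h t

/-- tangent bound -/
theorem psi_tan (U : Finset V) (γ : V → ℕ) (b : ℝ) (g g' : V → ℝ) :
    Psi U γ b g' ≤ Psi U γ b g + ∑ u ∈ U, 2 * ap U γ b g' (γ u) * (g' u - g u) := by
  refine psi_le U γ b g g' _ fun t => ?_
  rw [Finset.sum_congr rfl (g := fun u => 2 * ap U γ b g' t * (g' u - g u))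
    fun u hu => by rw [(Finset.mem_filter.1 hu).2], ← Finset.mul_sum, Finset.sum_sub_distrib]
  have := f_low ((∑ u ∈ U.filter fun u => γ u = t, g u) - b)
    ((∑ u ∈ U.filter fun u => γ u = t, g' u) - b)
  unfold ap
  refine this.trans (le_of_eq ?_)
  ring

/-- removing at most `q` points -/
theorem psi_drop (U J : Finset V) (γ : V → ℕ) (b C : ℝ) (g : V → ℝ) (q : ℕ) (hC : 0 ≤ C)
    (hJ : J ⊆ U) (hq : J.card ≤ q) (hg : ∀ u ∈ U, 0 ≤ g u ∧ g u ≤ C) :
    Psi U γ b (fun u => if u ∈ J then 0 else g u) ≤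
      Psi U γ b g - ∑ u ∈ J, max (2 * ap U γ b g (γ u) - q * C) 0 * g u := by
  have h := psi_le U γ b g (fun u => if u ∈ J then 0 else g u)
    (fun u => if u ∈ J then -(max (2 * ap U γ b g (γ u) - q * C) 0 * g u) else 0) fun t => ?_
  · rw [← Finset.sum_filter, Finset.filter_mem_eq_inter, Finset.inter_eq_right.2 hJ,
      Finset.sum_neg_distrib] at h
    linarith
  · set T := U.filter fun u => γ u = t with hT
    have hx0 : 0 ≤ ∑ u ∈ T ∩ J, g u := Finset.sum_nonneg fun u hu =>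
      (hg u (hJ (Finset.mem_inter.1 hu).2)).1
    have hx1 : ∑ u ∈ T ∩ J, g u ≤ q * C := by
      have h1 : ∑ u ∈ T ∩ J, g u ≤ (T ∩ J).card • C :=
        Finset.sum_le_card_nsmul _ _ _ fun u hu => (hg u (hJ (Finset.mem_inter.1 hu).2)).2
      rw [nsmul_eq_mul] at h1
      have h2 : ((T ∩ J).card : ℝ) ≤ q := by
        exact_mod_cast (Finset.card_le_card Finset.inter_subset_right).trans hq
      nlinarith [mul_le_mul_of_nonneg_right h2 hC]
    have e1 : (∑ u ∈ T, if u ∈ J then (0 : ℝ) else g u) = ∑ u ∈ T, g u - ∑ u ∈ T ∩ J, g u := by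
      rw [← Finset.filter_mem_eq_inter, Finset.sum_filter (s := T), ← Finset.sum_sub_distrib]
      refine Finset.sum_congr rfl fun u _ => ?_
      split_ifs <;> simp
    have e2 : (∑ u ∈ T, if u ∈ J then -(max (2 * ap U γ b g (γ u) - q * C) 0 * g u) else 0) =
        -(max (2 * ap U γ b g t - q * C) 0 * ∑ u ∈ T ∩ J, g u) := by
      rw [← Finset.sum_filter, Finset.filter_mem_eq_inter, Finset.sum_neg_distrib, Finset.mul_sum]
      congr 1
      refine Finset.sum_congr rfl fun u hu => ?_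
      rw [(Finset.mem_filter.1 (Finset.mem_inter.1 hu).1).2]
    rw [e2]
    have := f_drop ((∑ u ∈ T, g u) - b) _ _ hx0 hx1
    unfold ap
    rw [← hT, e1, sub_right_comm]
    linarith

/-- changing at most `q` points -/
theorem psi_up (U S : Finset V) (γ : V → ℕ) (b C : ℝ) (g g' : V → ℝ) (q : ℕ) (hC : 0 ≤ C)
    (hS : S ⊆ U) (hq : S.card ≤ q) (hg : ∀ u ∈ S, |g' u - g u| ≤ C)
    (hout : ∀ u ∈ U, u ∉ S → g' u = g u) :
    Psi U γ b g' ≤
      Psi U γ b g + ∑ u ∈ S, 2 * ap U γ b g (γ u) * (g' u - g u) + q * C ^ 2 * S.card := by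
  have h := psi_le U γ b g g'
    (fun u => if u ∈ S then 2 * ap U γ b g (γ u) * (g' u - g u) + q * C ^ 2 else 0) fun t => ?_
  · rw [← Finset.sum_filter, Finset.filter_mem_eq_inter, Finset.inter_eq_right.2 hS,
      Finset.sum_add_distrib, Finset.sum_const, nsmul_eq_mul] at h
    linarith
  · set T := U.filter fun u => γ u = t with hT
    have hx1 : |∑ u ∈ T ∩ S, (g' u - g u)| ≤ (T ∩ S).card * C := by
      refine (Finset.abs_sum_le_sum_abs _ _).trans ?_
      have h1 : ∑ u ∈ T ∩ S, |g' u - g u| ≤ (T ∩ S).card • C :=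
        Finset.sum_le_card_nsmul _ _ _ fun u hu => hg u (Finset.mem_inter.1 hu).2
      rwa [nsmul_eq_mul] at h1
    have h2 : ((T ∩ S).card : ℝ) ≤ q := by
      exact_mod_cast (Finset.card_le_card Finset.inter_subset_right).trans hq
    have hx2 : (∑ u ∈ T ∩ S, (g' u - g u)) ^ 2 ≤ (T ∩ S).card * (q * C ^ 2) := by
      have h3 := sq_le_sq' (abs_le.1 hx1).1 (abs_le.1 hx1).2
      have h4 : (0 : ℝ) ≤ (T ∩ S).card := Nat.cast_nonneg _
      nlinarith [mul_le_mul_of_nonneg_left h2 (mul_nonneg h4 (sq_nonneg C))]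
    have e1 : ∑ u ∈ T, g' u = ∑ u ∈ T, g u + ∑ u ∈ T ∩ S, (g' u - g u) := by
      rw [← Finset.filter_mem_eq_inter, Finset.sum_filter (s := T), ← Finset.sum_add_distrib]
      refine Finset.sum_congr rfl fun u hu => ?_
      split_ifs with h
      · ring
      · rw [hout u (Finset.mem_filter.1 hu).1 h, add_zero]
    have e2 : (∑ u ∈ T, if u ∈ S then 2 * ap U γ b g (γ u) * (g' u - g u) + q * C ^ 2 else 0) =
        2 * ap U γ b g t * ∑ u ∈ T ∩ S, (g' u - g u) + (T ∩ S).card * (q * C ^ 2) := by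
      rw [← Finset.sum_filter, Finset.filter_mem_eq_inter, Finset.sum_add_distrib, Finset.mul_sum,
        Finset.sum_const, nsmul_eq_mul]
      congr 1
      refine Finset.sum_congr rfl fun u hu => ?_
      rw [(Finset.mem_filter.1 (Finset.mem_inter.1 hu).1).2]
    rw [e2]
    have := f_up ((∑ u ∈ T, g u) - b) (∑ u ∈ T ∩ S, (g' u - g u))
    unfold ap
    rw [← hT, e1, add_sub_right_comm]
    linarith

theorem exp_neg_le {z Z : ℝ} (h0 : 0 ≤ z) (hZ : z ≤ Z) : Real.exp (-z) ≤ 1 - z / (1 + Z) := by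
  have h1 : z / (1 + Z) ≤ z / (1 + z) := div_le_div_of_nonneg_left h0 (by linarith) (by linarith)
  have h2 : Real.exp (-z) ≤ 1 / (1 + z) := by
    rw [Real.exp_neg, ← one_div]
    exact one_div_le_one_div_of_le (by linarith) (by linarith [Real.add_one_le_exp z])
  have h3 : 1 / (1 + z) = 1 - z / (1 + z) := by
    field_simp
    ring
  linarith

theorem exp_mix {t x y B : ℝ} (t0 : 0 ≤ t) (t1 : t ≤ 1) (hx : |x| ≤ B) (hy : |y| ≤ B) (hB : B ≤ 1)
    (h : t * x + (1 - t) * y ≤ 0) :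
    t * Real.exp x + (1 - t) * Real.exp y ≤ Real.exp (B ^ 2) := by
  have h1 := (abs_le.1 (Real.abs_exp_sub_one_sub_id_le (hx.trans hB))).2
  have h2 := (abs_le.1 (Real.abs_exp_sub_one_sub_id_le (hy.trans hB))).2
  have h3 := sq_le_sq' (abs_le.1 hx).1 (abs_le.1 hx).2
  have h4 := sq_le_sq' (abs_le.1 hy).1 (abs_le.1 hy).2
  have h5 := Real.add_one_le_exp (B ^ 2)
  have h6 : t * Real.exp x ≤ t * (1 + x + B ^ 2) := mul_le_mul_of_nonneg_left (by linarith) t0
  have h7 : (1 - t) * Real.exp y ≤ (1 - t) * (1 + y + B ^ 2) :=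
    mul_le_mul_of_nonneg_left (by linarith) (by linarith)
  nlinarith

theorem col_core (U Act : Finset V) (γ : V → ℕ) (b C lam : ℝ) (g G p : V → ℝ) (q w : ℕ)
    (hC : 0 ≤ C) (hq : 1 ≤ q) (hl : 0 ≤ lam) (hF : Fib U γ w) (hb : 0 ≤ b) (hA : Act ⊆ U)
    (hG : ∀ u ∈ U, 0 ≤ G u ∧ G u ≤ C) (hp : ∀ u ∈ Act, 0 ≤ p u)
    (hin : ∀ u ∈ Act, G u - g u = p u * G u) (hout : ∀ u, u ∉ Act → G u = g u) :
    ∃ c : V → ℝ, (∀ u, 0 ≤ c u ∧ c u ≤ 1 / q) ∧ (∀ u, u ∉ Act → c u = 0) ∧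
      (∀ J ⊆ Act, J.card ≤ q →
        Real.exp (lam * Psi U γ b fun u => if u ∈ J then 0 else G u) ≤
          Real.exp (lam * Psi U γ b G) * (1 - ∑ u ∈ J, c u)) ∧
      Real.exp (lam * Psi U γ b G) * (1 - ∑ u ∈ Act, p u * c u) ≤
        Real.exp (lam * Psi U γ b g +
          lam * (q * C ^ 2 + 4 * lam * w ^ 2 * q * C ^ 4) * ∑ u ∈ Act, p u) := by
  have hq0 : (0 : ℝ) < q := by exact_mod_cast hq
  obtain ⟨d, hd⟩ : ∃ d : V → ℝ, ∀ u, d u = max (2 * ap U γ b G (γ u) - q * C) 0 * G u :=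
    ⟨_, fun _ => rfl⟩
  have hap : ∀ t, ap U γ b G t ≤ w * C := ap_le hF hb hC fun u hu => (hG u hu).2
  have hd0 : ∀ u ∈ U, 0 ≤ d u := fun u hu => by
    rw [hd]; exact mul_nonneg (le_max_right _ _) (hG u hu).1
  have hd1 : ∀ u ∈ U, d u ≤ 2 * w * C ^ 2 := fun u hu => by
    rw [hd]
    have h1 : max (2 * ap U γ b G (γ u) - q * C) 0 ≤ 2 * (w * C) :=
      max_le (by nlinarith [hap (γ u), mul_nonneg hq0.le hC]) (by positivity)
    calc _ ≤ 2 * (w * C) * C := mul_le_mul h1 (hG u hu).2 (hG u hu).1 (by positivity)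
      _ = _ := by ring
  have hd2 : ∀ u ∈ U, 2 * ap U γ b G (γ u) * G u - q * C ^ 2 ≤ d u := fun u hu => by
    rw [hd]
    have h1 := mul_le_mul_of_nonneg_right (le_max_left (2 * ap U γ b G (γ u) - q * C) 0) (hG u hu).1
    have h2 := mul_le_mul_of_nonneg_left (hG u hu).2 (mul_nonneg hq0.le hC)
    nlinarith
  obtain ⟨Z, hZ⟩ : ∃ Z : ℝ, Z = q * (lam * (2 * w * C ^ 2)) := ⟨_, rfl⟩
  have hZ0 : 0 ≤ Z := by rw [hZ]; positivity
  refine ⟨fun u => if u ∈ Act then lam * d u / (1 + Z) else 0, fun u => ?_,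
    fun u hu => if_neg hu, fun J hJ hJq => ?_, ?_⟩
  · dsimp only
    split_ifs with hu
    · refine ⟨div_nonneg (mul_nonneg hl (hd0 u (hA hu))) (by linarith), ?_⟩
      rw [div_le_div_iff₀ (by linarith) hq0]
      have := mul_le_mul_of_nonneg_left (mul_le_mul_of_nonneg_left (hd1 u (hA hu)) hl) hq0.le
      nlinarith
    · exact ⟨le_rfl, by positivity⟩
  · have h1 := psi_drop U J γ b C G q hC (hJ.trans hA) hJq hG
    rw [Finset.sum_congr rfl fun u _ => (hd u).symm] at h1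
    have h2 : (∑ u ∈ J, if u ∈ Act then lam * d u / (1 + Z) else 0) =
        lam * (∑ u ∈ J, d u) / (1 + Z) := by
      rw [Finset.mul_sum, Finset.sum_div]
      exact Finset.sum_congr rfl fun u hu => if_pos (hJ hu)
    have h3 : 0 ≤ ∑ u ∈ J, d u := Finset.sum_nonneg fun u hu => hd0 u (hA (hJ hu))
    have h4 : ∑ u ∈ J, d u ≤ q * (2 * w * C ^ 2) := by
      have h5 : ∑ u ∈ J, d u ≤ J.card • (2 * w * C ^ 2) :=
        Finset.sum_le_card_nsmul _ _ _ fun u hu => hd1 u (hA (hJ hu))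
      rw [nsmul_eq_mul] at h5
      have h6 : (J.card : ℝ) ≤ q := by exact_mod_cast hJq
      exact h5.trans (mul_le_mul_of_nonneg_right h6 (by positivity))
    have h5 : lam * ∑ u ∈ J, d u ≤ Z := by
      have := mul_le_mul_of_nonneg_left h4 hl
      rw [hZ]; linarith
    rw [h2]
    calc _ ≤ Real.exp (lam * Psi U γ b G + -(lam * ∑ u ∈ J, d u)) := by
          refine Real.exp_le_exp.2 ?_
          have := mul_le_mul_of_nonneg_left h1 hl
          linarith
      _ ≤ _ := by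
          rw [Real.exp_add]
          exact mul_le_mul_of_nonneg_left (exp_neg_le (mul_nonneg hl h3) h5) (Real.exp_pos _).le
  · have h1 := psi_tan U γ b g G
    have h2 : ∑ u ∈ U, 2 * ap U γ b G (γ u) * (G u - g u) =
        ∑ u ∈ Act, p u * (2 * ap U γ b G (γ u) * G u) := by
      rw [← Finset.sum_subset hA fun u _ hu => by rw [hout u hu, sub_self, mul_zero]]
      exact Finset.sum_congr rfl fun u hu => by rw [hin u hu]; ring
    rw [h2] at h1
    have h3 : lam * ∑ u ∈ Act, p u * (2 * ap U γ b G (γ u) * G u) -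
        ∑ u ∈ Act, p u * (if u ∈ Act then lam * d u / (1 + Z) else 0) ≤
        lam * (q * C ^ 2 + 4 * lam * w ^ 2 * q * C ^ 4) * ∑ u ∈ Act, p u := by
      rw [Finset.mul_sum, Finset.mul_sum, ← Finset.sum_sub_distrib]
      refine Finset.sum_le_sum fun u hu => ?_
      rw [if_pos hu]
      have e0 := mul_nonneg hl (hd0 u (hA hu))
      have e1 : lam * d u - lam * d u * Z ≤ lam * d u / (1 + Z) := by
        rw [le_div_iff₀ (by linarith)]
        nlinarith [mul_nonneg e0 (mul_nonneg hZ0 hZ0)]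
      have e2 : lam * d u * Z ≤ lam * (2 * w * C ^ 2) * Z :=
        mul_le_mul_of_nonneg_right (mul_le_mul_of_nonneg_left (hd1 u (hA hu)) hl) hZ0
      have e3 := mul_le_mul_of_nonneg_left (hd2 u (hA hu)) hl
      have e4 : lam * (2 * w * C ^ 2) * Z = lam * (4 * lam * w ^ 2 * q * C ^ 4) := by
        rw [hZ]; ring
      have e5 : lam * (2 * ap U γ b G (γ u) * G u) - lam * d u / (1 + Z) ≤
          lam * (q * C ^ 2 + 4 * lam * w ^ 2 * q * C ^ 4) := by linarith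
      have e6 := mul_le_mul_of_nonneg_left e5 (hp u hu)
      linarith
    obtain ⟨x, hx⟩ : ∃ x, x = ∑ u ∈ Act, p u * (if u ∈ Act then lam * d u / (1 + Z) else 0) :=
      ⟨_, rfl⟩
    rw [← hx] at h3 ⊢
    calc _ ≤ Real.exp (lam * Psi U γ b G) * Real.exp (-x) :=
          mul_le_mul_of_nonneg_left (by linarith [Real.add_one_le_exp (-x)]) (Real.exp_pos _).le
      _ ≤ _ := by
          rw [← Real.exp_add]
          refine Real.exp_le_exp.2 ?_
          have := mul_le_mul_of_nonneg_left h1 hl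
          linarith

theorem lin_le (U S : Finset V) (γ : V → ℕ) (b C lam : ℝ) (g g' : V → ℝ) (w : ℕ) (hC : 0 ≤ C)
    (hl : 0 ≤ lam) (hF : Fib U γ w) (hb : 0 ≤ b) (hg : ∀ u ∈ U, g u ≤ C)
    (h : ∀ u ∈ S, |g' u - g u| ≤ C) :
    |lam * ∑ u ∈ S, 2 * ap U γ b g (γ u) * (g' u - g u)| ≤ lam * (S.card * (2 * w * C ^ 2)) := by
  rw [abs_mul, abs_of_nonneg hl]
  refine mul_le_mul_of_nonneg_left ((Finset.abs_sum_le_sum_abs _ _).trans ?_) hl
  rw [← nsmul_eq_mul]
  refine Finset.sum_le_card_nsmul _ _ _ fun u hu => ?_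
  have h0 := ap_nonneg U γ b g (γ u)
  have h1 := ap_le hF hb hC hg (γ u)
  rw [abs_mul, abs_of_nonneg (by positivity : 0 ≤ 2 * ap U γ b g (γ u))]
  calc _ ≤ 2 * (w * C) * C := mul_le_mul (by linarith) (h u hu) (abs_nonneg _) (by positivity)
    _ = _ := by ring

theorem coin_core (U S : Finset V) (γ : V → ℕ) (b t C lam : ℝ) (g g1 g2 : V → ℝ) (q w : ℕ)
    (hC : 0 ≤ C) (hl : 0 ≤ lam) (hsm : lam * (q * (2 * w * C ^ 2)) ≤ 1) (hF : Fib U γ w)
    (hb : 0 ≤ b) (hS : S ⊆ U) (hq : S.card ≤ q) (t0 : 0 ≤ t) (t1 : t ≤ 1)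
    (hg : ∀ u ∈ U, (0 ≤ g u ∧ g u ≤ C) ∧ (0 ≤ g1 u ∧ g1 u ≤ C) ∧ 0 ≤ g2 u ∧ g2 u ≤ C)
    (hout : ∀ u ∈ U, u ∉ S → g1 u = g u ∧ g2 u = g u)
    (hin : ∀ u ∈ S, t * g1 u + (1 - t) * g2 u ≤ g u) :
    t * Real.exp (lam * Psi U γ b g1) + (1 - t) * Real.exp (lam * Psi U γ b g2) ≤
      Real.exp (lam * Psi U γ b g + lam * (q * C ^ 2 + 4 * lam * w ^ 2 * q * C ^ 4) * S.card) := by
  have a1 : ∀ u ∈ S, |g1 u - g u| ≤ C := fun u hu => by
    obtain ⟨⟨h1, h2⟩, ⟨h3, h4⟩, h5, h6⟩ := hg u (hS hu)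
    exact abs_le.2 ⟨by linarith, by linarith⟩
  have a2 : ∀ u ∈ S, |g2 u - g u| ≤ C := fun u hu => by
    obtain ⟨⟨h1, h2⟩, ⟨h3, h4⟩, h5, h6⟩ := hg u (hS hu)
    exact abs_le.2 ⟨by linarith, by linarith⟩
  have p1 := psi_up U S γ b C g g1 q hC hS hq a1 fun u hu h => (hout u hu h).1
  have p2 := psi_up U S γ b C g g2 q hC hS hq a2 fun u hu h => (hout u hu h).2
  have l1 := lin_le U S γ b C lam g g1 w hC hl hF hb (fun u hu => (hg u hu).1.2) a1
  have l2 := lin_le U S γ b C lam g g2 w hC hl hF hb (fun u hu => (hg u hu).1.2) a2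
  have hqr : (S.card : ℝ) ≤ q := by exact_mod_cast hq
  have hS0 : (0 : ℝ) ≤ S.card := Nat.cast_nonneg _
  have hB : lam * (S.card * (2 * w * C ^ 2)) ≤ 1 :=
    (mul_le_mul_of_nonneg_left (mul_le_mul_of_nonneg_right hqr (by positivity)) hl).trans hsm
  have hm : t * (lam * ∑ u ∈ S, 2 * ap U γ b g (γ u) * (g1 u - g u)) +
      (1 - t) * (lam * ∑ u ∈ S, 2 * ap U γ b g (γ u) * (g2 u - g u)) ≤ 0 := by
    simp only [Finset.mul_sum]
    rw [← Finset.sum_add_distrib]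
    refine Finset.sum_nonpos fun u hu => ?_
    have h0 : 0 ≤ lam * (2 * ap U γ b g (γ u)) :=
      mul_nonneg hl (mul_nonneg (by norm_num) (ap_nonneg U γ b g (γ u)))
    have := mul_le_mul_of_nonneg_left (hin u hu) h0
    linarith
  have hmix := exp_mix t0 t1 l1 l2 hB hm
  obtain ⟨x, hx⟩ : ∃ x, x = ∑ u ∈ S, 2 * ap U γ b g (γ u) * (g1 u - g u) := ⟨_, rfl⟩
  obtain ⟨y, hy⟩ : ∃ y, y = ∑ u ∈ S, 2 * ap U γ b g (γ u) * (g2 u - g u) := ⟨_, rfl⟩
  rw [← hx] at p1 hmix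
  rw [← hy] at p2 hmix
  obtain ⟨E, hE⟩ : ∃ E, E = lam * Psi U γ b g + lam * (q * C ^ 2 * S.card) := ⟨_, rfl⟩
  have q1 : Real.exp (lam * Psi U γ b g1) ≤ Real.exp E * Real.exp (lam * x) := by
    rw [← Real.exp_add]
    refine Real.exp_le_exp.2 ?_
    have := mul_le_mul_of_nonneg_left p1 hl
    linarith
  have q2 : Real.exp (lam * Psi U γ b g2) ≤ Real.exp E * Real.exp (lam * y) := by
    rw [← Real.exp_add]
    refine Real.exp_le_exp.2 ?_
    have := mul_le_mul_of_nonneg_left p2 hl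
    linarith
  calc _ ≤ Real.exp E * (t * Real.exp (lam * x) + (1 - t) * Real.exp (lam * y)) := by
        have r1 := mul_le_mul_of_nonneg_left q1 t0
        have r2 := mul_le_mul_of_nonneg_left q2 (by linarith : 0 ≤ 1 - t)
        linarith
    _ ≤ Real.exp E * Real.exp ((lam * (S.card * (2 * w * C ^ 2))) ^ 2) :=
        mul_le_mul_of_nonneg_left hmix (Real.exp_pos _).le
    _ ≤ _ := by
        rw [← Real.exp_add]
        refine Real.exp_le_exp.2 ?_
        have h0 : (0 : ℝ) ≤ 4 * lam ^ 2 * w ^ 2 * C ^ 4 * S.card := by positivity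
        have := mul_le_mul_of_nonneg_left hqr h0
        rw [hE]
        nlinarith

end Est

theorem p_Est : S_Est := by
  intro C β M q hC hβ hM hq
  have hC0 : 0 ≤ C := by linarith
  obtain ⟨w, hw⟩ := exists_nat_ge (1 + q * (2 * C ^ 2) + (q * C ^ 2 + 4 * q * C ^ 4) * M / β ^ 2)
  have n1 : (0 : ℝ) ≤ q * (2 * C ^ 2) := by positivity
  have n2 : (0 : ℝ) ≤ (q * C ^ 2 + 4 * q * C ^ 4) * M / β ^ 2 := by positivity
  have hw1 : (1 : ℝ) ≤ w := by linarith
  have hw0 : (0 : ℝ) < w := by linarith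
  obtain ⟨lam, hlam⟩ : ∃ lam : ℝ, lam = 1 / (w : ℝ) ^ 2 := ⟨_, rfl⟩
  have hl : 0 < lam := by rw [hlam]; positivity
  have hlw : lam * w ^ 2 = 1 := by rw [hlam]; field_simp
  refine ⟨w, lam, lam * (q * C ^ 2 + 4 * lam * w ^ 2 * q * C ^ 4), by exact_mod_cast hw1, hl,
    by positivity, ?_, ?_, ?_⟩
  · have h1 : (q * C ^ 2 + 4 * q * C ^ 4) * M / β ^ 2 ≤ w := by linarith
    rw [div_le_iff₀ (by positivity)] at h1
    have h2 := mul_le_mul_of_nonneg_left h1 hl.le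
    have h3 : 4 * lam * w ^ 2 * q * C ^ 4 = 4 * q * C ^ 4 := by
      linear_combination (4 * q * C ^ 4) * hlw
    rw [h3]
    linarith
  · intro V _ _ U γ b g p Act hF hb hA hg hp
    refine Est.col_core U Act γ b C lam g
      (fun u => if u ∈ Act then g u / (1 - p u) else g u) p q w hC0 hq hl.le hF hb hA
      (fun u hu => ?_) (fun u hu => (hp u hu).1) (fun u hu => ?_) fun u hu => if_neg hu
    · split_ifs with h
      · exact ⟨div_nonneg (hg u hu).1 (by linarith [(hp u h).2.1]), (hp u h).2.2⟩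
      · exact hg u hu
    · rw [if_pos hu]
      have h0 : 0 < 1 - p u := by linarith [(hp u hu).2.1]
      have := h0.ne'
      field_simp
      ring
  · intro V _ _ U γ b t g g1 g2 S hF hb hS hSq t0 t1 hg hout hin
    refine Est.coin_core U S γ b t C lam g g1 g2 q w hC0 hl.le ?_ hF hb hS hSq t0 t1 hg hout hin
    have h1 : (q : ℝ) * (2 * C ^ 2) ≤ w := by linarith
    have h2 := mul_le_mul_of_nonneg_left h1 (mul_nonneg hl.le hw0.le)
    nlinarith

end Pool.Agent.P.MP_fb43a4_co.Asy
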