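import Pool.Agent.P.MP_fb43a4_co.Asy.Heavy1

/-!
Heavy part of the feasibility estimate.
-/

namespace Pool.Agent.P.MP_fb43a4_co.Asy

open Finset

set_option linter.unusedSectionVars false

namespace Heavy

variable {V : Type} [Fintype V] [DecidableEq V] {W s : ℕ} (b : Bat V W s)

/-- the cell map -/
noncomputable def gam (enc : b.B × Finset (Fin s) × ℕ × Fin s → ℕ) (w : ℕ) (In : Finset V)
    (u : V) : ℕ :=
  if h : ∃ p : b.B × Fin W × Fin s, p.2.2 ∈ b.cols p.1 ∧ b.x p.1 p.2.1 p.2.2 = u then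
    enc (h.choose.1, As b In h.choose.1 h.choose.2.1, rk b In h.choose.1 h.choose.2.1 / w,
      h.choose.2.2)
  else 0

/-- names of slots and chunks -/
noncomputable def box (In : Finset V) (v : V) (w r : ℕ) : Finset (b.B × Finset (Fin s) × ℕ) :=
  (sel fun B => b.bin B = v).biUnion fun B => univ.biUnion fun S =>
    (range (ng b In B S / w + r)).image fun n => (B, S, n)

variable {b} {G : SimpleGraph V} {k R : ℕ} {y : ℝ}

theorem gam_x (hb : b.Ok G k R y) (enc : b.B × Finset (Fin s) × ℕ × Fin s → ℕ) (w : ℕ)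
    (In : Finset V) {B : b.B} (i : Fin W) {c : Fin s} (hc : c ∈ b.cols B) :
    gam b enc w In (b.x B i c) = enc (B, As b In B i, rk b In B i / w, c) := by
  have h : ∃ p : b.B × Fin W × Fin s, p.2.2 ∈ b.cols p.1 ∧ b.x p.1 p.2.1 p.2.2 = b.x B i c :=
    ⟨(B, i, c), hc, rfl⟩
  unfold gam
  rw [dif_pos h]
  obtain ⟨h1, h2, h3⟩ := hb.inj _ _ _ h.choose_spec.1 _ _ _ hc h.choose_spec.2
  rw [h1, h2, h3]

theorem gam_fib (hb : b.Ok G k R y) {enc : b.B × Finset (Fin s) × ℕ × Fin s → ℕ}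
    (he : Function.Injective enc) {w : ℕ} (hw : 1 ≤ w) (In : Finset V) (v : V) :
    Fib (b.reg v) (gam b enc w In) w := by
  intro t
  rcases ((b.reg v).filter fun u => gam b enc w In u = t).eq_empty_or_nonempty with h | ⟨u, hu⟩
  · rw [h]
    exact Nat.zero_le _
  obtain ⟨hu, ht⟩ := mem_filter.mp hu
  obtain ⟨B, i, c, hc, -, rfl⟩ := mem_sel.mp hu
  rw [gam_x hb enc w In i hc] at ht
  have h1 : ((b.reg v).filter fun u => gam b enc w In u = t) ⊆
      (univ.filter fun j => As b In B j = As b In B i ∧ rk b In B j / w = rk b In B i / w).image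
        fun j => b.x B j c := by
    intro u hu
    obtain ⟨hu, ht'⟩ := mem_filter.mp hu
    obtain ⟨B', j, c', hc', -, rfl⟩ := mem_sel.mp hu
    rw [gam_x hb enc w In j hc', ← ht] at ht'
    obtain ⟨rfl, e1, e2, rfl⟩ : B' = B ∧ As b In B' j = As b In B i ∧
        rk b In B' j / w = rk b In B i / w ∧ c' = c := by
      simpa only [Prod.mk.injEq] using he ht'
    exact mem_image.mpr ⟨j, mem_filter.mpr ⟨mem_univ _, e1, e2⟩, rfl⟩
  refine (card_le_card h1).trans (card_image_le.trans ?_)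
  refine le_trans (card_le_card_of_injOn (t := range w) (fun j => rk b In B j % w)
    (fun j _ => mem_coe.mpr (mem_range.mpr (Nat.mod_lt _ hw))) fun j hj j' hj' e => ?_)
    (card_range w).le
  obtain ⟨-, a1, a2⟩ := mem_filter.mp (mem_coe.mp hj)
  obtain ⟨-, a3, a4⟩ := mem_filter.mp (mem_coe.mp hj')
  refine rk_inj (a1.trans a3.symm) ?_
  have e' : rk b In B j % w = rk b In B j' % w := e
  rw [← Nat.div_add_mod (rk b In B j) w, ← Nat.div_add_mod (rk b In B j') w, a2, a4, e']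

theorem mem_box {In : Finset V} {v : V} {w r n : ℕ} {B : b.B} {S : Finset (Fin s)}
    (h : b.bin B = v) (hn : n < ng b In B S / w + r) : (B, S, n) ∈ box b In v w r :=
  mem_biUnion.mpr ⟨B, mem_sel.mpr h, mem_biUnion.mpr ⟨S, mem_univ _,
    mem_image.mpr ⟨n, mem_range.mpr hn, rfl⟩⟩⟩

theorem card_box (In : Finset V) (v : V) (w r : ℕ) : ((box b In v w r).card : ℝ) ≤
    (sel fun B => b.bin B = v).card * ((W : ℝ) / w + 2 ^ s * r) := by
  have h1 : (box b In v w r).card ≤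
      ∑ B ∈ sel fun B => b.bin B = v, ∑ S, (ng b In B S / w + r) :=
    card_biUnion_le.trans (sum_le_sum fun B _ => card_biUnion_le.trans
      (sum_le_sum fun S _ => card_image_le.trans (card_range _).le))
  refine le_trans (Nat.cast_le.mpr h1) ?_
  push_cast
  refine le_trans (sum_le_card_nsmul _ _ ((W : ℝ) / w + 2 ^ s * r) fun B _ => ?_)
    (nsmul_eq_mul _ _).le
  rw [sum_add_distrib, sum_const, card_univ, Fintype.card_finset, Fintype.card_fin, nsmul_eq_mul]
  push_cast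
  refine add_le_add ((sum_le_sum fun S _ => Nat.cast_div_le).trans ?_) le_rfl
  rw [← sum_div, ← Nat.cast_sum, sum_ng]

theorem card_cells (hb : b.Ok G k R y) (enc : b.B × Finset (Fin s) × ℕ × Fin s → ℕ) (w : ℕ)
    (In : Finset V) (v : V) :
    ((b.reg v).image (gam b enc w In)).card ≤ (box b In v w 1).card * s := by
  have h1 : (b.reg v).image (gam b enc w In) ⊆ (box b In v w 1 ×ˢ (univ : Finset (Fin s))).image
      fun p => enc (p.1.1, p.1.2.1, p.1.2.2, p.2) := by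
    intro t ht
    obtain ⟨u, hu, rfl⟩ := mem_image.mp ht
    obtain ⟨B, i, c, hc, hv, rfl⟩ := mem_sel.mp hu
    rw [gam_x hb enc w In i hc]
    refine mem_image.mpr ⟨((B, As b In B i, rk b In B i / w), c),
      mem_product.mpr ⟨mem_box hv ?_, mem_univ _⟩, rfl⟩
    exact Nat.lt_succ_of_le (Nat.div_le_div_right (rk_lt_ng In B i).le)
  refine (card_le_card h1).trans (card_image_le.trans ?_)
  rw [card_product, card_univ, Fintype.card_fin]

theorem arith {W w s nB a β c1 c2 P E : ℝ} (h2 : 0 ≤ E) (hW : 0 ≤ W) (hw : 1 ≤ w) (hs : 1 ≤ s)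
    (hn : 0 ≤ nB) (ha : 0 < a) (ha' : a ≤ 1 / 2) (hβ : 0 < β) (hsβ : 6 * s * β ≤ a)
    (hE : 4 * (w * E * (s + 1)) ≤ a * W) (hc1 : c1 ≤ nB * (W / w + E * (s + 1)))
    (hc2 : c2 ≤ nB * (W / w + E * 1) * s) (hP : P ≤ β ^ 2 * w * (W * nB)) :
    w / (1 - a) * c1 + (c2 * (β * w) + P / (β * w)) ≤ (1 + a) / (1 - a) * (W * nB) := by
  have hw0 : 0 < w := by linarith
  have h1a : 0 < 1 - a := by linarith
  have hN : 0 ≤ W * nB := mul_nonneg hW hn
  have e1 : w * c1 ≤ (1 + a / 4) * (W * nB) := by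
    have := mul_le_mul_of_nonneg_left hc1 hw0.le
    have e : w * (nB * (W / w + E * (s + 1))) = W * nB + nB * (w * E * (s + 1)) := by
      field_simp
    have := mul_le_mul_of_nonneg_left hE hn
    nlinarith
  have e2 : c2 * (β * w) ≤ 2 * (s * β) * (W * nB) := by
    have := mul_le_mul_of_nonneg_right hc2 (mul_pos hβ hw0).le
    have e : nB * (W / w + E * 1) * s * (β * w) = s * β * (W * nB + nB * (w * E)) := by
      field_simp
    have h3 : w * E ≤ W := by
      have : 0 ≤ w * E * s := by positivity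
      nlinarith
    have h4 := mul_le_mul_of_nonneg_left h3 hn
    have h5 : s * β * (W * nB + nB * (w * E)) ≤ s * β * (2 * (W * nB)) :=
      mul_le_mul_of_nonneg_left (by linarith) (by positivity)
    linarith
  have e3 : P / (β * w) ≤ s * β * (W * nB) := by
    rw [div_le_iff₀ (mul_pos hβ hw0)]
    have : 0 ≤ (s - 1) * (β ^ 2 * w * (W * nB)) := mul_nonneg (by linarith) (by positivity)
    nlinarith
  have e4 : 3 * (s * β) * (W * nB) ≤ a / 2 * (W * nB) :=
    mul_le_mul_of_nonneg_right (by linarith) hN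
  have e5 : a / 2 * (W * nB) ≤ 3 * a / 4 * (W * nB) / (1 - a) := by
    rw [le_div_iff₀ h1a]
    have : 0 ≤ a * (W * nB) := by positivity
    nlinarith
  have e6 : w / (1 - a) * c1 ≤ (1 + a / 4) * (W * nB) / (1 - a) := by
    rw [div_mul_eq_mul_div]
    exact div_le_div_of_nonneg_right e1 h1a.le
  have e7 : (1 + a) / (1 - a) * (W * nB) =
      (1 + a / 4) * (W * nB) / (1 - a) + 3 * a / 4 * (W * nB) / (1 - a) := by ring
  linarith

theorem bin_bound (hLoad : S_Load) (hG : CF G) (hb : b.Ok G k R y) {w : ℕ} {a β : ℝ} (ha : 0 < a)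
    (ha' : a ≤ 1 / 2) (hs : 1 ≤ s) (hw : 1 ≤ w) (hβ : 0 < β) (hsβ : 6 * s * β ≤ a)
    (hE : 4 * (w * 2 ^ s * (s + 1) : ℝ) ≤ a * W) {enc : b.B × Finset (Fin s) × ℕ × Fin s → ℕ}
    (In : Finset V) (A Av : Finset (Finset V)) (x ω : Finset V → ℝ) (g : V → ℝ) (α : ℝ) (v : V)
    (oB : Finset V → b.B) (oi : Finset V → Fin W) (oc : Finset V → Fin s)
    (hO : ∀ o ∈ Av, Ob b In (oB o) (oi o) (oc o) o ∧ b.bin (oB o) = v)
    (hd : ∀ o ∈ Av, ∀ o' ∈ Av, o ≠ o' → Disjoint o o') (hx : ∀ o ∈ Av, 0 ≤ x o)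
    (hg : ∀ u, 0 ≤ g u) (hxg : ∀ o ∈ Av, ∀ u ∈ o, x o ≤ g u) (hω : ∀ o, 0 ≤ ω o)
    (hα : ∀ I ⊆ Av, Ind (conf G A) I → ∑ o ∈ I, ω o ≤ α)
    (hP : Psi (b.reg v) (gam b enc w In) (w / (1 - a)) g ≤ β ^ 2 * w * b.num v) :
    ∑ o ∈ Av, ω o * x o ≤ α * ((1 + a) / (1 - a) * b.num v) := by
  have hs' : (1 : ℝ) ≤ s := by exact_mod_cast hs
  have hw' : (1 : ℝ) ≤ w := by exact_mod_cast hw
  have h2s : (1 : ℝ) ≤ 2 ^ s := one_le_pow₀ (by norm_num)
  have hW : 2 ≤ W := by
    have h1 : (1 : ℝ) ≤ w * 2 ^ s := one_le_mul_of_one_le_of_one_le hw' h2s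
    have h2 : (0 : ℝ) ≤ W := Nat.cast_nonneg _
    have : (2 : ℝ) ≤ W := by nlinarith
    exact_mod_cast this
  have h1a : 0 < 1 - a := by linarith
  obtain ⟨rp, hrp⟩ : ∃ rp : Finset V → Fin s,
      ∀ o, rp o = rep b (oB o) (As b In (oB o) (oi o)) (oc o) := ⟨_, fun _ => rfl⟩
  have hu : ∀ o ∈ Av, b.x (oB o) (oi o) (rp o) ∈ o := fun o ho => hrp o ▸ (hO o ho).1.rep_mem
  have hur : ∀ o ∈ Av, b.x (oB o) (oi o) (rp o) ∈ b.reg v := fun o ho =>
    (hO o ho).2 ▸ (hO o ho).1.sub_reg (hu o ho)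
  have hrc : ∀ o ∈ Av, rp o ∈ b.cols (oB o) := fun o ho =>
    hrp o ▸ scc_cols (hO o ho).1.1 (rep_mem _ _ _)
  have key := slot_bound Av (fun o => gam b enc w In (b.x (oB o) (oi o) (rp o)))
    (fun o => (oB o, As b In (oB o) (oi o),
      rk b In (oB o) (oi o) / w + hh b (oB o) (As b In (oB o) (oi o)) (rp o)))
    (box b In v w (s + 1)) (conf G A).Adj ω x
    (fun t => max ((∑ u ∈ (b.reg v).filter fun u => gam b enc w In u = t, g u) - w / (1 - a)) 0)
    ((b.reg v).image (gam b enc w In)) (w / (1 - a)) α (by positivity) hω hx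
    (fun _ => le_max_right _ _) (fun o ho => mem_image_of_mem _ (hur o ho))
    (fun o ho => mem_box (hO o ho).2 ?_) (fun t => ?_) (fun o h => h.1 rfl)
    (fun o ho o' ho' e hne h => ?_) hα
  · have hα0 : 0 ≤ α := by simpa using hα ∅ (empty_subset _) (by simp [Ind])
    refine key.trans (mul_le_mul_of_nonneg_left ?_ hα0)
    have h1 := (hLoad V (b.reg v) (gam b enc w In) (w / (1 - a)) (β * w) g (by positivity)).1
    refine le_trans (add_le_add le_rfl h1) ?_
    have h2 := card_box (b := b) In v w (s + 1)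
    have h3 : (((b.reg v).image (gam b enc w In)).card : ℝ) ≤ (box b In v w 1).card * s := by
      exact_mod_cast card_cells hb enc w In v
    have h4 := mul_le_mul_of_nonneg_right (card_box (b := b) In v w 1) (Nat.cast_nonneg s)
    unfold Bat.num at hP ⊢
    push_cast at hP h2 h4 ⊢
    exact arith (by positivity) (Nat.cast_nonneg _) hw' hs' (Nat.cast_nonneg _) ha ha' hβ hsβ hE h2
      (h3.trans h4) hP
  · have h1 := Nat.div_le_div_right (c := w) (rk_lt_ng In (oB o) (oi o)).le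
    have h2 := hh_le (oB o) (As b In (oB o) (oi o)) (rp o)
    omega
  · have h1 : ∑ o ∈ Av.filter fun o => gam b enc w In (b.x (oB o) (oi o) (rp o)) = t, x o ≤
        ∑ u ∈ (b.reg v).filter fun u => gam b enc w In u = t, g u := by
      refine le_trans (sum_le_sum fun o ho =>
        hxg o (mem_filter.mp ho).1 _ (hu o (mem_filter.mp ho).1)) ?_
      rw [← sum_image (g := fun o => b.x (oB o) (oi o) (rp o)) (f := g) fun o ho o' ho' e => by
        by_contra hne
        have ho1 := (mem_filter.mp (mem_coe.mp ho)).1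
        have ho1' := (mem_filter.mp (mem_coe.mp ho')).1
        have e' : b.x (oB o) (oi o) (rp o) = b.x (oB o') (oi o') (rp o') := e
        exact disjoint_left.mp (hd o ho1 o' ho1' hne) (hu o ho1) (e' ▸ hu o' ho1')]
      refine sum_le_sum_of_subset_of_nonneg (fun u hu' => ?_) fun u _ _ => hg u
      obtain ⟨o, ho, rfl⟩ := mem_image.mp hu'
      exact mem_filter.mpr ⟨hur o (mem_filter.mp ho).1, (mem_filter.mp ho).2⟩
    linarith [le_max_left
      ((∑ u ∈ (b.reg v).filter fun u => gam b enc w In u = t, g u) - w / (1 - a)) 0]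
  · obtain ⟨-, -, -, u, hu1, u', hu1', hadj⟩ := h
    simp only [Prod.mk.injEq] at e
    obtain ⟨e1, e2, e3⟩ := e
    rw [gam_x hb enc w In _ (hrc o ho), gam_x hb enc w In _ (hrc o' ho')] at hne
    have hr : rp o ≠ rp o' := by
      intro hr
      refine hne ?_
      rw [e2, hr] at e3
      rw [e1] at e3 e2 ⊢
      rw [e2, hr, Nat.add_right_cancel e3]
    have h' := (hO o' ho').1
    rw [hrp, hrp] at hr e3
    rw [← e1] at h' e2 e3 hr
    exact (hO o ho).1.anti hG hb hW h' e2 e3 hr u hu1 u' hu1' hadj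

end Heavy

open Heavy in
theorem p_Heavy (hLoad : S_Load) : S_Heavy := by
  intro V _ _ G W s k R w y a β b hG hb ha ha' hs hw hβ hsβ hE
  obtain ⟨enc, he⟩ := exists_injective_nat (b.B × Finset (Fin s) × ℕ × Fin s)
  refine ⟨gam b enc w, fun In v => gam_fib hb he hw In v, ?_⟩
  intro In A x ω g Ω hA hd hx hg hxg hω hΩ hP
  have hΩ0 : 0 ≤ Ω := by simpa using hΩ ∅ (empty_subset _) (by simp [Ind])
  have hq : 0 ≤ (1 + a) / (1 - a) := div_nonneg (by linarith) (by linarith)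
  rcases A.eq_empty_or_nonempty with rfl | ⟨o₀, ho₀⟩
  · rw [sum_empty]
    positivity
  obtain ⟨B₀, i₀, c₀, -⟩ := hA o₀ ho₀
  have n1 : Nonempty b.B := ⟨B₀⟩
  have n2 : Nonempty (Fin W) := ⟨i₀⟩
  have n3 : Nonempty (Fin s) := ⟨c₀⟩
  choose! oB oi oc h1 h2 using hA
  have hO : ∀ o ∈ A, Ob b In (oB o) (oi o) (oc o) o := fun o ho => ⟨h1 o ho, h2 o ho⟩
  have hI : ∀ v, ∃ I ⊆ A.filter fun o => b.bin (oB o) = v, Ind (conf G A) I ∧
      ∀ J ⊆ A.filter fun o => b.bin (oB o) = v, Ind (conf G A) J → ∑ o ∈ J, ω o ≤ ∑ o ∈ I, ω o := by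
    intro v
    obtain ⟨I, hI, h⟩ := exists_max_image
      (sel fun J => J ⊆ A.filter (fun o => b.bin (oB o) = v) ∧ Ind (conf G A) J)
      (fun J => ∑ o ∈ J, ω o) ⟨∅, mem_sel.mpr ⟨empty_subset _, by simp [Ind]⟩⟩
    exact ⟨I, (mem_sel.mp hI).1, (mem_sel.mp hI).2, fun J h1 h2 => h J (mem_sel.mpr ⟨h1, h2⟩)⟩
  choose I hI1 hI2 hI3 using hI
  have s1 : ∑ o ∈ A, ω o * x o ≤ ∑ v, (∑ o ∈ I v, ω o) * ((1 + a) / (1 - a) * b.num v) := by
    rw [← sum_fiberwise A fun o => b.bin (oB o)]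
    refine sum_le_sum fun v _ => bin_bound hLoad hG hb ha ha' hs hw hβ hsβ hE In A _ x ω g _ v oB
      oi oc (fun o ho => ⟨hO o (mem_filter.mp ho).1, (mem_filter.mp ho).2⟩)
      (fun o ho o' ho' => hd o (mem_filter.mp ho).1 o' (mem_filter.mp ho').1)
      (fun o ho => hx o (mem_filter.mp ho).1) hg (fun o ho => hxg o (mem_filter.mp ho).1) hω
      (hI3 v) (hP v)
  have s2 : ∑ v, (∑ o ∈ I v, ω o) * (b.num v : ℝ) =
      ∑ p : b.B × Fin W, ∑ o ∈ I (b.bin p.1), ω o := by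
    rw [← sum_fiberwise univ fun p : b.B × Fin W => b.bin p.1]
    refine sum_congr rfl fun v _ => ?_
    symm
    refine (sum_congr rfl (g := fun _ => ∑ o ∈ I v, ω o) fun p hp => by
      rw [(mem_filter.mp hp).2]).trans ?_
    rw [sum_const, nsmul_eq_mul, mul_comm]
    have : (univ.filter fun p : b.B × Fin W => b.bin p.1 = v) =
        (sel fun B => b.bin B = v) ×ˢ univ := by
      ext p
      simp
    rw [this, card_product, card_univ, Fintype.card_fin, Bat.num, mul_comm W]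
  have s3 : ∑ p : b.B × Fin W, ∑ o ∈ I (b.bin p.1), ω o ≤ k * Ω := by
    rw [← sum_fiberwise_of_maps_to (s := univ) (t := range k)
      (g := fun p : b.B × Fin W => b.cls p.1 p.2) fun p _ => mem_range.mpr (hb.lt _ _)]
    refine le_trans (sum_le_card_nsmul _ _ Ω fun j _ => ?_) (by rw [card_range, nsmul_eq_mul])
    have hsep : ∀ p ∈ univ.filter fun p : b.B × Fin W => b.cls p.1 p.2 = j,
        ∀ q ∈ univ.filter fun p : b.B × Fin W => b.cls p.1 p.2 = j, p ≠ q →
        b.bin p.1 ≠ b.bin q.1 ∧ ∀ u ∈ b.reg (b.bin p.1), ∀ v ∈ b.reg (b.bin q.1), ¬ G.Adj u v :=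
      fun p hp q hq hne => hb.sep p.1 p.2 q.1 q.2 hne
        ((mem_filter.mp hp).2.trans (mem_filter.mp hq).2.symm)
    rw [← sum_biUnion]
    · refine hΩ _ (biUnion_subset.mpr fun p _ => (hI1 _).trans (filter_subset _ _)) ?_
      intro o ho o' ho' hadj
      obtain ⟨p, hp, ho⟩ := mem_biUnion.mp ho
      obtain ⟨q, hq, ho'⟩ := mem_biUnion.mp ho'
      by_cases hpq : p = q
      · exact hI2 _ o ho o' (hpq ▸ ho') hadj
      · obtain ⟨-, -, -, u, hu, u', hu', h⟩ := hadj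
        obtain ⟨m1, m2⟩ := mem_filter.mp (hI1 _ ho)
        obtain ⟨m3, m4⟩ := mem_filter.mp (hI1 _ ho')
        exact (hsep p hp q hq hpq).2 u (m2 ▸ (hO o m1).sub_reg hu) u'
          (m4 ▸ (hO o' m3).sub_reg hu') h
    · intro p hp q hq hpq
      refine disjoint_left.mpr fun o ho ho' => (hsep p hp q hq hpq).1 ?_
      exact (mem_filter.mp (hI1 _ ho)).2.symm.trans (mem_filter.mp (hI1 _ ho')).2
  refine s1.trans ?_
  rw [sum_congr rfl fun v _ => mul_left_comm _ _ _, ← mul_sum, s2, mul_assoc]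
  exact mul_le_mul_of_nonneg_left s3 hq

end Pool.Agent.P.MP_fb43a4_co.Asy
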