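import Mathlib
import Pool.Agent.P.MP_fb43a4_co.Asy.St

/-!
Hubs and the ambient graph (section 1 of the paper).
-/

namespace Pool.Agent.P.MP_fb43a4_co.Asy

open Finset

set_option linter.unusedSectionVars false

namespace HubP

variable {V : Type} [Fintype V] [DecidableEq V]

/-- closed neighbourhood -/
noncomputable def cn (G : SimpleGraph V) (v : V) : Finset V := insert v (nb G v)

theorem mem_cn {G : SimpleGraph V} {v u : V} : u ∈ cn G v ↔ u = v ∨ G.Adj v u := by simp [cn]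

theorem cle {A B : Finset V} (h : A ⊆ B) : (A.card : ℝ) ≤ B.card := Nat.cast_le.2 (card_le_card h)

theorem cun (A B : Finset V) : ((A ∪ B).card : ℝ) ≤ A.card + B.card := by
  exact_mod_cast card_union_le A B

theorem cn_card {G : SimpleGraph V} {k : ℕ} {φ : V → ℕ} (hc : CF G) (hp : Prop' G k φ) (v : V) :
    ((cn G v).card : ℝ) ≤ 2 * k := by
  have h1 : (cn G v).card ≤ 2 * ((cn G v).image φ).card := by
    refine card_le_mul_card_image _ _ fun c _ => ?_
    by_contra hlt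
    obtain ⟨x, y, z, hx, hy, hz, hxy, hxz, hyz⟩ := two_lt_card_iff.1 (not_le.1 hlt)
    simp only [mem_filter, mem_cn] at hx hy hz
    have na : ∀ a b, φ a = c → φ b = c → ¬ G.Adj a b := fun a b ha hb h =>
      hp.2 a b h (ha.trans hb.symm)
    have ad : ∀ a b, (a = v ∨ G.Adj v a) ∧ φ a = c → (b = v ∨ G.Adj v b) ∧ φ b = c → a ≠ b →
        G.Adj v a := by
      rintro a b ⟨ha | ha, ha'⟩ ⟨hb | hb, hb'⟩ hab
      · exact (hab (ha.trans hb.symm)).elim
      · exact (na a b ha' hb' (ha ▸ hb)).elim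
      · exact ha
      · exact ha
    rcases hc v x y z (ad x y hx hy hxy) (ad y x hy hx hxy.symm) (ad z x hz hx hxz.symm) hxy hxz
      hyz with h | h | h
    · exact na _ _ hx.2 hy.2 h
    · exact na _ _ hx.2 hz.2 h
    · exact na _ _ hy.2 hz.2 h
  have h2 : ((cn G v).image φ).card ≤ k := by
    rw [← card_range k]
    refine card_le_card fun c hc => ?_
    obtain ⟨u, -, rfl⟩ := mem_image.1 hc
    exact mem_range.2 (hp.1 u)
  exact_mod_cast h1.trans (Nat.mul_le_mul_left 2 h2)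

/-- neighbours of `w` with few neighbours in `Z` -/
noncomputable def petal (G : SimpleGraph V) (a2 : ℝ) (Z : Finset V) (w : V) : Finset V :=
  sel fun f => G.Adj w f ∧ ((nb G f ∩ Z).card : ℝ) < a2

theorem mem_petal {G : SimpleGraph V} {a2 : ℝ} {Z : Finset V} {w f : V} :
    f ∈ petal G a2 Z w ↔ G.Adj w f ∧ ((nb G f ∩ Z).card : ℝ) < a2 := by simp [petal]

theorem count {G : SimpleGraph V} {a1 a2 : ℝ} (h2 : 0 < a2) {X Y Z : Finset V} (hX : X ⊆ Z)
    (h : ∀ w ∈ X, a1 ≤ (petal G a2 Z w).card) (hY : ∀ w ∈ X, petal G a2 Z w ⊆ Y) :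
    X.card * a1 ≤ Y.card * a2 := by
  have := card_nsmul_le_card_nsmul (R := ℝ) (fun w f => f ∈ petal G a2 Z w) (s := X) (t := Y)
    (m := a1) (n := a2) (fun w hw => (h w hw).trans (cle fun f hf =>
      (mem_bipartiteAbove _).2 ⟨hY w hw hf, hf⟩)) (fun f _ => ?_)
  · simpa using this
  · by_cases hf : ((nb G f ∩ Z).card : ℝ) < a2
    · refine le_trans (cle fun w hw => ?_) hf.le
      obtain ⟨h1, h3⟩ := (mem_bipartiteBelow _).1 hw
      exact mem_inter.2 ⟨mem_nb.2 (mem_petal.1 h3).1.symm, hX h1⟩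
    · rw [card_eq_zero.2 (eq_empty_of_forall_notMem fun w hw =>
        hf (mem_petal.1 ((mem_bipartiteBelow _).1 hw).2).2), Nat.cast_zero]
      exact h2.le

/-- the hypotheses -/
structure Hyp (G : SimpleGraph V) (a1 a2 M d N : ℝ) : Prop where
  cf : CF G
  hN : ∀ v, ((cn G v).card : ℝ) ≤ N
  p1 : 0 < a1
  p2 : 0 < a2
  pM : 0 ≤ M
  le : N * a2 ≤ a1 * M
  pd : 2 * a2 + 2 * M + 2 < d

/-- clique -/
def Cq (G : SimpleGraph V) (O : Finset V) : Prop := ∀ x ∈ O, ∀ y ∈ O, x ≠ y → G.Adj x y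

/-- robust core -/
structure Core (G : SimpleGraph V) (a1 a2 d : ℝ) (O : Finset V) : Prop where
  cq : Cq G O
  card : d ≤ O.card
  pet : ∀ w ∈ O, a1 ≤ (petal G a2 O w).card

/-- hub of a core -/
noncomputable def hub (G : SimpleGraph V) (a2 : ℝ) (O : Finset V) : Finset V :=
  sel fun y => ((O \ cn G y).card : ℝ) < a2

theorem mem_hub {G : SimpleGraph V} {a2 : ℝ} {O : Finset V} {y : V} :
    y ∈ hub G a2 O ↔ ((O \ cn G y).card : ℝ) < a2 := by simp [hub]

variable {G : SimpleGraph V} {a1 a2 M d N : ℝ}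

theorem mem_hub_of (H : Hyp G a1 a2 M d N) {O : Finset V} {y : V} (h : O ⊆ cn G y) :
    y ∈ hub G a2 O := by
  rw [mem_hub, sdiff_eq_empty_iff_subset.2 h, card_empty, Nat.cast_zero]
  exact H.p2

theorem Cq.sub {K : Finset V} (h : Cq G K) {y : V} (hy : y ∈ K) : K ⊆ cn G y := fun x hx => by
  rw [mem_cn]
  by_cases e : x = y
  · exact Or.inl e
  · exact Or.inr (h y hy x hx (Ne.symm e))

theorem sub_hub (H : Hyp G a1 a2 M d N) {O : Finset V} (hO : Core G a1 a2 d O) :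
    O ⊆ hub G a2 O := fun _ hy => mem_hub_of H (hO.cq.sub hy)

/-- common neighbours of a non-adjacent pair with large petals -/
theorem common (H : Hyp G a1 a2 M d N) {X Z : Finset V} (hX : X ⊆ Z) {y y' : V} (hne : y ≠ y')
    (hna : ¬ G.Adj y y') (h : ∀ w ∈ X, G.Adj w y ∧ G.Adj w y' ∧ a1 ≤ (petal G a2 Z w).card) :
    (X.card : ℝ) ≤ 2 * M := by
  have h1 := count H.p2 hX (Y := cn G y ∪ cn G y') (fun w hw => (h w hw).2.2) fun w hw f hf => by
    rw [mem_union, mem_cn, mem_cn]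
    by_cases e : f = y
    · exact Or.inl (Or.inl e)
    by_cases e' : f = y'
    · exact Or.inr (Or.inl e')
    rcases H.cf w y y' f (h w hw).1 (h w hw).2.1 (mem_petal.1 hf).1 hne (Ne.symm e) (Ne.symm e')
      with a | a | a
    · exact (hna a).elim
    · exact Or.inl (Or.inr a)
    · exact Or.inr (Or.inr a)
  have h2 : ((cn G y ∪ cn G y').card : ℝ) ≤ 2 * N := by
    linarith [cun (cn G y) (cn G y'), H.hN y, H.hN y']
  have h3 := mul_le_mul_of_nonneg_right h2 H.p2.le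
  refine le_of_mul_le_mul_right ?_ H.p1
  linarith [H.le]

theorem h1 (H : Hyp G a1 a2 M d N) {O : Finset V} (hO : Core G a1 a2 d O) {y : V}
    (hy : y ∉ hub G a2 O) : ((nb G y ∩ O).card : ℝ) ≤ M := by
  have h1 := count H.p2 (inter_subset_right : nb G y ∩ O ⊆ O) (Y := cn G y)
    (fun w hw => hO.pet w (mem_inter.1 hw).2) fun w hw f hf => by
      obtain ⟨hw1, hw2⟩ := mem_inter.1 hw
      rw [mem_nb] at hw1
      obtain ⟨hf1, hf2⟩ := mem_petal.1 hf
      rw [mem_cn]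
      by_cases e : f = y
      · exact Or.inl e
      rw [mem_hub, not_lt] at hy
      have hfO : f ∉ O := fun hfO => by
        have a : O ⊆ nb G f ∩ O ∪ {f} := fun x hx => by
          have := mem_cn.1 (hO.cq.sub hfO hx)
          simp only [mem_union, mem_inter, mem_nb, mem_singleton]
          tauto
        have b := (cle a).trans (cun _ _)
        rw [card_singleton, Nat.cast_one] at b
        linarith [hO.card, H.pd, H.p2, H.pM]
      obtain ⟨w', hw', hn⟩ : ∃ w' ∈ O \ cn G y, w' ∉ nb G f ∩ O :=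
        not_subset.1 fun hs => by linarith [cle hs]
      obtain ⟨hw3, hw4⟩ := mem_sdiff.1 hw'
      rw [mem_cn, not_or] at hw4
      have hww : w ≠ w' := fun e' => hw4.2 (e' ▸ hw1)
      rcases H.cf w y w' f hw1.symm (hO.cq w hw2 w' hw3 hww) hf1 (Ne.symm hw4.1) (Ne.symm e)
        (fun e' => hfO (e' ▸ hw3)) with a | a | a
      · exact (hw4.2 a).elim
      · exact Or.inr a
      · exact (hn (mem_inter.2 ⟨mem_nb.2 a.symm, hw3⟩)).elim
  have h3 := mul_le_mul_of_nonneg_right (H.hN y) H.p2.le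
  refine le_of_mul_le_mul_right ?_ H.p1
  linarith [H.le]

theorem h2 (H : Hyp G a1 a2 M d N) {O : Finset V} (hO : Core G a1 a2 d O) :
    Cq G (hub G a2 O) := by
  intro y hy y' hy' hne
  by_contra hna
  have a := common H (X := O.filter fun w => w ∈ nb G y ∧ w ∈ nb G y') (filter_subset _ _) hne hna
    fun w hw => by
      obtain ⟨b1, b2, b3⟩ := mem_filter.1 hw
      exact ⟨(mem_nb.1 b2).symm, (mem_nb.1 b3).symm, hO.pet w b1⟩
  have b : O ⊆ (O.filter fun w => w ∈ nb G y ∧ w ∈ nb G y') ∪ (O \ cn G y ∪ (O \ cn G y' ∪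
      ({y} ∪ {y'}))) := fun x hx => by
    simp only [mem_union, mem_filter, mem_sdiff, mem_cn, mem_nb, mem_singleton]
    tauto
  have c := (cle b).trans ((cun _ _).trans (add_le_add le_rfl ((cun _ _).trans (add_le_add le_rfl
    ((cun _ _).trans (add_le_add le_rfl (cun _ _)))))))
  rw [card_singleton, card_singleton, Nat.cast_one] at c
  rw [mem_hub] at hy hy'
  linarith [hO.card, H.pd]

theorem h3 (H : Hyp G a1 a2 M d N) {O : Finset V} (hO : Core G a1 a2 d O) {w y y' : V}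
    (hw : w ∈ hub G a2 O) (hy : y ∉ hub G a2 O) (hy' : y' ∉ hub G a2 O) (a : G.Adj w y)
    (a' : G.Adj w y') (hne : y ≠ y') : G.Adj y y' := by
  by_contra hna
  have b : O ⊆ O \ cn G w ∪ ({w} ∪ (nb G y ∩ O ∪ nb G y' ∩ O)) := fun o ho => by
    by_contra hc
    simp only [mem_union, mem_inter, mem_sdiff, mem_cn, mem_nb, mem_singleton, ho, true_and,
      and_true, not_or, not_and, not_not] at hc
    obtain ⟨c1, c2, c3, c4⟩ := hc
    rcases H.cf w y y' o a a' (c1 c2) hne (fun e => hy (e ▸ sub_hub H hO ho))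
      (fun e => hy' (e ▸ sub_hub H hO ho)) with e | e | e
    · exact hna e
    · exact c3 e
    · exact c4 e
  have c := (cle b).trans ((cun _ _).trans (add_le_add le_rfl ((cun _ _).trans (add_le_add le_rfl
    (cun _ _)))))
  rw [card_singleton, Nat.cast_one] at c
  rw [mem_hub] at hw
  linarith [hO.card, H.pd, h1 H hO hy, h1 H hO hy', H.p2]

theorem h4a (H : Hyp G a1 a2 M d N) {O O' : Finset V} (hO : Core G a1 a2 d O)
    (hO' : Core G a1 a2 d O') {y : V} (hy : y ∈ hub G a2 O) (hy' : y ∉ hub G a2 O') :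
    ((hub G a2 O ∩ O').card : ℝ) ≤ M := by
  refine le_trans (cle fun x hx => ?_) (h1 H hO' hy')
  obtain ⟨b1, b2⟩ := mem_inter.1 hx
  exact mem_inter.2 ⟨mem_nb.2 (h2 H hO y hy x b1 fun e => hy' (e ▸ sub_hub H hO' b2)), b2⟩

theorem h4b (H : Hyp G a1 a2 M d N) {O O' : Finset V} (hO : Core G a1 a2 d O)
    (hO' : Core G a1 a2 d O') (hne : hub G a2 O ≠ hub G a2 O') :
    ((hub G a2 O ∩ O').card : ℝ) ≤ M := by
  by_cases hs : hub G a2 O ⊆ hub G a2 O'
  · obtain ⟨y, hy, hy'⟩ := not_subset.1 fun h : hub G a2 O' ⊆ hub G a2 O => hne (hs.antisymm h)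
    have a := h4a H hO' hO hy hy'
    rw [inter_eq_right.2 ((sub_hub H hO).trans hs)] at a
    linarith [hO.card, H.pd, H.p2, H.pM]
  · obtain ⟨y, hy, hy'⟩ := not_subset.1 hs
    exact h4a H hO hO' hy hy'

theorem h4c (H : Hyp G a1 a2 M d N) {O O' : Finset V} (hO : Core G a1 a2 d O)
    (hO' : Core G a1 a2 d O') (hne : hub G a2 O ≠ hub G a2 O') {w z : V} (hw : w ∈ hub G a2 O)
    (hw' : w ∈ hub G a2 O') (a : G.Adj w z) : z ∈ hub G a2 O ∨ z ∈ hub G a2 O' := by
  by_contra hc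
  rw [not_or] at hc
  have b : O' ⊆ hub G a2 O ∩ O' ∪ nb G z ∩ O' := fun o ho => by
    simp only [mem_union, mem_inter, mem_nb, ho, and_true]
    by_cases e : o ∈ hub G a2 O
    · exact Or.inl e
    · exact Or.inr (h3 H hO hw hc.1 e a (h2 H hO' w hw' o (sub_hub H hO' ho) fun e' => e (e' ▸ hw))
        fun e' => hc.2 (e' ▸ sub_hub H hO' ho))
  have c := (cle b).trans (cun _ _)
  linarith [hO'.card, H.pd, h1 H hO' hc.2, h4b H hO hO' hne, H.p2]

theorem h4d (H : Hyp G a1 a2 M d N) {O O' O'' : Finset V} (hO : Core G a1 a2 d O)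
    (hO' : Core G a1 a2 d O') (hO'' : Core G a1 a2 d O'') (n1 : hub G a2 O ≠ hub G a2 O')
    (n2 : hub G a2 O ≠ hub G a2 O'') (n3 : hub G a2 O' ≠ hub G a2 O'') {w : V}
    (hw : w ∈ hub G a2 O) (hw' : w ∈ hub G a2 O') (hw'' : w ∈ hub G a2 O'') : False := by
  have b : O'' ⊆ hub G a2 O ∩ O'' ∪ hub G a2 O' ∩ O'' := fun o ho => by
    simp only [mem_union, mem_inter, ho, and_true]
    rcases mem_cn.1 ((h2 H hO'').sub hw'' (sub_hub H hO'' ho)) with e | e
    · exact Or.inl (e ▸ hw)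
    · exact h4c H hO hO' n1 hw hw' e
  have c := (cle b).trans (cun _ _)
  linarith [hO''.card, H.pd, h4b H hO hO'' n2, h4b H hO' hO'' n3, H.p2]

theorem h5 (H : Hyp G a1 a2 M d N) (v : V) (S : Finset V)
    (hS : ∀ w ∈ S, G.Adj v w ∧ a1 ≤ (petal G a2 (nb G v) w).card ∧
      ∀ O, Core G a1 a2 d O → v ∈ hub G a2 O → w ∉ hub G a2 O) :
    (S.card : ℝ) ≤ 2 * M + 2 * d := by
  have d0 : 0 < d := by linarith [H.pd, H.p2, H.pM]
  have key : ∀ O ⊆ S, Cq G O → (O.card : ℝ) ≤ d := by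
    intro O hOS hq
    by_contra hlt
    rw [not_le] at hlt
    have hv : O ⊆ nb G v := fun w hw => mem_nb.2 (hS w (hOS hw)).1
    have hO : Core G a1 a2 d O := ⟨hq, hlt.le, fun w hw => (hS w (hOS hw)).2.1.trans
      (cle fun f hf => mem_petal.2 ⟨(mem_petal.1 hf).1,
        (cle (inter_subset_inter_left hv)).trans_lt (mem_petal.1 hf).2⟩)⟩
    obtain ⟨w, hw⟩ : O.Nonempty := card_pos.1 (by exact_mod_cast d0.trans hlt)
    exact (hS w (hOS hw)).2.2 O hO (mem_hub_of H (hv.trans (subset_insert _ _)))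
      (sub_hub H hO hw)
  by_cases hq : Cq G S
  · linarith [key S Subset.rfl hq, H.pM]
  obtain ⟨w1, m1, w2, m2, hne, hna⟩ : ∃ w1 ∈ S, ∃ w2 ∈ S, w1 ≠ w2 ∧ ¬ G.Adj w1 w2 := by
    by_contra hc
    refine hq fun x hx y hy hxy => ?_
    by_contra hn
    exact hc ⟨x, hx, y, hy, hxy, hn⟩
  have cq : ∀ u ∈ S, ((S \ cn G u).card : ℝ) ≤ d := fun u hu => by
    refine key _ sdiff_subset fun x hx y hy hxy => ?_
    obtain ⟨x1, x2⟩ := mem_sdiff.1 hx
    obtain ⟨y1, y2⟩ := mem_sdiff.1 hy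
    rw [mem_cn, not_or] at x2 y2
    rcases H.cf v x y u (hS x x1).1 (hS y y1).1 (hS u hu).1 hxy x2.1 y2.1 with e | e | e
    · exact e
    · exact (x2.2 e.symm).elim
    · exact (y2.2 e.symm).elim
  have a := common H (X := S.filter fun w => w ∈ nb G w1 ∧ w ∈ nb G w2) (Z := nb G v)
    (fun w hw => mem_nb.2 (hS w (mem_filter.1 hw).1).1) hne hna fun w hw => by
      obtain ⟨b1, b2, b3⟩ := mem_filter.1 hw
      exact ⟨(mem_nb.1 b2).symm, (mem_nb.1 b3).symm, (hS w b1).2.1⟩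
  have b : S ⊆ (S.filter fun w => w ∈ nb G w1 ∧ w ∈ nb G w2) ∪ (S \ cn G w1 ∪ S \ cn G w2) :=
    fun x hx => by
      simp only [mem_union, mem_filter, mem_sdiff, mem_cn, mem_nb, hx, true_and, not_or]
      by_cases e1 : x = w1
      · exact Or.inr (Or.inr ⟨e1 ▸ hne, fun e => hna (e1 ▸ e.symm)⟩)
      by_cases e2 : x = w2
      · exact Or.inr (Or.inl ⟨e1, fun e => hna (e2 ▸ e)⟩)
      tauto
  have c := (cle b).trans ((cun _ _).trans (add_le_add le_rfl (cun _ _)))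
  linarith [cq w1 m1, cq w2 m2]

/-- the hubs -/
def Hb (G : SimpleGraph V) (a1 a2 d : ℝ) : Type :=
  {K : Finset V // ∃ O, Core G a1 a2 d O ∧ K = hub G a2 O}

/-- adjacency of the ambient graph -/
def amA (G : SimpleGraph V) (a1 a2 d : ℝ) : V ⊕ Hb G a1 a2 d → V ⊕ Hb G a1 a2 d → Prop
  | .inl u, .inl v => G.Adj u v
  | .inl u, .inr K => u ∈ K.1
  | .inr K, .inl u => u ∈ K.1
  | .inr _, .inr _ => False

/-- the ambient graph -/
def am (G : SimpleGraph V) (a1 a2 d : ℝ) : SimpleGraph (V ⊕ Hb G a1 a2 d) where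
  Adj := amA G a1 a2 d
  symm := ⟨by
    rintro (u | K) (v | K') h
    · exact G.adj_symm h
    · exact h
    · exact h
    · exact h⟩
  loopless := ⟨by
    rintro (u | K) h
    · exact G.irrefl h
    · exact h⟩

theorem Hb.cq (H : Hyp G a1 a2 M d N) (K : Hb G a1 a2 d) : Cq G K.1 := by
  obtain ⟨_, O, hO, rfl⟩ := K
  exact h2 H hO

theorem Hb.simp (H : Hyp G a1 a2 M d N) (K : Hb G a1 a2 d) {w y y' : V} (hw : w ∈ K.1)
    (a : G.Adj w y) (a' : G.Adj w y') (hne : y ≠ y') : y ∈ K.1 ∨ y' ∈ K.1 ∨ G.Adj y y' := by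
  obtain ⟨_, O, hO, rfl⟩ := K
  by_cases e : y ∈ hub G a2 O
  · exact Or.inl e
  by_cases e' : y' ∈ hub G a2 O
  · exact Or.inr (Or.inl e')
  exact Or.inr (Or.inr (h3 H hO hw e e' a a' hne))

theorem Hb.two (H : Hyp G a1 a2 M d N) {K K' : Hb G a1 a2 d} (hne : K ≠ K') {w z : V}
    (hw : w ∈ K.1) (hw' : w ∈ K'.1) (a : G.Adj w z) : z ∈ K.1 ∨ z ∈ K'.1 := by
  obtain ⟨_, O, hO, rfl⟩ := K
  obtain ⟨_, O', hO', rfl⟩ := K'
  exact h4c H hO hO' (fun e => hne (Subtype.ext e)) hw hw' a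

theorem Hb.three (H : Hyp G a1 a2 M d N) {K K' K'' : Hb G a1 a2 d} (n1 : K ≠ K') (n2 : K ≠ K'')
    (n3 : K' ≠ K'') {w : V} (hw : w ∈ K.1) (hw' : w ∈ K'.1) (hw'' : w ∈ K''.1) : False := by
  obtain ⟨_, O, hO, rfl⟩ := K
  obtain ⟨_, O', hO', rfl⟩ := K'
  obtain ⟨_, O'', hO'', rfl⟩ := K''
  exact h4d H hO hO' hO'' (fun e => n1 (Subtype.ext e)) (fun e => n2 (Subtype.ext e))
    (fun e => n3 (Subtype.ext e)) hw hw' hw''

theorem Hb.card (H : Hyp G a1 a2 M d N) (K : Hb G a1 a2 d) : d ≤ K.1.card := by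
  obtain ⟨_, O, hO, rfl⟩ := K
  exact hO.card.trans (cle (sub_hub H hO))

theorem am_cf (H : Hyp G a1 a2 M d N) [Fintype (V ⊕ Hb G a1 a2 d)]
    [DecidableEq (V ⊕ Hb G a1 a2 d)] : CF (am G a1 a2 d) := by
  rintro (v | K) (a | A) (b | B) (c | C) ha hb hc n1 n2 n3 <;>
    simp only [am, amA, ne_eq, Sum.inl.injEq, Sum.inr.injEq, false_or, or_false] at *
  · exact H.cf v a b c ha hb hc n1 n2 n3
  · have := Hb.simp H C hc ha hb n1
    tauto
  · have := Hb.simp H B hb ha hc n2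
    tauto
  · exact Hb.two H n3 hb hc ha
  · exact Hb.simp H A ha hb hc n3
  · exact Hb.two H n2 ha hc hb
  · exact Hb.two H n1 ha hb hc
  · exact Hb.three H n1 n2 n3 ha hb hc
  · exact Or.inl (Hb.cq H K a ha b hb n1)

end HubP

open HubP in
theorem p_Hub : S_Hub := by
  intro V _ _ G k φ a1 a2 M d hc hp p1 p2 p3 p4 p5
  classical
  have H : Hyp G a1 a2 M d (2 * k) := ⟨hc, cn_card hc hp, p1, p2, p3, p4, p5⟩
  have : Finite (Hb G a1 a2 d) := inferInstanceAs (Finite {K : Finset V // _})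
  let iF : Fintype (V ⊕ Hb G a1 a2 d) := Fintype.ofFinite _
  let iD : DecidableEq (V ⊕ Hb G a1 a2 d) := Classical.decEq _
  have ci : ∀ A : Finset V, (A.map Function.Embedding.inl : Finset (V ⊕ Hb G a1 a2 d)).card =
      A.card := fun A => card_map _
  refine ⟨V ⊕ Hb G a1 a2 d, iF, iD, am G a1 a2 d, sel fun x => x.isRight, Sum.elim φ fun _ => 0,
    Sum.inl, ⟨am_cf H, ?_, ?_, ?_, ?_⟩, ⟨Sum.inl_injective, by simp, ?_, fun _ _ => Iff.rfl⟩,
    ?_, ?_⟩
  · rintro (a | A) ha (b | B) hb h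
    · simp at ha
    · simp at ha
    · simp at hb
    · exact h
  · rintro (s | K) hs (x | X) (y | Y) hx hy hne
    all_goals first
      | (simp at hs; done)
      | exact hx.elim
      | exact hy.elim
      | exact Hb.cq H K x hx y hy fun e => hne (congrArg _ e)
  · rintro (v | K) hv
    · exact hp.1 v
    · simp at hv
  · rintro (u | K) (v | K') hu hv h
    · exact hp.2 u v h
    · simp at hv
    · simp at hu
    · simp at hu
  · rintro (v | K) hv
    · exact ⟨v, rfl⟩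
    · simp at hv
  · rintro (s | K) hs
    · simp at hs
    · refine (Hb.card H K).trans ?_
      rw [← ci]
      refine cle fun x hx => ?_
      obtain ⟨u, hu, rfl⟩ := mem_map.1 hx
      exact mem_nb.2 hu
  · rintro (v | K) hv
    swap
    · simp at hv
    refine le_trans ?_ (h5 H v (sel fun w => G.Adj v w ∧ a1 ≤ (petal G a2 (nb G v) w).card ∧
      ∀ O, Core G a1 a2 d O → v ∈ hub G a2 O → w ∉ hub G a2 O) fun w hw => by rwa [mem_sel] at hw)
    rw [← ci]
    refine cle ?_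
    rintro (w | K) hw
    swap
    · simp at hw
    obtain ⟨-, w1, w2, w3⟩ := mem_sel.1 hw
    refine mem_map.2 ⟨w, mem_sel.2 ⟨w1, ?_, fun O hO hv' hw' => w2
      ⟨Sum.inr ⟨_, O, hO, rfl⟩, by simp, hv', hw'⟩⟩, rfl⟩
    have a : nb (am G a1 a2 d) (.inl w) \ Ubig (am G a1 a2 d) a2 (.inl v) ⊆
        (petal G a2 (nb G v) w).map Function.Embedding.inl ∪
          sel fun x => x.isRight ∧ (am G a1 a2 d).Adj (.inl w) x := by
      rintro (f | K) hf <;> obtain ⟨f1, f2⟩ := mem_sdiff.1 hf <;> rw [mem_nb] at f1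
      · refine mem_union_left _ (mem_map.2 ⟨f, mem_petal.2 ⟨f1, ?_⟩, rfl⟩)
        rw [Ubig, mem_sel, not_le] at f2
        refine lt_of_le_of_lt ?_ f2
        rw [← ci]
        refine cle fun x hx => ?_
        obtain ⟨u, hu, rfl⟩ := mem_map.1 hx
        obtain ⟨u1, u2⟩ := mem_inter.1 hu
        rw [mem_nb] at u1 u2
        exact mem_inter.2 ⟨mem_nb.2 u1, mem_nb.2 u2⟩
      · exact mem_union_right _ (mem_sel.2 ⟨rfl, f1⟩)
    have b : (sel fun x : V ⊕ Hb G a1 a2 d =>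
        x.isRight ∧ (am G a1 a2 d).Adj (.inl w) x).card ≤ 2 := by
      by_contra hlt
      obtain ⟨x | X, y | Y, z | Z, hx, hy, hz, n1, n2, n3⟩ := two_lt_card_iff.1 (not_le.1 hlt)
      all_goals first
        | (simp at hx; done)
        | (simp at hy; done)
        | (simp at hz; done)
        | exact Hb.three H (fun e => n1 (congrArg _ e)) (fun e => n2 (congrArg _ e))
            (fun e => n3 (congrArg _ e)) (mem_sel.1 hx).2 (mem_sel.1 hy).2 (mem_sel.1 hz).2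
    have b' : ((sel fun x : V ⊕ Hb G a1 a2 d =>
        x.isRight ∧ (am G a1 a2 d).Adj (.inl w) x).card : ℝ) ≤ 2 := by exact_mod_cast b
    have c := (cle a).trans (cun _ _)
    rw [ci] at c
    linarith

end Pool.Agent.P.MP_fb43a4_co.Asy
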