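import Mathlib
import Pool.Agent.P.MP_fb43a4_co.Asy.St

/-!
Start values of the estimators.
-/

namespace Pool.Agent.P.MP_fb43a4_co.Asy

open Finset Filter

namespace Init

lemma grow {c M : ℝ} (hc : 0 < c) (hM : 0 < M) :
    ∃ k0 : ℕ, 1 ≤ k0 ∧ ∀ k : ℕ, k0 ≤ k → M * Real.log (2 * k + 1) ^ 3 ≤ c * k := by
  have h1 := (Real.isLittleO_pow_log_id_atTop (n := 3)).bound (c := c / (3 * M)) (by positivity)
  obtain ⟨x, hx⟩ := eventually_atTop.mp h1
  refine ⟨⌈x⌉₊ + 1, by omega, fun k hk => ?_⟩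
  have h2 : (⌈x⌉₊ : ℝ) + 1 ≤ k := by exact_mod_cast hk
  have h3 : (0 : ℝ) ≤ ⌈x⌉₊ := Nat.cast_nonneg _
  have h4 := hx (2 * k + 1) (by linarith [Nat.le_ceil x])
  rw [Real.norm_of_nonneg (pow_nonneg (Real.log_nonneg (by linarith)) _), id,
    Real.norm_of_nonneg (by linarith)] at h4
  calc M * Real.log (2 * k + 1) ^ 3 ≤ M * (c / (3 * M) * (2 * k + 1)) := by gcongr
    _ = c * ((2 * k + 1) / 3) := by field_simp
    _ ≤ c * k := by gcongr; linarith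

lemma size {c : ℝ} {k d R : ℕ} (hk : 1 ≤ k) (hd : 2 ^ d ≤ 2 * k ^ 3)
    (h : (81 * (R + 1) + 4) * Real.log (2 * k + 1) ^ 3 ≤ c * k) :
    7 * (2 * k + 1 : ℝ) ^ (R + 1) * Real.exp (-(c * k)) ≤
      1 / (4 * (2 * k + 1 : ℝ) ^ ((3 * d ^ 2 + 5) * (R + 1))) := by
  have hk1 : (1 : ℝ) ≤ k := by exact_mod_cast hk
  set L := Real.log (2 * k + 1) with hL
  have h0 : (0 : ℝ) < 2 * k + 1 := by linarith
  have hL1 : 1 ≤ L := by
    rw [hL, Real.le_log_iff_exp_le h0]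
    linarith [Real.exp_one_lt_d9]
  have hdL : (d : ℝ) ≤ 5 * L := by
    have h1 : (2 : ℝ) ^ d ≤ (2 * k + 1) ^ 3 := by
      have : (2 : ℝ) ^ d ≤ 2 * k ^ 3 := by exact_mod_cast hd
      nlinarith [pow_pos (zero_lt_one.trans_le hk1) 3, pow_pos (zero_lt_one.trans_le hk1) 2]
    have h2 := Real.log_le_log (by positivity) h1
    rw [Real.log_pow, Real.log_pow] at h2
    push_cast at h2
    have h3 := Real.log_two_gt_d9
    have h4 : (0 : ℝ) ≤ d := Nat.cast_nonneg _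
    nlinarith
  have h5 : (d : ℝ) ^ 2 ≤ 25 * L ^ 2 := by
    have := pow_le_pow_left₀ (Nat.cast_nonneg d) hdL 2
    linarith
  have h6 : 1 ≤ L ^ 2 := one_le_pow₀ hL1
  have h7 : (28 : ℝ) ≤ (2 * k + 1) ^ 4 := by
    have : (3 : ℝ) ^ 4 ≤ (2 * k + 1) ^ 4 := pow_le_pow_left₀ (by norm_num) (by linarith) 4
    linarith
  rw [le_div_iff₀ (by positivity), Real.exp_neg]
  have h8 : 28 * ((2 * k + 1 : ℝ) ^ (R + 1) * (2 * k + 1 : ℝ) ^ ((3 * d ^ 2 + 5) * (R + 1))) ≤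
      Real.exp (c * k) := by
    calc _ ≤ (2 * k + 1 : ℝ) ^ 4 *
          ((2 * k + 1 : ℝ) ^ (R + 1) * (2 * k + 1 : ℝ) ^ ((3 * d ^ 2 + 5) * (R + 1))) := by gcongr
      _ = Real.exp ((4 + (R + 1 + (3 * d ^ 2 + 5) * (R + 1)) : ℕ) * L) := by
          rw [Real.exp_nat_mul, hL, Real.exp_log h0, pow_add _ 4, pow_add _ (R + 1)]
      _ ≤ _ := by
          refine Real.exp_le_exp.mpr (le_trans ?_ h)
          push_cast
          have h9 : (0 : ℝ) ≤ R := Nat.cast_nonneg _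
          have h10 : 4 + ((R : ℝ) + 1 + (3 * d ^ 2 + 5) * (R + 1)) ≤ (81 * (R + 1) + 4) * L ^ 2 := by
            have : 3 * (d : ℝ) ^ 2 + 6 ≤ 81 * L ^ 2 := by linarith
            nlinarith
          calc _ ≤ (81 * (R + 1) + 4) * L ^ 2 * L := by gcongr
            _ = _ := by ring
  have h11 := Real.exp_pos (c * k)
  calc _ = 28 * ((2 * k + 1 : ℝ) ^ (R + 1) * (2 * k + 1 : ℝ) ^ ((3 * d ^ 2 + 5) * (R + 1))) /
        Real.exp (c * k) := by
        field_simp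
        ring
    _ ≤ 1 := (div_le_one h11).mpr h8

variable {V : Type} [Fintype V] [DecidableEq V]

lemma psi_zero {U : Finset V} {γ : V → ℕ} {w : ℕ} {b : ℝ} {g : V → ℝ} (hb : 0 ≤ b)
    (hf : Fib U γ w) (hg : ∀ u, g u ≤ b) : Psi U γ (w * b) g = 0 := by
  refine sum_eq_zero fun t _ => ?_
  have h1 : ∑ u ∈ U.filter fun u => γ u = t, g u ≤ w * b := by
    refine (sum_le_card_nsmul _ _ b fun u _ => hg u).trans ?_
    rw [nsmul_eq_mul]
    exact mul_le_mul_of_nonneg_right (by exact_mod_cast hf t) hb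
  rw [max_eq_right (by linarith)]
  norm_num

lemma phi_le (X : Ctx V) (hX : X.Ok) (hk : 1 ≤ X.k) (U : Finset V) (γ : V → ℕ) (n : ℝ)
    (o : Option ℕ) (hf : Fib U γ X.w) (hU : (U.card : ℝ) ≤ X.s * n) (hn : X.κ' * X.k ≤ n) :
    X.phi ⟨∅, ∅, ∅, fun _ => none⟩ U γ n o ≤ Real.exp (-(X.lam * X.β ^ 2 * X.κ' / 2 * X.k)) := by
  have ha : 0 < 1 - X.a := by linarith [hX.a1]
  have h1 : Psi U γ (X.w / (1 - X.a)) (X.load ⟨∅, ∅, ∅, fun _ => none⟩ o) = 0 := by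
    rw [div_eq_mul_one_div]
    refine psi_zero (by positivity) hf fun u => ?_
    simp only [Ctx.load, notMem_empty, if_false]
    cases o with
    | none => exact le_rfl
    | some c =>
      simp only [Ctx.pre]
      split_ifs
      · exact le_rfl
      · positivity
  have hl : (X.l : ℝ) ≠ 0 := by
    have := hX.kl
    exact Nat.cast_ne_zero.mpr (by omega)
  have h2 : ∑ u ∈ U, X.bud ⟨∅, ∅, ∅, fun _ => none⟩ u = U.card * (1 + X.C) := by
    rw [← nsmul_eq_mul, ← sum_const]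
    refine sum_congr rfl fun u _ => ?_
    simp only [Ctx.bud, notMem_empty, if_false, sdiff_empty, hX.card]
    field_simp
  have hC : 0 ≤ X.C := by
    have := hX.a0
    unfold Ctx.C
    positivity
  have hn0 : 0 ≤ n := le_trans (mul_nonneg hX.k0.le (Nat.cast_nonneg _)) hn
  have hw : (1 : ℝ) ≤ X.w := by exact_mod_cast hX.w1
  have hlb : 0 ≤ X.lam * X.β ^ 2 := mul_nonneg hX.lam0.le (sq_nonneg _)
  unfold Ctx.phi
  rw [h1, h2]
  refine Real.exp_le_exp.mpr ?_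
  have h3 : X.kap * (U.card * (1 + X.C)) ≤ X.kap * (X.s * n * (1 + X.C)) :=
    mul_le_mul_of_nonneg_left (mul_le_mul_of_nonneg_right hU (by linarith)) hX.kap0
  have h4 := mul_le_mul_of_nonneg_right hX.kapb hn0
  have h5 : X.lam * X.β ^ 2 * (X.κ' * X.k) ≤ X.lam * X.β ^ 2 * (X.w * n) :=
    mul_le_mul_of_nonneg_left (hn.trans (le_mul_of_one_le_left hn0 hw)) hlb
  nlinarith

lemma fr_le (X : Ctx V) (hX : X.Ok) (v : V) :
    X.fr ⟨∅, ∅, ∅, fun _ => none⟩ v ≤ Real.exp (-(X.a ^ 2 / 4 * X.k)) := by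
  have h1 : Real.exp (-1) ≤ 1 / 2 := by
    rw [Real.exp_neg, one_div]
    exact inv_anti₀ two_pos (by linarith [Real.exp_one_gt_d9])
  have h2 := Real.exp_pos (-1)
  have ha0 := hX.a0
  have ha1 := hX.a1
  have h3 : X.a ^ 2 ≤ 1 := by nlinarith
  have h4 : 1 - (1 - Real.exp (-1)) * X.a ^ 2 ≤ Real.exp (-(X.a ^ 2 / 2)) := by
    have := Real.add_one_le_exp (-(X.a ^ 2 / 2))
    nlinarith [sq_nonneg X.a]
  have h5 : 0 ≤ 1 - (1 - Real.exp (-1)) * X.a ^ 2 := by nlinarith [sq_nonneg X.a]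
  have h6 : (X.k : ℝ) ≤ X.l := by exact_mod_cast hX.kl
  simp only [Ctx.fr, Ctx.free, inter_empty, filter_empty, card_empty, sdiff_empty, hX.card]
  calc _ ≤ Real.exp (X.a ^ 2 * X.l / 4 - (0 : ℕ)) * Real.exp (-(X.a ^ 2 / 2)) ^ X.l := by gcongr
    _ ≤ _ := by
        rw [← Real.exp_nat_mul, ← Real.exp_add]
        refine Real.exp_le_exp.mpr ?_
        push_cast
        nlinarith [sq_nonneg X.a]

end Init

open Init in
theorem p_Init (hBall : S_Ball) (hDeg : S_Deg) : S_Init := by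
  intro a β lam κ' R ha hβ hlam hκ
  obtain ⟨k0, hk0, hgrow⟩ := grow (c := min (lam * β ^ 2 * κ' / 2) (a ^ 2 / 4))
    (M := 81 * (R + 1) + 4) (by positivity) (by positivity)
  refine ⟨k0, fun V _ _ X d hX e1 e2 e3 e4 e5 hk hd => ?_⟩
  subst e1 e2 e3 e4 e5
  have hk1 : 1 ≤ X.k := hk0.trans hk
  have hdeg := (hDeg V X.G X.Hub X.k X.φ hX.amb).1
  have hK : (0 : ℝ) ≤ X.k := Nat.cast_nonneg _
  set c := min (X.lam * X.β ^ 2 * X.κ' / 2) (X.a ^ 2 / 4) with hc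
  refine Safe.init (fun _ _ h => Near.symm h) ((2 * X.k + 1 : ℝ) ^ ((3 * d ^ 2 + 5) * (X.R + 1)))
    (one_le_pow₀ (by linarith)) (fun v => ?_) fun v => ?_
  · exact_mod_cast hBall V X.G (2 * X.k) ((3 * d ^ 2 + 5) * (X.R + 1)) v hdeg
  refine le_trans ?_ (size hk1 hd (hgrow X.k hk))
  have h1 : Real.exp (-(X.lam * X.β ^ 2 * X.κ' / 2 * X.k)) ≤ Real.exp (-(c * X.k)) :=
    Real.exp_le_exp.mpr (neg_le_neg (mul_le_mul_of_nonneg_right (min_le_left _ _) hK))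
  have h2 : Real.exp (-(X.a ^ 2 / 4 * X.k)) ≤ Real.exp (-(c * X.k)) :=
    Real.exp_le_exp.mpr (neg_le_neg (mul_le_mul_of_nonneg_right (min_le_right _ _) hK))
  have h3 : ((X.pal v).card : ℝ) ≤ (2 * X.k + 1 : ℝ) ^ (X.R + 1) := by
    have h4 : (X.pal v).card ≤ (2 * X.k + 1) ^ (X.R + 1) := by
      refine (card_biUnion_le_card_mul _ _ (2 * X.k + 1) fun u _ => ?_).trans ?_
      · rw [hX.card]
        exact hX.lk.trans (Nat.le_succ _)
      · rw [pow_succ]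
        exact Nat.mul_le_mul_right _ (hBall V X.G (2 * X.k) X.R v hdeg)
    exact_mod_cast h4
  have h5 : (1 : ℝ) ≤ (2 * X.k + 1 : ℝ) ^ (X.R + 1) := one_le_pow₀ (by linarith)
  have he := Real.exp_pos (-(c * X.k))
  have h6 : ∑ j, ∑ c ∈ X.pal v, X.phi ⟨∅, ∅, ∅, fun _ => none⟩ (X.S.U v j) (X.S.γ v j (X.inn c))
      (X.S.n v j) (some c) ≤ 5 * ((2 * X.k + 1 : ℝ) ^ (X.R + 1) * Real.exp (-(c * X.k))) := by
    refine (sum_le_card_nsmul _ _ ((2 * X.k + 1 : ℝ) ^ (X.R + 1) * Real.exp (-(c * X.k)))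
      fun j _ => ?_).trans (by simp)
    refine (sum_le_card_nsmul _ _ (Real.exp (-(c * X.k))) fun c' _ => ?_).trans ?_
    · exact (phi_le X hX hk1 _ _ _ _ (hX.sys.fib v j _) (hX.sys.ucard v j)
        (hX.sys.nbig v j)).trans h1
    · rw [nsmul_eq_mul]
      exact mul_le_mul_of_nonneg_right h3 he.le
  have h7 : X.phi ⟨∅, ∅, ∅, fun _ => none⟩ (nb X.G v ∩ X.S.T) (X.γ0 v) X.k none ≤
      Real.exp (-(c * X.k)) := by
    refine (phi_le X hX hk1 _ _ _ _ (hX.fib0 v) ?_ (mul_le_of_le_one_left hK hX.k1)).trans h1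
    have : (nb X.G v ∩ X.S.T).card ≤ X.s * X.k :=
      ((card_le_card inter_subset_left).trans (hdeg v)).trans (Nat.mul_le_mul_right _ hX.s2)
    exact_mod_cast this
  have h8 := (fr_le X hX v).trans h2
  unfold Ctx.Y
  nlinarith

end Pool.Agent.P.MP_fb43a4_co.Asy
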