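import Mathlib
import Pool.Agent.P.MP_fb43a4_co.Asy.St

/-!
Asymptotic list colouring of claw-free graphs: the bound on light vertices at a hub.
-/

namespace Pool.Agent.P.MP_fb43a4_co.Asy

open Finset

set_option linter.unusedSectionVars false

namespace LightP

section gen
variable {O : Type} [Fintype O] [DecidableEq O]

/-- restriction of a graph to a finite set -/
def res (X : SimpleGraph O) (S : Finset O) : SimpleGraph O where
  Adj a b := X.Adj a b ∧ a ∈ S ∧ b ∈ S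
  symm := ⟨fun _ _ ⟨h1, h2, h3⟩ => ⟨h1.symm, h3, h2⟩⟩
  loopless := ⟨fun _ h => h.1.ne rfl⟩

theorem res_adj {X : SimpleGraph O} {S : Finset O} {a b : O} :
    (res X S).Adj a b ↔ X.Adj a b ∧ a ∈ S ∧ b ∈ S := Iff.rfl

theorem miss_prob {X : SimpleGraph O} {A : Finset O} {μ : Finset O → ℝ} (hμ : IsLaw X A μ)
    (B : Finset O) {e : ℝ} (hB : ∑ o ∈ B, marg μ o ≤ 1 - e) :
    e ≤ ∑ I : Finset O, if Disjoint I B then μ I else 0 := by
  obtain ⟨h0, h1, -⟩ := hμ
  have h2 : ∑ o ∈ B, marg μ o = ∑ I : Finset O, ∑ o ∈ B, if o ∈ I then μ I else 0 := by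
    unfold marg
    rw [Finset.sum_comm]
  have h3 : ∑ I : Finset O, μ I ≤ ∑ I : Finset O,
      ((if Disjoint I B then μ I else 0) + ∑ o ∈ B, if o ∈ I then μ I else 0) := by
    refine Finset.sum_le_sum fun I _ => ?_
    have hn : ∀ o ∈ B, 0 ≤ (if o ∈ I then μ I else 0) := fun o _ => by
      split_ifs
      · exact h0 I
      · exact le_rfl
    by_cases hd : Disjoint I B
    · rw [if_pos hd]
      have := Finset.sum_nonneg hn
      linarith
    · rw [if_neg hd]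
      obtain ⟨o, ho1, ho2⟩ := Finset.not_disjoint_iff.1 hd
      have := Finset.single_le_sum hn ho2
      rw [if_pos ho1] at this
      linarith
  rw [Finset.sum_add_distrib, ← h2, h1] at h3
  linarith

theorem other_nb {H : SimpleGraph O} {a b : O} (h : 2 ≤ (nb H a).card) :
    ∃ c, c ≠ b ∧ H.Adj a c := by
  obtain ⟨x, hx, y, hy, hxy⟩ := Finset.one_lt_card.1 (show 1 < (nb H a).card by omega)
  by_cases hxb : x = b
  · exact ⟨y, fun h => hxy (hxb.trans h.symm), mem_nb.1 hy⟩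
  · exact ⟨x, hxb, mem_nb.1 hx⟩

theorem side {X : SimpleGraph O} {I I' : Finset O} (hI : Ind X I) {a b : O} (ha : a ∈ I)
    (h : (res X (I ∪ I')).Adj a b) : b ∈ I' := by
  rcases Finset.mem_union.1 h.2.2 with hb | hb
  · exact absurd h.1 (hI a ha b hb)
  · exact hb

theorem side' {X : SimpleGraph O} {I I' : Finset O} (hI : Ind X I') {a b : O} (ha : a ∈ I')
    (h : (res X (I ∪ I')).Adj a b) : b ∈ I := by
  rcases Finset.mem_union.1 h.2.2 with hb | hb
  · exact hb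
  · exact absurd h.1 (hI a ha b hb)

theorem spine {X : SimpleGraph O} (hE : E2 X) {I I' : Finset O} (hI : Ind X I) (hI' : Ind X I')
    (o : O) : (sel fun o' => (res X (I ∪ I')).Adj o o' ∧
      2 ≤ (nb (res X (I ∪ I')) o').card).card ≤ 2 := by
  by_cases h1 : o ∈ I
  · refine le_trans (Finset.card_le_card fun o' ho' => ?_) (hE I I' hI hI' o h1)
    rw [mem_sel] at ho' ⊢
    obtain ⟨ha, hd⟩ := ho'
    have h2 := side hI h1 ha
    obtain ⟨c, hc, hac⟩ := other_nb (b := o) hd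
    exact ⟨h2, ha.1, c, side' hI' h2 hac, hc, hac.1⟩
  by_cases h2 : o ∈ I'
  · refine le_trans (Finset.card_le_card fun o' ho' => ?_) (hE I' I hI' hI o h2)
    rw [mem_sel] at ho' ⊢
    obtain ⟨ha, hd⟩ := ho'
    have h3 := side' hI' h2 ha
    obtain ⟨c, hc, hac⟩ := other_nb (b := o) hd
    exact ⟨h3, ha.1, c, side hI h3 hac, hc, hac.1⟩
  · refine le_trans (le_of_eq (Finset.card_eq_zero.2 ?_)) (Nat.zero_le _)
    refine Finset.eq_empty_of_forall_notMem fun o' ho' => ?_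
    rw [mem_sel] at ho'
    rcases Finset.mem_union.1 ho'.1.2.1 with h | h
    · exact h1 h
    · exact h2 h

/-- ends of the spine in the component of `r` -/
def IsEnd (H : SimpleGraph O) (r o : O) : Prop :=
  H.Reachable r o ∧ 2 ≤ (nb H o).card ∧
    (sel fun o' => H.Adj o o' ∧ 2 ≤ (nb H o').card).card ≤ 1

theorem closed_reach {H : SimpleGraph O} (P : O → Prop) (hP : ∀ a b, P a → H.Adj a b → P b)
    {a b : O} (h : H.Reachable a b) (ha : P a) : P b := by
  obtain ⟨p⟩ := h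
  induction p with
  | nil => exact ha
  | cons h _ ih => exact ih (hP _ _ ha h)

theorem card_le_one_of {S T : Finset O} {x : O} (hT : T.card ≤ 2) (hx : x ∈ T) (hxS : x ∉ S)
    (hS : S ⊆ T) : S.card ≤ 1 := by
  have h1 : insert x S ⊆ T := Finset.insert_subset hx hS
  have h2 := Finset.card_le_card h1
  rw [Finset.card_insert_of_notMem hxS] at h2
  omega

theorem cand {X : SimpleGraph O} (hE : E2 X) {I I' : Finset O} {r su sw oh : O}
    (hM : Ind X (insert su I)) (hI' : Ind X I') (hM' : Ind X (insert sw (I'.erase r)))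
    (hsw : sw ∉ I') (hsu : su ≠ oh) (h1 : X.Adj sw su) (h2 : X.Adj oh sw) (hoh : oh ∈ I)
    (hne : r ≠ oh) (hreach : (res X (I ∪ I')).Reachable r oh) :
    (∃ a b, (res X (I ∪ I')).Adj r a ∧ (res X (I ∪ I')).Adj a b ∧ (res X (I ∪ I')).Adj b oh) ∨
      IsEnd (res X (I ∪ I')) r oh ∨
      ∃ o', IsEnd (res X (I ∪ I')) r o' ∧ (res X (I ∪ I')).Adj o' oh := by
  have hI : Ind X I := fun a ha b hb => hM a (mem_insert_of_mem ha) b (mem_insert_of_mem hb)
  by_cases hW : ∃ a b, (res X (I ∪ I')).Adj r a ∧ (res X (I ∪ I')).Adj a b ∧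
      (res X (I ∪ I')).Adj b oh
  · exact Or.inl hW
  right
  have hn1 : ¬ (res X (I ∪ I')).Adj r oh := fun h => hW ⟨oh, r, h, h.symm, h⟩
  by_cases hd : 2 ≤ (nb (res X (I ∪ I')) oh).card
  · left
    refine ⟨hreach, hd, ?_⟩
    refine card_le_one_of (x := sw) (hE _ _ hM hM' oh (mem_insert_of_mem hoh)) ?_ ?_ ?_
    · rw [mem_sel]
      exact ⟨mem_insert_self _ _, h2, su, mem_insert_self _ _, hsu, h1⟩
    · rw [mem_sel]
      exact fun h => hsw (side hI hoh h.1)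
    · intro o' ho'
      rw [mem_sel] at ho' ⊢
      obtain ⟨ha, hd'⟩ := ho'
      have h3 := side hI hoh ha
      obtain ⟨c, hc, hac⟩ := other_nb (b := oh) hd'
      refine ⟨mem_insert_of_mem (mem_erase.2 ⟨?_, h3⟩), ha.1, c,
        mem_insert_of_mem (side' hI' h3 hac), hc, hac.1⟩
      rintro rfl
      exact hn1 ha.symm
  right
  have hex : ∃ o', (res X (I ∪ I')).Adj oh o' := by
    by_contra hcon
    have := closed_reach (H := res X (I ∪ I')) (fun a => a = oh)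
      (fun a b ha hab => absurd ⟨b, ha ▸ hab⟩ hcon) hreach.symm rfl
    exact hne this
  obtain ⟨o', ho'⟩ := hex
  have huniq : ∀ c, (res X (I ∪ I')).Adj oh c → c = o' := by
    intro c hc
    by_contra hne'
    exact hd (Finset.one_lt_card.2 ⟨c, mem_nb.2 hc, o', mem_nb.2 ho', hne'⟩)
  have ho'I : o' ∈ I' := side hI hoh ho'
  have ho'r : o' ≠ r := by
    rintro rfl
    exact hn1 ho'.symm
  have hd' : 2 ≤ (nb (res X (I ∪ I')) o').card := by
    by_contra hcon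
    have huniq' : ∀ c, (res X (I ∪ I')).Adj o' c → c = oh := by
      intro c hc
      by_contra hne'
      exact hcon (Finset.one_lt_card.2 ⟨c, mem_nb.2 hc, oh, mem_nb.2 ho'.symm, hne'⟩)
    have := closed_reach (H := res X (I ∪ I')) (fun a => a = oh ∨ a = o')
      (fun a b ha hab => by
        rcases ha with ha | ha
        · exact Or.inr (huniq b (ha ▸ hab))
        · exact Or.inl (huniq' b (ha ▸ hab))) hreach.symm (Or.inl rfl)
    rcases this with h | h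
    · exact hne h
    · exact ho'r h.symm
  refine ⟨o', ⟨hreach.trans ho'.reachable, hd', ?_⟩, ho'.symm⟩
  refine card_le_one_of (x := oh)
    (hE _ _ hM' hM o' (mem_insert_of_mem (mem_erase.2 ⟨ho'r, ho'I⟩))) ?_ ?_ ?_
  · rw [mem_sel]
    refine ⟨mem_insert_of_mem hoh, ho'.1.symm, sw, mem_insert_self _ _, ?_, h2⟩
    rintro rfl
    exact hsw ho'I
  · rw [mem_sel]
    exact fun h => hd h.2
  · intro c hc
    rw [mem_sel] at hc ⊢
    obtain ⟨ha, hdc⟩ := hc
    have h3 := side' hI' ho'I ha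
    obtain ⟨z, hz, hcz⟩ := other_nb (b := o') hdc
    refine ⟨mem_insert_of_mem h3, ha.1, z,
      mem_insert_of_mem (mem_erase.2 ⟨?_, side hI h3 hcz⟩), hz, hcz.1⟩
    rintro rfl
    exact hW ⟨c, o', hcz.symm, ha.symm, ho'.symm⟩

/-- candidate set -/
noncomputable def cset (H : SimpleGraph O) (r : O) : Finset O :=
  sel fun o => (∃ a b, H.Adj r a ∧ H.Adj a b ∧ H.Adj b o) ∨ IsEnd H r o ∨
    ∃ o', IsEnd H r o' ∧ H.Adj o' o

theorem card_biUnion_nb {H : SimpleGraph O} {S : Finset O} {n : ℕ} (hS : S.card ≤ n)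
    (hd : ∀ o ∈ S, (nb H o).card ≤ 4) : (S.biUnion (nb H)).card ≤ n * 4 :=
  (Finset.card_biUnion_le_card_mul S _ 4 hd).trans (Nat.mul_le_mul_right _ hS)

theorem cset_card {H : SimpleGraph O} {r : O} (hd : ∀ o, H.Reachable r o → (nb H o).card ≤ 4)
    (hE : (sel (IsEnd H r)).card ≤ 2) : (cset H r).card ≤ 74 := by
  have h1 : (nb H r).card ≤ 4 := hd r (SimpleGraph.Reachable.refl r)
  have h2 : ((nb H r).biUnion (nb H)).card ≤ 4 * 4 :=
    card_biUnion_nb h1 fun o ho => hd o (mem_nb.1 ho).reachable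
  have h3 : (((nb H r).biUnion (nb H)).biUnion (nb H)).card ≤ 4 * 4 * 4 := by
    refine card_biUnion_nb h2 fun o ho => hd o ?_
    obtain ⟨a, ha, hb⟩ := Finset.mem_biUnion.1 ho
    exact (mem_nb.1 ha).reachable.trans (mem_nb.1 hb).reachable
  have h4 : ((sel (IsEnd H r)).biUnion (nb H)).card ≤ 2 * 4 :=
    card_biUnion_nb hE fun o ho => hd o (mem_sel.1 ho).1
  have h5 : cset H r ⊆ (((nb H r).biUnion (nb H)).biUnion (nb H)) ∪ (sel (IsEnd H r) ∪
      (sel (IsEnd H r)).biUnion (nb H)) := by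
    intro o ho
    rw [cset, mem_sel] at ho
    rcases ho with ⟨a, b, ha, hb, hc⟩ | ho | ⟨o', ho', hc⟩
    · exact mem_union_left _ (mem_biUnion.2 ⟨b, mem_biUnion.2 ⟨a, mem_nb.2 ha, mem_nb.2 hb⟩,
        mem_nb.2 hc⟩)
    · exact mem_union_right _ (mem_union_left _ (mem_sel.2 ho))
    · exact mem_union_right _ (mem_union_right _ (mem_biUnion.2 ⟨o', mem_sel.2 ho', mem_nb.2 hc⟩))
  have h6 := Finset.card_le_card h5
  have h7 := Finset.card_union_le (((nb H r).biUnion (nb H)).biUnion (nb H)) (sel (IsEnd H r) ∪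
      (sel (IsEnd H r)).biUnion (nb H))
  have h8 := Finset.card_union_le (sel (IsEnd H r)) ((sel (IsEnd H r)).biUnion (nb H))
  omega

theorem swap_ind {X : SimpleGraph O} {I I' : Finset O} (hI : Ind X I) (hI' : Ind X I')
    (Q : Finset O) (hQ : ∀ a ∈ Q, ∀ b, X.Adj a b → a ∈ I ∪ I' → b ∈ I ∪ I' → b ∈ Q) :
    Ind X ((I \ Q) ∪ (I' ∩ Q)) := by
  intro a ha b hb hab
  rcases mem_union.1 ha with ha | ha <;> rcases mem_union.1 hb with hb | hb
  · exact hI a (mem_sdiff.1 ha).1 b (mem_sdiff.1 hb).1 hab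
  · exact (mem_sdiff.1 ha).2 (hQ b (mem_inter.1 hb).2 a hab.symm
      (mem_union_right _ (mem_inter.1 hb).1) (mem_union_left _ (mem_sdiff.1 ha).1))
  · exact (mem_sdiff.1 hb).2 (hQ a (mem_inter.1 ha).2 b hab
      (mem_union_right _ (mem_inter.1 ha).1) (mem_union_left _ (mem_sdiff.1 hb).1))
  · exact hI' a (mem_inter.1 ha).1 b (mem_inter.1 hb).1 hab

theorem swap_sum (ω : O → ℝ) (I I' Q : Finset O) :
    ∑ o ∈ (I \ Q) ∪ (I' ∩ Q), ω o + ∑ o ∈ (I' \ Q) ∪ (I ∩ Q), ω o =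
      ∑ o ∈ I, ω o + ∑ o ∈ I', ω o := by
  have hd : ∀ S T : Finset O, Disjoint (S \ Q) (T ∩ Q) := fun S T =>
    Finset.disjoint_left.2 fun a ha hb => (mem_sdiff.1 ha).2 (mem_inter.1 hb).2
  rw [Finset.sum_union (hd _ _), Finset.sum_union (hd _ _)]
  have h1 := Finset.sum_inter_add_sum_sdiff I Q ω
  have h2 := Finset.sum_inter_add_sum_sdiff I' Q ω
  linarith

end gen

section spec
variable {V : Type} [Fintype V] [DecidableEq V]

theorem adm_reach {G : SimpleGraph V} {S : Finset V} (h : Adm G S) :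
    ∀ x ∈ S, ∀ y ∈ S, G.Reachable x y := by
  rcases h with ⟨v, rfl⟩ | ⟨x, hx, -, i, rfl⟩ | h
  · intro x hx y hy
    rw [mem_singleton.1 hx, mem_singleton.1 hy]
  · obtain ⟨j, hj⟩ := exists_ne i
    have key : ∀ s t, G.Reachable (x i s) (x i t) := fun s t =>
      ((hx i j s false).2 hj.symm).reachable.trans ((hx j i false t).2 hj).reachable
    intro a ha b hb
    rw [mem_insert, mem_singleton] at ha hb
    rcases ha with rfl | rfl <;> rcases hb with rfl | rfl <;> exact key _ _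
  · exact h.2.2.1

theorem adm_card {G : SimpleGraph V} {S : Finset V} (h : Adm G S) {u : V}
    (hu : ∀ x y, G.Adj u x → G.Adj u y → x ≠ y → G.Adj x y) {v : V} (hv : v ∈ S)
    (hr : G.Reachable u v) : S.card ≤ 2 := by
  rcases h with ⟨v, rfl⟩ | ⟨x, -, -, i, rfl⟩ | h
  · simp
  · exact Finset.card_le_two
  · obtain ⟨y, y', h1, h2, h3, h4⟩ := (h.2.2.2 v hv u hr.symm).2
    exact absurd (hu y y' h1 h2 h3) h4

theorem ind_conf_iff {G : SimpleGraph V} {A A' J : Finset (Finset V)} (h1 : J ⊆ A) :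
    Ind (conf G A) J → Ind (conf G A') J := by
  intro h a ha b hb hab
  exact h a ha b hb ⟨hab.1, h1 ha, h1 hb, hab.2.2.2⟩

theorem touch_card {G : SimpleGraph V} (hG : CF G) {A J : Finset (Finset V)} (hA : Fam G A)
    (hJ : J ⊆ A) (hind : Ind (conf G A) J) (v : V) :
    (sel fun o => o ∈ J ∧ ∃ x ∈ o, G.Adj v x).card ≤ 2 := by
  by_contra hcon
  obtain ⟨a, ha, b, hb, c, hc, hab, hac, hbc⟩ := Finset.two_lt_card.1 (not_le.1 hcon)
  rw [mem_sel] at ha hb hc
  obtain ⟨ha, x, hx, hvx⟩ := ha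
  obtain ⟨hb, y, hy, hvy⟩ := hb
  obtain ⟨hc, z, hz, hvz⟩ := hc
  have hne : ∀ p ∈ J, ∀ q ∈ J, p ≠ q → ∀ s ∈ p, ∀ t ∈ q, s ≠ t ∧ ¬ G.Adj s t := by
    intro p hp q hq hpq s hs t ht
    refine ⟨?_, fun h => hind p hp q hq ⟨hpq, hJ hp, hJ hq, s, hs, t, ht, h⟩⟩
    rintro rfl
    exact Finset.disjoint_left.1 (hA.2 p (hJ hp) q (hJ hq) hpq) hs ht
  have h1 := hne a ha b hb hab x hx y hy
  have h2 := hne a ha c hc hac x hx z hz
  have h3 := hne b hb c hc hbc y hy z hz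
  rcases hG v x y z hvx hvy hvz h1.1 h2.1 h3.1 with h | h | h
  · exact h1.2 h
  · exact h2.2 h
  · exact h3.2 h

theorem deg_le {G : SimpleGraph V} (hG : CF G) {A J : Finset (Finset V)} (hA : Fam G A)
    (hJ : J ⊆ A) (hind : Ind (conf G A) J) {o : Finset V} (ho : o.card ≤ 2)
    {N : Finset (Finset V)} (hN : ∀ o' ∈ N, o' ∈ J ∧ (conf G A).Adj o o') : N.card ≤ 4 := by
  have h1 : N ⊆ o.biUnion fun v => sel fun o' => o' ∈ J ∧ ∃ x ∈ o', G.Adj v x := by
    intro o' ho'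
    obtain ⟨h2, -, -, -, v, hv, x, hx, hvx⟩ := hN o' ho'
    exact mem_biUnion.2 ⟨v, hv, mem_sel.2 ⟨h2, x, hx, hvx⟩⟩
  have h2 := Finset.card_le_card h1
  have h3 := Finset.card_biUnion_le_card_mul o
    (fun v => sel fun o' => o' ∈ J ∧ ∃ x ∈ o', G.Adj v x) 2
    fun v _ => touch_card hG hA hJ hind v
  omega

theorem key (hE2 : S_E2) (hEnds : S_Ends) {G : SimpleGraph V} {Hub : Finset V} {k : ℕ}
    {φ : V → ℕ} {A : Finset (Finset V)} {ω : Finset V → ℝ} {Ω D : ℝ} {u : V} {Lu : Finset V}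
    (amb : Amb G Hub k φ) (hA : Fam G A) (hH : ∀ o ∈ A, ∀ v ∈ o, v ∉ Hub)
    (hmax : ∀ I ⊆ A, Ind (conf G A) I → ∑ o ∈ I, ω o ≤ Ω) (hu : u ∈ Hub)
    (hL : ∀ w ∈ Lu, G.Adj u w ∧ {w} ∈ A ∧ 0 < ω {w}) (hD : 0 ≤ D)
    (hfew : ∀ h, h ∉ Hub → ¬ G.Adj u h → ((nb G h ∩ Lu).card : ℝ) ≤ D)
    {I I' : Finset (Finset V)} (hIA : I ⊆ A) (hI : Ind (conf G A) I) (hIs : ∑ o ∈ I, ω o = Ω)
    (hIA' : I' ⊆ A) (hI' : Ind (conf G A) I') (hIs' : ∑ o ∈ I', ω o = Ω)
    (hmiss : ∀ o ∈ I, ∀ v ∈ o, ¬ G.Adj u v) {W : Finset V} (hWL : W ⊆ Lu)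
    (hW : ∀ w ∈ W, ∀ o ∈ I', ∀ v ∈ o, v ≠ w ∧ (G.Adj w v → G.Adj u v)) :
    (W.card : ℝ) ≤ 152 * D := by
  rcases W.eq_empty_or_nonempty with rfl | ⟨w0, hw0⟩
  · simp only [card_empty, Nat.cast_zero]
    positivity
  have hadd : ∀ J ⊆ A, Ind (conf G A) J → ∑ o ∈ J, ω o = Ω → ∀ w ∈ Lu, {w} ∉ J →
      ∃ o ∈ J, ∃ v ∈ o, G.Adj w v := by
    intro J hJ hind hs w hw hwJ
    by_contra hcon
    have h1 : Ind (conf G A) (insert {w} J) := by
      intro a ha b hb hab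
      rcases mem_insert.1 ha with ha | ha <;> rcases mem_insert.1 hb with hb | hb
      · exact hab.1 (ha.trans hb.symm)
      · obtain ⟨-, -, -, x, hx, y, hy, hxy⟩ := hab
        rw [ha, mem_singleton] at hx
        exact hcon ⟨b, hb, y, hy, hx ▸ hxy⟩
      · obtain ⟨-, -, -, x, hx, y, hy, hxy⟩ := hab
        rw [hb, mem_singleton] at hy
        exact hcon ⟨a, ha, x, hx, hy ▸ hxy.symm⟩
      · exact hind a ha b hb hab
    have h2 := hmax _ (insert_subset (hL w hw).2.1 hJ) h1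
    rw [Finset.sum_insert hwJ, hs] at h2
    have := (hL w hw).2.2
    linarith
  have hwI' : ∀ w ∈ W, {w} ∉ I' := fun w hw h => (hW w hw _ h w (mem_singleton_self w)).1 rfl
  obtain ⟨r, hr, v0, hv0, hwv0⟩ := hadd I' hIA' hI' hIs' w0 (hWL hw0) (hwI' w0 hw0)
  have huv0 : G.Adj u v0 := (hW w0 hw0 r hr v0 hv0).2 hwv0
  have huniq : ∀ o ∈ I', o ≠ r → ∀ v ∈ o, ¬ G.Adj u v := by
    intro o ho hor v hv huv
    have hne : v ≠ v0 := by
      rintro rfl
      exact Finset.disjoint_left.1 (hA.2 o (hIA' ho) r (hIA' hr) hor) hv hv0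
    exact hI' o ho r hr ⟨hor, hIA' ho, hIA' hr, v, hv, v0, hv0, amb.cl u hu v v0 huv huv0 hne⟩
  -- the enlarged family
  have hA1 : Fam G (insert {u} A) := by
    refine ⟨fun S hS => ?_, fun S hS T hT hST => ?_⟩
    · rcases mem_insert.1 hS with rfl | hS
      · exact Or.inl ⟨u, rfl⟩
      · exact hA.1 S hS
    · rcases mem_insert.1 hS with hS | hS <;> rcases mem_insert.1 hT with hT | hT
      · exact absurd (hS.trans hT.symm) hST
      · rw [hS]
        exact Finset.disjoint_singleton_left.2 fun h => hH T hT u h hu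
      · rw [hT]
        exact Finset.disjoint_singleton_right.2 fun h => hH S hS u h hu
      · exact hA.2 S hS T hT hST
  have hsub : A ⊆ insert {u} A := subset_insert _ _
  have hE := hE2 V G _ amb.cf hA1
  have hI1 : Ind (conf G (insert {u} A)) I := ind_conf_iff hIA hI
  have hI1' : Ind (conf G (insert {u} A)) I' := ind_conf_iff hIA' hI'
  have hUA : I ∪ I' ⊆ A := union_subset hIA hIA'
  obtain ⟨H, hHdef⟩ : ∃ H, H = res (conf G (insert {u} A)) (I ∪ I') := ⟨_, rfl⟩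
  have hQ : ∀ o, H.Reachable r o → o ∈ I ∪ I' ∧ ∃ v ∈ o, G.Reachable u v := by
    intro o ho
    refine closed_reach (H := H) (fun o => o ∈ I ∪ I' ∧ ∃ v ∈ o, G.Reachable u v) ?_ ho
      ⟨mem_union_right _ hr, v0, hv0, huv0.reachable⟩
    rintro a b ⟨ha, v, hv, hrv⟩ hab
    rw [hHdef] at hab
    obtain ⟨⟨-, -, -, x, hx, y, hy, hxy⟩, -, hb⟩ := hab
    exact ⟨hb, y, hy, (hrv.trans (adm_reach (hA.1 a (hUA ha)) v hv x hx)).trans hxy.reachable⟩
  have hQc : ∀ o, H.Reachable r o → o.card ≤ 2 := by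
    intro o ho
    obtain ⟨h1, v, hv, hrv⟩ := hQ o ho
    exact adm_card (hA.1 o (hUA h1)) (amb.cl u hu) hv hrv
  have hdeg : ∀ o, H.Reachable r o → (nb H o).card ≤ 4 := by
    intro o ho
    rcases mem_union.1 (hQ o ho).1 with h | h
    · refine deg_le amb.cf hA1 (hIA'.trans hsub) hI1' (hQc o ho) fun o' ho' => ?_
      rw [mem_nb, hHdef] at ho'
      exact ⟨side hI1 h ho', ho'.1⟩
    · refine deg_le amb.cf hA1 (hIA.trans hsub) hI1 (hQc o ho) fun o' ho' => ?_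
      rw [mem_nb, hHdef] at ho'
      exact ⟨side' hI1' h ho', ho'.1⟩
  have hends : (sel (IsEnd H r)).card ≤ 2 := by
    refine hEnds (Finset V) H r fun o => ?_
    rw [hHdef]
    exact spine hE hI1 hI1' o
  have hcs := cset_card hdeg hends
  -- the swap
  obtain ⟨Q, hQdef⟩ : ∃ Q : Finset (Finset V), Q = sel fun o => H.Reachable r o := ⟨_, rfl⟩
  have hQm : ∀ o, o ∈ Q ↔ H.Reachable r o := fun o => by rw [hQdef, mem_sel]
  have hQcl : ∀ a ∈ Q, ∀ b, (conf G A).Adj a b → a ∈ I ∪ I' → b ∈ I ∪ I' → b ∈ Q := by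
    intro a ha b hab h1 h2
    rw [hQm] at ha ⊢
    refine ha.trans (SimpleGraph.Adj.reachable ?_)
    rw [hHdef]
    exact ⟨⟨hab.1, hsub hab.2.1, hsub hab.2.2.1, hab.2.2.2⟩, h1, h2⟩
  have hJ1 := swap_ind hI hI' Q hQcl
  have hJ2 := swap_ind hI' hI Q fun a ha b hab h1 h2 =>
    hQcl a ha b hab (by rwa [union_comm]) (by rwa [union_comm])
  have hJ1A : (I \ Q) ∪ (I' ∩ Q) ⊆ A :=
    union_subset (sdiff_subset.trans hIA) (inter_subset_left.trans hIA')
  have hJ2A : (I' \ Q) ∪ (I ∩ Q) ⊆ A :=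
    union_subset (sdiff_subset.trans hIA') (inter_subset_left.trans hIA)
  have hJ2s : ∑ o ∈ (I' \ Q) ∪ (I ∩ Q), ω o = Ω := by
    have h1 := swap_sum ω I I' Q
    have h2 := hmax _ hJ1A hJ1
    have h3 := hmax _ hJ2A hJ2
    linarith
  have hrQ : r ∈ Q := (hQm r).2 (SimpleGraph.Reachable.refl r)
  have hJ2m : ∀ o ∈ (I' \ Q) ∪ (I ∩ Q), ∀ v ∈ o, ¬ G.Adj u v := by
    intro o ho
    rcases mem_union.1 ho with ho | ho
    · refine huniq o (mem_sdiff.1 ho).1 ?_
      rintro rfl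
      exact (mem_sdiff.1 ho).2 hrQ
    · exact hmiss o (mem_inter.1 ho).1
  have hM : Ind (conf G (insert {u} A)) (insert {u} I) := by
    intro a ha b hb hab
    rcases mem_insert.1 ha with ha | ha <;> rcases mem_insert.1 hb with hb | hb
    · exact hab.1 (ha.trans hb.symm)
    · obtain ⟨-, -, -, x, hx, y, hy, hxy⟩ := hab
      rw [ha, mem_singleton] at hx
      exact hmiss b hb y hy (hx ▸ hxy)
    · obtain ⟨-, -, -, x, hx, y, hy, hxy⟩ := hab
      rw [hb, mem_singleton] at hy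
      exact hmiss a ha x hx (hy ▸ hxy.symm)
    · exact hI1 a ha b hb hab
  obtain ⟨C, hCdef⟩ : ∃ C : Finset (Finset V), C = cset H r ∩ (I ∩ Q) := ⟨_, rfl⟩
  have hCc : C.card ≤ 74 := by
    rw [hCdef]
    exact (Finset.card_le_card inter_subset_left).trans hcs
  have hcov : W ⊆ (C.biUnion id).biUnion fun h => nb G h ∩ Lu := by
    intro w hw
    have huw := (hL w (hWL hw)).1
    have hwA := (hL w (hWL hw)).2.1
    obtain ⟨oh, hoh, h, hh, hwh⟩ := hadd _ hJ2A hJ2 hJ2s w (hWL hw)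
      fun hc => hJ2m _ hc w (mem_singleton_self w) huw
    have hohI : oh ∈ I ∩ Q := by
      rcases mem_union.1 hoh with h1 | h1
      · exact absurd ((hW w hw oh (mem_sdiff.1 h1).1 h hh).2 hwh) (hJ2m oh hoh h hh)
      · exact h1
    have hoI := (mem_inter.1 hohI).1
    have hM' : Ind (conf G (insert {u} A)) (insert {w} (I'.erase r)) := by
      intro a ha b hb hab
      rcases mem_insert.1 ha with ha | ha <;> rcases mem_insert.1 hb with hb | hb
      · exact hab.1 (ha.trans hb.symm)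
      · obtain ⟨-, -, -, x, hx, y, hy, hxy⟩ := hab
        rw [ha, mem_singleton] at hx
        exact huniq b (mem_erase.1 hb).2 (mem_erase.1 hb).1 y hy
          ((hW w hw b (mem_erase.1 hb).2 y hy).2 (hx ▸ hxy))
      · obtain ⟨-, -, -, x, hx, y, hy, hxy⟩ := hab
        rw [hb, mem_singleton] at hy
        exact huniq a (mem_erase.1 ha).2 (mem_erase.1 ha).1 x hx
          ((hW w hw a (mem_erase.1 ha).2 x hx).2 (hy ▸ hxy.symm))
      · exact hI1' a (mem_erase.1 ha).2 b (mem_erase.1 hb).2 hab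
    have hc := cand hE (I := I) (I' := I') (r := r) (su := {u}) (sw := {w}) (oh := oh) hM hI1' hM'
      (hwI' w hw)
      (fun e => hH oh (hIA hoI) u (e ▸ mem_singleton_self u) hu)
      ⟨fun e => huw.ne (singleton_injective e).symm, hsub hwA, mem_insert_self _ _,
        w, mem_singleton_self w, u, mem_singleton_self u, huw.symm⟩
      ⟨fun e => hmiss oh hoI w (e ▸ mem_singleton_self w) huw, hsub (hIA hoI), hsub hwA,
        h, hh, w, mem_singleton_self w, hwh.symm⟩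
      hoI (fun e => hmiss oh hoI v0 (e ▸ hv0) huv0)
      (hHdef ▸ (hQm oh).1 (mem_inter.1 hohI).2)
    rw [← hHdef] at hc
    refine mem_biUnion.2 ⟨h, mem_biUnion.2 ⟨oh, ?_, hh⟩, mem_inter.2 ⟨mem_nb.2 hwh.symm, hWL hw⟩⟩
    rw [hCdef]
    exact mem_inter.2 ⟨mem_sel.2 hc, hohI⟩
  have hCm : ∀ o ∈ C, o ∈ I ∧ o ∈ Q := fun o ho => by
    rw [hCdef] at ho
    exact mem_inter.1 (mem_inter.1 ho).2
  have hHs : (C.biUnion id).card ≤ 148 := by
    have := Finset.card_biUnion_le_card_mul C id 2 fun o ho => hQc o ((hQm o).1 (hCm o ho).2)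
    omega
  have h1 : (W.card : ℝ) ≤ ∑ h ∈ C.biUnion id, ((nb G h ∩ Lu).card : ℝ) := by
    exact_mod_cast (Finset.card_le_card hcov).trans Finset.card_biUnion_le
  have h2 : ∑ h ∈ C.biUnion id, ((nb G h ∩ Lu).card : ℝ) ≤ ∑ h ∈ C.biUnion id, D := by
    refine Finset.sum_le_sum fun h hh => ?_
    obtain ⟨o, ho, hho⟩ := mem_biUnion.1 hh
    exact hfew h (hH o (hIA (hCm o ho).1) h hho) (hmiss o (hCm o ho).1 h hho)
  rw [Finset.sum_const, nsmul_eq_mul] at h2
  have h3 : ((C.biUnion id).card : ℝ) ≤ 148 := by exact_mod_cast hHs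
  nlinarith

end spec

end LightP

theorem p_Light (hE2 : S_E2) (hEnds : S_Ends) : S_Light := by
  intro V _ _ G Hub k φ A ω μ Ω D e u Lu amb hA hH hμ hmax hsupp hu hL he hD hfew hN hQ
  have h1 := LightP.miss_prob hμ _ hN
  have hex : ∃ I, μ I ≠ 0 ∧ Disjoint I (sel fun o => o ∈ A ∧ ∃ v ∈ o, G.Adj u v) := by
    by_contra hcon
    have : (∑ I : Finset (Finset V),
        if Disjoint I (sel fun o => o ∈ A ∧ ∃ v ∈ o, G.Adj u v) then μ I else 0) = 0 := by
      refine Finset.sum_eq_zero fun I _ => ?_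
      split_ifs with h
      · by_contra h0
        exact hcon ⟨I, h0, h⟩
      · rfl
    linarith
  obtain ⟨I, hI0, hId⟩ := hex
  obtain ⟨hIA, hI⟩ := hμ.2.2 I hI0
  have hmiss : ∀ o ∈ I, ∀ v ∈ o, ¬ G.Adj u v := fun o ho v hv huv =>
    Finset.disjoint_left.1 hId ho (mem_sel.2 ⟨hIA ho, v, hv, huv⟩)
  obtain ⟨B, hB⟩ : ∃ B : V → Finset (Finset V), B = fun w =>
      sel fun o => o ∈ A ∧ ∃ v ∈ o, v = w ∨ (G.Adj w v ∧ ¬ G.Adj u v) := ⟨_, rfl⟩
  have h2 : ∀ w ∈ Lu, e ≤ ∑ J : Finset (Finset V), if Disjoint J (B w) then μ J else 0 := by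
    intro w hw
    refine LightP.miss_prob hμ _ ?_
    rw [hB]
    exact hQ w hw
  have h3 : ∀ J : Finset (Finset V),
      (∑ w ∈ Lu, if Disjoint J (B w) then μ J else 0) ≤ μ J * (152 * D) := by
    intro J
    by_cases hJ0 : μ J = 0
    · simp [hJ0]
    obtain ⟨hJA, hJ⟩ := hμ.2.2 J hJ0
    rw [← Finset.sum_filter, Finset.sum_const, nsmul_eq_mul, mul_comm]
    refine mul_le_mul_of_nonneg_left ?_ (hμ.1 J)
    refine LightP.key hE2 hEnds amb hA hH hmax hu hL hD hfew hIA hI (hsupp I hI0) hJA hJ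
      (hsupp J hJ0) hmiss (Finset.filter_subset _ _) fun w hw o ho v hv => ?_
    have hd := Finset.disjoint_left.1 (mem_filter.1 hw).2 ho
    rw [hB, mem_sel] at hd
    refine ⟨fun h => hd ⟨hJA ho, v, hv, Or.inl h⟩, fun h => ?_⟩
    by_contra h'
    exact hd ⟨hJA ho, v, hv, Or.inr ⟨h, h'⟩⟩
  calc (Lu.card : ℝ) * e = ∑ w ∈ Lu, e := by rw [Finset.sum_const, nsmul_eq_mul]
    _ ≤ ∑ w ∈ Lu, ∑ J : Finset (Finset V), if Disjoint J (B w) then μ J else 0 :=
        Finset.sum_le_sum h2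
    _ = ∑ J : Finset (Finset V), ∑ w ∈ Lu, if Disjoint J (B w) then μ J else 0 :=
        Finset.sum_comm
    _ ≤ ∑ J : Finset (Finset V), μ J * (152 * D) := Finset.sum_le_sum fun J _ => h3 J
    _ = 152 * D := by rw [← Finset.sum_mul, hμ.2.1, one_mul]

end Pool.Agent.P.MP_fb43a4_co.Asy
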