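import Mathlib
import Pool.Agent.P.MP_fb43a4_co.Asy.St

/-!
Links between heavy vertices, the cut set and the pieces.
-/

namespace Pool.Agent.P.MP_fb43a4_co.Asy

open Finset

set_option linter.unusedSectionVars false

namespace Link

variable {V : Type} [Fintype V] [DecidableEq V]

/-- the link graph -/
def lk (G : SimpleGraph V) (S : Finset V) (x : ℝ) (φ : V → ℕ) : SimpleGraph V where
  Adj u v := (cg G S x).Adj u v ∧ φ u = φ v
  symm := ⟨fun _ _ h => ⟨h.1.symm, h.2.symm⟩⟩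
  loopless := ⟨fun _ h => h.1.1 rfl⟩

theorem mem_key {G : SimpleGraph V} {S : Finset V} {v g : V} :
    g ∈ key G S v ↔ G.Adj v g ∧ g ∈ S := by simp [key]

theorem mem_cell {G : SimpleGraph V} {S : Finset V} {v u : V} :
    u ∈ cell G S v ↔ u ∉ S ∧ key G S u = key G S v := by simp [cell]

theorem guard {G : SimpleGraph V} (hG : CF G) {S : Finset V} {u v g g' : V}
    (hg : g ∈ key G S u) (hg' : g' ∈ key G S u) (hne : g ≠ g') (hn : ¬ G.Adj g g')
    (huv : G.Adj u v) (hv : v ∉ S) : g ∈ key G S v ∨ g' ∈ key G S v := by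
  obtain ⟨h1, h2⟩ := mem_key.1 hg
  obtain ⟨h3, h4⟩ := mem_key.1 hg'
  rcases hG u g g' v h1 h3 huv hne (fun h => hv (h ▸ h2)) (fun h => hv (h ▸ h4)) with h | h | h
  · exact absurd h hn
  · exact Or.inl (mem_key.2 ⟨h.symm, h2⟩)
  · exact Or.inr (mem_key.2 ⟨h.symm, h4⟩)

theorem deg_le (hDeg : S_Deg) {G : SimpleGraph V} {Hub S : Finset V} {k : ℕ} {φ : V → ℕ}
    (hA : Amb G Hub k φ) (hS : Hub ⊆ S) (x : ℝ) (u : V) : (nb (lk G S x φ) u).card ≤ 2 := by
  by_cases hu : Heavy G S x u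
  · obtain ⟨huS, ⟨g, hg, g', hg', hne, hn⟩, -⟩ := hu
    set I : Finset V := sel fun v => v ∉ S ∧ φ v = φ u with hI
    have hind : Ind G I := by
      intro a ha b hb hab
      obtain ⟨h1, h2⟩ := mem_sel.1 ha
      obtain ⟨h3, h4⟩ := mem_sel.1 hb
      exact hA.prop a b (fun h => h1 (hS h)) (fun h => h3 (hS h)) hab (h2.trans h4.symm)
    have hone : ∀ t ∈ key G S u, ((nb G t ∩ I).erase u).card ≤ 1 := by
      intro t ht
      have h1 := (hDeg V G Hub k φ hA).2.1 t I hind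
      have h2 : u ∈ nb G t ∩ I :=
        mem_inter.2 ⟨mem_nb.2 (mem_key.1 ht).1.symm, mem_sel.2 ⟨huS, rfl⟩⟩
      rw [card_erase_of_mem h2]
      omega
    have hsub : nb (lk G S x φ) u ⊆ (nb G g ∩ I).erase u ∪ (nb G g' ∩ I).erase u := by
      intro v hv
      obtain ⟨⟨h1, -, h3, h4⟩, h5⟩ := mem_nb.1 hv
      have hk : g ∈ key G S v ∨ g' ∈ key G S v := by
        rcases h4 with h | ⟨u', hu', v', hv', h⟩
        · exact Or.inl (h ▸ hg)
        · obtain ⟨-, e1⟩ := mem_cell.1 hu'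
          obtain ⟨e2, e3⟩ := mem_cell.1 hv'
          rw [← e3]
          exact guard hA.cf (e1 ▸ hg) (e1 ▸ hg') hne hn h e2
      have hvI : v ∈ I := mem_sel.2 ⟨h3.1, h5.symm⟩
      rcases hk with h | h
      · exact mem_union_left _ (mem_erase.2 ⟨h1.symm,
          mem_inter.2 ⟨mem_nb.2 (mem_key.1 h).1.symm, hvI⟩⟩)
      · exact mem_union_right _ (mem_erase.2 ⟨h1.symm,
          mem_inter.2 ⟨mem_nb.2 (mem_key.1 h).1.symm, hvI⟩⟩)
    have := (card_le_card hsub).trans (card_union_le _ _)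
    have h1 := hone g hg
    have h2 := hone g' hg'
    omega
  · have : nb (lk G S x φ) u = ∅ :=
      eq_empty_of_forall_notMem fun v hv => hu (mem_nb.1 hv).1.2.1
    simp [this]

theorem groups {T : Type} [DecidableEq T] (f : V → T) (s : ℕ) (hs : 1 ≤ s) : ∃ γ : V → ℕ,
    (∀ u, γ u ≤ (univ.filter fun w => f w = f u).card / s) ∧
      ∀ t : T × ℕ, (univ.filter fun w => (f w, γ w) = t).card ≤ s := by
  let e := Fintype.equivFin V
  let r : V → ℕ := fun u => (univ.filter fun w => f w = f u ∧ e w < e u).card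
  have hlt : ∀ u v, f u = f v → e u < e v → r u < r v := by
    intro u v h1 h2
    refine card_lt_card ⟨fun w hw => ?_, fun h => ?_⟩
    · obtain ⟨h3, h4⟩ := (mem_filter.1 hw).2
      exact mem_filter.2 ⟨mem_univ _, h3.trans h1, h4.trans h2⟩
    · have := h (mem_filter.2 ⟨mem_univ u, h1, h2⟩)
      exact lt_irrefl _ (mem_filter.1 this).2.2
  refine ⟨fun u => r u / s, fun u => Nat.div_le_div_right (card_le_card fun w hw => ?_),
    fun t => ?_⟩
  · exact mem_filter.2 ⟨mem_univ _, (mem_filter.1 hw).2.1⟩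
  · refine le_trans ?_ (card_range s).le
    refine card_le_card_of_injOn (fun u => r u % s)
      (fun u _ => mem_coe.2 (mem_range.2 (Nat.mod_lt _ hs))) fun u hu v hv h => ?_
    have h1 := (mem_filter.1 (mem_coe.1 hu)).2.trans (mem_filter.1 (mem_coe.1 hv)).2.symm
    obtain ⟨h2, h3⟩ := Prod.mk.inj h1
    have h4 : r u = r v := by
      have h6 : r u / s = r v / s := h3
      have h7 : r u % s = r v % s := h
      rw [← Nat.div_add_mod (r u) s, ← Nat.div_add_mod (r v) s, h6, h7]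
    rcases lt_trichotomy (e u) (e v) with h5 | h5 | h5
    · exact absurd h4 (hlt u v h2 h5).ne
    · exact e.injective h5
    · exact absurd h4 (hlt v u h2.symm h5).ne'

theorem hall {T : Type} [DecidableEq T] (lab : V → T) (s : ℕ) (hs : 1 ≤ s)
    (hf : ∀ t, (univ.filter fun w => lab w = t).card ≤ s) (Wn : Finset (Finset V))
    (hd : ∀ X ∈ Wn, ∀ Y ∈ Wn, X ≠ Y → Disjoint X Y) (hc : ∀ X ∈ Wn, X.card = s) :
    ∃ D : Finset V, (∀ X ∈ Wn, ∃ x ∈ X, x ∈ D) ∧ Set.InjOn lab D := by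
  have h := (all_card_le_biUnion_card_iff_exists_injective
    (fun X : Wn => X.1.image lab)).1 (by
      intro F
      have h1 : (F.biUnion fun X => X.1).card = F.card * s := by
        rw [card_biUnion fun X _ Y _ h => hd _ X.2 _ Y.2 fun e => h (Subtype.ext e)]
        rw [sum_congr rfl fun X _ => hc X.1 X.2, sum_const, smul_eq_mul]
      have h2 := card_le_mul_card_image (f := lab) (F.biUnion fun X => X.1) s fun t _ =>
        (card_le_card (filter_subset_filter _ (subset_univ _))).trans (hf t)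
      rw [h1, biUnion_image, mul_comm] at h2
      exact Nat.le_of_mul_le_mul_left h2 hs)
  obtain ⟨f, hinj, hf'⟩ := h
  choose c hc1 hc2 using fun X => mem_image.1 (hf' X)
  refine ⟨univ.image c, fun X hX => ⟨c ⟨X, hX⟩, hc1 _, mem_image_of_mem _ (mem_univ _)⟩, ?_⟩
  intro a ha b hb hab
  obtain ⟨X, -, rfl⟩ := mem_image.1 (mem_coe.1 ha)
  obtain ⟨Y, -, rfl⟩ := mem_image.1 (mem_coe.1 hb)
  rw [hc2, hc2] at hab
  rw [hinj hab]

theorem cut (G : SimpleGraph V) (S : Finset V) (s : ℕ) (hs : 1 ≤ s) (Wn : Finset (Finset V))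
    (hd : ∀ X ∈ Wn, ∀ Y ∈ Wn, X ≠ Y → Disjoint X Y) (hc : ∀ X ∈ Wn, X.card = s) :
    ∃ D : Finset V, (∀ X ∈ Wn, ∃ x ∈ X, x ∈ D) ∧
      ∀ u, u ∉ S → (((D ∩ cell G S u).card : ℝ)) ≤ (cell G S u).card / s + 1 := by
  let f : V → Option (Finset V) := fun u => if u ∈ S then none else some (key G S u)
  obtain ⟨γ, h1, h2⟩ := groups f s hs
  obtain ⟨D, h3, h4⟩ := hall (fun w => (f w, γ w)) s hs h2 Wn hd hc
  refine ⟨D, h3, fun u hu => ?_⟩
  have hf : ∀ w ∈ cell G S u, f w = some (key G S u) := by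
    intro w hw
    obtain ⟨h5, h6⟩ := mem_cell.1 hw
    simp only [f, if_neg h5, h6]
  have hfib : ∀ w ∈ cell G S u, (univ.filter fun z => f z = f w) ⊆ cell G S u := by
    intro w hw z hz
    have h5 := (mem_filter.1 hz).2
    rw [hf w hw] at h5
    by_cases h6 : z ∈ S
    · simp only [f, if_pos h6, reduceCtorEq] at h5
    · simp only [f, if_neg h6, Option.some.injEq] at h5
      exact mem_cell.2 ⟨h6, h5⟩
  have h7 : (D ∩ cell G S u).card ≤ (range ((cell G S u).card / s + 1)).card := by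
    refine card_le_card_of_injOn γ (fun w hw => ?_) fun a ha b hb hab => ?_
    · have hw' := (mem_inter.1 (mem_coe.1 hw)).2
      exact mem_coe.2 (mem_range.2 (Nat.lt_succ_of_le ((h1 w).trans
        (Nat.div_le_div_right (card_le_card (hfib w hw'))))))
    · obtain ⟨h5, h6⟩ := mem_inter.1 (mem_coe.1 ha)
      obtain ⟨h8, h9⟩ := mem_inter.1 (mem_coe.1 hb)
      exact h4 h5 h8 (Prod.ext ((hf a h6).trans (hf b h9).symm) hab)
  rw [card_range] at h7
  have h8 : (((cell G S u).card / s : ℕ) : ℝ) ≤ (cell G S u).card / s := Nat.cast_div_le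
  have h9 : ((D ∩ cell G S u).card : ℝ) ≤ (((cell G S u).card / s + 1 : ℕ) : ℝ) := by
    exact_mod_cast h7
  push_cast at h9
  linarith

theorem sparse {G : SimpleGraph V} (hG : CF G) {S : Finset V} {x c : ℝ} (hc : 0 ≤ c) {Δ m : ℕ}
    (hΔ : ∀ v, (nb G v).card ≤ Δ) (D : Finset V)
    (hD : ∀ u, Heavy G S x u → ((D ∩ cell G S u).card : ℝ) ≤ c * (cell G S u).card) (v : V)
    (hv : (key G S v).card ≤ m) :
    ((sel fun u => G.Adj v u ∧ Heavy G S x u ∧ u ∈ D).card : ℝ) ≤ c * ((m + 1) * Δ) := by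
  set Z := sel fun u => G.Adj v u ∧ Heavy G S x u ∧ u ∈ D with hZ
  set Y := sel fun w => w ∉ S ∧ key G S w ∈ Z.image (key G S) with hY
  have hYs : Y ⊆ (insert v (key G S v)).biUnion (nb G) := by
    intro w hw
    obtain ⟨-, h2⟩ := mem_sel.1 hw
    obtain ⟨u, hu, h3⟩ := mem_image.1 h2
    obtain ⟨h4, ⟨-, ⟨g, hg, g', hg', hne, hn⟩, -⟩, -⟩ := mem_sel.1 hu
    have hadj : ∀ t ∈ key G S u, w ∈ nb G t := fun t ht =>
      mem_nb.2 (mem_key.1 (h3 ▸ ht : t ∈ key G S w)).1.symm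
    by_cases h5 : v ∈ S
    · exact mem_biUnion.2 ⟨v, mem_insert_self _ _, hadj v (mem_key.2 ⟨h4.symm, h5⟩)⟩
    · rcases guard hG hg hg' hne hn h4.symm h5 with h | h
      · exact mem_biUnion.2 ⟨g, mem_insert_of_mem h, hadj g hg⟩
      · exact mem_biUnion.2 ⟨g', mem_insert_of_mem h, hadj g' hg'⟩
  have hYc : Y.card ≤ (m + 1) * Δ := by
    refine (card_le_card hYs).trans ((card_biUnion_le_card_mul _ _ Δ fun t _ => hΔ t).trans ?_)
    exact Nat.mul_le_mul_right _ ((card_insert_le _ _).trans (Nat.succ_le_succ hv))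
  have h1 : Z.card = ∑ t ∈ Z.image (key G S), (Z.filter fun u => key G S u = t).card :=
    card_eq_sum_card_image _ _
  have h2 : Y.card = ∑ t ∈ Z.image (key G S), (Y.filter fun u => key G S u = t).card :=
    card_eq_sum_card_fiberwise fun w hw => (mem_sel.1 (mem_coe.1 hw)).2
  have h3 : (Z.card : ℝ) ≤ c * Y.card := by
    rw [h1, h2]
    push_cast
    rw [mul_sum]
    refine sum_le_sum fun t ht => ?_
    obtain ⟨u, hu, rfl⟩ := mem_image.1 ht
    have h4 : (Z.filter fun w => key G S w = key G S u) ⊆ D ∩ cell G S u := by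
      intro w hw
      obtain ⟨h5, h6⟩ := mem_filter.1 hw
      obtain ⟨-, h7, h8⟩ := mem_sel.1 h5
      exact mem_inter.2 ⟨h8, mem_cell.2 ⟨h7.1, h6⟩⟩
    have h5 : cell G S u ⊆ Y.filter fun w => key G S w = key G S u := by
      intro w hw
      obtain ⟨h6, h7⟩ := mem_cell.1 hw
      exact mem_filter.2 ⟨mem_sel.2 ⟨h6, h7 ▸ ht⟩, h7⟩
    refine le_trans (Nat.cast_le.2 (card_le_card h4)) ((hD u (mem_sel.1 hu).2.1).trans ?_)
    exact mul_le_mul_of_nonneg_left (Nat.cast_le.2 (card_le_card h5)) hc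
  refine h3.trans (mul_le_mul_of_nonneg_left ?_ hc)
  exact_mod_cast hYc

theorem walk_inv {G : SimpleGraph V} {S : Finset V} {x : ℝ} {φ : V → ℕ} {u v : V}
    (p : (lk G S x φ).Walk u v) (hu : Heavy G S x u) : Heavy G S x v ∧ φ v = φ u := by
  induction p with
  | nil => exact ⟨hu, rfl⟩
  | cons h _ ih =>
    obtain ⟨h1, h2⟩ := ih h.1.2.2.1
    exact ⟨h1, h2.trans h.2.symm⟩

/-- joined by a walk avoiding `D` -/
def Av (L : SimpleGraph V) (D : Finset V) (u v : V) : Prop :=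
  ∃ p : L.Walk u v, ∀ z ∈ p.support, z ∉ D

theorem Av.symm {L : SimpleGraph V} {D : Finset V} {u v : V} (h : Av L D u v) : Av L D v u := by
  obtain ⟨p, hp⟩ := h
  exact ⟨p.reverse, fun z hz => hp z (by simpa using hz)⟩

theorem Av.trans {L : SimpleGraph V} {D : Finset V} {u v w : V} (h : Av L D u v)
    (h' : Av L D v w) : Av L D u w := by
  obtain ⟨p, hp⟩ := h
  obtain ⟨q, hq⟩ := h'
  exact ⟨p.append q, fun z hz =>
    ((SimpleGraph.Walk.mem_support_append_iff p q).1 hz).elim (hp z) (hq z)⟩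

end Link

open Link in
theorem p_Link (hCut : S_Cut) (hBall : S_Ball) (hDeg : S_Deg) : S_Link := by
  intro δ κ m hδ hκ
  obtain ⟨s1, hs1⟩ := exists_nat_ge (4 * (m + 1) / δ)
  obtain ⟨k1, hk1⟩ := exists_nat_ge (4 * (m + 1) / (κ * δ))
  have hpow : 3 * (s1 + 1) < 3 ^ (3 * (s1 + 1)) := Nat.lt_pow_self (by norm_num)
  refine ⟨3 ^ (3 * (s1 + 1)), k1 + 1, by omega, fun k hk V _ _ G Hub S φ D0 hM => ?_⟩
  have hk0 : (0 : ℝ) < k := by exact_mod_cast (by omega : 0 < k)
  have hk2 : (k1 : ℝ) ≤ k := by exact_mod_cast (by omega : k1 ≤ k)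
  have hdeg := deg_le hDeg hM.amb hM.sub (κ * k)
  obtain ⟨Wn, hW1, hW2, hW3⟩ := hCut V (lk G S (κ * k) φ) hdeg (s1 + 1) (by omega)
  obtain ⟨D, hD1, hD2⟩ := cut G S (s1 + 1) (by omega) Wn hW1 fun X hX => (hW2 X hX).1
  have hshort : ∀ u v, Av (lk G S (κ * k) φ) D u v → Near (lk G S (κ * k) φ) (3 * (s1 + 1)) u v := by
    rintro u v ⟨p, hp⟩
    obtain ⟨q, hq, -⟩ := hW3 D hD1 u v p hp
    exact ⟨q, hq⟩
  refine ⟨sel fun u => Heavy G S (κ * k) u ∧ u ∉ D, fun v => sel (Av (lk G S (κ * k) φ) D v),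
    fun v hv => (mem_sel.1 hv).1, fun v hv => ?_, fun v hv u hu => ?_, fun v _ u hu => ?_,
    fun v _ => ?_, fun v hv u hu => ?_, fun v _ u hu => ?_, fun u hu v hv h1 h2 => ?_,
    fun v hv => ?_⟩
  · refine mem_sel.2 ⟨SimpleGraph.Walk.nil, fun z hz => ?_⟩
    rw [SimpleGraph.Walk.support_nil, List.mem_singleton] at hz
    exact hz ▸ (mem_sel.1 hv).2
  · obtain ⟨p, hp⟩ := mem_sel.1 hu
    exact mem_sel.2 ⟨(walk_inv p (mem_sel.1 hv).1).1, hp u p.end_mem_support⟩
  · ext w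
    simp only [mem_sel] at hu ⊢
    exact ⟨fun h => hu.trans h, fun h => hu.symm.trans h⟩
  · refine le_trans (card_le_card fun u hu => ?_) (hBall V _ 2 (3 * (s1 + 1)) v hdeg)
    exact mem_sel.2 (hshort v u (mem_sel.1 hu))
  · obtain ⟨p, -⟩ := mem_sel.1 hu
    exact (walk_inv p (mem_sel.1 hv).1).2
  · obtain ⟨q, hq⟩ := hshort v u (mem_sel.1 hu)
    have hle : lk G S (κ * k) φ ≤ cg G S (κ * k) := fun _ _ h => h.1
    refine ⟨q.mapLe hle, ?_⟩
    rw [SimpleGraph.Walk.mapLe, SimpleGraph.Walk.length_map]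
    omega
  · have h3 : (lk G S (κ * k) φ).Adj v u := ⟨h2.symm, h1.symm⟩
    refine mem_sel.2 ⟨h3.toWalk, fun z hz => ?_⟩
    simp only [SimpleGraph.Walk.support_cons, SimpleGraph.Walk.support_nil, List.mem_cons,
      List.not_mem_nil, or_false] at hz
    rcases hz with rfl | rfl
    · exact (mem_sel.1 hv).2
    · exact (mem_sel.1 hu).2
  · have hx : 0 < κ * k := by positivity
    have hs0 : (0 : ℝ) < s1 + 1 := by positivity
    have h1 := sparse hM.amb.cf (S := S) (x := κ * k) (c := 1 / (s1 + 1) + 1 / (κ * k))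
      (by positivity) (hDeg V G Hub k φ hM.amb).1 D (fun u hu => by
        have h2 := hD2 u hu.1
        have h3 : 1 ≤ 1 / (κ * k) * (cell G S u).card := by
          rw [one_div, inv_mul_eq_div, le_div_iff₀ hx, one_mul]
          exact hu.2.2
        push_cast at h2
        rw [add_mul, one_div, inv_mul_eq_div]
        linarith) v (hM.keyb v hv)
    have e : (sel fun u => G.Adj v u ∧ Heavy G S (κ * k) u ∧
        u ∉ sel fun u => Heavy G S (κ * k) u ∧ u ∉ D) =
        sel fun u => G.Adj v u ∧ Heavy G S (κ * k) u ∧ u ∈ D := by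
      ext u
      simp only [mem_sel]
      tauto
    rw [e]
    refine h1.trans ?_
    rw [div_le_iff₀ hδ] at hs1
    rw [div_le_iff₀ (by positivity)] at hk1
    have h4 : 1 / ((s1 : ℝ) + 1) * (m + 1) ≤ δ / 4 := by
      rw [one_div, inv_mul_eq_div, div_le_iff₀ hs0]
      nlinarith
    have h5 : 1 / (κ * k) * (m + 1) ≤ δ / 4 := by
      rw [one_div, inv_mul_eq_div, div_le_iff₀ hx]
      nlinarith [mul_le_mul_of_nonneg_right hk2 (mul_pos hκ hδ).le]
    push_cast
    nlinarith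

end Pool.Agent.P.MP_fb43a4_co.Asy
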