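import Mathlib
import Pool.Agent.P.MP_fb43a4_co.Asy.St

/-!
Asymptotic list colouring of claw-free graphs: merging two independent sets.
-/

namespace Pool.Agent.P.MP_fb43a4_co.Asy

open Finset

set_option linter.unusedSectionVars false

namespace Merge

variable {O ι : Type} [Fintype O] [DecidableEq O] [Fintype ι] [DecidableEq ι]

theorem near_le {G G' : SimpleGraph O} (h : G ≤ G') {n : ℕ} {u v : O} (hn : Near G n u v) :
    Near G' n u v := by
  obtain ⟨p, hp⟩ := hn
  exact ⟨p.mapLe h, by simpa using hp⟩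

/-- a step that changes a linear estimator on a set of small diameter -/
theorem lin {X : SimpleGraph O} {adj : ι → ι → Prop} {near : ι → O → Prop} {n : ℕ} {b : ι → ℝ}
    {c : ι → O → ℝ} (hs : ∀ a a', adj a a' → adj a' a) (hL : Loc X adj near n)
    (hn : ∀ a o, c a o ≠ 0 → near a o) (W : Finset O) (hW : ∀ o ∈ W, ∀ o' ∈ W, Near X n o o')
    {κ : Type} (K : Finset κ) (t : κ → ℝ) (μ : O → ℝ) (ν : κ → O → ℝ) (t0 : ∀ i ∈ K, 0 ≤ t i)
    (t1 : ∑ i ∈ K, t i = 1) (hoff : ∀ i ∈ K, ∀ o, o ∉ W → ν i o = μ o)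
    (havg : ∀ o ∈ W, ∑ i ∈ K, t i * ν i o = μ o) (hb : ∀ i ∈ K, ∀ a, ∑ o, c a o * ν i o ≤ b a)
    (h : Safe adj fun a => b a - ∑ o, c a o * μ o) :
    ∃ i ∈ K, Safe adj fun a => b a - ∑ o, c a o * ν i o := by
  have havg' : ∀ o, ∑ i ∈ K, t i * ν i o = μ o := by
    intro o
    by_cases ho : o ∈ W
    · exact havg o ho
    · rw [sum_congr rfl fun i hi => by rw [hoff i hi o ho], ← sum_mul, t1, one_mul]
  obtain ⟨i, hi, -, hS⟩ := h.step hs (sel fun a => ∃ o ∈ W, near a o) (by
      intro a ha a' ha' hne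
      obtain ⟨o, ho, h1⟩ := mem_sel.1 ha
      obtain ⟨o', ho', h2⟩ := mem_sel.1 ha'
      exact hL a a' o o' h1 h2 (hW o ho o' ho') hne) K t
    (fun i a => b a - ∑ o, c a o * ν i o) t0 t1 (fun i hi a _ => sub_nonneg.2 (hb i hi a)) (by
      intro i hi a ha
      refine le_of_eq ?_
      congr 1
      refine sum_congr rfl fun o _ => ?_
      by_cases ho : o ∈ W
      · have : c a o = 0 := by
          by_contra hc
          exact ha (mem_sel.2 ⟨o, ho, hn a o hc⟩)
        rw [this, zero_mul, zero_mul]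
      · rw [hoff i hi o ho]) (by
      intro a _
      refine le_of_eq ?_
      simp_rw [mul_sub, mul_sum]
      rw [sum_sub_distrib, ← sum_mul, t1, one_mul, sum_comm]
      congr 1
      refine sum_congr rfl fun o _ => ?_
      rw [← havg' o, mul_sum]
      exact sum_congr rfl fun i _ => by ring)
  exact ⟨i, hi, hS⟩

/-- mean of two indicators -/
noncomputable def mu (A B : Finset O) (o : O) : ℝ :=
  ((if o ∈ A then 1 else 0) + (if o ∈ B then 1 else 0)) / 2

theorem mu_nonneg (A B : Finset O) (o : O) : 0 ≤ mu A B o := by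
  unfold mu; split_ifs <;> norm_num

theorem sum_mu (A B : Finset O) (f : O → ℝ) :
    ∑ o, f o * mu A B o = (∑ o ∈ A, f o + ∑ o ∈ B, f o) / 2 := by
  have h : ∀ o, f o * mu A B o =
      ((if o ∈ A then f o else 0) + (if o ∈ B then f o else 0)) / 2 := by
    intro o; unfold mu; split_ifs <;> ring
  simp_rw [h]
  rw [← sum_div, sum_add_distrib, sum_ite_mem, sum_ite_mem, univ_inter, univ_inter]

open Classical in
/-- survival probability -/
noncomputable def rr (L : ℕ) (U : Finset (Finset O)) (D : Finset O) (o : O) : ℝ :=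
  if o ∈ D then 0 else if ∃ W ∈ U, o ∈ W then 1 - 1 / (L : ℝ) else 1

theorem rr_le (L : ℕ) (U : Finset (Finset O)) (D : Finset O) (o : O) : rr L U D o ≤ 1 := by
  unfold rr
  have : (0 : ℝ) ≤ 1 / (L : ℝ) := by positivity
  split_ifs <;> linarith

theorem phase1 {X : SimpleGraph O} {adj : ι → ι → Prop} {near : ι → O → Prop} {n L : ℕ}
    {b : ι → ℝ} {c : ι → O → ℝ} (hL1 : 1 ≤ L) (hs : ∀ a a', adj a a' → adj a' a)
    (hL : Loc X adj near n) (hc : ∀ a o, 0 ≤ c a o) (hn : ∀ a o, c a o ≠ 0 → near a o)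
    (m : O → ℝ) (hm : ∀ o, 0 ≤ m o) (hb : ∀ a, ∑ o, c a o * m o ≤ b a) (U : Finset (Finset O)) :
    (∀ W ∈ U, ∀ W' ∈ U, W ≠ W' → Disjoint W W') →
    (∀ W ∈ U, W.card = L ∧ ∀ x ∈ W, ∀ y ∈ W, Near X n x y) → ∀ D : Finset O,
    (∀ W ∈ U, Disjoint D W) → Safe adj (fun a => b a - ∑ o, c a o * (m o * rr L U D o)) →
    ∃ D', D ⊆ D' ∧ (∀ W ∈ U, ∃ x ∈ W, x ∈ D') ∧
      Safe adj fun a => b a - ∑ o, c a o * (m o * rr L ∅ D' o) := by
  induction U using Finset.induction_on with
  | empty => exact fun _ _ D _ h => ⟨D, Subset.rfl, by simp, h⟩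
  | insert W U hWU ih =>
    intro hd hw D hD h
    have hLR : (0 : ℝ) < L := by exact_mod_cast hL1
    have hW := hw W (mem_insert_self _ _)
    have hdis : ∀ W' ∈ U, Disjoint W W' := fun W' hW' =>
      hd W (mem_insert_self _ _) W' (mem_insert_of_mem hW') fun e => hWU (e ▸ hW')
    have hin : ∀ o ∈ W, ∀ x, rr L U (insert x D) o = if o = x then 0 else 1 := by
      intro o ho x
      have h1 : o ∉ D := fun h' => disjoint_left.1 (hD W (mem_insert_self _ _)) h' ho
      have h2 : ¬ ∃ W' ∈ U, o ∈ W' := fun ⟨W', h3, h4⟩ => disjoint_left.1 (hdis W' h3) ho h4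
      unfold rr
      rw [if_neg h2]
      by_cases e : o = x
      · rw [if_pos (mem_insert.2 (Or.inl e)), if_pos e]
      · rw [if_neg fun h' => (mem_insert.1 h').elim e h1, if_neg e]
    obtain ⟨x, hx, hS⟩ := lin hs hL hn W hW.2 W (fun _ => 1 / (L : ℝ))
      (fun o => m o * rr L (insert W U) D o) (fun x o => m o * rr L U (insert x D) o)
      (fun _ _ => by positivity)
      (by rw [sum_const, hW.1, nsmul_eq_mul, mul_one_div_cancel hLR.ne']) (by
        intro x hx o ho
        have e : o ≠ x := fun e => ho (e ▸ hx)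
        have e1 : o ∈ insert x D ↔ o ∈ D := by simp [e]
        have e2 : (∃ W' ∈ insert W U, o ∈ W') ↔ ∃ W' ∈ U, o ∈ W' := by simp [ho]
        simp only [rr, e1, e2]) (by
        intro o ho
        have h1 : o ∉ D := fun h' => disjoint_left.1 (hD W (mem_insert_self _ _)) h' ho
        have e : rr L (insert W U) D o = 1 - 1 / (L : ℝ) := by
          unfold rr
          rw [if_neg h1, if_pos ⟨W, mem_insert_self _ _, ho⟩]
        have e3 : ∀ x, 1 / (L : ℝ) * (m o * rr L U (insert x D) o) =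
            1 / (L : ℝ) * m o - if o = x then 1 / (L : ℝ) * m o else 0 := by
          intro x; rw [hin o ho]; split_ifs <;> ring
        simp only [e, e3]
        rw [sum_sub_distrib, sum_const, hW.1, nsmul_eq_mul, sum_ite_eq, if_pos ho]
        field_simp) (by
        intro x _ a
        refine le_trans (sum_le_sum fun o _ => ?_) (hb a)
        exact mul_le_mul_of_nonneg_left (mul_le_of_le_one_right (hm o) (rr_le _ _ _ _)) (hc a o)) h
    obtain ⟨D', h1, h2, h3⟩ := ih
      (fun A hA B hB => hd A (mem_insert_of_mem hA) B (mem_insert_of_mem hB))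
      (fun A hA => hw A (mem_insert_of_mem hA)) (insert x D) (fun A hA => by
        rw [disjoint_insert_left]
        exact ⟨disjoint_left.1 (hdis A hA) hx, hD A (mem_insert_of_mem hA)⟩) hS
    refine ⟨D', (subset_insert _ _).trans h1, fun A hA => ?_, h3⟩
    rcases mem_insert.1 hA with rfl | hA
    · exact ⟨x, hx, h1 (mem_insert_self _ _)⟩
    · exact h2 A hA

theorem phase2 {X : SimpleGraph O} {adj : ι → ι → Prop} {near : ι → O → Prop} {n : ℕ}
    {b : ι → ℝ} {c : ι → O → ℝ} (hs : ∀ a a', adj a a' → adj a' a)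
    (hL : Loc X adj near n) (hn : ∀ a o, c a o ≠ 0 → near a o) (T : Finset O)
    (hb : ∀ I ⊆ T, Ind X I → ∀ a, ∑ o ∈ I, c a o ≤ b a)
    (hQ : ∀ r ∈ T, ∃ Q : Finset O, r ∈ Q ∧ (∀ o ∈ Q, ∀ o' ∈ Q, Near X n o o') ∧
      ∀ o ∈ Q, ∀ o' ∈ T, X.Adj o o' → o ∈ T → o' ∈ Q) (k : ℕ) :
    ∀ A B : Finset O, (A \ B).card + (B \ A).card ≤ k → A ⊆ T → B ⊆ T → Ind X A → Ind X B →
      Safe adj (fun a => b a - ∑ o, c a o * mu A B o) →
      ∃ I ⊆ T, Ind X I ∧ Safe adj fun a => b a - ∑ o ∈ I, c a o := by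
  have fin : ∀ A : Finset O, A ⊆ T → Ind X A → Safe adj (fun a => b a - ∑ o, c a o * mu A A o) →
      ∃ I ⊆ T, Ind X I ∧ Safe adj fun a => b a - ∑ o ∈ I, c a o := fun A hA hI h =>
    ⟨A, hA, hI, h.mono fun a => by rw [sum_mu]; linarith⟩
  have sw : ∀ Q : Finset O, (∀ o ∈ Q, ∀ o' ∈ T, X.Adj o o' → o ∈ T → o' ∈ Q) →
      ∀ A B : Finset O, A ⊆ T → B ⊆ T → Ind X A → Ind X B →
        (B \ Q ∪ A ∩ Q) ⊆ T ∧ Ind X (B \ Q ∪ A ∩ Q) := by
    intro Q hcl A B hA hB iA iB
    refine ⟨union_subset (sdiff_subset.trans hB) (inter_subset_left.trans hA), ?_⟩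
    intro x hx y hy hxy
    simp only [mem_union, mem_sdiff, mem_inter] at hx hy
    rcases hx with hx | hx <;> rcases hy with hy | hy
    · exact iB x hx.1 y hy.1 hxy
    · exact hx.2 (hcl y hy.2 x (hB hx.1) hxy.symm (hA hy.1))
    · exact hy.2 (hcl x hx.2 y (hB hy.1) hxy (hA hx.1))
    · exact iA x hx.1 y hy.1 hxy
  induction k with
  | zero =>
    intro A B hk hA _ iA _ h
    have h1 : A \ B = ∅ := card_eq_zero.1 (by omega)
    have h2 : B \ A = ∅ := card_eq_zero.1 (by omega)
    have e : A = B := Subset.antisymm (sdiff_eq_empty_iff_subset.1 h1)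
      (sdiff_eq_empty_iff_subset.1 h2)
    subst e
    exact fin A hA iA h
  | succ k ih =>
    intro A B hk hA hB iA iB h
    by_cases e : A = B
    · subst e; exact fin A hA iA h
    obtain ⟨r, hr⟩ : ∃ r, r ∈ A \ B ∨ r ∈ B \ A := by
      by_contra hcon
      push Not at hcon
      refine e (Subset.antisymm (fun x hx => ?_) fun x hx => ?_)
      · by_contra h'; exact (hcon x).1 (mem_sdiff.2 ⟨hx, h'⟩)
      · by_contra h'; exact (hcon x).2 (mem_sdiff.2 ⟨hx, h'⟩)
    obtain ⟨Q, hrQ, hdia, hcl⟩ := hQ r (hr.elim (fun h' => hA (mem_sdiff.1 h').1)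
      fun h' => hB (mem_sdiff.1 h').1)
    have s1 := sw Q hcl A B hA hB iA iB
    have s2 := sw Q hcl B A hB hA iB iA
    have hcard : ((A \ B) \ Q).card + ((B \ A) \ Q).card ≤ k := by
      have c1 : ((A \ B) \ Q).card ≤ (A \ B).card := card_le_card sdiff_subset
      have c2 : ((B \ A) \ Q).card ≤ (B \ A).card := card_le_card sdiff_subset
      rcases hr with hr | hr
      · have : ((A \ B) \ Q).card < (A \ B).card :=
          card_lt_card ⟨sdiff_subset, fun h' => (mem_sdiff.1 (h' hr)).2 hrQ⟩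
        omega
      · have : ((B \ A) \ Q).card < (B \ A).card :=
          card_lt_card ⟨sdiff_subset, fun h' => (mem_sdiff.1 (h' hr)).2 hrQ⟩
        omega
    obtain ⟨i, -, hS⟩ := lin hs hL hn Q hdia (univ : Finset Bool) (fun _ => 1 / 2) (mu A B)
      (fun i => if i then mu A (B \ Q ∪ A ∩ Q) else mu (A \ Q ∪ B ∩ Q) B)
      (fun _ _ => by norm_num) (by simp) (by
        intro i _ o ho
        cases i <;> simp [mu, ho]) (by
        intro o ho
        by_cases h1 : o ∈ A <;> by_cases h2 : o ∈ B <;> simp [mu, ho, h1, h2] <;> norm_num) (by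
        intro i _ a
        cases i
        · simp only [Bool.false_eq_true, if_false]
          rw [sum_mu]; linarith [hb _ s2.1 s2.2 a, hb _ hB iB a]
        · simp only [if_true]
          rw [sum_mu]; linarith [hb _ s1.1 s1.2 a, hb _ hA iA a]) h
    cases i
    · simp only [Bool.false_eq_true, if_false] at hS
      refine ih _ _ (le_trans (add_le_add (card_le_card ?_) (card_le_card ?_)) hcard) s2.1 hB s2.2
        iB hS
      · intro x hx
        simp only [mem_union, mem_sdiff, mem_inter] at hx ⊢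
        tauto
      · intro x hx
        simp only [mem_union, mem_sdiff, mem_inter] at hx ⊢
        tauto
    · simp only [if_true] at hS
      refine ih _ _ (le_trans (add_le_add (card_le_card ?_) (card_le_card ?_)) hcard) hA s1.1 iA
        s1.2 hS
      · intro x hx
        simp only [mem_union, mem_sdiff, mem_inter] at hx ⊢
        tauto
      · intro x hx
        simp only [mem_union, mem_sdiff, mem_inter] at hx ⊢
        tauto

/-- restriction to a vertex set -/
def res (X : SimpleGraph O) (T : Finset O) : SimpleGraph O where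
  Adj o o' := X.Adj o o' ∧ o ∈ T ∧ o' ∈ T
  symm := ⟨fun _ _ h => ⟨h.1.symm, h.2.2, h.2.1⟩⟩
  loopless := ⟨fun _ h => h.1.ne rfl⟩

/-- two different neighbours -/
def B2 (H : SimpleGraph O) (o : O) : Prop := ∃ x y, x ≠ y ∧ H.Adj o x ∧ H.Adj o y

/-- the graph on the vertices with two neighbours -/
def spine (H : SimpleGraph O) : SimpleGraph O where
  Adj o o' := H.Adj o o' ∧ B2 H o ∧ B2 H o'
  symm := ⟨fun _ _ h => ⟨h.1.symm, h.2.2, h.2.1⟩⟩
  loopless := ⟨fun _ h => h.1.ne rfl⟩

theorem inner (H : SimpleGraph O) {w v : O} (q : H.Walk w v) :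
    ∀ (u : O) (h : H.Adj u w), (SimpleGraph.Walk.cons h q).IsPath → w = v ∨
      (B2 H w ∧ ∃ z, H.Adj z v ∧ ∃ s : (spine H).Walk w z, ∀ x ∈ s.support, x ∈ q.support) := by
  induction q with
  | nil => exact fun _ _ _ => Or.inl rfl
  | @cons w w2 v h' q ih =>
    intro u h hp
    rw [SimpleGraph.Walk.cons_isPath_iff] at hp
    have hb : B2 H w := ⟨u, w2, fun e => hp.2 (by
      rw [SimpleGraph.Walk.support_cons, e]
      exact List.mem_cons_of_mem _ q.start_mem_support), h.symm, h'⟩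
    refine Or.inr ⟨hb, ?_⟩
    rcases ih w h' hp.1 with e | ⟨hb2, z, hz, s, hs⟩
    · exact ⟨w, e ▸ h', SimpleGraph.Walk.nil, by simp⟩
    · refine ⟨z, hz, SimpleGraph.Walk.cons ⟨h', hb, hb2⟩ s, fun x hx => ?_⟩
      rw [SimpleGraph.Walk.support_cons] at hx ⊢
      rcases List.mem_cons.1 hx with rfl | hx
      · exact List.mem_cons_self
      · exact List.mem_cons_of_mem _ (hs x hx)

theorem short (H : SimpleGraph O) (D : Finset O) (n : ℕ)
    (hD : ∀ u v (p : (spine H).Walk u v), (∀ x ∈ p.support, x ∉ D) → Near (spine H) n u v)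
    {u v : O} (p : H.Walk u v) (hp : ∀ x ∈ p.support, x ∉ D) : Near H (n + 2) u v := by
  have h1 := p.bypass_isPath
  have h2 : ∀ x ∈ p.bypass.support, x ∉ D := fun x hx => hp x (p.support_bypass_subset_support hx)
  generalize p.bypass = q at h1 h2
  cases q with
  | nil => exact Near.refl _ _ _
  | cons h q =>
    rcases inner H q u h h1 with e | ⟨-, z, hz, s, hs⟩
    · exact (Near.of_adj (e ▸ h)).mono (by omega)
    · have h3 := hD _ _ s fun x hx => h2 x (by
        rw [SimpleGraph.Walk.support_cons]; exact List.mem_cons_of_mem _ (hs x hx))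
      have hle : spine H ≤ H := fun _ _ h => h.1
      have h4 := near_le hle h3
      exact (((Near.of_adj h).trans h4).trans (Near.of_adj hz)).mono (by omega)

theorem deg1 {X : SimpleGraph O} (hE : E2 X) {M M' T : Finset O} (hM : Ind X M) (hM' : Ind X M')
    (hT : ∀ o ∈ T, o ∈ M ∨ o ∈ M') {o : O} (ho : o ∈ M) :
    (nb (spine (res X T)) o).card ≤ 2 := by
  refine le_trans (card_le_card fun o' ho' => ?_) (hE M M' hM hM' o ho)
  obtain ⟨⟨h1, -, h2⟩, -, x, y, hxy, hx, hy⟩ := mem_nb.1 ho'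
  have h3 : o' ∈ M' := (hT o' h2).resolve_left fun h => hM o ho o' h h1
  have h4 : ∀ z, (res X T).Adj o' z → z ∈ M := fun z hz =>
    (hT z hz.2.2).resolve_right fun h => hM' o' h3 z h hz.1
  refine mem_sel.2 ⟨h3, h1, ?_⟩
  by_cases e : x = o
  · exact ⟨y, h4 y hy, fun e' => hxy (e.trans e'.symm), hy.1⟩
  · exact ⟨x, h4 x hx, e, hx.1⟩

end Merge

open Merge in
theorem p_Merge (hCut : S_Cut) : S_Merge := by
  intro O ι _ _ _ _ X adj near L b c M M' hL1 hE hs hL hc hn hM hM' hb h
  have hdeg : ∀ o, (nb (spine (res X (M ∪ M'))) o).card ≤ 2 := by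
    intro o
    by_cases h1 : o ∈ M
    · exact deg1 hE hM hM' (fun _ h => mem_union.1 h) h1
    by_cases h2 : o ∈ M'
    · exact deg1 hE hM' hM (fun _ h => (mem_union.1 h).symm) h2
    have : nb (spine (res X (M ∪ M'))) o = ∅ := eq_empty_of_forall_notMem fun o' ho' =>
      (mem_union.1 (mem_nb.1 ho').1.2.1).elim h1 h2
    rw [this]; simp
  obtain ⟨Wn, hd, hw, hcut⟩ := hCut O _ hdeg L hL1
  have hle : spine (res X (M ∪ M')) ≤ X := fun _ _ h => h.1.1
  have hle' : res X (M ∪ M') ≤ X := fun _ _ h => h.1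
  obtain ⟨D, -, hD, hS⟩ := phase1 (b := b) hL1 hs hL hc hn (mu M M') (mu_nonneg M M') (fun a => by
      rw [sum_mu]
      linarith [hb M subset_union_left hM a, hb M' subset_union_right hM' a]) Wn hd
    (fun W hW => ⟨(hw W hW).1, fun x hx y hy =>
      (near_le hle ((hw W hW).2 x hx y hy)).mono (by omega)⟩) ∅ (fun _ _ => disjoint_empty_left _)
    (h.mono fun a => by
      have e : (1 - 1 / (L : ℝ)) / 2 * (∑ o ∈ M, c a o + ∑ o ∈ M', c a o) =
          ∑ o, c a o * (mu M M' o * (1 - 1 / (L : ℝ))) := by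
        simp_rw [← mul_assoc]
        rw [← sum_mul, sum_mu]; ring
      rw [e]
      refine sub_le_sub_left (sum_le_sum fun o _ => mul_le_mul_of_nonneg_left
        (mul_le_mul_of_nonneg_left ?_ (mu_nonneg _ _ _)) (hc a o)) _
      have : (0 : ℝ) ≤ 1 / (L : ℝ) := by positivity
      unfold rr
      rw [if_neg (notMem_empty o)]
      split_ifs <;> linarith)
  have hsh : ∀ u v (p : (res X (M ∪ M')).Walk u v), (∀ x ∈ p.support, x ∉ D) →
      Near X (3 * L + 2) u v := fun u v p hp =>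
    near_le hle' (short _ D (3 * L) (fun u v p hp => by
      obtain ⟨q, hq, -⟩ := hcut D hD u v p hp
      exact ⟨q, hq⟩) p hp)
  obtain ⟨I, hI, iI, hS'⟩ := phase2 (b := b) hs hL hn ((M ∪ M') \ D)
    (fun I hI => hb I (hI.trans sdiff_subset)) (by
      intro r hr
      refine ⟨sel fun o => ∃ p : (res X (M ∪ M')).Walk r o, ∀ x ∈ p.support, x ∉ D,
        mem_sel.2 ⟨SimpleGraph.Walk.nil, by simpa using (mem_sdiff.1 hr).2⟩, ?_, ?_⟩
      · intro o ho o' ho'
        obtain ⟨p, hp⟩ := mem_sel.1 ho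
        obtain ⟨q, hq⟩ := mem_sel.1 ho'
        refine hsh o o' (p.reverse.append q) fun x hx => ?_
        rcases (SimpleGraph.Walk.mem_support_append_iff _ _).1 hx with hx | hx
        · exact hp x (by simpa using hx)
        · exact hq x hx
      · intro o ho o' ho' hadj hoT
        obtain ⟨p, hp⟩ := mem_sel.1 ho
        refine mem_sel.2 ⟨p.concat ⟨hadj, (mem_sdiff.1 hoT).1, (mem_sdiff.1 ho').1⟩, fun x hx => ?_⟩
        rw [SimpleGraph.Walk.support_concat] at hx
        simp only [List.mem_append, List.mem_singleton] at hx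
        rcases hx with hx | rfl
        · exact hp x hx
        · exact (mem_sdiff.1 ho').2) _ (M \ D) (M' \ D) le_rfl
    (sdiff_subset_sdiff subset_union_left Subset.rfl)
    (sdiff_subset_sdiff subset_union_right Subset.rfl)
    (fun x hx y hy => hM x (mem_sdiff.1 hx).1 y (mem_sdiff.1 hy).1)
    (fun x hx y hy => hM' x (mem_sdiff.1 hx).1 y (mem_sdiff.1 hy).1)
    (hS.mono fun a => le_of_eq (by
      congr 1
      refine sum_congr rfl fun o _ => ?_
      congr 1
      by_cases ho : o ∈ D <;> simp [mu, rr, ho]))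
  exact ⟨I, hI.trans sdiff_subset, iI, hS'⟩

end Pool.Agent.P.MP_fb43a4_co.Asy
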