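import Mathlib
import Pool.Agent.P.MP_fb43a4_co.Asy.St

/-!
Asymptotic list colouring of claw-free graphs: the model, and the reduction to large degrees.
-/

namespace Pool.Agent.P.MP_fb43a4_co.Asy

open Finset

theorem p_Model (hHub : S_Hub) (hSmp : S_Smp) : S_Model := by
  intro ε δ hε hε1 hδ
  obtain ⟨δ', h0, h1, h2⟩ : ∃ δ' : ℝ, 0 < δ' ∧ δ' ≤ δ / 64 ∧ δ' ≤ ε / 64 :=
    ⟨min (δ / 64) (ε / 64), by positivity, min_le_left _ _, min_le_right _ _⟩
  obtain ⟨κ, m, k0, hκ, hκb, H⟩ := hSmp ε (δ' / 4) (δ' / 4 * δ' / 32) δ' (9 * δ' / 4) (δ / 4)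
    hε hε1 (by positivity) (by positivity) (by positivity) (by linarith) le_rfl (by linarith)
  refine ⟨κ, m, max k0 ⌈16 / δ'⌉₊, hκ, by linarith, ?_⟩
  intro k hk V _ _ G φ hcf hφ hdeg
  have hk1 : 16 ≤ δ' * k := by
    have : (16 / δ' : ℝ) ≤ k := (Nat.le_ceil _).trans (by exact_mod_cast le_of_max_le_right hk)
    rwa [div_le_iff₀ h0, mul_comm] at this
  have hk0 : (0 : ℝ) ≤ k := Nat.cast_nonneg k
  obtain ⟨V', i1, i2, G', Hub, φ', e, hA, hE, hd, hO⟩ := hHub V G k φ (δ' / 4 * k - 2)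
    (δ' / 4 * δ' / 32 * k) (δ' * k / 8) (δ' * k) hcf hφ (by linarith) (by nlinarith)
    (by positivity) (by nlinarith) (by nlinarith)
  obtain ⟨S, hS⟩ := H k (le_of_max_le_left hk) V' G' Hub φ' hA (fun v hv => by
    obtain ⟨v0, rfl⟩ := hE.sur v hv
    refine (hdeg v0).trans ?_
    rw [← card_image_of_injective _ hE.inj]
    refine Nat.cast_le.2 (card_le_card fun x hx => ?_)
    obtain ⟨y, hy, rfl⟩ := mem_image.1 hx
    exact mem_sdiff.2 ⟨mem_nb.2 ((hE.adj _ _).2 (mem_nb.1 hy)), hE.nm y⟩) hd (fun v hv => by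
    have := hO v hv
    rw [sub_add_cancel] at this
    linarith)
  refine ⟨V', i1, i2, G', Hub, S, φ', e, hE, hS.amb, hS.sub, hS.keyb, fun h hh => ?_⟩
  exact (hS.few h hh).trans (mul_le_mul_of_nonneg_right (by linarith) hk0)

namespace Main

theorem ind {x : ℝ} {k l : ℕ} (hx : x ≤ l)
    (H : ∀ (V : Type) [Fintype V] [DecidableEq V] (G : SimpleGraph V) (φ : V → ℕ), CF G →
      Prop' G k φ → (∀ v, x ≤ ((nb G v).card : ℝ)) → ∀ L : V → Finset ℕ, (∀ v, (L v).card = l) →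
      ∃ col : V → ℕ, (∀ v, col v ∈ L v) ∧ ∀ u v, G.Adj u v → col u ≠ col v) (n : ℕ) :
    ∀ (V : Type) [Fintype V] [DecidableEq V] (G : SimpleGraph V) (φ : V → ℕ),
      Fintype.card V = n → CF G → Prop' G k φ → ∀ L : V → Finset ℕ, (∀ v, (L v).card = l) →
      ∃ col : V → ℕ, (∀ v, col v ∈ L v) ∧ ∀ u v, G.Adj u v → col u ≠ col v := by
  induction n using Nat.strong_induction_on with
  | _ n ih =>
  intro V _ _ G φ hn hcf hφ L hL
  by_cases hdeg : ∀ v, x ≤ ((nb G v).card : ℝ)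
  · exact H V G φ hcf hφ hdeg L hL
  obtain ⟨v, hv⟩ := not_forall.1 hdeg
  have hv' : (nb G v).card < l := by exact_mod_cast (not_le.1 hv).trans_le hx
  obtain ⟨col, hc1, hc2⟩ := ih _ (hn ▸ Fintype.card_subtype_lt (p := fun u => u ≠ v) (x := v)
      (by simp)) {u // u ≠ v} (G.comap Subtype.val) (fun u => φ u.1) rfl
    (fun w a b c ha hb hc hab hac hbc => hcf w.1 a.1 b.1 c.1 ha hb hc
      (fun h => hab (Subtype.ext h)) (fun h => hac (Subtype.ext h)) fun h => hbc (Subtype.ext h))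
    ⟨fun u => hφ.1 u.1, fun u w h => hφ.2 u.1 w.1 h⟩ (fun u => L u.1) fun u => hL u.1
  set col' : V → ℕ := fun u => if h : u ≠ v then col ⟨u, h⟩ else 0 with hcol'
  obtain ⟨c, hcL, hc⟩ : ∃ c ∈ L v, c ∉ (nb G v).image col' :=
    exists_mem_notMem_of_card_lt_card (card_image_le.trans_lt (hL v ▸ hv'))
  refine ⟨fun u => if u = v then c else col' u, fun u => ?_, fun u w h => ?_⟩
  · by_cases hu : u = v
    · simp only [hu, if_true]
      exact hcL
    · simp only [hu, if_false, hcol', dif_pos (show u ≠ v from hu)]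
      exact hc1 ⟨u, hu⟩
  · by_cases hu : u = v
    · subst hu
      simp only [if_true, if_neg h.ne.symm]
      exact fun e => hc (mem_image.2 ⟨w, mem_nb.2 h, e.symm⟩)
    · by_cases hw : w = v
      · subst hw
        simp only [if_true, if_neg hu]
        exact fun e => hc (mem_image.2 ⟨u, mem_nb.2 h.symm, e⟩)
      · simp only [if_neg hu, if_neg hw, hcol', dif_pos (show u ≠ v from hu),
          dif_pos (show w ≠ v from hw)]
        exact hc2 ⟨u, hu⟩ ⟨w, hw⟩ h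

end Main

theorem p_Main (hCore : S_Core) : S_Main := by
  intro ε hε
  obtain ⟨k0, H⟩ := hCore (min ε 1) (by positivity) (min_le_right _ _)
  refine ⟨k0, ?_⟩
  intro V _ G hcf k hk hcol L hL
  classical
  obtain ⟨C⟩ := hcol
  have hsub : ∀ v, ∃ L' ⊆ L v, L'.card = ⌈(1 + min ε 1) * k⌉₊ := fun v =>
    exists_subset_card_eq (Nat.ceil_le.2 ((mul_le_mul_of_nonneg_right
      (by linarith [min_le_left ε 1]) (Nat.cast_nonneg k)).trans (hL v)))
  choose L' h1 h2 using hsub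
  obtain ⟨col, hc1, hc2⟩ := Main.ind (Nat.le_ceil _) (H k hk) _ V G (fun v => (C v).1) rfl hcf
    ⟨fun v => (C v).2, fun u v h e => C.valid h (Fin.ext e)⟩ L' h2
  exact ⟨col, fun v => h1 v (hc1 v), hc2⟩

end Pool.Agent.P.MP_fb43a4_co.Asy
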