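import Mathlib
import Pool.Agent.P.MP_fb43a4_co.Asy.St

/-!
Samples and cells (section 2).
-/

namespace Pool.Agent.P.MP_fb43a4_co.Asy

open Finset

set_option linter.unusedSectionVars false

namespace Smp

/-- double counting -/
lemma dc {α β : Type} (A : Finset α) (B : Finset β) (r : α → β → Prop) {m n : ℝ}
    (hm : ∀ a ∈ A, ∃ T ⊆ B, (∀ b ∈ T, r a b) ∧ m ≤ T.card)
    (hn : ∀ b ∈ B, ∀ T ⊆ A, (∀ a ∈ T, r a b) → (T.card : ℝ) ≤ n) :
    A.card * m ≤ B.card * n := by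
  classical
  have h := Finset.card_nsmul_le_card_nsmul (R := ℝ) (s := A) (t := B) r (m := m) (n := n)
    (fun a ha => by
      obtain ⟨T, h1, h2, h3⟩ := hm a ha
      refine h3.trans (Nat.cast_le.2 (card_le_card fun b hb => ?_))
      exact (mem_bipartiteAbove r).2 ⟨h1 hb, h2 b hb⟩)
    (fun b hb => hn b hb _ (fun a ha => ((mem_bipartiteBelow r).1 ha).1)
      fun a ha => ((mem_bipartiteBelow r).1 ha).2)
  simpa only [nsmul_eq_mul] using h

lemma le2 {α : Type} [DecidableEq α] {A B C : Finset α} (h : ∀ a ∈ A, a ∈ B ∨ a ∈ C) :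
    (A.card : ℝ) ≤ B.card + C.card := by
  have h1 : A ⊆ B ∪ C := fun a ha => mem_union.2 (h a ha)
  exact_mod_cast (card_le_card h1).trans (card_union_le _ _)

lemma le3 {α : Type} [DecidableEq α] {A B C D : Finset α}
    (h : ∀ a ∈ A, a ∈ B ∨ a ∈ C ∨ a ∈ D) : (A.card : ℝ) ≤ B.card + C.card + D.card := by
  have h1 := le2 (A := A) (B := B) (C := C ∪ D) fun a ha => (h a ha).imp_right mem_union.2
  have h2 := le2 (A := C ∪ D) (B := C) (C := D) fun a ha => mem_union.1 ha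
  linarith

/-- a maximal family of items with disjoint places -/
lemma family {ι V : Type} [Fintype ι] [Fintype V] (cov : ι → V → Prop) {l : ℝ} (hl : 0 < l) :
    ∃ J : Finset (ι × Finset V), (∀ j ∈ J, ∀ u ∈ j.2, cov j.1 u) ∧
      (∀ Z : Finset V, ∀ J' ⊆ J, (∀ j ∈ J', j.2 ⊆ Z) → J'.card * l ≤ Z.card) ∧
      ∀ g, ∀ T : Finset V, (∀ u ∈ T, cov g u ∧ ∀ j ∈ J, u ∉ j.2) → (T.card : ℝ) < l := by
  classical
  obtain ⟨J, hJ, hmax⟩ := exists_max_image (univ.filter fun J : Finset (ι × Finset V) =>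
    (∀ j ∈ J, l ≤ j.2.card ∧ ∀ u ∈ j.2, cov j.1 u) ∧
      ∀ j ∈ J, ∀ j' ∈ J, ∀ u ∈ j.2, u ∈ j'.2 → j = j') card ⟨∅, by simp⟩
  obtain ⟨h1, h2⟩ := (mem_filter.1 hJ).2
  refine ⟨J, fun j hj => (h1 j hj).2, fun Z J' hJ' hZ => ?_, fun g T hT => ?_⟩
  · have := dc J' Z (fun j u => u ∈ j.2) (m := l) (n := 1)
      (fun j hj => ⟨j.2, hZ j hj, fun _ h => h, (h1 j (hJ' hj)).1⟩)
      (fun u _ T hT h => by
        exact_mod_cast card_le_one.2 fun a ha b hb =>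
          h2 a (hJ' (hT ha)) b (hJ' (hT hb)) u (h a ha) (h b hb))
    rwa [mul_one] at this
  · by_contra hc
    rw [not_lt] at hc
    obtain ⟨u, hu⟩ : T.Nonempty := card_pos.1 (by exact_mod_cast hl.trans_le hc)
    have hn : (g, T) ∉ J := fun h => (hT u hu).2 _ h hu
    have := hmax (insert (g, T) J) (mem_filter.2 ⟨mem_univ _, fun j hj => ?_,
      fun j hj j' hj' u hu hu' => ?_⟩)
    · rw [card_insert_of_notMem hn] at this
      omega
    · rcases mem_insert.1 hj with rfl | hj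
      · exact ⟨hc, fun u hu => (hT u hu).1⟩
      · exact h1 j hj
    · rcases mem_insert.1 hj with rfl | hj <;> rcases mem_insert.1 hj' with rfl | hj'
      · rfl
      · exact absurd hu' ((hT u hu).2 _ hj')
      · exact absurd hu ((hT u hu').2 _ hj)
      · exact h2 j hj j' hj' u hu hu'

variable {V : Type} [Fintype V] [DecidableEq V]

/-- the neighbourhood of `w` is absorbed by the large codegree set of `v` -/
def Ab (G : SimpleGraph V) (x y : ℝ) (v w : V) : Prop := ((nb G w \ Ubig G y v).card : ℝ) < x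

/-- the item `g` covers `u` -/
def Cov (G : SimpleGraph V) (Hub : Finset V) (x y : ℝ) (g : V × V) (u : V) : Prop :=
  g.1 ≠ g.2 ∧ ¬ G.Adj g.1 g.2 ∧ G.Adj u g.1 ∧ G.Adj u g.2 ∧ (g.1 ∈ Hub ∨ Ab G x y u g.1) ∧
    (g.2 ∈ Hub ∨ Ab G x y u g.2)

/-- samples `S` and placed vertices `P` -/
structure Sam (G : SimpleGraph V) (Hub : Finset V) (x y l : ℝ) (S P : Finset V) : Prop where
  sub : Hub ⊆ S
  few : ∀ Z : Finset V, ∃ K : Finset V, K.card * l ≤ 2 * Z.card ∧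
    ∀ g ∈ S, g ∉ Hub → (∀ p, Ab G x y p g → p ∈ Z) → g ∈ K
  grd : ∀ w ∈ P, ∃ g ∈ key G S w, ∃ g' ∈ key G S w, g ≠ g' ∧ ¬ G.Adj g g'
  max : ∀ g, ∀ T : Finset V, (∀ u ∈ T, Cov G Hub x y g u ∧ u ∉ P) → (T.card : ℝ) < l

lemma exists_sam (G : SimpleGraph V) (Hub : Finset V) (x y : ℝ) {l : ℝ} (hl : 0 < l) :
    ∃ S P, Sam G Hub x y l S P := by
  obtain ⟨J, h1, h2, h3⟩ := family (Cov G Hub x y) hl
  refine ⟨Hub ∪ (J.image (·.1.1) ∪ J.image (·.1.2)), J.biUnion (·.2), subset_union_left,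
    fun Z => ?_, fun w hw => ?_, fun g T hT => h3 g T fun u hu => ⟨(hT u hu).1, fun j hj h =>
      (hT u hu).2 (mem_biUnion.2 ⟨j, hj, h⟩)⟩⟩
  · set J' := J.filter fun j => j.2 ⊆ Z with hJ'
    refine ⟨J'.image (·.1.1) ∪ J'.image (·.1.2), ?_, fun g hg hn hp => ?_⟩
    · have e1 := h2 Z J' (filter_subset _ _) fun j hj => (mem_filter.1 hj).2
      have e2 : ((J'.image (·.1.1) ∪ J'.image (·.1.2)).card : ℝ) ≤ J'.card + J'.card := by
        exact_mod_cast (card_union_le _ _).trans (add_le_add card_image_le card_image_le)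
      nlinarith
    · rcases mem_union.1 ((mem_union.1 hg).resolve_left hn) with h | h
      · obtain ⟨j, hj, rfl⟩ := mem_image.1 h
        exact mem_union_left _ (mem_image_of_mem _ (mem_filter.2 ⟨hj, fun p hp' =>
          hp p ((h1 j hj p hp').2.2.2.2.1.resolve_left hn)⟩))
      · obtain ⟨j, hj, rfl⟩ := mem_image.1 h
        exact mem_union_right _ (mem_image_of_mem _ (mem_filter.2 ⟨hj, fun p hp' =>
          hp p ((h1 j hj p hp').2.2.2.2.2.resolve_left hn)⟩))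
  · obtain ⟨j, hj, hw⟩ := mem_biUnion.1 hw
    obtain ⟨a1, a2, a3, a4, -⟩ := h1 j hj w hw
    exact ⟨j.1.1, mem_inter.2 ⟨mem_nb.2 a3,
      mem_union_right _ (mem_union_left _ (mem_image_of_mem _ hj))⟩, j.1.2,
      mem_inter.2 ⟨mem_nb.2 a4,
      mem_union_right _ (mem_union_right _ (mem_image_of_mem _ hj))⟩, a1, a2⟩

/-- the standing hypotheses -/
structure Hy (G : SimpleGraph V) (Hub : Finset V) (k : ℕ) (φ : V → ℕ) (ε θ θ' δ' δ1 : ℝ) :
    Prop where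
  amb : Amb G Hub k φ
  deg : ∀ v, (nb G v).card ≤ 2 * k
  two : ∀ v I, Ind G I → (nb G v ∩ I).card ≤ 2
  clq : ∀ K : Finset V, (∀ x ∈ K, x ∉ Hub) → (∀ x ∈ K, ∀ y ∈ K, x ≠ y → G.Adj x y) → K.card ≤ k
  k0 : (0 : ℝ) < k
  e0 : 0 < ε
  t0 : 0 < θ'
  te : θ ≤ ε / 8
  td : θ ≤ δ' / 4
  de : δ1 ≤ ε / 8
  d0 : 0 < δ'
  dk : 4 ≤ δ' * k
  low : ∀ v, v ∉ Hub → (1 + ε) * k ≤ ((nb G v \ Hub).card : ℝ)
  hub : ∀ σ ∈ Hub, δ' * k ≤ ((nb G σ).card : ℝ)
  out : ∀ v, v ∉ Hub → ((sel fun w => w ∉ Hub ∧ G.Adj v w ∧ ¬ Share G Hub v w ∧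
      θ * k ≤ ((nb G w \ Ubig G (θ' * k) v).card : ℝ)).card : ℝ) ≤ δ1 * k

/-- vertices whose large codegree set meets `Y` in many points -/
noncomputable def Rr (G : SimpleGraph V) (x y : ℝ) (Y : Finset V) : Finset V :=
  sel fun p => x ≤ ((Ubig G y p ∩ Y).card : ℝ)

/-- hubs that meet `Y` in many points -/
noncomputable def Hh (G : SimpleGraph V) (Hub : Finset V) (x : ℝ) (Y : Finset V) : Finset V :=
  sel fun σ => σ ∈ Hub ∧ x ≤ ((nb G σ ∩ Y).card : ℝ)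

namespace Hy

variable {G : SimpleGraph V} {Hub : Finset V} {k : ℕ} {φ : V → ℕ} {ε θ θ' δ' δ1 : ℝ}
  (H : Hy G Hub k φ ε θ θ' δ' δ1)
include H

lemma deg' (v : V) : ((nb G v).card : ℝ) ≤ 2 * k := by exact_mod_cast H.deg v

lemma two' (v : V) (T I : Finset V) (hI : Ind G I) (h : ∀ a ∈ T, G.Adj v a ∧ a ∈ I) :
    (T.card : ℝ) ≤ 2 := by
  have : T ⊆ nb G v ∩ I := fun a ha => mem_inter.2 ⟨mem_nb.2 (h a ha).1, (h a ha).2⟩
  exact_mod_cast (card_le_card this).trans (H.two v I hI)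

lemma cardU (v : V) : ((Ubig G (θ' * k) v).card : ℝ) ≤ 4 * k / θ' := by
  have h := dc (Ubig G (θ' * k) v) (nb G v) G.Adj (m := θ' * k) (n := 2 * k)
    (fun y hy => ⟨nb G y ∩ nb G v, inter_subset_right, fun b hb => mem_nb.1 (mem_inter.1 hb).1,
      (mem_sel.1 hy :)⟩)
    (fun z _ T _ h => (Nat.cast_le.2 (card_le_card fun a ha => mem_nb.2 (h a ha).symm)).trans
      (H.deg' z))
  have h2 := H.deg' v
  have k0 := H.k0
  rw [le_div_iff₀ H.t0]
  refine le_of_mul_le_mul_right ?_ k0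
  nlinarith

lemma cardR (Y : Finset V) :
    ((Rr G (ε * k / 2) (θ' * k) Y).card : ℝ) ≤ 8 * Y.card / (ε * θ') := by
  have h := dc (Rr G (ε * k / 2) (θ' * k) Y) Y (fun p y => y ∈ Ubig G (θ' * k) p)
    (m := ε * k / 2) (n := 4 * k / θ')
    (fun p hp => ⟨_, inter_subset_right, fun b hb => (mem_inter.1 hb).1, (mem_sel.1 hp :)⟩)
    (fun y _ T _ h => (Nat.cast_le.2 (card_le_card fun a ha => by
      have := mem_sel.1 (h a ha)
      rw [inter_comm] at this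
      exact mem_sel.2 this)).trans (H.cardU y))
  have k0 := H.k0
  have t0 := H.t0
  rw [le_div_iff₀ (mul_pos H.e0 t0)]
  rw [← mul_div_assoc _ _ θ', le_div_iff₀ t0] at h
  refine le_of_mul_le_mul_right ?_ k0
  linarith

lemma cardH (h : V) :
    ((Hh G Hub (δ' * k / 2) (Ubig G (θ' * k) h)).card : ℝ) ≤ 16 / (θ' * δ') := by
  have h1 := dc (Hh G Hub (δ' * k / 2) (Ubig G (θ' * k) h)) (Ubig G (θ' * k) h) G.Adj
    (m := δ' * k / 2) (n := 2)
    (fun σ hσ => ⟨_, inter_subset_right, fun b hb => mem_nb.1 (mem_inter.1 hb).1,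
      (mem_sel.1 hσ).2⟩)
    (fun y _ T hT h => H.two' y T Hub H.amb.ind fun a ha => ⟨(h a ha).symm, (mem_sel.1 (hT ha)).1⟩)
  have h2 := H.cardU h
  have k0 := H.k0
  have t0 := H.t0
  have d0 : 0 < δ' := H.d0
  rw [le_div_iff₀ t0] at h2
  rw [le_div_iff₀ (mul_pos t0 d0)]
  refine le_of_mul_le_mul_right ?_ k0
  nlinarith

lemma cod {v g : V} (hv : v ∉ Hub) (h : G.Adj v g) :
    ε * k ≤ ((nb G g ∩ nb G v).card : ℝ) := by
  set T := ((nb G v \ Hub) \ nb G g).erase g with hT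
  have hm : ∀ x ∈ T, x ≠ g ∧ G.Adj v x ∧ x ∉ Hub ∧ ¬ G.Adj g x := fun x hx => by
    simpa [hT, and_assoc] using hx
  have h1 : (insert v T).card ≤ k := by
    refine H.clq _ (fun x hx => ?_) fun x hx y hy hxy => ?_
    · rcases mem_insert.1 hx with rfl | hx
      exacts [hv, (hm x hx).2.2.1]
    · rcases mem_insert.1 hx with rfl | hx <;> rcases mem_insert.1 hy with rfl | hy
      · exact absurd rfl hxy
      · exact (hm y hy).2.1
      · exact (hm x hx).2.1.symm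
      · rcases H.amb.cf v g x y h (hm x hx).2.1 (hm y hy).2.1 (hm x hx).1.symm (hm y hy).1.symm
          hxy with h | h | h
        exacts [absurd h (hm x hx).2.2.2, absurd h (hm y hy).2.2.2, h]
  rw [card_insert_of_notMem fun h => (hm v h).2.1.ne rfl] at h1
  have h2 : (T.card : ℝ) + 1 ≤ k := by exact_mod_cast h1
  have h3 := le3 (A := nb G v \ Hub) (B := nb G g ∩ nb G v) (C := {g}) (D := T) fun a ha => by
    by_cases h1 : a ∈ nb G g
    · exact Or.inl (mem_inter.2 ⟨h1, (mem_sdiff.1 ha).1⟩)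
    · by_cases h2 : a = g
      · exact Or.inr (Or.inl (mem_singleton.2 h2))
      · exact Or.inr (Or.inr (mem_erase.2 ⟨h2, mem_sdiff.2 ⟨ha, h1⟩⟩))
  have h4 := H.low v hv
  rw [card_singleton, Nat.cast_one] at h3
  linarith

lemma memH {h w σ : V} (hσ : σ ∈ Hub) (hw : G.Adj w σ) (ha : Ab G (θ * k) (θ' * k) h w) :
    σ ∈ Hh G Hub (δ' * k / 2) (Ubig G (θ' * k) h) := by
  refine mem_sel.2 ⟨hσ, ?_⟩
  have h3 := le3 (A := nb G σ) (B := nb G σ ∩ Ubig G (θ' * k) h) (C := {w})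
    (D := nb G w \ Ubig G (θ' * k) h) fun a ha => by
      by_cases h1 : a ∈ Ubig G (θ' * k) h
      · exact Or.inl (mem_inter.2 ⟨ha, h1⟩)
      · by_cases h2 : a = w
        · exact Or.inr (Or.inl (mem_singleton.2 h2))
        · exact Or.inr (Or.inr (mem_sdiff.2 ⟨mem_nb.2
            (H.amb.cl σ hσ w a hw.symm (mem_nb.1 ha) (Ne.symm h2)), h1⟩))
  rw [card_singleton, Nat.cast_one] at h3
  have h4 := H.hub σ hσ
  have h5 := mul_le_mul_of_nonneg_right H.td H.k0.le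
  have h6 := H.dk
  unfold Ab at ha
  linarith

variable {l : ℝ} {S P : Finset V} (M : Sam G Hub (θ * k) (θ' * k) (l * k) S P)
include M

lemma keyb (hl : 0 < l) {v : V} (hv : v ∉ Hub) :
    ((key G S v).card : ℝ) ≤ 2 + 32 / (ε * θ' * l) := by
  obtain ⟨K, h1, h2⟩ := M.few (Rr G (ε * k / 2) (θ' * k) (nb G v))
  have h3 := le2 (A := key G S v) (B := nb G v ∩ Hub) (C := K) fun g hg => by
    obtain ⟨a1, a2⟩ := mem_inter.1 hg
    by_cases hn : g ∈ Hub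
    · exact Or.inl (mem_inter.2 ⟨a1, hn⟩)
    · refine Or.inr (h2 g a2 hn fun p hp => mem_sel.2 ?_)
      have b1 := H.cod hv (mem_nb.1 a1)
      have b2 := le2 (A := nb G g ∩ nb G v) (B := Ubig G (θ' * k) p ∩ nb G v)
        (C := nb G g \ Ubig G (θ' * k) p) fun a ha => by
          by_cases h1 : a ∈ Ubig G (θ' * k) p
          · exact Or.inl (mem_inter.2 ⟨h1, (mem_inter.1 ha).2⟩)
          · exact Or.inr (mem_sdiff.2 ⟨(mem_inter.1 ha).1, h1⟩)
      have b3 := mul_le_mul_of_nonneg_right H.te H.k0.le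
      have b4 := mul_pos H.e0 H.k0
      unfold Ab at hp
      linarith
  have h4 : ((nb G v ∩ Hub).card : ℝ) ≤ 2 := by exact_mod_cast H.two v Hub H.amb.ind
  have h5 := H.cardR (nb G v)
  have h6 := H.deg' v
  have k0 := H.k0
  have e0 := mul_pos H.e0 H.t0
  rw [le_div_iff₀ e0] at h5
  have h7 : (K.card : ℝ) ≤ 32 / (ε * θ' * l) := by
    rw [le_div_iff₀ (mul_pos e0 hl)]
    refine le_of_mul_le_mul_right ?_ k0
    nlinarith
  linarith

lemma placed (hl : 0 < l) {x : ℝ} (hx : 0 ≤ x) (h : V) (W : Finset V)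
    (hW : ∀ w ∈ W, Light G S x w ∧ Ab G (θ * k) (θ' * k) h w ∧ w ∈ P) :
    (W.card : ℝ) ≤ 2 ^ (⌈16 / (θ' * δ')⌉₊ + ⌈64 / (ε * θ' ^ 2 * l)⌉₊) * x := by
  obtain ⟨K, h1, h2⟩ := M.few (Rr G (ε * k / 2) (θ' * k) (Ubig G (θ' * k) h))
  have h5 := H.cardR (Ubig G (θ' * k) h)
  have h6 := H.cardU h
  have k0 := H.k0
  have t0 := H.t0
  have e0 := mul_pos H.e0 t0
  rw [le_div_iff₀ e0] at h5
  rw [le_div_iff₀ t0] at h6
  have h7 : (K.card : ℝ) ≤ 64 / (ε * θ' ^ 2 * l) := by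
    rw [le_div_iff₀ (mul_pos (mul_pos H.e0 (pow_pos t0 2)) hl)]
    refine le_of_mul_le_mul_right ?_ k0
    have a1 := mul_le_mul_of_nonneg_right h1 (mul_pos e0 t0).le
    have a2 := mul_le_mul_of_nonneg_right h5 t0.le
    nlinarith
  have h8 : (Hh G Hub (δ' * k / 2) (Ubig G (θ' * k) h) ∪ K).card ≤
      ⌈16 / (θ' * δ')⌉₊ + ⌈64 / (ε * θ' ^ 2 * l)⌉₊ :=
    (card_union_le _ _).trans (add_le_add
      (Nat.cast_le.1 ((H.cardH h).trans (Nat.le_ceil _))) (Nat.cast_le.1 (h7.trans (Nat.le_ceil _))))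
  have h9 := dc W (Hh G Hub (δ' * k / 2) (Ubig G (θ' * k) h) ∪ K).powerset
    (fun w T => key G S w = T) (m := 1) (n := x) (fun w hw => ⟨{key G S w}, ?_, by simp, by simp⟩)
    (fun T _ T' hT' hk => ?_)
  · rw [mul_one, card_powerset] at h9
    refine h9.trans (mul_le_mul_of_nonneg_right ?_ hx)
    exact_mod_cast Nat.pow_le_pow_right (by norm_num) h8
  · obtain ⟨⟨c1, -⟩, c2, -⟩ := hW w hw
    rw [singleton_subset_iff, mem_powerset]
    intro g hg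
    obtain ⟨a1, a2⟩ := mem_inter.1 hg
    by_cases hn : g ∈ Hub
    · exact mem_union_left _ (H.memH hn (mem_nb.1 a1) c2)
    · refine mem_union_right _ (h2 g a2 hn fun p hp => mem_sel.2 ?_)
      have b1 := H.cod (fun h => c1 (M.sub h)) (mem_nb.1 a1)
      have b2 := le3 (A := nb G g ∩ nb G w) (B := Ubig G (θ' * k) p ∩ Ubig G (θ' * k) h)
        (C := nb G g \ Ubig G (θ' * k) p) (D := nb G w \ Ubig G (θ' * k) h) fun a ha => by
          by_cases h1 : a ∈ Ubig G (θ' * k) p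
          · by_cases h2 : a ∈ Ubig G (θ' * k) h
            · exact Or.inl (mem_inter.2 ⟨h1, h2⟩)
            · exact Or.inr (Or.inr (mem_sdiff.2 ⟨(mem_inter.1 ha).2, h2⟩))
          · exact Or.inr (Or.inl (mem_sdiff.2 ⟨(mem_inter.1 ha).1, h1⟩))
      have b3 := mul_le_mul_of_nonneg_right H.te H.k0.le
      have b4 := mul_pos H.e0 H.k0
      unfold Ab at hp c2
      linarith
  · rcases T'.eq_empty_or_nonempty with rfl | ⟨w, hw⟩
    · simpa using hx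
    · obtain ⟨⟨c1, c2⟩, -, c3⟩ := hW w (hT' hw)
      have b1 : ((cell G S w).card : ℝ) < x := lt_of_not_ge fun h => c2 ⟨c1, M.grd w c3, h⟩
      refine le_trans (Nat.cast_le.2 (card_le_card fun u hu => mem_sel.2 ?_)) b1.le
      exact ⟨(hW u (hT' hu)).1.1, (hk u hu).trans (hk w hw).symm⟩

end Hy

/-- colour class of `z` inside `Y` -/
noncomputable def cls (Hub : Finset V) (φ : V → ℕ) (Y : Finset V) (z : V) : Finset V :=
  sel fun y => y ∈ Y ∧ y ∉ Hub ∧ φ y = φ z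

/-- candidate partners of `z` -/
noncomputable def cand (G : SimpleGraph V) (Hub : Finset V) (φ : V → ℕ) (x D : ℝ) (Y : Finset V)
    (z : V) : Finset V :=
  sel fun g => g ∈ Hh G Hub x Y ∨ (g ∈ cls Hub φ Y z ∧ ((cls Hub φ Y z).card : ℝ) ≤ D)

namespace Hy

variable {G : SimpleGraph V} {Hub : Finset V} {k : ℕ} {φ : V → ℕ} {ε θ θ' δ' δ1 : ℝ}
  (H : Hy G Hub k φ ε θ θ' δ' δ1)
include H

lemma cardC (h z : V) {D : ℝ} (hD : 0 ≤ D) :
    ((cand G Hub φ (δ' * k / 2) D (Ubig G (θ' * k) h) z).card : ℝ) ≤ 16 / (θ' * δ') + D := by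
  have h1 := H.cardH h
  by_cases hc : ((cls Hub φ (Ubig G (θ' * k) h) z).card : ℝ) ≤ D
  · have h2 := le2 (A := cand G Hub φ (δ' * k / 2) D (Ubig G (θ' * k) h) z)
      fun g hg => (mem_sel.1 hg).imp_right And.left
    linarith
  · have h2 : cand G Hub φ (δ' * k / 2) D (Ubig G (θ' * k) h) z ⊆
        Hh G Hub (δ' * k / 2) (Ubig G (θ' * k) h) :=
      fun g hg => (mem_sel.1 hg).resolve_right fun h => hc h.2
    have h3 : ((cand G Hub φ (δ' * k / 2) D (Ubig G (θ' * k) h) z).card : ℝ) ≤ _ :=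
      Nat.cast_le.2 (card_le_card h2)
    linarith

lemma one_hub {h w σ τ : V} (hh : h ∉ Hub) (hw : G.Adj h w) (hs : ¬ Share G Hub h w)
    (h1 : σ ∈ Hub) (h2 : τ ∈ Hub) (a1 : G.Adj w σ) (a2 : G.Adj w τ) : σ = τ := by
  by_contra hne
  rcases H.amb.cf w σ τ h a1 a2 hw.symm hne (fun e => hh (e ▸ h1)) (fun e => hh (e ▸ h2))
    with h | h | h
  · exact H.amb.ind σ h1 τ h2 h
  · exact hs ⟨σ, h1, h, a1.symm⟩
  · exact hs ⟨τ, h2, h, a2.symm⟩

lemma many {h w : V} (hh : h ∉ Hub) (hn : w ∉ Hub) (hw : G.Adj h w) (hs : ¬ Share G Hub h w)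
    (ha : Ab G (θ * k) (θ' * k) h w) : ∃ T ⊆ Ubig G (θ' * k) h,
      (∀ z ∈ T, ∃ g ∈ cand G Hub φ (δ' * k / 2) (32 / (θ' * ε)) (Ubig G (θ' * k) h) z,
        Cov G Hub (θ * k) (θ' * k) (g, z) w) ∧ ε * k / 2 ≤ T.card := by
  have a1 := H.low w hn
  have a2 := H.out w hn
  have a3 := mul_le_mul_of_nonneg_right H.te H.k0.le
  have a4 := mul_le_mul_of_nonneg_right H.de H.k0.le
  have a5 := mul_pos H.e0 H.k0
  set U := Ubig G (θ' * k) h with hU
  set O := sel fun z => z ∉ Hub ∧ G.Adj w z ∧ ¬ Share G Hub w z ∧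
    θ * k ≤ ((nb G z \ Ubig G (θ' * k) w).card : ℝ) with hO
  by_cases hσ : ∃ σ ∈ Hub, G.Adj w σ
  · obtain ⟨σ, s1, s2⟩ := hσ
    have b1 : ((nb G σ).card : ℝ) ≤ k := by
      exact_mod_cast H.clq _ (fun x hx h => H.amb.ind σ s1 x h (mem_nb.1 hx))
        fun x hx y hy => H.amb.cl σ s1 x y (mem_nb.1 hx) (mem_nb.1 hy)
    refine ⟨sel fun z => z ∈ U ∧ z ∉ Hub ∧ G.Adj w z ∧ ¬ G.Adj σ z ∧ Ab G (θ * k) (θ' * k) w z,
      fun z hz => (mem_sel.1 hz).1, fun z hz => ?_, ?_⟩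
    · obtain ⟨-, c2, c3, c4, c5⟩ := mem_sel.1 hz
      exact ⟨σ, mem_sel.2 (Or.inl (H.memH s1 s2 ha)), fun e => c2 (by rw [← show σ = z from e]; exact s1),
        c4, s2, c3, Or.inl s1, Or.inr c5⟩
    · have b2 := le2 (A := nb G w \ Hub) (B := nb G σ) (C := (nb G w \ Hub) \ nb G σ)
        fun a ha => (em _).imp_right fun h => mem_sdiff.2 ⟨ha, h⟩
      have b3 := le3 (A := (nb G w \ Hub) \ nb G σ) (B := sel fun z => z ∈ U ∧ z ∉ Hub ∧
        G.Adj w z ∧ ¬ G.Adj σ z ∧ Ab G (θ * k) (θ' * k) w z) (C := nb G w \ U) (D := O)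
        fun a ha => by
          obtain ⟨c1, c2⟩ := mem_sdiff.1 ha
          obtain ⟨c1, c3⟩ := mem_sdiff.1 c1
          by_cases h1 : a ∈ U
          · by_cases h2 : Ab G (θ * k) (θ' * k) w a
            · exact Or.inl (mem_sel.2 ⟨h1, c3, mem_nb.1 c1, fun h => c2 (mem_nb.2 h), h2⟩)
            · refine Or.inr (Or.inr (mem_sel.2 ⟨c3, mem_nb.1 c1, ?_, not_lt.1 h2⟩))
              rintro ⟨τ, d1, d2, d3⟩
              rw [← H.one_hub hh hw hs s1 d1 s2 d2.symm] at d3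
              exact c2 (mem_nb.2 d3)
          · exact Or.inr (Or.inl (mem_sdiff.2 ⟨c1, h1⟩))
      unfold Ab at ha
      linarith
  · set D := 32 / (θ' * ε) with hD
    set B := sel fun z => z ∉ Hub ∧ G.Adj w z ∧ D ≤ ((cls Hub φ U z).card : ℝ) with hB
    set Q := sel fun z => z ∈ U ∧ z ∉ Hub ∧ G.Adj w z ∧ ((cls Hub φ U z).card : ℝ) ≤ D ∧
      Ab G (θ * k) (θ' * k) w z with hQ
    have b1 : (B.card : ℝ) ≤ ε * k / 4 := by
      have c1 := dc B U (fun z y => φ y = φ z) (m := D) (n := 2)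
        (fun z hz => ⟨cls Hub φ U z, fun y hy => (mem_sel.1 hy).1, fun y hy => (mem_sel.1 hy).2.2,
          (mem_sel.1 hz).2.2⟩)
        (fun y _ T hT h => H.two' w T T (fun a ha b hb hab =>
          H.amb.prop a b (mem_sel.1 (hT ha)).1 (mem_sel.1 (hT hb)).1 hab
            ((h a ha).symm.trans (h b hb))) fun a ha => ⟨(mem_sel.1 (hT ha)).2.1, ha⟩)
      have c2 := H.cardU h
      have t0 := H.t0
      rw [le_div_iff₀ t0] at c2
      rw [hD, ← mul_div_assoc, div_le_iff₀ (mul_pos t0 H.e0)] at c1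
      have c3 := mul_le_mul_of_nonneg_right c2 H.e0.le
      nlinarith
    have b2 := le2 (A := nb G w \ Hub) (B := B) (C := (nb G w \ Hub) \ B)
      fun a ha => (em _).imp_right fun h => mem_sdiff.2 ⟨ha, h⟩
    have b3 := le3 (A := (nb G w \ Hub) \ B) (B := Q) (C := nb G w \ U) (D := O) fun a ha => by
      obtain ⟨c1, c2⟩ := mem_sdiff.1 ha
      obtain ⟨c1, c3⟩ := mem_sdiff.1 c1
      by_cases h1 : a ∈ U
      · by_cases h2 : Ab G (θ * k) (θ' * k) w a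
        · exact Or.inl (mem_sel.2 ⟨h1, c3, mem_nb.1 c1,
            le_of_not_ge fun h => c2 (mem_sel.2 ⟨c3, mem_nb.1 c1, h⟩), h2⟩)
        · refine Or.inr (Or.inr (mem_sel.2 ⟨c3, mem_nb.1 c1, ?_, not_lt.1 h2⟩))
          rintro ⟨τ, d1, d2, -⟩
          exact hσ ⟨τ, d1, d2.symm⟩
      · exact Or.inr (Or.inl (mem_sdiff.2 ⟨c1, h1⟩))
    set T := sel fun z => z ∈ Q ∧ ∃ g ∈ Q, g ≠ z ∧ φ g = φ z with hT
    have b4 := le2 (A := Q) (B := T) (C := Q \ T)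
      fun a ha => (em _).imp_right fun h => mem_sdiff.2 ⟨ha, h⟩
    have b5 : ((Q \ T).card : ℝ) ≤ k := by
      have : (Q \ T).card ≤ (range k).card := by
        refine card_le_card_of_injOn φ (fun a ha => ?_) fun a ha b hb hab => ?_
        · exact mem_coe.2 (mem_range.2 (H.amb.lt a (mem_sel.1 (mem_sdiff.1 ha).1).2.1))
        · by_contra hne
          exact (mem_sdiff.1 hb).2 (mem_sel.2 ⟨(mem_sdiff.1 hb).1, a, (mem_sdiff.1 ha).1, hne, hab⟩)
      rw [card_range] at this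
      exact_mod_cast this
    refine ⟨T, fun z hz => (mem_sel.1 (mem_sel.1 hz).1).1, fun z hz => ?_, ?_⟩
    · obtain ⟨c1, g, c2, c3, c4⟩ := mem_sel.1 hz
      obtain ⟨-, d2, d3, d4, d5⟩ := mem_sel.1 c1
      obtain ⟨e1, e2, e3, -, e5⟩ := mem_sel.1 c2
      exact ⟨g, mem_sel.2 (Or.inr ⟨mem_sel.2 ⟨e1, e2, c4⟩, d4⟩), c3,
        fun h => H.amb.prop g z e2 d2 h c4, e3, d3, Or.inr e5, Or.inr d5⟩
    · unfold Ab at ha
      linarith

lemma unplaced {l : ℝ} {S P : Finset V} (M : Sam G Hub (θ * k) (θ' * k) (l * k) S P)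
    (hl : 0 < l) {h : V} (hh : h ∉ Hub) (W : Finset V)
    (hW : ∀ w ∈ W, w ∉ Hub ∧ G.Adj h w ∧ ¬ Share G Hub h w ∧ Ab G (θ * k) (θ' * k) h w ∧ w ∉ P) :
    (W.card : ℝ) * (ε * θ') ≤ 8 * ((16 / (θ' * δ') + 32 / (θ' * ε)) * l) * k := by
  have k0 := H.k0
  have t0 := H.t0
  have e0 := H.e0
  have d0 : 0 < δ' := H.d0
  have h1 := dc W (Ubig G (θ' * k) h) (fun w z =>
    ∃ g ∈ cand G Hub φ (δ' * k / 2) (32 / (θ' * ε)) (Ubig G (θ' * k) h) z,
      Cov G Hub (θ * k) (θ' * k) (g, z) w) (m := ε * k / 2)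
    (n := (16 / (θ' * δ') + 32 / (θ' * ε)) * (l * k))
    (fun w hw => H.many hh (hW w hw).1 (hW w hw).2.1 (hW w hw).2.2.1 (hW w hw).2.2.2.1)
    (fun z _ T hT hc => by
      have h2 := dc T (cand G Hub φ (δ' * k / 2) (32 / (θ' * ε)) (Ubig G (θ' * k) h) z)
        (fun w g => Cov G Hub (θ * k) (θ' * k) (g, z) w) (m := 1) (n := l * k)
        (fun w hw => by
          obtain ⟨g, g1, g2⟩ := hc w hw
          exact ⟨{g}, singleton_subset_iff.2 g1, by simpa using g2, by simp⟩)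
        (fun g _ T' hT' h => (M.max (g, z) T' fun u hu =>
          ⟨h u hu, (hW u (hT (hT' hu))).2.2.2.2⟩).le)
      rw [mul_one] at h2
      exact h2.trans (mul_le_mul_of_nonneg_right (H.cardC h z (by positivity)) (by positivity)))
  have h3 := H.cardU h
  rw [le_div_iff₀ t0] at h3
  set c := 16 / (θ' * δ') + 32 / (θ' * ε) with hc
  have c0 : 0 < c := by positivity
  have h4 := mul_le_mul_of_nonneg_right h1 t0.le
  have h5 := mul_le_mul_of_nonneg_right h3 (show 0 ≤ c * (l * k) by positivity)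
  refine le_of_mul_le_mul_right ?_ k0
  nlinarith

end Hy

end Smp

open Smp in
theorem p_Smp (hDeg : S_Deg) : S_Smp := by
  intro ε θ θ' δ' δ1 b e0 _ t0 t0' b0 te td de
  have d0 : 0 < δ' := by linarith
  set c := 16 / (θ' * δ') + 32 / (θ' * ε) with hc
  have c0 : 0 < c := by positivity
  set l := b * (ε * θ') / (8 * c) with hl
  have l0 : 0 < l := by positivity
  set m2 := ⌈16 / (θ' * δ')⌉₊ + ⌈64 / (ε * θ' ^ 2 * l)⌉₊ with hm2
  refine ⟨b / 2 ^ m2, ⌈2 + 32 / (ε * θ' * l)⌉₊, ⌈4 / δ'⌉₊, by positivity,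
    div_le_self b0.le (one_le_pow₀ (by norm_num)), fun k hk V _ _ G Hub φ amb low hub out => ?_⟩
  have dk : 4 ≤ δ' * k := by
    have : 4 / δ' ≤ k := (Nat.le_ceil _).trans (Nat.cast_le.2 hk)
    rw [div_le_iff₀ d0] at this
    linarith
  have k0 : (0 : ℝ) < k := (mul_pos_iff_of_pos_left d0).1 (by linarith)
  obtain ⟨h1, h2, h3⟩ := hDeg V G Hub k φ amb
  have H : Hy G Hub k φ ε θ θ' δ' δ1 :=
    ⟨amb, h1, h2, h3, k0, e0, t0', te, td, de, d0, dk, low, hub, out⟩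
  obtain ⟨S, P, M⟩ := exists_sam G Hub (θ * k) (θ' * k) (mul_pos l0 k0)
  refine ⟨S, amb, M.sub, fun v hv => Nat.cast_le.1 ((H.keyb M l0 hv).trans (Nat.le_ceil _)),
    fun h hh => ?_⟩
  have a1 := out h hh
  have a2 := H.placed M l0 (x := b / 2 ^ m2 * k) (by positivity) h
    (sel fun w => Light G S (b / 2 ^ m2 * k) w ∧ Ab G (θ * k) (θ' * k) h w ∧ w ∈ P)
    fun w hw => (mem_sel.1 hw :)
  have a3 := H.unplaced M l0 hh
    (sel fun w => w ∉ Hub ∧ G.Adj h w ∧ ¬ Share G Hub h w ∧ Ab G (θ * k) (θ' * k) h w ∧ w ∉ P)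
    fun w hw => (mem_sel.1 hw :)
  have a4 := le3 (A := sel fun w => Light G S (b / 2 ^ m2 * k) w ∧ G.Adj h w ∧ ¬ Share G Hub h w)
    (B := sel fun w => w ∉ Hub ∧ G.Adj h w ∧ ¬ Share G Hub h w ∧
      θ * k ≤ ((nb G w \ Ubig G (θ' * k) h).card : ℝ))
    (C := sel fun w => Light G S (b / 2 ^ m2 * k) w ∧ Ab G (θ * k) (θ' * k) h w ∧ w ∈ P)
    (D := sel fun w => w ∉ Hub ∧ G.Adj h w ∧ ¬ Share G Hub h w ∧ Ab G (θ * k) (θ' * k) h w ∧
      w ∉ P) fun w hw => by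
      obtain ⟨c1, c2, c3⟩ := mem_sel.1 hw
      have c4 : w ∉ Hub := fun h => c1.1 (M.sub h)
      by_cases h1 : Ab G (θ * k) (θ' * k) h w
      · by_cases h2 : w ∈ P
        · exact Or.inr (Or.inl (mem_sel.2 ⟨c1, h1, h2⟩))
        · exact Or.inr (Or.inr (mem_sel.2 ⟨c4, c2, c3, h1, h2⟩))
      · exact Or.inl (mem_sel.2 ⟨c4, c2, c3, not_lt.1 h1⟩)
  have e1 : (2 : ℝ) ^ m2 * (b / 2 ^ m2 * k) = b * k := by field_simp
  have e2 : 8 * (c * l) * k = b * k * (ε * θ') := by rw [hl]; field_simp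
  rw [← hm2, e1] at a2
  rw [← hc, e2] at a3
  have a5 := le_of_mul_le_mul_right a3 (mul_pos e0 t0')
  linarith

end Pool.Agent.P.MP_fb43a4_co.Asy
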