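import Mathlib
import Pool.Agent.P.MP_fb43a4_co.Asy.St

/-!
Asymptotic list colouring of claw-free graphs: small shared lemmas.
-/

namespace Pool.Agent.P.MP_fb43a4_co.Asy

open Finset

set_option linter.unusedSectionVars false

section adm
variable {V : Type} [Fintype V] [DecidableEq V] {G : SimpleGraph V}

theorem Ind.mono {I J : Finset V} (h : Ind G I) (hJ : J ⊆ I) : Ind G J :=
  fun a ha b hb => h a (hJ ha) b (hJ hb)

theorem ind_empty : Ind G ∅ := fun a ha => absurd ha (notMem_empty a)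

theorem ind_single (v : V) : Ind G {v} := by
  intro a ha b hb
  rw [mem_singleton] at ha hb
  rw [ha, hb]
  exact G.irrefl

theorem Adm.ind {S : Finset V} (h : Adm G S) : Ind G S := by
  rcases h with ⟨v, rfl⟩ | ⟨x, hx, _, i, rfl⟩ | h
  · exact ind_single v
  · intro a ha b hb
    simp only [mem_insert, mem_singleton] at ha hb
    rcases ha with rfl | rfl <;> rcases hb with rfl | rfl <;> rw [hx] <;> simp
  · exact h.2.1

theorem Adm.nonempty {S : Finset V} (h : Adm G S) : S.Nonempty := by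
  rcases h with ⟨v, rfl⟩ | ⟨x, _, _, i, rfl⟩ | h
  · exact singleton_nonempty v
  · exact insert_nonempty _ _
  · exact h.1

theorem Adm.reach {S : Finset V} (h : Adm G S) : ∀ a ∈ S, ∀ b ∈ S, G.Reachable a b := by
  rcases h with ⟨v, rfl⟩ | ⟨x, hx, _, i, rfl⟩ | h
  · intro a ha b hb
    rw [mem_singleton] at ha hb
    rw [ha, hb]
  · intro a ha b hb
    obtain ⟨j, hj⟩ : ∃ j : Fin 4, j ≠ i := exists_ne i
    have h1 : ∀ t, G.Reachable (x j false) (x i t) := fun t => ((hx _ _ _ _).2 hj).reachable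
    simp only [mem_insert, mem_singleton] at ha hb
    rcases ha with rfl | rfl <;> rcases hb with rfl | rfl <;> exact (h1 _).symm.trans (h1 _)
  · exact h.2.2.1

theorem adm_single (v : V) : Adm G {v} := Or.inl ⟨v, rfl⟩

theorem conf_adj {A : Finset (Finset V)} {S T : Finset V} :
    (conf G A).Adj S T ↔ S ≠ T ∧ S ∈ A ∧ T ∈ A ∧ ∃ u ∈ S, ∃ v ∈ T, G.Adj u v := Iff.rfl

theorem marg_nonneg {μ : Finset V → ℝ} (h : ∀ I, 0 ≤ μ I) (o : V) : 0 ≤ marg μ o :=
  Finset.sum_nonneg fun I _ => by split_ifs; exacts [h I, le_rfl]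

/-- expectation of a linear function -/
theorem sum_marg (μ : Finset V → ℝ) (A : Finset V) (c : V → ℝ) :
    ∑ o ∈ A, c o * marg μ o = ∑ I : Finset V, μ I * ∑ o ∈ A ∩ I, c o := by
  simp only [marg, Finset.mul_sum]
  rw [Finset.sum_comm]
  refine Finset.sum_congr rfl fun I _ => ?_
  rw [← Finset.filter_mem_eq_inter, Finset.sum_filter]
  refine Finset.sum_congr rfl fun o _ => ?_
  split_ifs <;> ring

theorem Law.mono {X : SimpleGraph V} {A : Finset V} {y z : V → ℝ} (h : Law X A y)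
    (hz : ∀ o ∈ A, z o ≤ y o) : Law X A z := by
  obtain ⟨μ, h1, h2⟩ := h
  exact ⟨μ, h1, fun o ho => (hz o ho).trans (h2 o ho)⟩

theorem Near.zero {u v : V} (h : Near G 0 u v) : u = v := by
  obtain ⟨p, hp⟩ := h
  exact p.eq_of_length_eq_zero (Nat.le_zero.1 hp)

theorem Near.reach {n : ℕ} {u v : V} (h : Near G n u v) : G.Reachable u v := by
  obtain ⟨p, _⟩ := h
  exact ⟨p⟩

theorem Near.succ_iff {n : ℕ} {u v : V} :
    Near G (n + 1) u v ↔ u = v ∨ ∃ x, G.Adj u x ∧ Near G n x v := by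
  constructor
  · rintro ⟨p, hp⟩
    cases p with
    | nil => exact Or.inl rfl
    | cons h q => exact Or.inr ⟨_, h, q, by simpa using hp⟩
  · rintro (rfl | ⟨x, hx, h⟩)
    · exact Near.refl _ _ _
    · exact ((Near.of_adj hx).trans h).mono (by omega)

end adm

section psi
variable {V : Type} [Fintype V] [DecidableEq V]

theorem Psi_nonneg (U : Finset V) (γ : V → ℕ) (b : ℝ) (g : V → ℝ) : 0 ≤ Psi U γ b g :=
  Finset.sum_nonneg fun _ _ => sq_nonneg _

theorem Psi_congr {U : Finset V} (γ : V → ℕ) (b : ℝ) {g g' : V → ℝ} (h : ∀ u ∈ U, g u = g' u) :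
    Psi U γ b g = Psi U γ b g' := by
  refine Finset.sum_congr rfl fun t _ => ?_
  rw [Finset.sum_congr rfl fun u hu => h u (mem_filter.1 hu).1]

theorem Psi_mono {U : Finset V} (γ : V → ℕ) (b : ℝ) {g g' : V → ℝ} (h : ∀ u ∈ U, g u ≤ g' u) :
    Psi U γ b g ≤ Psi U γ b g' := by
  refine Finset.sum_le_sum fun t _ => ?_
  refine pow_le_pow_left₀ (le_max_right _ _) (max_le_max_right _ ?_) 2
  exact sub_le_sub_right (Finset.sum_le_sum fun u hu => h u (mem_filter.1 hu).1) _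

/-- if every load is at most `c` and `w c ≤ b` then all excesses vanish -/
theorem Psi_eq_zero {U : Finset V} {γ : V → ℕ} {w : ℕ} {b c : ℝ} {g : V → ℝ} (hf : Fib U γ w)
    (hc : 0 ≤ c) (hb : w * c ≤ b) (hg : ∀ u ∈ U, g u ≤ c) : Psi U γ b g = 0 := by
  refine Finset.sum_eq_zero fun t _ => ?_
  have h1 : ∑ u ∈ U.filter fun u => γ u = t, g u ≤ ((U.filter fun u => γ u = t).card : ℝ) * c := by
    have := Finset.sum_le_card_nsmul (U.filter fun u => γ u = t) g c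
      fun u hu => hg u (mem_filter.1 hu).1
    simpa using this
  have h2 : ((U.filter fun u => γ u = t).card : ℝ) * c ≤ w * c :=
    mul_le_mul_of_nonneg_right (by exact_mod_cast hf t) hc
  rw [max_eq_right (by linarith)]
  simp

@[simp] theorem Psi_empty (γ : V → ℕ) (b : ℝ) (g : V → ℝ) : Psi ∅ γ b g = 0 := by simp [Psi]

theorem Fib.mono {U U' : Finset V} {γ : V → ℕ} {w : ℕ} (h : Fib U γ w) (hU : U' ⊆ U) :
    Fib U' γ w := fun t => (card_le_card (filter_subset_filter _ hU)).trans (h t)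

end psi

section bat
variable {V : Type} [Fintype V] [DecidableEq V] {W s k R : ℕ} {y : ℝ} {b : Bat V W s}
  {G : SimpleGraph V}

theorem Bat.Ok.ne (h : b.Ok G k R y) {B : b.B} {i : Fin W} {a a' : Fin s} (ha : a ∈ b.cols B)
    (ha' : a' ∈ b.cols B) (hne : a ≠ a') : b.x B i a ≠ b.x B i a' :=
  fun e => hne (h.inj B i a ha B i a' ha' e).2.2

/-- adjacency of an earlier row to a later row -/
theorem Bat.Ok.adj_lt (h : b.Ok G k R y) {B : b.B} {i j : Fin W} (hij : i < j) {a a' : Fin s}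
    (ha : a ∈ b.cols B) (ha' : a' ∈ b.cols B) :
    G.Adj (b.x B i a) (b.x B j a') ↔ a = a' ∨ b.sig B a a' := by
  rw [h.pat B i j hij a ha a' ha']
  constructor
  · intro hr
    by_cases e : a = a'
    · exact Or.inl e
    · exact Or.inr ⟨ha, ha', e, hr⟩
  · rintro (rfl | hs)
    · exact h.diag B a ha
    · exact hs.2.2.2

theorem Bat.Ok.sig_fun (h : b.Ok G k R y) (hG : CF G) (hW : 2 ≤ W) {B : b.B} {a a1 a2 : Fin s}
    (h1 : b.sig B a a1) (h2 : b.sig B a a2) : a1 = a2 := by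
  by_contra hne
  have hij : (⟨0, by omega⟩ : Fin W) < ⟨1, by omega⟩ := by simp [Fin.lt_def]
  have e0 := (h.adj_lt hij h1.1 h1.1).2 (Or.inl rfl)
  have e1 := (h.adj_lt hij h1.1 h1.2.1).2 (Or.inr h1)
  have e2 := (h.adj_lt hij h2.1 h2.2.1).2 (Or.inr h2)
  rcases hG _ _ _ _ e0 e1 e2 (h.ne h1.1 h1.2.1 h1.2.2.1) (h.ne h1.1 h2.2.1 h2.2.2.1)
    (h.ne h1.2.1 h2.2.1 hne) with e | e | e
  · exact h.row B _ _ h1.1 _ h1.2.1 e
  · exact h.row B _ _ h1.1 _ h2.2.1 e
  · exact h.row B _ _ h1.2.1 _ h2.2.1 e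

theorem Bat.Ok.sig_inj (h : b.Ok G k R y) (hG : CF G) (hW : 2 ≤ W) {B : b.B} {a a1 a2 : Fin s}
    (h1 : b.sig B a1 a) (h2 : b.sig B a2 a) : a1 = a2 := by
  by_contra hne
  have hij : (⟨0, by omega⟩ : Fin W) < ⟨1, by omega⟩ := by simp [Fin.lt_def]
  have e0 := ((h.adj_lt hij h1.2.1 h1.2.1).2 (Or.inl rfl)).symm
  have e1 := ((h.adj_lt hij h1.1 h1.2.1).2 (Or.inr h1)).symm
  have e2 := ((h.adj_lt hij h2.1 h2.2.1).2 (Or.inr h2)).symm
  rcases hG _ _ _ _ e0 e1 e2 (h.ne h1.2.1 h1.1 h1.2.2.1.symm) (h.ne h1.2.1 h2.1 h2.2.2.1.symm)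
    (h.ne h1.1 h2.1 hne) with e | e | e
  · exact h.row B _ _ h1.2.1 _ h1.1 e
  · exact h.row B _ _ h1.2.1 _ h2.1 e
  · exact h.row B _ _ h1.1 _ h2.1 e

theorem Bat.mem_scc {B : b.B} {a a' : Fin s} : a' ∈ b.scc B a ↔
    Relation.ReflTransGen (b.sig B) a a' ∧ Relation.ReflTransGen (b.sig B) a' a := by
  simp [Bat.scc]

theorem Bat.self_mem_scc (B : b.B) (a : Fin s) : a ∈ b.scc B a :=
  Bat.mem_scc.2 ⟨Relation.ReflTransGen.refl, Relation.ReflTransGen.refl⟩

theorem Bat.rtg_cols {B : b.B} {a a' : Fin s} (ha : a ∈ b.cols B)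
    (h : Relation.ReflTransGen (b.sig B) a a') : a' ∈ b.cols B := by
  induction h with
  | refl => exact ha
  | tail _ h2 _ => exact h2.2.1

theorem Bat.scc_sub {B : b.B} {a : Fin s} (ha : a ∈ b.cols B) : b.scc B a ⊆ b.cols B :=
  fun _ h => Bat.rtg_cols ha (Bat.mem_scc.1 h).1

theorem Bat.scc_eq {B : b.B} {a a' : Fin s} (h : a' ∈ b.scc B a) : b.scc B a' = b.scc B a := by
  obtain ⟨h1, h2⟩ := Bat.mem_scc.1 h
  ext c
  simp only [Bat.mem_scc]
  exact ⟨fun ⟨p, q⟩ => ⟨h1.trans p, q.trans h2⟩,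
    fun ⟨p, q⟩ => ⟨h2.trans p, q.trans h1⟩⟩

theorem Bat.mem_clus {B : b.B} {i : Fin W} {a : Fin s} {u : V} :
    u ∈ b.clus B i a ↔ ∃ a' ∈ b.scc B a, b.x B i a' = u := by
  simp [Bat.clus]

theorem Bat.self_mem_clus (B : b.B) (i : Fin W) (a : Fin s) : b.x B i a ∈ b.clus B i a :=
  Bat.mem_clus.2 ⟨a, Bat.self_mem_scc B a, rfl⟩

theorem Bat.clus_eq {B : b.B} (i : Fin W) {a a' : Fin s} (h : a' ∈ b.scc B a) :
    b.clus B i a' = b.clus B i a := by
  rw [Bat.clus, Bat.clus, Bat.scc_eq h]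

theorem Bat.clus_card (B : b.B) (i : Fin W) (a : Fin s) : (b.clus B i a).card ≤ s :=
  card_image_le.trans ((card_le_univ _).trans (by simp))

theorem Bat.mem_reg {v u : V} :
    u ∈ b.reg v ↔ ∃ B i, ∃ a ∈ b.cols B, b.bin B = v ∧ b.x B i a = u := by simp [Bat.reg]

theorem Bat.mem_kept {u : V} : u ∈ b.kept ↔ ∃ B i, ∃ a ∈ b.cols B, b.x B i a = u := by
  simp [Bat.kept]

theorem Bat.reg_sub_kept (v : V) : b.reg v ⊆ b.kept := by
  intro u hu
  obtain ⟨B, i, a, ha, _, e⟩ := Bat.mem_reg.1 hu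
  exact Bat.mem_kept.2 ⟨B, i, a, ha, e⟩

theorem Bat.clus_sub_reg {B : b.B} (i : Fin W) {a : Fin s} (ha : a ∈ b.cols B) :
    b.clus B i a ⊆ b.reg (b.bin B) := by
  intro u hu
  obtain ⟨a', ha', e⟩ := Bat.mem_clus.1 hu
  exact Bat.mem_reg.2 ⟨B, i, a', Bat.scc_sub ha ha', rfl, e⟩

theorem Bat.reg_card (v : V) : (b.reg v).card ≤ s * b.num v := by
  classical
  have : b.reg v ⊆ (((sel fun B => b.bin B = v) ×ˢ (univ : Finset (Fin W))) ×ˢ
      (univ : Finset (Fin s))).image fun p => b.x p.1.1 p.1.2 p.2 := by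
    intro u hu
    obtain ⟨B, i, a, _, e1, e2⟩ := Bat.mem_reg.1 hu
    exact mem_image.2 ⟨((B, i), a), by simp [e1], e2⟩
  refine (card_le_card this).trans (card_image_le.trans ?_)
  simp only [card_product, card_univ, Fintype.card_fin, Bat.num]
  exact le_of_eq (by ring)

end bat

section amb
variable {V : Type} [Fintype V] [DecidableEq V] {G : SimpleGraph V} {Hub : Finset V} {k : ℕ}
  {φ : V → ℕ}

/-- a vertex has at most two neighbours in an independent set -/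
theorem CF.two (h : CF G) (v : V) {I : Finset V} (hI : Ind G I) : (nb G v ∩ I).card ≤ 2 := by
  by_contra hc
  obtain ⟨a, b, c, ha, hb, hc', hab, hac, hbc⟩ := Finset.two_lt_card_iff.1 (not_le.1 hc)
  simp only [mem_inter, mem_nb] at ha hb hc'
  rcases h v a b c ha.1 hb.1 hc'.1 hab hac hbc with e | e | e
  · exact hI _ ha.2 _ hb.2 e
  · exact hI _ ha.2 _ hc'.2 e
  · exact hI _ hb.2 _ hc'.2 e

theorem Amb.nb_hub (h : Amb G Hub k φ) {σ v : V} (hσ : σ ∈ Hub) (hv : G.Adj σ v) : v ∉ Hub :=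
  fun e => h.ind σ hσ v e hv

end amb

end Pool.Agent.P.MP_fb43a4_co.Asy
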