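import Mathlib
import Pool.Agent.P.MP_fb43a4_co.Asy.Basic

/-!
Asymptotic list colouring of claw-free graphs: lemmas for the system of tests.
-/

namespace Pool.Agent.P.MP_fb43a4_co.Asy

open Finset

set_option linter.unusedSectionVars false

namespace SysP
variable {V : Type} [Fintype V] [DecidableEq V] {G : SimpleGraph V} {Hub S : Finset V} {k m : ℕ}
  {φ : V → ℕ} {x D : ℝ}

theorem two_hub (hM : Model G Hub S k φ x D m) (hx : 0 ≤ x) {u u' : V} (hu : u ∈ Hub)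
    (hu' : u' ∈ Hub) (hne : u ≠ u') :
    ((sel fun w => Light G S x w ∧ G.Adj u w ∧ G.Adj u' w).card : ℝ) ≤ x := by
  rcases (sel fun w => Light G S x w ∧ G.Adj u w ∧ G.Adj u' w).eq_empty_or_nonempty with h | h
  · rw [h]; simpa using hx
  obtain ⟨w0, hw0⟩ := h
  rw [mem_sel] at hw0
  have hnadj : ¬ G.Adj u u' := hM.amb.ind u hu u' hu'
  have hk : ∀ w w', (Light G S x w ∧ G.Adj u w ∧ G.Adj u' w) →
      (Light G S x w' ∧ G.Adj u w' ∧ G.Adj u' w') → key G S w ⊆ key G S w' := by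
    intro w w' hw hw' z hz
    simp only [key, mem_inter, mem_nb] at hz ⊢
    refine ⟨?_, hz.2⟩
    have hzw : w' ≠ z := fun e => hw'.1.1 (e ▸ hz.2)
    by_cases e1 : z = u
    · rw [e1]; exact hw'.2.1.symm
    by_cases e2 : z = u'
    · rw [e2]; exact hw'.2.2.symm
    rcases hM.amb.cf w u u' z hw.2.1.symm hw.2.2.symm hz.1 hne (Ne.symm e1) (Ne.symm e2) with
      e | e | e
    · exact absurd e hnadj
    · exact hM.amb.cl u hu w' z hw'.2.1 e hzw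
    · exact hM.amb.cl u' hu' w' z hw'.2.2 e hzw
  have hsub : (sel fun w => Light G S x w ∧ G.Adj u w ∧ G.Adj u' w) ⊆ cell G S w0 := by
    intro w hw
    rw [mem_sel] at hw
    simp only [cell, mem_sel]
    exact ⟨hw.1.1, Subset.antisymm (hk _ _ hw hw0) (hk _ _ hw0 hw)⟩
  have hlt : ((cell G S w0).card : ℝ) < x := by
    by_contra hc
    refine hw0.1.2 ⟨hw0.1.1, ⟨u, ?_, u', ?_, hne, hnadj⟩, not_lt.1 hc⟩
    · simp only [key, mem_inter, mem_nb]; exact ⟨hw0.2.1.symm, hM.sub hu⟩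
    · simp only [key, mem_inter, mem_nb]; exact ⟨hw0.2.2.symm, hM.sub hu'⟩
  exact (Nat.cast_le.2 (card_le_card hsub)).trans hlt.le

/-- a set covered by an exceptional set and one set for each hub of `h` -/
theorem cover (hA : Amb G Hub k φ) (h : V) (Z E : Finset V) (F : V → Finset V) (d y : ℝ)
    (hy : 0 ≤ y) (hE : (E.card : ℝ) ≤ d) (hF : ∀ u ∈ Hub, G.Adj u h → ((F u).card : ℝ) ≤ y)
    (hZ : ∀ w ∈ Z, w ∈ E ∨ ∃ u ∈ Hub, G.Adj u h ∧ w ∈ F u) : (Z.card : ℝ) ≤ d + 2 * y := by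
  have hsub : Z ⊆ E ∪ (nb G h ∩ Hub).biUnion F := by
    intro w hw
    rcases hZ w hw with e | ⟨u, hu, h1, h2⟩
    · exact mem_union_left _ e
    · exact mem_union_right _ (mem_biUnion.2 ⟨u, by simp [hu, h1.symm], h2⟩)
  have h1 : Z.card ≤ E.card + ∑ u ∈ nb G h ∩ Hub, (F u).card :=
    (card_le_card hsub).trans ((card_union_le _ _).trans
      (Nat.add_le_add_left card_biUnion_le _))
  have h2 : ∑ u ∈ nb G h ∩ Hub, ((F u).card : ℝ) ≤ ((nb G h ∩ Hub).card : ℝ) * y := by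
    have := Finset.sum_le_card_nsmul (nb G h ∩ Hub) (fun u => ((F u).card : ℝ)) y
      fun u hu => hF u (mem_inter.1 hu).2 (mem_nb.1 (mem_inter.1 hu).1).symm
    simpa using this
  have h3 : ((nb G h ∩ Hub).card : ℝ) ≤ 2 := by exact_mod_cast hA.cf.two h hA.ind
  have h4 : (Z.card : ℝ) ≤ E.card + ∑ u ∈ nb G h ∩ Hub, ((F u).card : ℝ) := by exact_mod_cast h1
  nlinarith

theorem m4 (hM : Model G Hub S k φ x D m) (hx : 0 ≤ x) {u h : V} (hu : u ∈ Hub) (hh : h ∉ Hub)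
    (hn : ¬ G.Adj u h) (Z : Finset V) (hZ : ∀ w ∈ Z, Light G S x w ∧ G.Adj u w ∧ G.Adj h w) :
    (Z.card : ℝ) ≤ D + 2 * x := by
  refine cover hM.amb h Z _ (fun u' => sel fun w => Light G S x w ∧ G.Adj u w ∧ G.Adj u' w) D x hx
    (hM.few h hh) (fun u' hu' ha => two_hub hM hx hu hu' fun e => hn (e ▸ ha)) fun w hw => ?_
  obtain ⟨h1, h2, h3⟩ := hZ w hw
  by_cases hs : Share G Hub h w
  · obtain ⟨σ, hσ, s1, s2⟩ := hs
    exact Or.inr ⟨σ, hσ, s1, mem_sel.2 ⟨h1, h2, s2⟩⟩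
  · exact Or.inl (mem_sel.2 ⟨h1, h3, hs⟩)

theorem meet_le (A : Finset (Finset V)) (K : Finset V) (z : Finset V → ℝ) (g : V → ℝ)
    (hd : ∀ o ∈ A, ∀ o' ∈ A, o ≠ o' → Disjoint o o') (hg : ∀ u, 0 ≤ g u)
    (hz : ∀ o ∈ A, ∀ u ∈ o, z o ≤ g u) (hK : ∀ o ∈ A, ∃ u ∈ o, u ∈ K) :
    ∑ o ∈ A, z o ≤ ∑ u ∈ K, g u := by
  have h1 : ∑ o ∈ A, z o ≤ ∑ o ∈ A, ∑ u ∈ o ∩ K, g u := by
    refine Finset.sum_le_sum fun o ho => ?_
    obtain ⟨u, h1, h2⟩ := hK o ho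
    exact (hz o ho u h1).trans
      (Finset.single_le_sum (f := g) (fun u _ => hg u) (mem_inter.2 ⟨h1, h2⟩))
  refine h1.trans ?_
  rw [← Finset.sum_biUnion]
  · refine Finset.sum_le_sum_of_subset_of_nonneg ?_ fun u _ _ => hg u
    intro u hu
    obtain ⟨o, _, h⟩ := mem_biUnion.1 hu
    exact (mem_inter.1 h).2
  · intro o ho o' ho' hne
    exact (hd o ho o' ho' hne).mono inter_subset_left inter_subset_left

theorem clique_load (hLoad : S_Load) (K : Finset V) (γ : V → ℕ) (g : V → ℝ) (w : ℕ) (a β n : ℝ)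
    (hw : 1 ≤ w) (ha : 0 < a) (ha1 : a ≤ 1 / 20) (hβ : 0 < β) (hβa : 4 * β ≤ a) (hn : 4 * w ≤ a * n)
    (hγ : ((K.image γ).card : ℝ) ≤ n / w + 1)
    (hP : Psi K γ (w / (1 - a)) g ≤ β ^ 2 * w * n) : ∑ u ∈ K, g u ≤ (1 + a) / (1 - a) * n := by
  have hw0 : (0 : ℝ) < w := by exact_mod_cast hw
  have h1a : 0 < 1 - a := by linarith
  have hn0 : 0 < n := by nlinarith
  have h := (hLoad V K γ (w / (1 - a)) (β * w) g (by positivity)).2
  have h2 : Psi K γ (w / (1 - a)) g / (β * w) ≤ β * n := by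
    rw [div_le_iff₀ (by positivity)]; nlinarith
  have h3 : ((K.image γ).card : ℝ) * (w / (1 - a) + β * w) ≤ (n / w + 1) * (w / (1 - a) + β * w) :=
    mul_le_mul_of_nonneg_right hγ (by positivity)
  have h4 : (n / w + 1) * (w / (1 - a) + β * w) = (n + w) * (1 / (1 - a) + β) := by
    field_simp
  obtain ⟨r, hr⟩ : ∃ r, r = 1 / (1 - a) := ⟨_, rfl⟩
  have hr1 : 1 ≤ r := by rw [hr, le_div_iff₀ h1a]; linarith
  have hr2 : r ≤ 3 / 2 := by rw [hr, div_le_iff₀ h1a]; linarith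
  have h5 : (1 + a) / (1 - a) * n = r * n + a * n * r := by rw [hr]; field_simp
  rw [h5]
  rw [h4, ← hr] at h3
  have h6 : β * n ≤ a * n / 4 := by nlinarith
  have h7 : (w : ℝ) * (r + β) ≤ w * 2 := mul_le_mul_of_nonneg_left (by linarith) hw0.le
  have h8 : a * n ≤ a * n * r := by nlinarith [mul_pos ha hn0]
  nlinarith

theorem num1 (ε l n : ℝ) (h0 : 0 < ε) (h1 : ε ≤ 1) (hn : 0 < n) (hl : (1 + ε) * n ≤ l) :
    (1 + ε / 20) / (1 - ε / 20) * n / (l * (1 - ε / 20) ^ 2) ≤ 1 - ε / 4 := by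
  have h1a : 0 < 1 - ε / 20 := by linarith
  have hl0 : 0 < l := by nlinarith
  rw [div_le_iff₀ (by positivity), div_mul_eq_mul_div, div_le_iff₀ h1a]
  have h3 : 1 - 3 * (ε / 20) ≤ (1 - ε / 20) ^ 3 := by
    have h2 : 0 ≤ (ε / 20) ^ 2 * (3 - ε / 20) := mul_nonneg (sq_nonneg _) (by linarith)
    nlinarith
  have h4 : (1 + ε / 20) ≤ (1 - ε / 4) * (1 + ε) * (1 - 3 * (ε / 20)) := by nlinarith
  have h5 : (1 - ε / 4) * (1 + ε) * (1 - 3 * (ε / 20)) ≤ (1 - ε / 4) * (1 + ε) * (1 - ε / 20) ^ 3 :=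
    mul_le_mul_of_nonneg_left h3 (by nlinarith)
  have h6 : (1 + ε) * n * ((1 - ε / 4) * (1 - ε / 20) ^ 3) ≤ l * ((1 - ε / 4) * (1 - ε / 20) ^ 3) :=
    mul_le_mul_of_nonneg_right hl (mul_nonneg (by linarith) (by positivity))
  nlinarith [mul_le_mul_of_nonneg_right (h4.trans h5) hn.le]

theorem num2 (ε C Δ l n : ℝ) (h0 : 0 < ε) (h1 : ε ≤ 1) (hn : 0 < n) (hl : (1 + ε) * n ≤ l)
    (hC : C * (Δ + 1) ≤ ε * n / 10) : C / (l * (1 - ε / 20) ^ 2) * (Δ + 1) ≤ ε / 8 := by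
  have h1a : 0 < 1 - ε / 20 := by linarith
  have hl0 : 0 < l := by nlinarith
  rw [div_mul_eq_mul_div, div_le_iff₀ (by positivity)]
  have h3 : (4 : ℝ) / 5 ≤ (1 - ε / 20) ^ 2 := by nlinarith
  have h4 : n * (4 / 5) ≤ l * (1 - ε / 20) ^ 2 :=
    mul_le_mul (by nlinarith) h3 (by norm_num) hl0.le
  nlinarith

/-- two names covering the hubs of a vertex -/
theorem names (hA : Amb G Hub k φ) (v : V) :
    ∃ p : V × V, ∀ u ∈ Hub, G.Adj u v → u = p.1 ∨ u = p.2 := by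
  have h := hA.cf.two v hA.ind
  have hm : ∀ u ∈ Hub, G.Adj u v → u ∈ nb G v ∩ Hub := fun u hu h => by simp [hu, h.symm]
  obtain h | h | h : (nb G v ∩ Hub).card = 0 ∨ (nb G v ∩ Hub).card = 1 ∨
    (nb G v ∩ Hub).card = 2 := by omega
  · rw [card_eq_zero] at h
    exact ⟨(v, v), fun u hu ha => absurd (h ▸ hm u hu ha) (notMem_empty u)⟩
  · obtain ⟨a, h⟩ := card_eq_one.1 h
    exact ⟨(a, a), fun u hu ha => Or.inl (mem_singleton.1 (h ▸ hm u hu ha))⟩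
  · obtain ⟨a, b, _, h⟩ := card_eq_two.1 h
    exact ⟨(a, b), fun u hu ha => by simpa using (h ▸ hm u hu ha : u ∈ ({a, b} : Finset V))⟩

/-- clique of a hub -/
noncomputable def K1 (G : SimpleGraph V) (Hub T : Finset V) (u v : V) : Finset V :=
  sel fun z => z ∈ T ∧ u ∈ Hub ∧ G.Adj u v ∧ G.Adj u z

/-- opposite clique -/
noncomputable def K2 (G : SimpleGraph V) (Hub T : Finset V) (u v : V) : Finset V :=
  sel fun z => z ∈ T ∧ u ∈ Hub ∧ G.Adj u v ∧ (z = v ∨ (G.Adj v z ∧ ¬ G.Adj u z))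

/-- four cliques near each vertex -/
theorem cliques (hA : Amb G Hub k φ) (T : Finset V) (hT : ∀ v ∈ T, v ∉ Hub) :
    ∃ Q : V → Fin 4 → Finset V, (∀ v j, Q v j ⊆ T ∧ (∀ u ∈ Q v j, Near G 2 v u) ∧
      ∀ y ∈ Q v j, ∀ z ∈ Q v j, y ≠ z → G.Adj y z) ∧
      ∀ u ∈ Hub, ∀ v, G.Adj u v → (∃ j, Q v j = K1 G Hub T u v) ∧ ∃ j, Q v j = K2 G Hub T u v := by
  choose p hp using names hA
  have h1 : ∀ u v, K1 G Hub T u v ⊆ T ∧ (∀ z ∈ K1 G Hub T u v, Near G 2 v z) ∧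
      ∀ y ∈ K1 G Hub T u v, ∀ z ∈ K1 G Hub T u v, y ≠ z → G.Adj y z := by
    intro u v
    simp only [K1]
    refine ⟨fun z hz => (mem_sel.1 hz).1, fun z hz => ?_, fun y hy z hz hne => ?_⟩
    · rw [mem_sel] at hz
      exact (Near.of_adj hz.2.2.1.symm).trans (Near.of_adj hz.2.2.2)
    · rw [mem_sel] at hy hz
      exact hA.cl u hy.2.1 y z hy.2.2.2 hz.2.2.2 hne
  have h2 : ∀ u v, K2 G Hub T u v ⊆ T ∧ (∀ z ∈ K2 G Hub T u v, Near G 2 v z) ∧
      ∀ y ∈ K2 G Hub T u v, ∀ z ∈ K2 G Hub T u v, y ≠ z → G.Adj y z := by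
    intro u v
    simp only [K2]
    refine ⟨fun z hz => (mem_sel.1 hz).1, fun z hz => ?_, fun y hy z hz hne => ?_⟩
    · rw [mem_sel] at hz
      rcases hz.2.2.2 with e | e
      · rw [e]; exact Near.refl _ _ _
      · exact (Near.of_adj e.1).mono (by omega)
    · rw [mem_sel] at hy hz
      rcases hy.2.2.2 with e | e <;> rcases hz.2.2.2 with e' | e'
      · exact absurd (e.trans e'.symm) hne
      · rw [e]; exact e'.1
      · rw [e']; exact e.1.symm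
      · have n1 : u ≠ y := fun q => hT y hy.1 (q ▸ hy.2.1)
        have n2 : u ≠ z := fun q => hT z hz.1 (q ▸ hy.2.1)
        rcases hA.cf v u y z hy.2.2.1.symm e.1 e'.1 n1 n2 hne with q | q | q
        · exact absurd q e.2
        · exact absurd q e'.2
        · exact q
  refine ⟨fun v => ![K1 G Hub T (p v).1 v, K1 G Hub T (p v).2 v, K2 G Hub T (p v).1 v,
    K2 G Hub T (p v).2 v], fun v j => ?_, fun u hu v ha => ?_⟩
  · fin_cases j
    · exact h1 _ _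
    · exact h1 _ _
    · exact h2 _ _
    · exact h2 _ _
  · rcases hp v u hu ha with e | e
    · exact ⟨⟨0, by rw [e]; rfl⟩, ⟨2, by rw [e]; rfl⟩⟩
    · exact ⟨⟨1, by rw [e]; rfl⟩, ⟨3, by rw [e]; rfl⟩⟩

end SysP

end Pool.Agent.P.MP_fb43a4_co.Asy
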