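import Mathlib
import Pool.Agent.P.MP_fb43a4_co.Asy.Sys1

/-!
Asymptotic list colouring of claw-free graphs: feasibility for one colour.
-/

namespace Pool.Agent.P.MP_fb43a4_co.Asy

open Finset

set_option linter.unusedSectionVars false

namespace SysP
variable {V : Type} [Fintype V] [DecidableEq V] {G : SimpleGraph V} {Hub S : Finset V} {k m : ℕ}
  {φ : V → ℕ} {x D : ℝ}

theorem feas (hDual : S_Dual) (hLight : S_Light) (hGrW : S_GrW)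
    (hM : Model G Hub S k φ x D m) (hx0 : 0 ≤ x) (hxD : x ≤ D) (ε C l : ℝ) (h0 : 0 < ε)
    (h1 : ε ≤ 1) (hk : (0 : ℝ) < k) (hC0 : 0 ≤ C) (hl : (1 + ε) * k ≤ l)
    (hC : C * (D + 2 * (152 * (3 * D) / (ε / 4)) + 1) ≤ ε * k / 10)
    (T : Finset V) (A AH : Finset (Finset V)) (hAH : AH ⊆ A) (hF : Fam G A)
    (hAT : ∀ o ∈ A, o ⊆ T) (hT : ∀ v ∈ T, v ∉ Hub)
    (hL : ∀ o ∈ A, o ∉ AH → ∃ v, o = {v} ∧ Light G S x v ∧ ∃ u ∈ Hub, G.Adj u v)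
    (z : Finset V → ℝ) (g : V → ℝ) (hz : ∀ o ∈ A, 0 ≤ z o ∧ z o ≤ C) (hg : ∀ u, 0 ≤ g u)
    (hzg : ∀ o ∈ A, ∀ u ∈ o, z o ≤ g u)
    (hH : ∀ (ω : Finset V → ℝ) (Ω : ℝ), (∀ o, 0 ≤ ω o) →
      (∀ I ⊆ AH, Ind (conf G AH) I → ∑ o ∈ I, ω o ≤ Ω) →
      ∑ o ∈ AH, ω o * z o ≤ (1 + ε / 20) / (1 - ε / 20) * k * Ω)
    (hK : ∀ u ∈ Hub, ∀ v, G.Adj u v →
      ∑ y ∈ K1 G Hub T u v, g y ≤ (1 + ε / 20) / (1 - ε / 20) * k ∧
      ∑ y ∈ K2 G Hub T u v, g y ≤ (1 + ε / 20) / (1 - ε / 20) * k) :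
    Law (conf G A) A fun o => z o / (l * (1 - ε / 20) ^ 2) := by
  have h1a : 0 < 1 - ε / 20 := by linarith
  have hl0 : 0 < l := by nlinarith
  have hD0 : 0 ≤ D := hx0.trans hxD
  obtain ⟨r, hr⟩ : ∃ r, r = l * (1 - ε / 20) ^ 2 := ⟨_, rfl⟩
  have n1 := num1 ε l k h0 h1 hk hl
  have n2 := num2 ε C _ l k h0 h1 hk hl hC
  rw [← hr] at n1 n2 ⊢
  have hr0 : 0 < r := by rw [hr]; positivity
  rcases hDual (Finset V) (conf G A) A (fun o => z o / r)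
    (fun o ho => div_nonneg (hz o ho).1 hr0.le) with h | ⟨ω, μ, Ω, w0, hμ, hΩ, hlt, hsup, hmg⟩
  · exact h
  exfalso
  have hΩ0 : 0 ≤ Ω := by simpa using hΩ ∅ (empty_subset _) ind_empty
  -- marginals on a clique
  have hcl : ∀ (K : Finset V) (A' : Finset (Finset V)), A' ⊆ A → (∀ o ∈ A', ∃ u ∈ o, u ∈ K) →
      ∑ y ∈ K, g y ≤ (1 + ε / 20) / (1 - ε / 20) * k → ∑ o ∈ A', marg μ o ≤ 1 - ε / 4 := by
    intro K A' hs hm hK'
    have e1 : ∑ o ∈ A', marg μ o ≤ ∑ o ∈ A', z o / r :=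
      Finset.sum_le_sum fun o ho => hmg o (hs ho)
    have e2 := meet_le A' K z g (fun o ho o' ho' => hF.2 o (hs ho) o' (hs ho')) hg
      (fun o ho => hzg o (hs ho)) hm
    rw [← Finset.sum_div] at e1
    exact e1.trans ((div_le_div_of_nonneg_right (e2.trans hK') hr0.le).trans n1)
  obtain ⟨AL, hAL⟩ : ∃ AL : Finset V, ∀ v, v ∈ AL ↔ Light G S x v ∧ {v} ∈ A ∧ 0 < ω {v} :=
    ⟨sel fun v => Light G S x v ∧ {v} ∈ A ∧ 0 < ω {v}, fun v => mem_sel⟩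
  have hhub : ∀ u ∈ Hub, ((nb G u ∩ AL).card : ℝ) ≤ 152 * (3 * D) / (ε / 4) := by
    intro u hu
    rcases (nb G u ∩ AL).eq_empty_or_nonempty with e | ⟨w0', hw0⟩
    · rw [e]; simp only [card_empty, Nat.cast_zero]; positivity
    have hw1 : G.Adj u w0' := mem_nb.1 (mem_inter.1 hw0).1
    rw [le_div_iff₀ (by positivity)]
    refine hLight V G Hub k φ A ω μ Ω (3 * D) (ε / 4) u (nb G u ∩ AL) hM.amb hF
      (fun o ho v hv => hT v (hAT o ho hv)) hμ hΩ (fun I hI => (hsup I hI).1) hu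
      (fun w hw => ?_) (by positivity) (by positivity) (fun h hh hn => ?_) ?_ fun w hw => ?_
    · have := (hAL w).1 (mem_inter.1 hw).2
      exact ⟨mem_nb.1 (mem_inter.1 hw).1, this.2⟩
    · refine (m4 hM hx0 hu hh hn _ fun w hw => ?_).trans (by linarith)
      simp only [mem_inter, mem_nb] at hw
      exact ⟨((hAL w).1 hw.2.2).1, hw.2.1, hw.1⟩
    · refine hcl (K1 G Hub T u w0') _ (fun o ho => (mem_sel.1 ho).1) (fun o ho => ?_)
        (hK u hu w0' hw1).1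
      obtain ⟨ho1, v, hv, ha⟩ := mem_sel.1 ho
      exact ⟨v, hv, mem_sel.2 ⟨hAT o ho1 hv, hu, hw1, ha⟩⟩
    · have hw2 : G.Adj u w := mem_nb.1 (mem_inter.1 hw).1
      refine hcl (K2 G Hub T u w) _ (fun o ho => (mem_sel.1 ho).1) (fun o ho => ?_)
        (hK u hu w hw2).2
      obtain ⟨ho1, v, hv, ha⟩ := mem_sel.1 ho
      exact ⟨v, hv, mem_sel.2 ⟨hAT o ho1 hv, hu, hw2, ha⟩⟩
  have hdeg : ∀ v ∈ AL, ((nb G v ∩ AL).card : ℝ) ≤ D + 2 * (152 * (3 * D) / (ε / 4)) := by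
    intro v hv
    have hvh : v ∉ Hub := fun e => ((hAL v).1 hv).1.1 (hM.sub e)
    refine cover hM.amb v _ _ (fun u => nb G u ∩ AL) D _ (by positivity) (hM.few v hvh)
      (fun u hu _ => hhub u hu) fun w hw => ?_
    simp only [mem_inter, mem_nb] at hw
    by_cases hs : Share G Hub v w
    · obtain ⟨σ, hσ, s1, s2⟩ := hs
      exact Or.inr ⟨σ, hσ, s1, by simp [s2, hw.2]⟩
    · exact Or.inl (mem_sel.2 ⟨((hAL w).1 hw.2).1, hw.1, hs⟩)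
  obtain ⟨I, hI, hIi, hIs⟩ := hGrW V G AL _ (fun v => ω {v}) (by positivity) (fun v => w0 _) hdeg
  have hinj : ∀ (J : Finset V) (f : Finset V → ℝ),
      ∑ o ∈ J.image (fun v => ({v} : Finset V)), f o = ∑ v ∈ J, f {v} := fun J f =>
    Finset.sum_image fun a _ b _ e => singleton_injective e
  have hIΩ : ∑ v ∈ I, ω {v} ≤ Ω := by
    rw [← hinj I ω]
    refine hΩ _ (fun o ho => ?_) fun o ho o' ho' ha => ?_
    · obtain ⟨v, hv, rfl⟩ := mem_image.1 ho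
      exact ((hAL v).1 (hI hv)).2.1
    · obtain ⟨v, hv, rfl⟩ := mem_image.1 ho
      obtain ⟨v', hv', rfl⟩ := mem_image.1 ho'
      obtain ⟨_, _, _, a, ha1, c, hc1, e⟩ := ha
      rw [mem_singleton] at ha1 hc1
      exact hIi v hv v' hv' (ha1 ▸ hc1 ▸ e)
  have hlight : ∑ o ∈ A \ AH, ω o * (z o / r) ≤ ε / 8 * Ω := by
    have e1 : ∑ o ∈ A \ AH, ω o * (z o / r) ≤ ∑ o ∈ A \ AH, C / r * ω o :=
      Finset.sum_le_sum fun o ho => by
        rw [mul_comm]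
        exact mul_le_mul_of_nonneg_right
          (div_le_div_of_nonneg_right (hz o (mem_sdiff.1 ho).1).2 hr0.le) (w0 o)
    have e2 : ∑ o ∈ A \ AH, ω o ≤ ∑ v ∈ AL, ω {v} := by
      rw [← hinj AL ω, ← Finset.sum_filter_ne_zero]
      refine Finset.sum_le_sum_of_subset_of_nonneg (fun o ho => ?_) fun o _ _ => w0 o
      obtain ⟨ho1, ho2⟩ := mem_filter.1 ho
      obtain ⟨v, rfl, hv, _⟩ := hL o (mem_sdiff.1 ho1).1 (mem_sdiff.1 ho1).2
      exact mem_image.2 ⟨v, (hAL v).2 ⟨hv, (mem_sdiff.1 ho1).1, (w0 _).lt_of_ne' ho2⟩, rfl⟩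
    rw [← Finset.mul_sum] at e1
    have e3 : 0 ≤ C / r := by positivity
    have e4 : 0 ≤ D + 2 * (152 * (3 * D) / (ε / 4)) + 1 := by positivity
    calc _ ≤ C / r * ((D + 2 * (152 * (3 * D) / (ε / 4)) + 1) * Ω) :=
          e1.trans (mul_le_mul_of_nonneg_left
            (e2.trans (hIs.trans (mul_le_mul_of_nonneg_left hIΩ e4))) e3)
      _ = C / r * (D + 2 * (152 * (3 * D) / (ε / 4)) + 1) * Ω := by ring
      _ ≤ _ := mul_le_mul_of_nonneg_right n2 hΩ0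
  have hheavy : ∑ o ∈ AH, ω o * (z o / r) ≤ (1 - ε / 4) * Ω := by
    have e1 := hH ω Ω w0 fun J hJ hJi => hΩ J (hJ.trans hAH) fun o ho o' ho' ha =>
      hJi o ho o' ho' ⟨ha.1, hJ ho, hJ ho', ha.2.2.2⟩
    have e2 : ∑ o ∈ AH, ω o * (z o / r) = (∑ o ∈ AH, ω o * z o) / r := by
      rw [Finset.sum_div]
      exact Finset.sum_congr rfl fun o _ => by ring
    rw [e2]
    calc _ ≤ (1 + ε / 20) / (1 - ε / 20) * k * Ω / r := div_le_div_of_nonneg_right e1 hr0.le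
      _ = (1 + ε / 20) / (1 - ε / 20) * k / r * Ω := by ring
      _ ≤ _ := mul_le_mul_of_nonneg_right n1 hΩ0
  have := Finset.sum_sdiff (f := fun o => ω o * (z o / r)) hAH
  nlinarith

end SysP

end Pool.Agent.P.MP_fb43a4_co.Asy
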