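import Mathlib
import Pool.Agent.P.MP_fb43a4_co.Asy.Sys2

/-!
Asymptotic list colouring of claw-free graphs: the system of clusters and tests.
-/

namespace Pool.Agent.P.MP_fb43a4_co.Asy

open Finset

set_option linter.unusedSectionVars false

namespace SysP
variable {V : Type} [Fintype V] [DecidableEq V] {G : SimpleGraph V} {Hub S : Finset V} {k m : ℕ}
  {φ : V → ℕ} {x D : ℝ}

theorem exists_cl {W s R : ℕ} {y : ℝ} {b : Bat V W s} (hb : b.Ok G k R y) :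
    ∃ cl : V → Finset V, (∀ B i, ∀ a ∈ b.cols B, cl (b.x B i a) = b.clus B i a) ∧
      ∀ v, v ∉ b.kept → cl v = {v} := by
  have : ∀ v, ∃ c : Finset V, (∀ B i, ∀ a ∈ b.cols B, b.x B i a = v → c = b.clus B i a) ∧
      (v ∉ b.kept → c = {v}) := by
    intro v
    by_cases hv : v ∈ b.kept
    · obtain ⟨B, i, a, ha, e⟩ := Bat.mem_kept.1 hv
      refine ⟨b.clus B i a, fun B' i' a' ha' e' => ?_, fun h => absurd hv h⟩
      obtain ⟨rfl, rfl, rfl⟩ := hb.inj B i a ha B' i' a' ha' (e.trans e'.symm)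
      rfl
    · exact ⟨{v}, fun B i a ha e => absurd (Bat.mem_kept.2 ⟨B, i, a, ha, e⟩) hv, fun _ => rfl⟩
  choose cl h using this
  exact ⟨cl, fun B i a ha => (h _).1 B i a ha rfl, fun v hv => (h v).2 hv⟩

theorem build (hAdm : S_Adm) (hHeavy : S_Heavy) (hDual : S_Dual) (hLight : S_Light)
    (hGrW : S_GrW) (hChunk : S_Chunk) (hLoad : S_Load) (hDeg : S_Deg)
    (hM : Model G Hub S k φ x D m) (hx0 : 0 ≤ x) (hxD : x ≤ D) (ε C β D' D'' y : ℝ) (h0 : 0 < ε)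
    (h1 : ε ≤ 1) (hk : (0 : ℝ) < k) (hC0 : 0 ≤ C)
    (hC : C * (D + 2 * (152 * (3 * D) / (ε / 4)) + 1) ≤ ε * k / 10)
    (W s w : ℕ) (b : Bat V W s) (hb : b.Ok G k (5 * s + 2) y) (hy : y ≤ k) (hW : 4 ≤ W)
    (hs : 1 ≤ s) (hw : 1 ≤ w) (hβ : 0 < β) (hβs : 6 * s * β ≤ ε / 20)
    (hWa : 4 * (w * 2 ^ s * (s + 1) : ℝ) ≤ ε / 20 * W) (hwk : 4 * w ≤ ε / 20 * k)
    (hkh : ∀ u ∈ b.kept, Heavy G S x u)
    (hsp : ∀ v, v ∉ Hub → ((sel fun u => G.Adj v u ∧ Heavy G S x u ∧ u ∉ b.kept).card : ℝ) ≤ D')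
    (hD : m + D' + D ≤ D'') :
    ∃ Sy : Sys V, Sy.Ok G Hub s (2 * (5 * s + 2)) w (ε / 20) C β D'' y ((1 + ε) * k) := by
  classical
  obtain ⟨cl, hc1, hc2⟩ := exists_cl hb
  obtain ⟨T, hT⟩ : ∃ T : Finset V, ∀ v, v ∈ T ↔ v ∈ b.kept ∨
      (Light G S x v ∧ ∃ u ∈ Hub, G.Adj u v) :=
    ⟨sel fun v => v ∈ b.kept ∨ (Light G S x v ∧ ∃ u ∈ Hub, G.Adj u v), fun v => mem_sel⟩
  have hTh : ∀ v ∈ T, v ∉ Hub := by
    intro v hv e
    rcases (hT v).1 hv with h | h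
    · exact (hkh v h).1 (hM.sub e)
    · exact h.1.1 (hM.sub e)
  have hkT : b.kept ⊆ T := fun v hv => (hT v).2 (Or.inl hv)
  obtain ⟨Q, hQ, hQK⟩ := cliques hM.amb T hTh
  have hQk : ∀ v j, (Q v j).card ≤ k := fun v j =>
    (hDeg V G Hub k φ hM.amb).2.2 _ (fun z hz => hTh z ((hQ v j).1 hz)) (hQ v j).2.2
  choose γq hγ1 hγ2 using fun v j => hChunk V (Q v j) w hw
  obtain ⟨γh, hγ3, hγ4⟩ := hHeavy V G W s k _ w y (ε / 20) β b hM.amb.cf hb (by positivity)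
    (by linarith) hs hw hβ hβs hWa
  have hs1 : (1 : ℝ) ≤ s := by exact_mod_cast hs
  have hreg : ∀ v, ¬ (∃ B, b.bin B = v) → b.reg v = ∅ := by
    intro v hv
    refine eq_empty_of_forall_notMem fun u hu => ?_
    obtain ⟨B, _, _, _, e, _⟩ := Bat.mem_reg.1 hu
    exact hv ⟨B, e⟩
  have hcase : ∀ v, (∃ B i, ∃ a ∈ b.cols B, v = b.x B i a ∧ cl v = b.clus B i a) ∨
      (v ∉ b.kept ∧ cl v = {v}) := by
    intro v
    by_cases hv : v ∈ b.kept
    · obtain ⟨B, i, a, ha, rfl⟩ := Bat.mem_kept.1 hv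
      exact Or.inl ⟨B, i, a, ha, rfl, hc1 B i a ha⟩
    · exact Or.inr ⟨hv, hc2 v hv⟩
  have hadm : ∀ v, Adm G (cl v) := by
    intro v
    rcases hcase v with ⟨B, i, a, ha, _, e⟩ | ⟨_, e⟩ <;> rw [e]
    · exact hAdm V G W s k _ y b hM.amb.cf hb hW B i a ha
    · exact adm_single v
  have hsub : ∀ v ∈ T, cl v ⊆ T := by
    intro v hv
    rcases hcase v with ⟨B, i, a, ha, _, e⟩ | ⟨_, e⟩ <;> rw [e]
    · exact (Bat.clus_sub_reg i ha).trans ((Bat.reg_sub_kept _).trans hkT)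
    · exact singleton_subset_iff.2 hv
  refine ⟨⟨T, cl, fun v => Fin.cons (b.reg v) (Q v),
    fun v => Fin.cons (if ∃ B, b.bin B = v then (b.num v : ℝ) else k) fun _ => k,
    fun v => Fin.cons γh fun j _ => γq v j⟩, hTh, ?_, hsub, ?_, ?_, fun v _ => hadm v, ?_, ?_, ?_,
    ?_, ?_, ?_, ?_, ?_, ?_⟩
  · intro v _
    rcases hcase v with ⟨B, i, a, ha, e', e⟩ | ⟨_, e⟩ <;> simp only [e]
    · rw [e']; exact Bat.self_mem_clus B i a
    · exact mem_singleton_self v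
  · intro v _ u hu
    rcases hcase v with ⟨B, i, a, ha, e', e⟩ | ⟨_, e⟩ <;> simp only [e] at hu ⊢
    · obtain ⟨a', ha', rfl⟩ := Bat.mem_clus.1 hu
      rw [hc1 B i a' (Bat.scc_sub ha ha'), Bat.clus_eq i ha']
    · rw [mem_singleton.1 hu, e]
  · intro v _
    rcases hcase v with ⟨B, i, a, ha, e', e⟩ | ⟨_, e⟩ <;> simp only [e]
    · exact Bat.clus_card B i a
    · simpa using hs
  · intro v _ u hu
    rcases hcase v with ⟨B, i, a, ha, e', e⟩ | ⟨_, e⟩ <;> simp only [e] at hu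
    · have q1 := hb.near _ _ (Bat.clus_sub_reg i ha hu)
      have q2 := hb.near _ _ (Bat.clus_sub_reg i ha (Bat.self_mem_clus B i a))
      rw [e']
      exact (q2.symm.trans q1).mono (by omega)
    · rw [mem_singleton.1 hu]; exact Near.refl _ _ _
  · intro v hv
    have hsb : (nb G v \ T) \ Hub ⊆ (key G S v ∪
        sel fun u => G.Adj v u ∧ Heavy G S x u ∧ u ∉ b.kept) ∪
        sel fun w => Light G S x w ∧ G.Adj v w ∧ ¬ Share G Hub v w := by
      intro u hu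
      simp only [mem_sdiff, mem_nb, hT, not_or] at hu
      simp only [mem_union, mem_sel, key, mem_inter, mem_nb]
      by_cases q1 : u ∈ S
      · exact Or.inl (Or.inl ⟨hu.1.1, q1⟩)
      by_cases q2 : Heavy G S x u
      · exact Or.inl (Or.inr ⟨hu.1.1, q2, hu.1.2.1⟩)
      · exact Or.inr ⟨⟨q1, q2⟩, hu.1.1, fun ⟨σ, hσ, _, s2⟩ => hu.1.2.2 ⟨⟨q1, q2⟩, σ, hσ, s2⟩⟩
    have q1 := (card_le_card hsb).trans ((card_union_le _ _).trans
      (Nat.add_le_add_right (card_union_le _ _) _))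
    have q2 : ((key G S v).card : ℝ) ≤ m := by exact_mod_cast hM.keyb v hv
    have q3 := hsp v hv
    have q4 := hM.few v hv
    have q5 := (Nat.cast_le (α := ℝ)).2 q1
    push_cast at q5
    linarith
  · intro v j
    refine Fin.cases ?_ (fun j => ?_) j
    · exact (Bat.reg_sub_kept v).trans hkT
    · exact (hQ v j).1
  · intro v j
    refine Fin.cases ?_ (fun j => ?_) j
    · exact fun u hu => (hb.near v u hu).mono (by omega)
    · exact fun u hu => ((hQ v j).2.1 u hu).mono (by omega)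
  · intro v j
    refine Fin.cases ?_ (fun j => ?_) j
    · simp only [Fin.cons_zero]
      split_ifs with h
      · exact_mod_cast Bat.reg_card v
      · rw [hreg v h]; simp only [card_empty, Nat.cast_zero]; positivity
    · simp only [Fin.cons_succ]
      have : ((Q v j).card : ℝ) ≤ k := by exact_mod_cast hQk v j
      nlinarith
  · intro v j
    refine Fin.cases ?_ (fun j => ?_) j
    · simp only [Fin.cons_zero]
      split_ifs with h
      · obtain ⟨B, rfl⟩ := h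
        exact hb.big B
      · exact hy
    · exact hy
  · intro v j
    refine Fin.cases ?_ (fun j => ?_) j
    · exact hb.ind v
    · intro I hI
      simp only [Fin.cons_succ]
      refine (card_le_one.2 fun p hp q hq => ?_).trans (by omega)
      by_contra hne
      exact hI p (mem_inter.1 hp).1 q (mem_inter.1 hq).1
        ((hQ v j).2.2 p (mem_inter.1 hp).2 q (mem_inter.1 hq).2 hne)
  · intro v j In
    refine Fin.cases ?_ (fun j => ?_) j
    · exact hγ3 In v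
    · exact hγ1 v j
  · intro In A z g l hl hA hz hg hzg hP
    obtain ⟨AH, hAH⟩ : ∃ AH : Finset (Finset V), ∀ o, o ∈ AH ↔ o ∈ A ∧ ∃ B i, ∃ c ∈ b.cols B,
        (o = b.clus B i c ∧ o ⊆ In) ∨ (o = {b.x B i c} ∧ b.x B i c ∈ In ∧ ¬ b.clus B i c ⊆ In) :=
      ⟨sel fun o => o ∈ A ∧ ∃ B i, ∃ c ∈ b.cols B, (o = b.clus B i c ∧ o ⊆ In) ∨
        (o = {b.x B i c} ∧ b.x B i c ∈ In ∧ ¬ b.clus B i c ⊆ In), fun o => mem_sel⟩
    have hAHs : AH ⊆ A := fun o ho => ((hAH o).1 ho).1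
    have hcl : ∀ v j, ∑ u ∈ Q v j, g u ≤ (1 + ε / 20) / (1 - ε / 20) * k := by
      intro v j
      refine clique_load hLoad (Q v j) (γq v j) g w (ε / 20) β k hw (by positivity) (by linarith)
        hβ (by nlinarith) hwk ((hγ2 v j).trans ?_) (hP v j.succ)
      have : ((Q v j).card : ℝ) ≤ k := by exact_mod_cast hQk v j
      gcongr
    refine feas hDual hLight hGrW hM hx0 hxD ε C l h0 h1 hk hC0 hl hC T A AH hAHs ⟨?_, hA.2⟩ ?_ hTh
      ?_ z g hz hg hzg ?_ ?_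
    · intro o ho
      obtain ⟨v, _, ⟨e, _⟩ | ⟨e, _⟩⟩ := hA.1 o ho <;> rw [e]
      · exact hadm v
      · exact adm_single v
    · intro o ho
      obtain ⟨v, hv, ⟨e, _⟩ | ⟨e, _⟩⟩ := hA.1 o ho <;> rw [e]
      · exact hsub v hv
      · exact singleton_subset_iff.2 hv
    · intro o ho hn
      obtain ⟨v, hv, h⟩ := hA.1 o ho
      dsimp only at hv h
      rcases hcase v with ⟨B, i, a, ha, e', e⟩ | ⟨q, e⟩
      · refine absurd ((hAH o).2 ⟨ho, B, i, a, ha, ?_⟩) hn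
        rw [e] at h
        rw [← e']
        rcases h with h | h
        · exact Or.inl ⟨h.1, h.1 ▸ h.2⟩
        · exact Or.inr h
      · refine ⟨v, ?_, ((hT v).1 hv).resolve_left q⟩
        rw [e] at h
        exact h.elim (fun h => h.1) fun h => h.1
    · intro ω Ω w0 hΩ
      refine hγ4 In AH z ω g Ω (fun o ho => ((hAH o).1 ho).2)
        (fun o ho o' ho' => hA.2 o (hAHs ho) o' (hAHs ho')) (fun o ho => (hz o (hAHs ho)).1) hg
        (fun o ho => hzg o (hAHs ho)) w0 hΩ fun v => ?_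
      have := hP v 0
      simp only [Fin.cons_zero] at this
      split_ifs at this with h
      · exact this
      · rw [hreg v h, Psi_empty]; positivity
    · intro u hu v ha
      obtain ⟨⟨j, e⟩, j', e'⟩ := hQK u hu v ha
      exact ⟨e ▸ hcl v j, e' ▸ hcl v j'⟩

end SysP

theorem p_Sys (hModel : S_Model) (hLink : S_Link) (hBin : S_Bin) (hAdm : S_Adm)
    (hHeavy : S_Heavy) (hDual : S_Dual) (hLight : S_Light) (hGrW : S_GrW) (hChunk : S_Chunk)
    (hLoad : S_Load) (hDeg : S_Deg) : S_Sys := by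
  intro ε C δ h0 h1 hC hδ
  obtain ⟨δm, m0, m1, m2⟩ : ∃ δm : ℝ, 0 < δm ∧ δm ≤ δ / 4 ∧ δm ≤ ε ^ 2 / (20 * 3649 * C) :=
    ⟨min (δ / 4) (ε ^ 2 / (20 * 3649 * C)), by positivity, min_le_left _ _, min_le_right _ _⟩
  obtain ⟨κ, m, k1, κ0, κ1, hM⟩ := hModel ε δm h0 h1 m0
  obtain ⟨s, k2, s2, hL⟩ := hLink (δ / 4) κ m (by positivity) κ0
  have hs : (2 : ℝ) ≤ s := by exact_mod_cast s2
  refine ⟨s, 2 * (5 * s + 2), ε / 20 / (6 * s), s2, by positivity, ?_, fun w hw => ?_⟩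
  · rw [div_le_iff₀ (by positivity)]; nlinarith
  obtain ⟨W, W4, hW⟩ : ∃ W : ℕ, 4 ≤ W ∧ 4 * (w * 2 ^ s * (s + 1) : ℝ) ≤ ε / 20 * W := by
    refine ⟨max 4 ⌈4 * (w * 2 ^ s * (s + 1) : ℝ) / (ε / 20)⌉₊, le_max_left _ _, ?_⟩
    have := (Nat.le_ceil (4 * (w * 2 ^ s * (s + 1) : ℝ) / (ε / 20))).trans
      (Nat.cast_le.2 (le_max_right 4 _))
    rwa [div_le_iff₀' (by positivity)] at this
  obtain ⟨κ', k3, q0, q1, hB⟩ := hBin (δ / 4) κ m s W (by positivity) κ0 (by omega)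
  refine ⟨κ', max (max k1 k2) (max k3 ⌈max (max (4 * m / δ) (80 * w / ε)) (20 * C / ε)⌉₊), q0, q1,
    fun k hk V _ _ G φ hG hφ hd => ?_⟩
  simp only [ge_iff_le, max_le_iff, Nat.ceil_le] at hk
  obtain ⟨⟨e1, e2⟩, e3, ⟨e4, e5⟩, e6⟩ := hk
  rw [div_le_iff₀ (by positivity)] at e4 e5 e6
  have hk0 : (0 : ℝ) < k := by
    by_contra hc
    have : (k : ℝ) * ε ≤ 0 := mul_nonpos_of_nonpos_of_nonneg (not_lt.1 hc) h0.le
    linarith
  obtain ⟨V', i1, i2, G', Hub, S, φ', e, he, hm⟩ := hM k e1 V G φ hG hφ hd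
  obtain ⟨H, pc, hp⟩ := hL k e2 V' G' Hub S φ' _ hm
  obtain ⟨b, hb, b1, b2⟩ := hB k e3 V' G' Hub S φ' _ _ H pc hm hp
  have hnum : C * (δm * k + 2 * (152 * (3 * (δm * k)) / (ε / 4)) + 1) ≤ ε * k / 10 := by
    rw [le_div_iff₀ (by positivity)] at m2
    have t1 : 2 * (152 * (3 * (δm * k)) / (ε / 4)) = 3648 * (δm * k / ε) := by
      field_simp; ring
    have t2 : δm * k ≤ δm * k / ε := by
      rw [le_div_iff₀ h0]; nlinarith [mul_pos m0 hk0]
    have t3 : C * (3649 * (δm * k / ε)) ≤ ε * k / 20 := by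
      rw [show C * (3649 * (δm * k / ε)) = C * 3649 * δm * k / ε by ring, div_le_iff₀ h0]
      nlinarith [mul_le_mul_of_nonneg_right m2 hk0.le]
    rw [t1]
    nlinarith [mul_le_mul_of_nonneg_left t2 (by linarith : (0 : ℝ) ≤ C)]
  obtain ⟨Sy, hSy⟩ := SysP.build hAdm hHeavy hDual hLight hGrW hChunk hLoad hDeg hm
    (by positivity) (mul_le_mul_of_nonneg_right κ1 hk0.le) ε C (ε / 20 / (6 * s))
    (δ / 4 * k + δ / 4 * k) (δ * k) (κ' * k) h0 h1 hk0 (by linarith) hnum W s w b hb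
    (by nlinarith) W4 (by omega) hw (by positivity) (le_of_eq (by field_simp)) hW (by linarith)
    b1 b2 (by nlinarith [mul_le_mul_of_nonneg_right m1 hk0.le])
  exact ⟨V', i1, i2, G', Hub, φ', e, Sy, he, hm.amb, hSy⟩

end Pool.Agent.P.MP_fb43a4_co.Asy
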