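import Mathlib
import Pool.Agent.P.MP_fb43a4_co.Asy.Adm
import Pool.Agent.P.MP_fb43a4_co.Asy.Aux1
import Pool.Agent.P.MP_fb43a4_co.Asy.Aux2
import Pool.Agent.P.MP_fb43a4_co.Asy.Bin
import Pool.Agent.P.MP_fb43a4_co.Asy.Coin
import Pool.Agent.P.MP_fb43a4_co.Asy.Col
import Pool.Agent.P.MP_fb43a4_co.Asy.Comp
import Pool.Agent.P.MP_fb43a4_co.Asy.Core
import Pool.Agent.P.MP_fb43a4_co.Asy.Cut
import Pool.Agent.P.MP_fb43a4_co.Asy.Dual
import Pool.Agent.P.MP_fb43a4_co.Asy.E2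
import Pool.Agent.P.MP_fb43a4_co.Asy.End
import Pool.Agent.P.MP_fb43a4_co.Asy.Est
import Pool.Agent.P.MP_fb43a4_co.Asy.Heavy
import Pool.Agent.P.MP_fb43a4_co.Asy.Hub
import Pool.Agent.P.MP_fb43a4_co.Asy.Init
import Pool.Agent.P.MP_fb43a4_co.Asy.Light
import Pool.Agent.P.MP_fb43a4_co.Asy.Link
import Pool.Agent.P.MP_fb43a4_co.Asy.Merge
import Pool.Agent.P.MP_fb43a4_co.Asy.Model
import Pool.Agent.P.MP_fb43a4_co.Asy.Smp
import Pool.Agent.P.MP_fb43a4_co.Asy.Step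
import Pool.Agent.P.MP_fb43a4_co.Asy.Sys

/-!
Asymptotic list colouring of claw-free graphs: assembly.
-/

namespace Pool.Agent.P.MP_fb43a4_co.Asy

theorem sys : S_Sys :=
  p_Sys (p_Model p_Hub (p_Smp p_Deg)) (p_Link p_Cut p_Ball p_Deg) (p_Bin p_Ram p_Deg p_Ball) p_Adm
    (p_Heavy p_Load) p_Dual (p_Light p_E2 p_Ends) p_GrW p_Chunk p_Load p_Deg

theorem step : S_Step := p_Step (p_Comp p_Ball (p_Merge p_Cut)) (p_Fin (p_Merge p_Cut)) p_Thin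

theorem main : S_Main :=
  p_Main (p_Core sys p_Est (p_Init p_Ball p_Deg) (p_Coin p_Deg) (p_Col p_E2 step p_Deg)
    (p_End p_GrL p_Load p_Deg) p_Chunk p_Deg)

end Pool.Agent.P.MP_fb43a4_co.Asy
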