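import Mathlib
import Pool.Agent.P.MP_fb43a4_co.Asy.St

/-!
The Kempe property for families of admissible objects.
-/

namespace Pool.Agent.P.MP_fb43a4_co.Asy

open Finset

namespace E2P

variable {V : Type} {G : SimpleGraph V}

/-- cocktail party graph with four pairs -/
def Ck (G : SimpleGraph V) (x : Fin 4 → Bool → V) : Prop :=
  (∀ i j s t, G.Adj (x i s) (x j t) ↔ i ≠ j) ∧ ∀ i, x i false ≠ x i true

/-- outside the cocktail party graph with exactly one neighbour in each pair -/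
def Pure (G : SimpleGraph V) (x : Fin 4 → Bool → V) (p : V) : Prop :=
  (∀ j s, p ≠ x j s) ∧ ∀ j, ∃ s, G.Adj p (x j s) ∧ ¬ G.Adj p (x j (!s))

theorem claw (h : CF G) {v a b c : V} (ha : G.Adj v a) (hb : G.Adj v b) (hc : G.Adj v c)
    (hab : a ≠ b) (hac : a ≠ c) (hbc : b ≠ c) (nab : ¬ G.Adj a b) (nac : ¬ G.Adj a c)
    (nbc : ¬ G.Adj b c) : False := by
  rcases h v a b c ha hb hc hab hac hbc with h | h | h
  exacts [nab h, nac h, nbc h]

theorem Ck.nadj {x : Fin 4 → Bool → V} (hx : Ck G x) (i : Fin 4) (s t : Bool) :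
    ¬ G.Adj (x i s) (x i t) := fun h => (hx.1 i i s t).1 h rfl

theorem Ck.hit (h : CF G) {x : Fin 4 → Bool → V} (hx : Ck G x) {y : V} (hy : ∀ j s, y ≠ x j s)
    {j : Fin 4} {s : Bool} (ha : G.Adj y (x j s)) (i : Fin 4) : ∃ t, G.Adj y (x i t) := by
  by_cases e : j = i
  · exact ⟨s, e ▸ ha⟩
  · by_contra hn
    push Not at hn
    exact claw h ha.symm ((hx.1 j i s false).2 e) ((hx.1 j i s true).2 e) (hy _ _) (hy _ _)
      (hx.2 i) (hn _) (hn _) (hx.nadj i _ _)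

theorem Ck.out (h : CF G) {x : Fin 4 → Bool → V} (hx : Ck G x) {i : Fin 4} {z : V}
    (h1 : ∀ s, z ≠ x i s) (h2 : ∀ s, ¬ G.Adj z (x i s)) :
    (∀ j s, z ≠ x j s) ∧ ∀ j s, ¬ G.Adj z (x j s) := by
  have h3 : ∀ j s, z ≠ x j s := by
    intro j s e
    by_cases e' : j = i
    · exact h1 s (e' ▸ e)
    · exact h2 false (e ▸ (hx.1 j i s false).2 e')
  refine ⟨h3, fun j s ha => ?_⟩
  obtain ⟨t, ht⟩ := hx.hit h h3 ha i
  exact h2 t ht

theorem Ck.pure (h : CF G) {x : Fin 4 → Bool → V} (hx : Ck G x) {y z : V} {j : Fin 4} {s : Bool}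
    (ha : G.Adj y (x j s)) (hz : G.Adj y z) (h1 : ∀ j s, z ≠ x j s)
    (h2 : ∀ j s, ¬ G.Adj z (x j s)) : Pure G x y := by
  have h3 : ∀ j s, y ≠ x j s := fun j s e => h2 j s (e ▸ hz.symm)
  refine ⟨h3, fun i => ?_⟩
  obtain ⟨t, ht⟩ := hx.hit h h3 ha i
  refine ⟨t, ht, fun ht' => ?_⟩
  refine claw h hz ht ht' (h1 _ _) (h1 _ _) ?_ (h2 _ _) (h2 _ _) (hx.nadj i _ _)
  cases t
  exacts [hx.2 i, (hx.2 i).symm]

theorem Ck.two (h : CF G) {x : Fin 4 → Bool → V} (hx : Ck G x) {p q : V}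
    (hp : ∀ j s, p ≠ x j s) (hq : ∀ j s, q ≠ x j s) (hne : p ≠ q) (hn : ¬ G.Adj p q)
    {f g : Fin 4 → Bool} (hf : ∀ j, G.Adj p (x j (f j)) ∧ ¬ G.Adj p (x j (!f j)))
    (hg : ∀ j, G.Adj q (x j (g j)) ∧ ¬ G.Adj q (x j (!g j))) {j j' : Fin 4} (hj : j ≠ j')
    (e : f j = g j) (e' : f j' = g j') : False :=
  claw h (hf j).1.symm (e ▸ (hg j).1.symm) ((hx.1 j j' _ (!f j')).2 hj) hne (hp _ _) (hq _ _) hn
    (hf j').2 (e' ▸ (hg j').2)

theorem Ck.three (h : CF G) {x : Fin 4 → Bool → V} (hx : Ck G x) {p q r : V} (hp : Pure G x p)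
    (hq : Pure G x q) (hr : Pure G x r) (h1 : p ≠ q ∧ ¬ G.Adj p q) (h2 : p ≠ r ∧ ¬ G.Adj p r)
    (h3 : q ≠ r ∧ ¬ G.Adj q r) : False := by
  choose f hf using hp.2
  choose g hg using hq.2
  choose k hk using hr.2
  have key : ∀ j, ∃ t : Fin 3, (t = 0 ∧ f j = g j) ∨ (t = 1 ∧ f j = k j) ∨ (t = 2 ∧ g j = k j) := by
    intro j
    by_cases e1 : f j = g j
    · exact ⟨0, Or.inl ⟨rfl, e1⟩⟩
    · by_cases e2 : f j = k j
      · exact ⟨1, Or.inr (Or.inl ⟨rfl, e2⟩)⟩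
      · refine ⟨2, Or.inr (Or.inr ⟨rfl, ?_⟩)⟩
        revert e1 e2
        cases f j <;> cases g j <;> cases k j <;> simp
  choose c hc using key
  obtain ⟨j, j', hj, e⟩ := Fintype.exists_ne_map_eq_of_card_lt c (by simp)
  rcases hc j with ⟨a, b⟩ | ⟨a, b⟩ | ⟨a, b⟩ <;> rcases hc j' with ⟨a', b'⟩ | ⟨a', b'⟩ | ⟨a', b'⟩
  · exact hx.two h hp.1 hq.1 h1.1 h1.2 hf hg hj b b'
  · omega
  · omega
  · omega
  · exact hx.two h hp.1 hr.1 h2.1 h2.2 hf hk hj b b'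
  · omega
  · omega
  · omega
  · exact hx.two h hq.1 hr.1 h3.1 h3.2 hg hk hj b b'

variable [DecidableEq V]

/-- disjoint and without edges in between -/
def Far (G : SimpleGraph V) (S T : Finset V) : Prop := ∀ u ∈ S, ∀ v ∈ T, u ≠ v ∧ ¬ G.Adj u v

omit [DecidableEq V] in
theorem Far.symm {S T : Finset V} (h : Far G S T) : Far G T S :=
  fun u hu v hv => ⟨(h v hv u hu).1.symm, fun e => (h v hv u hu).2 e.symm⟩

theorem mem_pair (x : Fin 4 → Bool → V) (i : Fin 4) (s : Bool) :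
    x i s ∈ ({x i false, x i true} : Finset V) := by
  cases s <;> simp

theorem of_mem_pair {x : Fin 4 → Bool → V} {i : Fin 4} {u : V}
    (h : u ∈ ({x i false, x i true} : Finset V)) : ∃ s, u = x i s := by
  rcases mem_insert.1 h with h | h
  exacts [⟨_, h⟩, ⟨_, mem_singleton.1 h⟩]

theorem reach {S : Finset V} (h : Adm G S) {u v : V} (hu : u ∈ S) (hv : v ∈ S) :
    G.Reachable u v := by
  rcases h with ⟨w, rfl⟩ | ⟨x, h1, -, i, rfl⟩ | h
  · rw [mem_singleton.1 hu, mem_singleton.1 hv]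
  · obtain ⟨s, rfl⟩ := of_mem_pair hu
    obtain ⟨t, rfl⟩ := of_mem_pair hv
    obtain ⟨j, hj⟩ := exists_ne i
    exact ((h1 i j s false).2 hj.symm).reachable.trans ((h1 j i false t).2 hj).reachable
  · exact h.2.2.1 u hu v hv

omit [DecidableEq V] in
theorem no_big {S T : Finset V} (h : Big G S) (hf : Far G S T) {u v : V} (hu : u ∈ S)
    (hv : v ∈ T) (hr : G.Reachable u v) : False := by
  rcases (h.2.2.2 u hu v hr).1 with h1 | ⟨s, hs, h1⟩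
  · exact (hf v h1 v hv).1 rfl
  · exact (hf s hs v hv).2 h1.symm

/-- the chosen vertex lies in the object or in another pair of its cocktail party graph -/
def Rep (G : SimpleGraph V) (S : Finset V) (p : V) : Prop :=
  p ∈ S ∨ ∃ x i j s, Ck G x ∧ S = {x i false, x i true} ∧ j ≠ i ∧ p = x j s

theorem Rep.miss (h : CF G) {S T : Finset V} {p : V} (hp : Rep G S p) (hf : Far G S T) {v : V}
    (hv : v ∈ T) : p ≠ v ∧ ¬ G.Adj p v := by
  rcases hp with hp | ⟨x, i, j, s, hx, rfl, hj, rfl⟩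
  · exact hf p hp v hv
  · have h0 := hf _ (mem_pair x i false) v hv
    have h1 := hf _ (mem_pair x i true) v hv
    refine ⟨fun e => h0.2 (e ▸ (hx.1 i j false s).2 hj.symm), fun ha => ?_⟩
    exact claw h ((hx.1 j i s false).2 hj) ((hx.1 j i s true).2 hj) ha (hx.2 i) h0.1 h1.1
      (hx.nadj i _ _) h0.2 h1.2

theorem Rep.sep (h : CF G) {S T : Finset V} {p q : V} (hp : Rep G S p) (hq : Rep G T q)
    (hf : Far G S T) : p ≠ q ∧ ¬ G.Adj p q := by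
  rcases hq with hq | ⟨x, i, j, s, hx, rfl, hj, rfl⟩
  · exact hp.miss h hf hq
  · have h1 := hx.out h (fun t => (hp.miss h hf (mem_pair x i t)).1)
      fun t => (hp.miss h hf (mem_pair x i t)).2
    exact ⟨h1.1 j s, h1.2 j s⟩

theorem exists_rep (h : CF G) {x : Fin 4 → Bool → V} (hx : Ck G x) {i : Fin 4} {T R : Finset V}
    (hT : (∃ v, T = {v}) ∨ Pair G T) (hd : Disjoint ({x i false, x i true} : Finset V) T)
    (hf : Far G {x i false, x i true} R) (h1 : ∃ u ∈ ({x i false, x i true} : Finset V),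
      ∃ v ∈ T, G.Adj u v) (h2 : ∃ u ∈ T, ∃ v ∈ R, G.Adj u v) :
    ∃ p, Rep G T p ∧ Pure G x p := by
  obtain ⟨a, ha, y, hy, hay⟩ := h1
  obtain ⟨z, hz, m, hm, hzm⟩ := h2
  obtain ⟨s, rfl⟩ := of_mem_pair ha
  by_cases hc : ∃ t, G.Adj z (x i t)
  · obtain ⟨t, ht⟩ := hc
    have h3 := hx.out h (fun t => (hf _ (mem_pair x i t) m hm).1.symm)
      fun t e => (hf _ (mem_pair x i t) m hm).2 e.symm
    exact ⟨z, Or.inl hz, hx.pure h ht hzm h3.1 h3.2⟩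
  · push Not at hc
    have h3 := hx.out h (fun t e => disjoint_left.1 hd (mem_pair x i t) (e ▸ hz)) hc
    rcases hT with ⟨v, rfl⟩ | ⟨x', k1, k2, i', rfl⟩
    · rw [mem_singleton] at hy hz
      exact (hc s (hz ▸ hy ▸ hay.symm)).elim
    · have hx' : Ck G x' := ⟨k1, k2⟩
      obtain ⟨t, rfl⟩ := of_mem_pair hy
      obtain ⟨t', rfl⟩ := of_mem_pair hz
      have h4 : ∀ j r, x i s ≠ x' j r := by
        intro j r e
        by_cases e' : j = i'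
        · subst e'
          exact hx'.nadj j r t (e ▸ hay)
        · exact hc s (e ▸ (k1 i' j t' r).2 (Ne.symm e'))
      obtain ⟨j, hj⟩ := exists_ne i'
      obtain ⟨r, hr⟩ := hx'.hit h h4 hay j
      exact ⟨x' j r, Or.inr ⟨x', i', j, r, hx', rfl, hj, rfl⟩,
        hx.pure h hr.symm ((k1 j i' r t').2 hj) h3.1 h3.2⟩

theorem far [Fintype V] {A M : Finset (Finset V)} (hA : Fam G A) (hM : Ind (conf G A) M)
    {S T : Finset V} (hS : S ∈ M) (hT : T ∈ M) (hS' : S ∈ A) (hT' : T ∈ A) (hne : S ≠ T) :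
    Far G S T :=
  fun u hu v hv => ⟨fun e => disjoint_left.1 (hA.2 S hS' T hT' hne) hu (e ▸ hv),
    fun e => hM S hS T hT ⟨hne, hS', hT', u, hu, v, hv, e⟩⟩

end E2P

open E2P in
theorem p_E2 : S_E2 := by
  intro V _ _ G A h hA M M' hM hM' o ho
  by_contra hc
  obtain ⟨o1, h1, o2, h2, o3, h3, n12, n13, n23⟩ := two_lt_card.1 (not_le.1 hc)
  rw [mem_sel] at h1 h2 h3
  obtain ⟨m1, a1, r1, hr1, e1, b1⟩ := h1
  obtain ⟨m2, a2, r2, hr2, e2, b2⟩ := h2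
  obtain ⟨m3, a3, r3, hr3, e3, b3⟩ := h3
  have hoA : o ∈ A := a1.2.1
  have f12 := far hA hM' m1 m2 a1.2.2.1 a2.2.2.1 n12
  have f13 := far hA hM' m1 m3 a1.2.2.1 a3.2.2.1 n13
  have f23 := far hA hM' m2 m3 a2.2.2.1 a3.2.2.1 n23
  have g1 := far hA hM ho hr1 hoA b1.2.2.1 e1.symm
  have g2 := far hA hM ho hr2 hoA b2.2.2.1 e2.symm
  have g3 := far hA hM ho hr3 hoA b3.2.2.1 e3.symm
  have nb : ∀ S T, (conf G A).Adj o S → (conf G A).Adj o T → Far G S T →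
      (∃ v, S = {v}) ∨ Pair G S := by
    rintro S T ⟨-, -, hS, u, hu, v, hv, e⟩ ⟨-, -, -, u', hu', v', hv', e'⟩ hf
    rcases hA.1 S hS with k | k | k
    · exact Or.inl k
    · exact Or.inr k
    · exact (no_big k hf hv hv' (e.symm.reachable.trans
        ((reach (hA.1 o hoA) hu hu').trans e'.reachable))).elim
  rcases hA.1 o hoA with ⟨v, rfl⟩ | ⟨x, k1, k2, i, rfl⟩ | k
  · obtain ⟨u1, c1, y1, d1, t1⟩ := a1.2.2.2
    obtain ⟨u2, c2, y2, d2, t2⟩ := a2.2.2.2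
    obtain ⟨u3, c3, y3, d3, t3⟩ := a3.2.2.2
    rw [mem_singleton] at c1 c2 c3
    subst c1 c2 c3
    exact claw h t1 t2 t3 (f12 _ d1 _ d2).1 (f13 _ d1 _ d3).1 (f23 _ d2 _ d3).1
      (f12 _ d1 _ d2).2 (f13 _ d1 _ d3).2 (f23 _ d2 _ d3).2
  · have hx : Ck G x := ⟨k1, k2⟩
    obtain ⟨p1, s1, t1⟩ := exists_rep h hx (nb _ _ a1 a2 f12)
      (hA.2 _ hoA _ a1.2.2.1 a1.1) g1 a1.2.2.2 b1.2.2.2
    obtain ⟨p2, s2, t2⟩ := exists_rep h hx (nb _ _ a2 a1 f12.symm)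
      (hA.2 _ hoA _ a2.2.2.1 a2.1) g2 a2.2.2.2 b2.2.2.2
    obtain ⟨p3, s3, t3⟩ := exists_rep h hx (nb _ _ a3 a1 f13.symm)
      (hA.2 _ hoA _ a3.2.2.1 a3.1) g3 a3.2.2.2 b3.2.2.2
    exact hx.three h t1 t2 t3 (s1.sep h s2 f12) (s1.sep h s3 f13) (s2.sep h s3 f23)
  · obtain ⟨u, hu, y, hy, t⟩ := a1.2.2.2
    obtain ⟨z, hz, m, hm, t'⟩ := b1.2.2.2
    exact no_big k g1 hu hm (t.reachable.trans
      ((reach (hA.1 o1 a1.2.2.1) hy hz).trans t'.reachable))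

end Pool.Agent.P.MP_fb43a4_co.Asy
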