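import Pool.Agent.P.MP_fb43a4_co.Asy.St

/-!
Heavy part of the feasibility estimate: cells, slots and their anticompleteness.
-/

namespace Pool.Agent.P.MP_fb43a4_co.Asy.Heavy

open Finset Relation

set_option linter.unusedSectionVars false

variable {V : Type} [Fintype V] [DecidableEq V] {W s : ℕ} (b : Bat V W s)

/-- columns of row `i` that have the colour -/
def As (In : Finset V) (B : b.B) (i : Fin W) : Finset (Fin s) :=
  (b.cols B).filter fun c => b.x B i c ∈ In

/-- rank of a row among the rows with the same column set -/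
def rk (In : Finset V) (B : b.B) (i : Fin W) : ℕ :=
  (univ.filter fun j => j < i ∧ As b In B j = As b In B i).card

/-- number of rows with a given column set -/
def ng (In : Finset V) (B : b.B) (S : Finset (Fin s)) : ℕ :=
  (univ.filter fun j => As b In B j = S).card

/-- the shift relation inside `S` -/
def sr (B : b.B) (S : Finset (Fin s)) (c c' : Fin s) : Prop := b.sig B c c' ∧ c ∈ S ∧ c' ∈ S

/-- height of a column inside `S` -/
noncomputable def hh (B : b.B) (S : Finset (Fin s)) (c : Fin s) : ℕ :=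
  (sel fun c' => ReflTransGen (sr b B S) c' c).card

/-- a chosen member of a set of columns -/
noncomputable def pick (S : Finset (Fin s)) (d : Fin s) : Fin s :=
  if h : S.Nonempty then h.choose else d

/-- representative column -/
noncomputable def rep (B : b.B) (S : Finset (Fin s)) (c : Fin s) : Fin s :=
  if b.scc B c ⊆ S then pick (b.scc B c) c else c

/-- `o` is an active object at row `i` and column `c` -/
def Ob (In : Finset V) (B : b.B) (i : Fin W) (c : Fin s) (o : Finset V) : Prop :=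
  c ∈ b.cols B ∧ ((o = b.clus B i c ∧ o ⊆ In) ∨
    (o = {b.x B i c} ∧ b.x B i c ∈ In ∧ ¬ b.clus B i c ⊆ In))

variable {b}

theorem rk_lt {In : Finset V} {B : b.B} {i j : Fin W} (h : i < j)
    (hA : As b In B i = As b In B j) : rk b In B i < rk b In B j := by
  refine card_lt_card ⟨fun l hl => ?_, fun hs => ?_⟩
  · simp only [mem_filter, mem_univ, true_and] at hl ⊢
    exact ⟨hl.1.trans h, hl.2.trans hA⟩
  · have := hs (show i ∈ _ from mem_filter.mpr ⟨mem_univ _, h, hA⟩)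
    exact lt_irrefl _ (mem_filter.mp this).2.1

theorem rk_inj {In : Finset V} {B : b.B} {i j : Fin W} (hA : As b In B i = As b In B j)
    (h : rk b In B i = rk b In B j) : i = j := by
  rcases lt_trichotomy i j with h' | h' | h'
  · exact absurd h (rk_lt h' hA).ne
  · exact h'
  · exact absurd h (rk_lt h' hA.symm).ne'

theorem rk_lt_ng (In : Finset V) (B : b.B) (i : Fin W) :
    rk b In B i < ng b In B (As b In B i) := by
  refine card_lt_card ⟨fun l hl => ?_, fun hs => ?_⟩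
  · simp only [mem_filter, mem_univ, true_and] at hl ⊢
    exact hl.2
  · have := hs (show i ∈ _ from mem_filter.mpr ⟨mem_univ _, rfl⟩)
    exact lt_irrefl _ (mem_filter.mp this).2.1

theorem sum_ng (In : Finset V) (B : b.B) : ∑ S, ng b In B S = W := by
  have := card_eq_sum_card_fiberwise (f := As b In B) (s := univ) (t := univ)
    fun _ _ => mem_univ _
  rw [card_univ, Fintype.card_fin] at this
  exact this.symm

theorem hh_le (B : b.B) (S : Finset (Fin s)) (c : Fin s) : hh b B S c ≤ s :=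
  (card_le_univ _).trans (Fintype.card_fin s).le

theorem hh_mono {B : b.B} {S : Finset (Fin s)} {c c' : Fin s}
    (h : ReflTransGen (sr b B S) c c') : hh b B S c ≤ hh b B S c' :=
  card_le_card fun _ hl => mem_sel.mpr ((mem_sel.mp hl).trans h)

theorem hh_lt {B : b.B} {S : Finset (Fin s)} {c c' : Fin s} (h : sr b B S c c')
    (h' : ¬ ReflTransGen (sr b B S) c' c) : hh b B S c < hh b B S c' :=
  card_lt_card ⟨fun _ hl => mem_sel.mpr ((mem_sel.mp hl).tail h),
    fun hs => h' (by simpa using hs (mem_sel.mpr ReflTransGen.refl))⟩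

theorem mem_scc {B : b.B} {c d : Fin s} :
    d ∈ b.scc B c ↔ ReflTransGen (b.sig B) c d ∧ ReflTransGen (b.sig B) d c := mem_sel

theorem self_scc (B : b.B) (c : Fin s) : c ∈ b.scc B c :=
  mem_scc.mpr ⟨ReflTransGen.refl, ReflTransGen.refl⟩

theorem scc_eq {B : b.B} {c d : Fin s} (h : d ∈ b.scc B c) : b.scc B d = b.scc B c := by
  obtain ⟨h1, h2⟩ := mem_scc.mp h
  ext e
  simp only [mem_scc]
  exact ⟨fun h => ⟨h1.trans h.1, h.2.trans h2⟩, fun h => ⟨h2.trans h.1, h.2.trans h1⟩⟩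

theorem scc_cols {B : b.B} {c : Fin s} (hc : c ∈ b.cols B) : b.scc B c ⊆ b.cols B := by
  intro d hd
  rcases (mem_scc.mp hd).1.cases_tail with h | ⟨e, -, h⟩
  · exact h ▸ hc
  · exact h.2.1

theorem scc_path {B : b.B} {S : Finset (Fin s)} {c d d' : Fin s} (hS : b.scc B c ⊆ S)
    (hd : d ∈ b.scc B c) (hd' : d' ∈ b.scc B c) : ReflTransGen (sr b B S) d d' := by
  obtain ⟨h1, h2⟩ := mem_scc.mp hd
  obtain ⟨h3, h4⟩ := mem_scc.mp hd'
  have key : ∀ e, ReflTransGen (b.sig B) d e → ReflTransGen (b.sig B) e c →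
      ReflTransGen (sr b B S) d e := by
    intro e he
    induction he with
    | refl => exact fun _ => ReflTransGen.refl
    | tail ha hb ih =>
      intro hc
      exact (ih (hc.head hb)).tail ⟨hb, hS (mem_scc.mpr ⟨h1.trans ha, hc.head hb⟩),
        hS (mem_scc.mpr ⟨h1.trans (ha.tail hb), hc⟩)⟩
  exact key d' (h2.trans h3) h4

theorem sig_fun {G : SimpleGraph V} {k R : ℕ} {y : ℝ} (hG : CF G) (hb : b.Ok G k R y)
    (hW : 2 ≤ W) {B : b.B} {c d d' : Fin s} (h : b.sig B c d) (h' : b.sig B c d') : d = d' := by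
  by_contra hne
  have hlt : (⟨0, by omega⟩ : Fin W) < ⟨1, by omega⟩ := by simp [Fin.lt_def]
  obtain ⟨hc, hd, hcd, hr⟩ := h
  obtain ⟨-, hd', hcd', hr'⟩ := h'
  have e : ∀ p ∈ b.cols B, ∀ q ∈ b.cols B, p ≠ q →
      b.x B ⟨1, by omega⟩ p ≠ b.x B ⟨1, by omega⟩ q :=
    fun p hp q hq hpq hx => hpq (hb.inj _ _ p hp _ _ q hq hx).2.2
  rcases hG _ _ _ _ ((hb.pat B _ _ hlt c hc c hc).mpr (hb.diag B c hc))
    ((hb.pat B _ _ hlt c hc d hd).mpr hr) ((hb.pat B _ _ hlt c hc d' hd').mpr hr')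
    (e c hc d hd hcd) (e c hc d' hd' hcd') (e d hd d' hd' hne) with h | h | h
  · exact hb.row B _ c hc d hd h
  · exact hb.row B _ c hc d' hd' h
  · exact hb.row B _ d hd d' hd' h

theorem cyc_sub {B : b.B} {S : Finset (Fin s)} {d d' : Fin s}
    (hf : ∀ c e e', b.sig B c e → b.sig B c e' → e = e') (h : sr b B S d d')
    (h' : ReflTransGen (sr b B S) d' d) : b.scc B d ⊆ S := by
  have key : ∀ e, ReflTransGen (b.sig B) d e →
      ∃ f, sr b B S e f ∧ ReflTransGen (sr b B S) f d := by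
    intro e he
    induction he with
    | refl => exact ⟨d', h, h'⟩
    | tail _ hb ih =>
      obtain ⟨f, h1, h2⟩ := ih
      obtain rfl := hf _ _ _ hb h1.1
      rcases h2.cases_head with h3 | h3
      · rw [h3]
        exact ⟨d', h, h'⟩
      · exact h3
  intro e he
  obtain ⟨f, h1, -⟩ := key e (mem_scc.mp he).1
  exact h1.2.1

theorem pick_mem {S : Finset (Fin s)} (h : S.Nonempty) (d : Fin s) : pick S d ∈ S := by
  unfold pick
  rw [dif_pos h]
  exact h.choose_spec

theorem rep_eq {B : b.B} {S : Finset (Fin s)} {c d : Fin s} (hS : b.scc B c ⊆ S)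
    (hd : d ∈ b.scc B c) : rep b B S d = rep b B S c := by
  unfold rep pick
  rw [scc_eq hd, if_pos hS, if_pos hS, dif_pos ⟨c, self_scc B c⟩, dif_pos ⟨c, self_scc B c⟩]

theorem rep_mem (B : b.B) (S : Finset (Fin s)) (c : Fin s) : rep b B S c ∈ b.scc B c := by
  unfold rep
  split_ifs
  · exact pick_mem ⟨c, self_scc B c⟩ c
  · exact self_scc B c

theorem clus_sub {In : Finset V} {B : b.B} {i : Fin W} {c : Fin s} (hc : c ∈ b.cols B) :
    b.clus B i c ⊆ In ↔ b.scc B c ⊆ As b In B i := by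
  unfold Bat.clus As
  rw [image_subset_iff]
  exact ⟨fun h d hd => mem_filter.mpr ⟨scc_cols hc hd, h d hd⟩,
    fun h d hd => (mem_filter.mp (h hd)).2⟩

theorem Ob.mem {In : Finset V} {B : b.B} {i : Fin W} {c : Fin s} {o : Finset V}
    (h : Ob b In B i c o) {u : V} (hu : u ∈ o) : ∃ d ∈ As b In B i, u = b.x B i d ∧
      rep b B (As b In B i) d = rep b B (As b In B i) c ∧
      hh b B (As b In B i) (rep b B (As b In B i) c) = hh b B (As b In B i) d := by
  obtain ⟨hc, ⟨rfl, h2⟩ | ⟨rfl, h2, h3⟩⟩ := h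
  · have hS := (clus_sub hc).mp h2
    obtain ⟨d, hd, rfl⟩ := mem_image.mp hu
    exact ⟨d, hS hd, rfl, rep_eq hS hd, le_antisymm (hh_mono (scc_path hS (rep_mem _ _ _) hd))
      (hh_mono (scc_path hS hd (rep_mem _ _ _)))⟩
  · refine ⟨c, mem_filter.mpr ⟨hc, h2⟩, mem_singleton.mp hu, rfl, ?_⟩
    unfold rep
    rw [if_neg fun h => h3 ((clus_sub hc).mpr h)]

theorem Ob.rep_mem {In : Finset V} {B : b.B} {i : Fin W} {c : Fin s} {o : Finset V}
    (h : Ob b In B i c o) : b.x B i (rep b B (As b In B i) c) ∈ o := by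
  obtain ⟨hc, ⟨rfl, -⟩ | ⟨rfl, -, h3⟩⟩ := h
  · exact mem_image_of_mem _ (Heavy.rep_mem _ _ _)
  · unfold rep
    rw [if_neg fun h => h3 ((clus_sub hc).mpr h)]
    exact mem_singleton_self _

theorem Ob.sub_reg {In : Finset V} {B : b.B} {i : Fin W} {c : Fin s} {o : Finset V}
    (h : Ob b In B i c o) : o ⊆ b.reg (b.bin B) := by
  intro u hu
  obtain ⟨d, hd, rfl, -⟩ := h.mem hu
  exact mem_sel.mpr ⟨B, i, d, (mem_filter.mp hd).1, rfl, rfl⟩

theorem hh_step {G : SimpleGraph V} {k R : ℕ} {y : ℝ} (hG : CF G) (hb : b.Ok G k R y)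
    (hW : 2 ≤ W) {B : b.B} {S : Finset (Fin s)} (hS : S ⊆ b.cols B) {i j : Fin W} (hij : i < j)
    {d d' : Fin s} (hd : d ∈ S) (hd' : d' ∈ S) (ha : G.Adj (b.x B i d) (b.x B j d'))
    (hne : rep b B S d ≠ rep b B S d') : hh b B S d < hh b B S d' := by
  have h : sr b B S d d' := ⟨⟨hS hd, hS hd', fun e => hne (by rw [e]),
    (hb.pat B i j hij d (hS hd) d' (hS hd')).mp ha⟩, hd, hd'⟩
  refine hh_lt h fun h' => hne ?_
  have hc := cyc_sub (fun _ _ _ => sig_fun hG hb hW) h h'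
  exact (rep_eq hc (mem_scc.mpr ⟨ReflTransGen.single h.1, ReflTransGen.mono (fun _ _ e => e.1) _ _ h'⟩)).symm

theorem Ob.anti {G : SimpleGraph V} {k R : ℕ} {y : ℝ} (hG : CF G) (hb : b.Ok G k R y)
    (hW : 2 ≤ W) {In : Finset V} {B : b.B} {i j : Fin W} {c c' : Fin s} {o o' : Finset V} {w : ℕ}
    (h : Ob b In B i c o) (h' : Ob b In B j c' o') (hA : As b In B i = As b In B j)
    (hs : rk b In B i / w + hh b B (As b In B i) (rep b B (As b In B i) c) =
      rk b In B j / w + hh b B (As b In B j) (rep b B (As b In B j) c'))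
    (hne : rep b B (As b In B i) c ≠ rep b B (As b In B j) c') :
    ∀ u ∈ o, ∀ v ∈ o', ¬ G.Adj u v := by
  intro u hu v hv ha
  obtain ⟨d, hd, rfl, e1, e2⟩ := h.mem hu
  obtain ⟨d', hd', rfl, e1', e2'⟩ := h'.mem hv
  rw [e2, e2'] at hs
  rw [← e1, ← e1'] at hne
  rw [← hA] at hd' hs hne
  have hS : As b In B i ⊆ b.cols B := filter_subset _ _
  rcases lt_trichotomy i j with hij | hij | hij
  · have h1 := hh_step hG hb hW hS hij hd hd' ha hne
    have h2 := Nat.div_le_div_right (c := w) (rk_lt hij hA).le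
    omega
  · subst hij
    exact hb.row B i d (hS hd) d' (hS hd') ha
  · have h1 := hh_step hG hb hW hS hij hd' hd ha.symm hne.symm
    have h2 := Nat.div_le_div_right (c := w) (rk_lt hij hA.symm).le
    omega

/-- abstract slot estimate -/
theorem slot_bound {O σ : Type} [DecidableEq O] [DecidableEq σ] (A : Finset O) (cl : O → ℕ)
    (sl : O → σ) (Sl : Finset σ) (adj : O → O → Prop) (ω x : O → ℝ) (e : ℕ → ℝ) (T : Finset ℕ)
    (b₀ α : ℝ) (hb : 0 ≤ b₀) (hω : ∀ o, 0 ≤ ω o) (hx : ∀ o ∈ A, 0 ≤ x o) (he : ∀ t, 0 ≤ e t)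
    (hT : ∀ o ∈ A, cl o ∈ T) (hSl : ∀ o ∈ A, sl o ∈ Sl)
    (hl : ∀ t, ∑ o ∈ A.filter fun o => cl o = t, x o ≤ b₀ + e t)
    (hirr : ∀ o, ¬ adj o o)
    (hanti : ∀ o ∈ A, ∀ o' ∈ A, sl o = sl o' → cl o ≠ cl o' → ¬ adj o o')
    (hα : ∀ I ⊆ A, (∀ o ∈ I, ∀ o' ∈ I, ¬ adj o o') → ∑ o ∈ I, ω o ≤ α) :
    ∑ o ∈ A, ω o * x o ≤ α * (b₀ * Sl.card + ∑ t ∈ T, e t) := by
  have hm : ∀ t ∈ A.image cl, ∃ m ∈ A, cl m = t ∧ ∀ o ∈ A, cl o = t → ω o ≤ ω m := by
    intro t ht
    obtain ⟨o, ho, rfl⟩ := mem_image.mp ht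
    obtain ⟨m, hm, h⟩ := exists_max_image (A.filter fun o' => cl o' = cl o) ω
      ⟨o, mem_filter.mpr ⟨ho, rfl⟩⟩
    exact ⟨m, (mem_filter.mp hm).1, (mem_filter.mp hm).2,
      fun o' ho' h' => h o' (mem_filter.mpr ⟨ho', h'⟩)⟩
  have hα0 : 0 ≤ α := by simpa using hα ∅ (empty_subset _) (by simp)
  rcases A.eq_empty_or_nonempty with rfl | ⟨o₀, -⟩
  · rw [sum_empty]
    exact mul_nonneg hα0 (add_nonneg (by positivity) (sum_nonneg fun t _ => he t))
  have : Nonempty O := ⟨o₀⟩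
  choose! m hmA hmc hmax using hm
  have h1 : ∑ o ∈ A, ω o * x o ≤ ∑ t ∈ A.image cl, ω (m t) * (b₀ + e t) := by
    rw [← sum_fiberwise_of_maps_to (g := cl) fun o ho => mem_image_of_mem cl ho]
    refine sum_le_sum fun t ht => ?_
    refine le_trans (sum_le_sum fun o ho => mul_le_mul_of_nonneg_right
      (hmax t ht o (mem_filter.mp ho).1 (mem_filter.mp ho).2) (hx o (mem_filter.mp ho).1)) ?_
    rw [← mul_sum]
    exact mul_le_mul_of_nonneg_left (hl t) (hω _)
  have h2 : ∑ t ∈ A.image cl, ω (m t) ≤ α * Sl.card := by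
    rw [← sum_fiberwise_of_maps_to (g := fun t => sl (m t)) fun t ht => hSl _ (hmA t ht)]
    refine le_trans (sum_le_card_nsmul _ _ α fun S _ => ?_) (by rw [nsmul_eq_mul, mul_comm])
    rw [← sum_image (g := m) (f := ω) fun t ht t' ht' h => by
      rw [← hmc t (mem_filter.mp ht).1, ← hmc t' (mem_filter.mp ht').1, h]]
    refine hα _ (fun o ho => ?_) fun o ho o' ho' => ?_
    · obtain ⟨t, ht, rfl⟩ := mem_image.mp ho
      exact hmA t (mem_filter.mp ht).1
    · obtain ⟨t, ht, rfl⟩ := mem_image.mp ho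
      obtain ⟨t', ht', rfl⟩ := mem_image.mp ho'
      obtain ⟨ht1, ht2⟩ := mem_filter.mp ht
      obtain ⟨ht1', ht2'⟩ := mem_filter.mp ht'
      by_cases htt : t = t'
      · rw [htt]
        exact hirr _
      · exact hanti _ (hmA t ht1) _ (hmA t' ht1') (ht2.trans ht2'.symm)
          (by rwa [hmc t ht1, hmc t' ht1'])
  have h3 : ∑ t ∈ A.image cl, ω (m t) * e t ≤ α * ∑ t ∈ T, e t := by
    rw [mul_sum]
    refine le_trans (sum_le_sum fun t ht => mul_le_mul_of_nonneg_right ?_ (he t))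
      (sum_le_sum_of_subset_of_nonneg (image_subset_iff.mpr hT)
        fun t _ _ => mul_nonneg hα0 (he t))
    simpa using hα {m t} (singleton_subset_iff.mpr (hmA t ht)) (by simpa using hirr _)
  simp only [mul_add, sum_add_distrib, ← sum_mul] at h1
  have h4 := mul_le_mul_of_nonneg_right h2 hb
  nlinarith

end Pool.Agent.P.MP_fb43a4_co.Asy.Heavy
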