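import Mathlib
import Pool.Agent.P.MP_fb43a4_co.Asy.St
import Pool.Agent.P.MP_fb43a4_co.Asy.Basic

/-!
Asymptotic list colouring of claw-free graphs: the final merging, the thinning and one step.
-/

namespace Pool.Agent.P.MP_fb43a4_co.Asy

open Finset

set_option linter.unusedSectionVars false

namespace Step

section fin
variable {O ι : Type} [Fintype O] [DecidableEq O] [Fintype ι] [DecidableEq ι]

/-- total weight of a list of sets -/
noncomputable def tot (c : ι → O → ℝ) (F : List (Finset O)) (a : ι) : ℝ :=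
  (F.map fun I => ∑ o ∈ I, c a o).sum

@[simp] theorem tot_nil (c : ι → O → ℝ) (a : ι) : tot c [] a = 0 := by simp [tot]

@[simp] theorem tot_cons (c : ι → O → ℝ) (I : Finset O) (F : List (Finset O)) (a : ι) :
    tot c (I :: F) a = ∑ o ∈ I, c a o + tot c F a := by simp [tot]

theorem wt_nil (o : O) : wt ([] : List (Finset O)) o = 0 := by simp [wt]

theorem wt_cons (I : Finset O) (F : List (Finset O)) (o : O) :
    wt (I :: F) o = (if o ∈ I then (1 : ℝ) else 0) + wt F o := by simp [wt]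

theorem sum_wt (c : ι → O → ℝ) (A : Finset O) (a : ι) :
    ∀ F : List (Finset O), (∀ I ∈ F, I ⊆ A) → ∑ o ∈ A, c a o * wt F o = tot c F a
  | [], _ => by simp [wt_nil]
  | I :: F, h => by
    have ih := sum_wt c A a F fun J hJ => h J (List.mem_cons_of_mem _ hJ)
    have hI : I ⊆ A := h I List.mem_cons_self
    have e : ∑ o ∈ A, c a o * (if o ∈ I then (1 : ℝ) else 0) = ∑ o ∈ I, c a o := by
      simp only [mul_ite, mul_one, mul_zero]
      rw [← Finset.sum_filter, Finset.filter_mem_eq_inter, Finset.inter_eq_right.2 hI]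
    simp only [wt_cons, mul_add, Finset.sum_add_distrib, tot_cons, e, ih]

theorem tot_nonneg {c : ι → O → ℝ} (hc : ∀ a o, 0 ≤ c a o) (a : ι) :
    ∀ F : List (Finset O), 0 ≤ tot c F a
  | [] => by simp
  | I :: F => by
    rw [tot_cons]
    exact add_nonneg (Finset.sum_nonneg fun o _ => hc a o) (tot_nonneg hc a F)

theorem tot_le {c : ι → O → ℝ} {a : ι} {β : ℝ} :
    ∀ F : List (Finset O), (∀ I ∈ F, ∑ o ∈ I, c a o ≤ β) → tot c F a ≤ F.length * β
  | [], _ => by simp
  | I :: F, h => by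
    have ih := tot_le F fun J hJ => h J (List.mem_cons_of_mem _ hJ)
    have hI := h I List.mem_cons_self
    rw [tot_cons, List.length_cons]
    push_cast
    linarith

/-- merging all the pairs of a list -/
theorem pairs (hMerge : S_Merge) {X : SimpleGraph O} {adj : ι → ι → Prop} {near : ι → O → Prop}
    {L : ℕ} {b : ι → ℝ} {c : ι → O → ℝ} {A : Finset O} (hL : 1 ≤ L) (hE : E2 X)
    (hs : ∀ a a', adj a a' → adj a' a) (hloc : Loc X adj near (3 * L + 2))
    (hc : ∀ a o, 0 ≤ c a o) (hn : ∀ a o, c a o ≠ 0 → near a o)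
    (hb : ∀ I ⊆ A, Ind X I → ∀ a, ∑ o ∈ I, c a o ≤ b a) {t : ℝ} (ht : 0 ≤ t) :
    ∀ (n : ℕ) (F : List (Finset O)) (b' : ι → ℝ), F.length = 2 * n →
      (∀ I ∈ F, I ⊆ A ∧ Ind X I) → (∀ a, n * (t * b a) ≤ b' a) →
      Safe adj (fun a => b' a - t * ((1 - 1 / (L : ℝ)) / 2) * tot c F a) →
      ∃ F' : List (Finset O), F'.length = n ∧ (∀ I ∈ F', I ⊆ A ∧ Ind X I) ∧
        Safe adj fun a => b' a - t * tot c F' a := by
  have hb0 : ∀ a, 0 ≤ b a := fun a => by
    simpa using hb ∅ (empty_subset _) ind_empty a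
  have hL' : (1 : ℝ) ≤ L := by exact_mod_cast hL
  have hr0 : 0 ≤ 1 - 1 / (L : ℝ) := by
    rw [sub_nonneg, div_le_one (by linarith)]; exact hL'
  have hr1 : 1 - 1 / (L : ℝ) ≤ 1 := by
    have : 0 ≤ 1 / (L : ℝ) := by positivity
    linarith
  intro n
  induction n with
  | zero =>
    intro F b' hF _ _ hS
    have : F = [] := List.length_eq_zero_iff.1 (by simpa using hF)
    subst this
    exact ⟨[], rfl, by simp, by simpa using hS⟩
  | succ n ih =>
    intro F b' hF hI hb' hS
    match F, hF, hI, hS with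
    | M :: M' :: F2, hF, hI, hS =>
      have hF2 : F2.length = 2 * n := by simp at hF; omega
      have hM := hI M List.mem_cons_self
      have hM' := hI M' (List.mem_cons_of_mem _ List.mem_cons_self)
      have hI2 : ∀ I ∈ F2, I ⊆ A ∧ Ind X I := fun I h =>
        hI I (List.mem_cons_of_mem _ (List.mem_cons_of_mem _ h))
      have htot : ∀ a, t * ((1 - 1 / (L : ℝ)) / 2) * tot c F2 a ≤ n * (t * b a) := by
        intro a
        have h1 : tot c F2 a ≤ F2.length * b a :=
          tot_le F2 fun I h => hb I (hI2 I h).1 (hI2 I h).2 a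
        rw [hF2] at h1
        push_cast at h1
        have h2 := tot_nonneg hc a F2
        have h3 : (1 - 1 / (L : ℝ)) / 2 * tot c F2 a ≤ n * b a := by nlinarith
        have h4 := mul_le_mul_of_nonneg_left h3 ht
        nlinarith
      obtain ⟨I, hIs, hIi, hS1⟩ := hMerge O ι X adj near L
        (fun a => b' a - t * ((1 - 1 / (L : ℝ)) / 2) * tot c F2 a) (fun a o => t * c a o) M M'
        hL hE hs hloc (fun a o => mul_nonneg ht (hc a o))
        (fun a o h => hn a o (right_ne_zero_of_mul h)) hM.2 hM'.2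
        (fun I hI1 hI2' a => by
          have h1 := hb I (hI1.trans (union_subset hM.1 hM'.1)) hI2' a
          have h2 := mul_le_mul_of_nonneg_left h1 ht
          have h3 := hb' a
          have h4 := htot a
          push_cast at h3
          rw [← Finset.mul_sum]
          linarith)
        (hS.mono fun a => by
          simp only [tot_cons, ← Finset.mul_sum]
          exact le_of_eq (by ring))
      have hIA : I ⊆ A := hIs.trans (union_subset hM.1 hM'.1)
      obtain ⟨F', hF', hI', hS2⟩ := ih F2 (fun a => b' a - t * ∑ o ∈ I, c a o) hF2 hI2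
        (fun a => by
          have h1 := hb I hIA hIi a
          have h2 := mul_le_mul_of_nonneg_left h1 ht
          have h3 := hb' a
          push_cast at h3
          linarith)
        (hS1.mono fun a => by
          simp only [← Finset.mul_sum]
          exact le_of_eq (by ring))
      refine ⟨I :: F', by simp [hF'], ?_, hS2.mono fun a => ?_⟩
      · intro J hJ
        rcases List.mem_cons.1 hJ with rfl | hJ
        · exact ⟨hIA, hIi⟩
        · exact hI' J hJ
      · simp only [tot_cons]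
        exact le_of_eq (by ring)
    | [], hF, _, _ => simp at hF
    | [_], hF, _, _ => simp at hF; omega

/-- all the levels -/
theorem levels (hMerge : S_Merge) {X : SimpleGraph O} {adj : ι → ι → Prop} {near : ι → O → Prop}
    {L : ℕ} {b : ι → ℝ} {c : ι → O → ℝ} {A : Finset O} (hL : 1 ≤ L) (hE : E2 X)
    (hs : ∀ a a', adj a a' → adj a' a) (hloc : Loc X adj near (3 * L + 2))
    (hc : ∀ a o, 0 ≤ c a o) (hn : ∀ a o, c a o ≠ 0 → near a o)
    (hb : ∀ I ⊆ A, Ind X I → ∀ a, ∑ o ∈ I, c a o ≤ b a) :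
    ∀ (e : ℕ) (F : List (Finset O)), F.length = 2 ^ e → (∀ I ∈ F, I ⊆ A ∧ Ind X I) →
      Safe adj (fun a => b a - (1 - 1 / (L : ℝ)) ^ e / 2 ^ e * tot c F a) →
      ∃ I ⊆ A, Ind X I ∧ Safe adj fun a => b a - ∑ o ∈ I, c a o := by
  have hb0 : ∀ a, 0 ≤ b a := fun a => by
    simpa using hb ∅ (empty_subset _) ind_empty a
  have hL' : (1 : ℝ) ≤ L := by exact_mod_cast hL
  have hr0 : 0 ≤ 1 - 1 / (L : ℝ) := by
    rw [sub_nonneg, div_le_one (by linarith)]; exact hL'
  have hr1 : 1 - 1 / (L : ℝ) ≤ 1 := by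
    have : 0 ≤ 1 / (L : ℝ) := by positivity
    linarith
  intro e
  induction e with
  | zero =>
    intro F hF hI hS
    obtain ⟨I, rfl⟩ := List.length_eq_one_iff.1 (by simpa using hF)
    have := hI I List.mem_cons_self
    exact ⟨I, this.1, this.2, by simpa using hS⟩
  | succ e ih =>
    intro F hF hI hS
    have ht : 0 ≤ (1 - 1 / (L : ℝ)) ^ e / 2 ^ e := by positivity
    obtain ⟨F', hF', hI', hS'⟩ := pairs hMerge hL hE hs hloc hc hn hb ht (2 ^ e) F b
      (by rw [hF, pow_succ]; ring) hI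
      (fun a => by
        have h1 : (1 - 1 / (L : ℝ)) ^ e ≤ 1 := pow_le_one₀ hr0 hr1
        have h2 : ((2 ^ e : ℕ) : ℝ) * ((1 - 1 / (L : ℝ)) ^ e / 2 ^ e * b a) =
            (1 - 1 / (L : ℝ)) ^ e * b a := by
          push_cast
          field_simp
        rw [h2]
        nlinarith [hb0 a])
      (hS.mono fun a => le_of_eq (by
        rw [pow_succ, pow_succ]
        field_simp))
    exact ih F' hF' hI' hS'

end fin

section thin
variable {O ι : Type} [Fintype O] [DecidableEq O] [Fintype ι] [DecidableEq ι]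

/-- probability that nothing of `S` is kept, given the kept set `J` and the undecided set `U` -/
noncomputable def q (η : ℝ) (S J U : Finset O) : ℝ :=
  if J ∩ S = ∅ then η ^ (U ∩ S).card else 0

theorem q_nonneg {η : ℝ} (h0 : 0 ≤ η) (S J U : Finset O) : 0 ≤ q η S J U := by
  unfold q
  split_ifs
  · positivity
  · exact le_rfl

theorem q_le_one {η : ℝ} (h0 : 0 ≤ η) (h1 : η ≤ 1) (S J U : Finset O) : q η S J U ≤ 1 := by
  unfold q
  split_ifs
  · exact pow_le_one₀ h0 h1
  · exact zero_le_one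

theorem q_out (η : ℝ) {S : Finset O} (J U : Finset O) {o : O} (h : o ∉ S) :
    q η S (insert o J) U = q η S J (insert o U) ∧ q η S J U = q η S J (insert o U) := by
  unfold q
  rw [insert_inter_of_notMem h, insert_inter_of_notMem h]
  exact ⟨rfl, rfl⟩

theorem q_in (η : ℝ) {S : Finset O} (J : Finset O) {U : Finset O} {o : O} (h : o ∈ S)
    (hU : o ∉ U) :
    q η S (insert o J) U = 0 ∧ η * q η S J U = q η S J (insert o U) := by
  unfold q
  rw [insert_inter_of_mem h, insert_inter_of_mem h,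
    card_insert_of_notMem fun e => hU (mem_inter.1 e).1]
  refine ⟨if_neg (insert_ne_empty _ _), ?_⟩
  split_ifs
  · ring
  · ring

theorem q_avg (η : ℝ) (S J : Finset O) {U : Finset O} {o : O} (hU : o ∉ U) :
    (1 - η) * q η S (insert o J) U + η * q η S J U = q η S J (insert o U) := by
  by_cases h : o ∈ S
  · obtain ⟨h1, h2⟩ := q_in η J h hU
    rw [h1, h2]; ring
  · obtain ⟨h1, h2⟩ := q_out η J U h
    rw [h1, h2]; ring

/-- the estimator of the thinning process -/
noncomputable def est (η ξ : ℝ) (b Fr : ι → ℝ) (c : ι → O → ℝ) (Av : ι → Finset O)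
    (J U : Finset O) (a : ι) : ℝ :=
  b a - ∑ o ∈ J, c a o - (1 - η) * ∑ o ∈ U, c a o + Fr a * (1 - ξ * q η (Av a) J U)

theorem thin {adj : ι → ι → Prop} {near : ι → O → Prop} {η ξ : ℝ} {b Fr : ι → ℝ}
    {c : ι → O → ℝ} {Av : ι → Finset O} {I : Finset O} (hs : ∀ a a', adj a a' → adj a' a)
    (hcl : ∀ a a' o, near a o → near a' o → a ≠ a' → adj a a') (η0 : 0 ≤ η) (η1 : η ≤ 1)
    (ξ0 : 0 ≤ ξ) (ξ1 : ξ ≤ 1) (hc : ∀ a o, 0 ≤ c a o) (hn : ∀ a o, c a o ≠ 0 → near a o)
    (hFr : ∀ a, 0 ≤ Fr a) (hAv : ∀ a, ∀ o ∈ Av a, near a o)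
    (hb : ∀ a, ∑ o ∈ I, c a o ≤ b a) (U : Finset O) :
    ∀ J : Finset O, Disjoint J U → J ∪ U ⊆ I → Safe adj (est η ξ b Fr c Av J U) →
      ∃ J' ⊆ I, Safe adj (est η ξ b Fr c Av J' ∅) := by
  have pos : ∀ J U : Finset O, Disjoint J U → J ∪ U ⊆ I → ∀ a, 0 ≤ est η ξ b Fr c Av J U a := by
    intro J U hd hI a
    have h1 : ∑ o ∈ J ∪ U, c a o ≤ ∑ o ∈ I, c a o :=
      Finset.sum_le_sum_of_subset_of_nonneg hI fun o _ _ => hc a o
    rw [Finset.sum_union hd] at h1
    have h2 : 0 ≤ ∑ o ∈ U, c a o := Finset.sum_nonneg fun o _ => hc a o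
    have h3 := q_nonneg η0 (Av a) J U
    have h4 := q_le_one η0 η1 (Av a) J U
    have h5 : 0 ≤ 1 - ξ * q η (Av a) J U := by nlinarith
    have h6 := mul_nonneg (hFr a) h5
    have h7 := mul_nonneg η0 h2
    have h8 := hb a
    unfold est
    nlinarith
  induction U using Finset.induction_on with
  | empty =>
    intro J _ hI hS
    exact ⟨J, by simpa using hI, hS⟩
  | insert o U hoU ih =>
    intro J hd hI hS
    have hoJ : o ∉ J := fun e => disjoint_left.1 hd e (mem_insert_self _ _)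
    have hd0 : Disjoint J U := hd.mono_right (subset_insert _ _)
    have hd1 : Disjoint (insert o J) U := disjoint_insert_left.2 ⟨hoU, hd0⟩
    have hI0 : J ∪ U ⊆ I := (union_subset_union_right (subset_insert _ _)).trans hI
    have hI1 : insert o J ∪ U ⊆ I := by
      rw [insert_union, ← union_insert]; exact hI
    obtain ⟨i, -, -, hi⟩ := hS.step hs (sel fun a => near a o)
      (fun a ha a' ha' hne => hcl a a' o (by simpa using ha) (by simpa using ha') hne)
      (univ : Finset Bool) (fun i => cond i (1 - η) η)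
      (fun i => cond i (est η ξ b Fr c Av (insert o J) U) (est η ξ b Fr c Av J U))
      (fun i _ => by cases i <;> simp [η0, η1]) (by simp)
      (fun i _ a _ => by
        cases i
        · exact pos J U hd0 hI0 a
        · exact pos _ U hd1 hI1 a)
      (fun i _ a ha => by
        have hna : ¬ near a o := fun e => ha (by simpa using e)
        have hc0 : c a o = 0 := by
          by_contra e
          exact hna (hn a o e)
        have hA : o ∉ Av a := fun e => hna (hAv a o e)
        obtain ⟨h1, h2⟩ := q_out η J U hA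
        cases i
        · simp only [cond_false, est, sum_insert hoU, hc0, zero_add, ← h2, le_refl]
        · simp only [cond_true, est, sum_insert hoU, sum_insert hoJ, hc0, zero_add, h1, le_refl])
      (fun a _ => by
        have h := q_avg η (Av a) J hoU
        simp only [Fintype.univ_bool, mem_singleton, Bool.true_eq_false, not_false_eq_true,
          sum_insert, sum_singleton, cond_true, cond_false, est, sum_insert hoU, sum_insert hoJ,
          ← h]
        exact le_of_eq (by ring))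
    cases i
    · exact ih J hd0 hI0 hi
    · exact ih _ hd1 hI1 hi

end thin

end Step

theorem p_Fin (hMerge : S_Merge) : S_Fin := by
  intro O ι _ _ _ _ X adj near d b c A F hd hE hs hloc hc hn hb hF hI hS
  have hL : 1 ≤ d ^ 2 := Nat.one_le_pow _ _ hd
  refine Step.levels hMerge hL hE hs hloc hc hn hb d F hF hI (hS.mono fun a => ?_)
  rw [Step.sum_wt c A a F fun I h => (hI I h).1]
  have hd' : (1 : ℝ) ≤ d := by exact_mod_cast hd
  have h1 : 1 - 1 / (d : ℝ) ≤ (1 - 1 / ((d ^ 2 : ℕ) : ℝ)) ^ d := by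
    have h2 : 1 / ((d ^ 2 : ℕ) : ℝ) ≤ 1 := by
      rw [div_le_one (by exact_mod_cast hL)]
      exact_mod_cast hL
    have h3 := one_add_mul_le_pow (a := -(1 / ((d ^ 2 : ℕ) : ℝ))) (by linarith) d
    have h4 : (d : ℝ) * -(1 / ((d ^ 2 : ℕ) : ℝ)) = -(1 / (d : ℝ)) := by
      push_cast
      field_simp
    rw [h4] at h3
    simpa [sub_eq_add_neg] using h3
  have h5 := Step.tot_nonneg hc a F
  have h6 : (1 - 1 / (d : ℝ)) / 2 ^ d ≤ (1 - 1 / ((d ^ 2 : ℕ) : ℝ)) ^ d / 2 ^ d :=
    div_le_div_of_nonneg_right h1 (by positivity)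
  have h7 := mul_le_mul_of_nonneg_right h6 h5
  linarith

theorem p_Thin : S_Thin := by
  intro O ι _ _ _ _ adj near η ξ b Fr c Av I hs hcl η0 η1 ξ0 ξ1 hc hn hFr hAv h2 hb hS
  obtain ⟨J, hJ, hS'⟩ := Step.thin hs hcl η0 η1 ξ0 ξ1 hc hn hFr hAv hb I ∅ (disjoint_empty_left _)
    (by simp) (hS.mono fun a => by
      have h1 : η ^ 2 ≤ η ^ (I ∩ Av a).card := pow_le_pow_of_le_one η0 η1 (h2 a)
      have h3 := mul_le_mul_of_nonneg_left (mul_le_mul_of_nonneg_left h1 ξ0) (hFr a)
      simp only [Step.est, Step.q, sum_empty, empty_inter, if_true]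
      nlinarith)
  refine ⟨J, hJ, hS'.mono fun a => ?_⟩
  simp only [Step.est, Step.q, sum_empty, empty_inter, card_empty, pow_zero]
  split_ifs
  · exact le_of_eq (by ring)
  · exact le_of_eq (by ring)

theorem p_Step (hComp : S_Comp) (hFin : S_Fin) (hThin : S_Thin) : S_Step := by
  intro η η0 η1
  obtain ⟨d0, hd0⟩ := hComp
  refine ⟨max d0 ⌈4 / η⌉₊, ?_⟩
  intro d hd k hk hk2 O ι _ _ _ _ X adj near ξ b Fr c Av A p hE hdeg hs hloc ξ0 ξ1 hc hn hFr hAv
    hb hp hLaw hS
  have hd1 : d0 ≤ d := (le_max_left _ _).trans hd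
  have hd2 : 4 / η ≤ d := Nat.ceil_le.1 ((le_max_right _ _).trans hd)
  have hd3 : 4 ≤ η * d := by
    rw [div_le_iff₀ η0] at hd2
    linarith
  have hd4 : (4 : ℝ) < d := by nlinarith
  have hd5 : 1 ≤ d := by
    have : (1 : ℝ) ≤ d := by linarith
    exact_mod_cast this
  have hη : 0 < 1 - η := by linarith
  have hp0 : ∀ o ∈ A, 0 ≤ p o := fun o ho => le_trans (by positivity) (hp o ho)
  obtain ⟨F, hF, hI, hwt⟩ := hd0 d hd1 k hk hk2 O X A (fun o => p o / (1 - η) ^ 2) hE hdeg
    (fun o ho => (hp o ho).trans (by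
      rw [le_div_iff₀ (by positivity)]
      have h1 : (1 - η) ^ 2 ≤ 1 := pow_le_one₀ hη.le (by linarith)
      nlinarith [hp0 o ho])) hLaw
  have hξ : 0 ≤ 1 - ξ * η ^ 2 := by
    have h1 : η ^ 2 ≤ 1 := pow_le_one₀ η0.le η1.le
    nlinarith [sq_nonneg η]
  obtain ⟨I, hIA, hIi, hS1⟩ := hFin O ι X adj near d (fun a => b a + Fr a * (1 - ξ * η ^ 2))
    (fun a o => (1 - η) * c a o) A F hd5 hE hs hloc (fun a o => mul_nonneg hη.le (hc a o))
    (fun a o h => hn a o (right_ne_zero_of_mul h))
    (fun I h1 h2 a => by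
      have h3 := (hb I h1 h2 a).1
      have h4 : 0 ≤ ∑ o ∈ I, c a o := Finset.sum_nonneg fun o _ => hc a o
      have h5 := mul_nonneg (hFr a) hξ
      have h6 := mul_nonneg η0.le h4
      rw [← Finset.mul_sum]
      nlinarith) hF hI
    (hS.mono fun a => by
      have h1 : ∑ o ∈ A, c a o * p o ≤
          (1 - 1 / (d : ℝ)) / 2 ^ d * ∑ o ∈ A, (1 - η) * c a o * wt F o := by
        rw [Finset.mul_sum]
        refine Finset.sum_le_sum fun o ho => ?_
        have h2 := hwt o ho
        have h3 : 1 - η ≤ (1 - 1 / (d : ℝ)) * (1 - 3 / (d : ℝ)) := by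
          have e1 : 4 / (d : ℝ) ≤ η := by
            rw [div_le_iff₀ (by linarith)]; exact hd3
          have e2 : (1 - 1 / (d : ℝ)) * (1 - 3 / (d : ℝ)) = 1 - 4 / (d : ℝ) + 3 / (d : ℝ) ^ 2 := by
            field_simp
            ring
          have e3 : 0 ≤ 3 / (d : ℝ) ^ 2 := by positivity
          linarith
        have h4 : 0 ≤ 1 - 1 / (d : ℝ) := by
          rw [sub_nonneg, div_le_one (by linarith)]; linarith
        have h5 : p o ≤ (1 - 1 / (d : ℝ)) / 2 ^ d * (1 - η) * wt F o := by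
          have e1 : 0 ≤ (1 - 1 / (d : ℝ)) / 2 ^ d * (1 - η) := by positivity
          refine le_trans ?_ (mul_le_mul_of_nonneg_left h2 e1)
          have e2 : (1 - 1 / (d : ℝ)) / 2 ^ d * (1 - η) *
              (2 ^ d * (1 - 3 / (d : ℝ)) * (p o / (1 - η) ^ 2)) =
              (1 - 1 / (d : ℝ)) * (1 - 3 / (d : ℝ)) * p o / (1 - η) := by
            field_simp
          rw [e2, le_div_iff₀ hη]
          nlinarith [hp0 o ho]
        have h6 := mul_le_mul_of_nonneg_left h5 (hc a o)
        calc c a o * p o ≤ _ := h6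
          _ = _ := by ring
      linarith)
  obtain ⟨J, hJ, hS2⟩ := hThin O ι adj near η ξ b Fr c Av I hs
    (fun a a' o h1 h2 hne => hloc a a' o o h1 h2 (Near.refl _ _ _) hne) η0.le η1.le ξ0 ξ1 hc hn
    hFr hAv (fun a => (hb I hIA hIi a).2) (fun a => (hb I hIA hIi a).1)
    (hS1.mono fun a => by
      rw [← Finset.mul_sum]
      exact le_of_eq (by ring))
  exact ⟨J, hJ.trans hIA, hIi.mono hJ, hS2⟩

end Pool.Agent.P.MP_fb43a4_co.Asy
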